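import Pool.Agent.HM_h27.Om

/-!
# HM: Martin's axiom and the open colouring axiom in the model
-/

namespace HM

open HESR

universe u v w v1 v2 v3 v4

set_option linter.unusedVariables false
set_option linter.unusedSectionVars false

/-- Martin's axiom of the model for dense sets indexed by `W`. -/
def MAW (M : Type u) [ZFM M] (W : Type v3) [IT M W] : Prop :=
  ∀ (P : Type) [IT M P] [Nonempty P] (le : P → P → Prop),
    MF M (fun p : P × P => le p.1 p.2) → (∀ p, le p p) → (∀ p q r, le p q → le q r → le p r) →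
    (∀ A : P → Prop, MF M A → (∀ p q, A p → A q → p ≠ q → ¬ ∃ r, le r p ∧ le r q) → MCt M A) →
    ∀ D : W → P → Prop, MF M (fun p : W × P => D p.1 p.2) → (∀ i p, ∃ q, D i q ∧ le q p) →
      ∃ G : P → Prop, MF M G ∧ (∀ p q, G p → le p q → G q) ∧
        (∀ p q, G p → G q → ∃ r, G r ∧ le r p ∧ le r q) ∧ ∀ i, ∃ p, G p ∧ D i p

/-- The open colouring axiom of the model, in the following form: `S` is a set of pairs of disjoint subsets
`A s`, `B s` of `ℕ`; `s` and `t` are joined if `A s` meets `B t` and `A t` meets `B s`. Either there is a clique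
of size `ℵ₁` or a colouring of `S` with countably many colours without joined pairs of the same colour. -/
def OCAW (M : Type u) [ZFM M] (W : Type v3) [IT M W] : Prop :=
  ∀ (S : Type v) [IT M S] (Q : S → Prop) (A B : S → ℕ → Prop), MF M Q →
    MF M (fun p : S × ℕ => A p.1 p.2) → MF M (fun p : S × ℕ => B p.1 p.2) →
    (∀ s n, Q s → ¬ (A s n ∧ B s n)) →
    (∃ e : W → S, MF M e ∧ (∀ i, Q (e i)) ∧ ∀ i j, i ≠ j → ∃ n, A (e i) n ∧ B (e j) n) ∨
    (∃ c : S → ℕ, MF M c ∧ ∀ s t, Q s → Q t → c s = c t →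
      ¬ ((∃ n, A s n ∧ B t n) ∧ ∃ n, A t n ∧ B s n))

section
variable {M : Type u} [ZFM M]
variable {W : Type v3} [IT M W] [LinearOrder W] [WO M W]

/-- Martin's axiom with another index type.

PROOF. By `MCov.enum` there is a surjection `e : W → J` in the model (if `J` is empty take for `G` the filter
from `D := fun _ _ => True`); use the dense sets `D (e i)`. -/
theorem MAW.apply (h : MAW M W) {J : Type v1} [IT M J] (hJ : MCov M W (fun _ : J => True))
    {P : Type} [IT M P] [Nonempty P] {le : P → P → Prop} (hle : MF M (fun p : P × P => le p.1 p.2))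
    (hr : ∀ p, le p p) (ht : ∀ p q r, le p q → le q r → le p r)
    (hccc : ∀ A : P → Prop, MF M A → (∀ p q, A p → A q → p ≠ q → ¬ ∃ r, le r p ∧ le r q) → MCt M A)
    {D : J → P → Prop} (hD : MF M (fun p : J × P => D p.1 p.2))
    (hd : ∀ i p, ∃ q, D i q ∧ le q p) :
    ∃ G : P → Prop, MF M G ∧ (∀ p q, G p → le p q → G q) ∧
      (∀ p q, G p → G q → ∃ r, G r ∧ le r p ∧ le r q) ∧ ∀ i, ∃ p, G p ∧ D i p := by
  classical
  by_cases hn : Nonempty J
  · obtain ⟨j0⟩ := hn
    obtain ⟨e, he, -, he2⟩ := MCov.enum (mf_const M True) hJ ⟨j0, trivial⟩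
    obtain ⟨G, h1, h2, h3, h4⟩ := h P le hle hr ht hccc (fun i => D (e i))
      (mf_comp M (g := fun p : J × P => D p.1 p.2) (f := fun p : W × P => (e p.1, p.2)) hD
        (by fun_prop)) (fun i p => hd (e i) p)
    refine ⟨G, h1, h2, h3, fun j => ?_⟩
    obtain ⟨i, hi⟩ := he2 j trivial
    rw [← hi]
    exact h4 i
  · obtain ⟨G, h1, h2, h3, -⟩ := h P le hle hr ht hccc (fun _ _ => True) (mf_const M True)
      (fun _ p => ⟨p, trivial, hr p⟩)
    exact ⟨G, h1, h2, h3, fun j => (hn ⟨j⟩).elim⟩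

/-- finiteness is a predicate of the model

PROOF. `finite_iff` for `PM.of (P c) _`; `fun_prop`. -/
theorem mf_setFinite {α : Type v} [IT M α] {γ : Type v1} [IT M γ] {P : γ → α → Prop}
    (hP : MF M (fun p : γ × α => P p.1 p.2)) : MF M (fun c => {a | P c a}.Finite) := by
  have hP' : MF M (fun q : ((γ × ℕ) × PM M (ℕ × α)) × α => P q.1.1.1 q.2) :=
    mf_comp M (g := fun p : γ × α => P p.1 p.2)
      (f := fun q : ((γ × ℕ) × PM M (ℕ × α)) × α => (q.1.1.1, q.2)) hP (by fun_prop)
  refine mf_congr (f := fun c => ∃ (n : ℕ) (g : PM M (ℕ × α)),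
    (∀ a, P c a → ∃ k, k < n ∧ (k, a) ∈ g) ∧ ∀ k a b, (k, a) ∈ g → (k, b) ∈ g → a = b)
    ?_ fun c => propext (finite_iff (s := PM.of (P c) (mf_section hP c)))
  fun_prop

end

end HM
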