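import Pool.Agent.HM_h27.Ct

/-!
# HM: topological spaces of the model

The topology of a coded type `X` is an ordinary topology (Mathlib), generated by sets of the model,
such that the family of the open sets which are in the model is itself in the model (`MTop`).
-/

namespace HM

open HESR Topology

universe u v w v1 v2 v3 v4

set_option linter.unusedVariables false
set_option linter.unusedSectionVars false

/-- The topology of the coded type `X` is a topology of the model. -/
class MTop (M : Type u) [ZFM M] (X : Type v) [IT M X] [TopologicalSpace X] : Prop where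
  mf : MF M (fun U : PM M X => IsOpen U.set)
  base : ∀ (x : X) (U : Set X), IsOpen U → x ∈ U →
    ∃ V : PM M X, IsOpen V.set ∧ x ∈ V ∧ ∀ y, y ∈ V → y ∈ U

section
variable {M : Type u} [ZFM M]
variable {α : Type v} {β : Type w} {γ : Type v1} [IT M α] [IT M β] [IT M γ]

/-! ### Boolean operations on sets of the model -/

/-- the complement -/
def PM.compl (s : PM M α) : PM M α := PM.of (fun a => ¬ a ∈ s) (by fun_prop)

@[simp] theorem PM.mem_compl {s : PM M α} {a : α} : a ∈ s.compl ↔ ¬ a ∈ s := Iff.rfl

theorem PM.compl_set (s : PM M α) : s.compl.set = s.setᶜ := rfl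

/-- the intersection -/
def PM.inter (s t : PM M α) : PM M α := PM.of (fun a => a ∈ s ∧ a ∈ t) (by fun_prop)

@[simp] theorem PM.mem_inter {s t : PM M α} {a : α} : a ∈ s.inter t ↔ a ∈ s ∧ a ∈ t := Iff.rfl

theorem PM.inter_set (s t : PM M α) : (s.inter t).set = s.set ∩ t.set := rfl

/-- the union -/
def PM.union (s t : PM M α) : PM M α := PM.of (fun a => a ∈ s ∨ a ∈ t) (by fun_prop)

@[simp] theorem PM.mem_union {s t : PM M α} {a : α} : a ∈ s.union t ↔ a ∈ s ∨ a ∈ t := Iff.rfl

theorem PM.union_set (s t : PM M α) : (s.union t).set = s.set ∪ t.set := rfl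

/-- the singleton -/
def PM.single (b : α) : PM M α := PM.of (fun a => a = b) (by fun_prop)

@[simp] theorem PM.mem_single {a b : α} : a ∈ PM.single (M := M) b ↔ a = b := Iff.rfl

@[fun_prop]
theorem mf_compl {F : γ → PM M α} (hF : MF M F) : MF M (fun c => (F c).compl) := by
  rw [mf_PM_iff]
  show MF M (fun p : γ × α => ¬ p.2 ∈ F p.1)
  fun_prop

@[fun_prop]
theorem mf_inter {F G : γ → PM M α} (hF : MF M F) (hG : MF M G) :
    MF M (fun c => (F c).inter (G c)) := by
  rw [mf_PM_iff]
  show MF M (fun p : γ × α => p.2 ∈ F p.1 ∧ p.2 ∈ G p.1)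
  fun_prop

@[fun_prop]
theorem mf_unionPM {F G : γ → PM M α} (hF : MF M F) (hG : MF M G) :
    MF M (fun c => (F c).union (G c)) := by
  rw [mf_PM_iff]
  show MF M (fun p : γ × α => p.2 ∈ F p.1 ∨ p.2 ∈ G p.1)
  fun_prop

@[fun_prop]
theorem mf_single {f : γ → α} (hf : MF M f) : MF M (fun c => PM.single (M := M) (f c)) := by
  rw [mf_PM_iff]
  show MF M (fun p : γ × α => p.2 = f p.1)
  fun_prop

/-- `MCov` as a predicate of the model -/
theorem mf_MCov {W : Type v3} [IT M W] {P : γ → α → Prop} (hP : MF M (fun p : γ × α => P p.1 p.2)) :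
    MF M (fun c => MCov M W (P c)) := by
  unfold MCov
  have h' : MF M (fun q : (γ × PM M (W × α)) × α => P q.1.1 q.2) :=
    mf_comp M (g := fun p : γ × α => P p.1 p.2) (f := fun q : (γ × PM M (W × α)) × α => (q.1.1, q.2))
      hP (by fun_prop)
  fun_prop

end

section
variable {M : Type u} [ZFM M]
variable {X : Type v} [IT M X] [TopologicalSpace X] [MTop M X]
variable {Y : Type w} [IT M Y] [TopologicalSpace Y] [MTop M Y]
variable {γ : Type v1} [IT M γ]

/-! ### open and closed sets -/

/-- the set `U` of the model is open -/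
def Op (U : PM M X) : Prop := IsOpen U.set

/-- the set `C` of the model is closed -/
def Cld (C : PM M X) : Prop := IsClosed C.set

@[fun_prop]
theorem mf_Op {F : γ → PM M X} (hF : MF M F) : MF M (fun c => Op (F c)) :=
  mf_comp M (g := fun U : PM M X => IsOpen U.set) (MTop.mf (M := M) (X := X)) hF

theorem cld_iff {C : PM M X} : Cld C ↔ Op C.compl := by
  unfold Cld Op
  rw [PM.compl_set, isOpen_compl_iff]

theorem op_compl_iff {C : PM M X} : Cld C.compl ↔ Op C := by
  unfold Cld Op
  rw [PM.compl_set, isClosed_compl_iff]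

@[fun_prop]
theorem mf_Cld {F : γ → PM M X} (hF : MF M F) : MF M (fun c => Cld (F c)) := by
  have h : MF M (fun c => Op (F c).compl) := by fun_prop
  exact mf_congr h fun c => propext cld_iff

theorem op_iff {U : PM M X} : Op U ↔ ∀ x, x ∈ U → ∃ V : PM M X, Op V ∧ x ∈ V ∧ ∀ y, y ∈ V → y ∈ U := by
  constructor
  · intro h x hx
    exact ⟨U, h, hx, fun y hy => hy⟩
  · intro h
    refine isOpen_iff_forall_mem_open.2 fun x hx => ?_
    obtain ⟨V, h1, h2, h3⟩ := h x hx
    exact ⟨V.set, fun y hy => h3 y hy, h1, h2⟩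

theorem Op.inter {U V : PM M X} (hU : Op U) (hV : Op V) : Op (U.inter V) := IsOpen.inter hU hV

theorem Op.union {U V : PM M X} (hU : Op U) (hV : Op V) : Op (U.union V) := IsOpen.union hU hV

theorem Cld.inter {U V : PM M X} (hU : Cld U) (hV : Cld V) : Cld (U.inter V) := IsClosed.inter hU hV

theorem Cld.union {U V : PM M X} (hU : Cld U) (hV : Cld V) : Cld (U.union V) := IsClosed.union hU hV

theorem cld_single [T1Space X] (x : X) : Cld (PM.single (M := M) x) := by
  unfold Cld
  have : (PM.single (M := M) x).set = {x} := rfl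
  rw [this]
  exact isClosed_singleton

/-- unions of families of the model -/
theorem op_iUnion {ι : Type v2} [IT M ι] {Q : ι → Prop} {U : ι → PM M X} (hUo : ∀ i, Q i → Op (U i))
    (h : MF M (fun x => ∃ i, Q i ∧ x ∈ U i)) : Op (PM.of (fun x => ∃ i, Q i ∧ x ∈ U i) h) := by
  refine op_iff.2 fun x hx => ?_
  obtain ⟨i, hi, hxi⟩ := hx
  exact ⟨U i, hUo i hi, hxi, fun y hy => ⟨i, hi, hy⟩⟩

/-! ### closure -/

/-- `x` is in the closure of the set `s` of the model -/
def InCl (x : X) (s : PM M X) : Prop := x ∈ closure s.set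

theorem inCl_iff {x : X} {s : PM M X} :
    InCl x s ↔ ∀ V : PM M X, Op V → x ∈ V → ∃ y, y ∈ V ∧ y ∈ s := by
  unfold InCl
  rw [mem_closure_iff]
  constructor
  · intro h V hV hx
    obtain ⟨y, hy⟩ := h V.set hV hx
    exact ⟨y, hy.1, hy.2⟩
  · intro h o ho hx
    obtain ⟨V, h1, h2, h3⟩ := MTop.base (M := M) x o ho hx
    obtain ⟨y, hy1, hy2⟩ := h V h1 h2
    exact ⟨y, h3 y hy1, hy2⟩

@[fun_prop]
theorem mf_InCl {f : γ → X} {F : γ → PM M X} (hf : MF M f) (hF : MF M F) :
    MF M (fun c => InCl (f c) (F c)) := by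
  have h : MF M (fun c => ∀ V : PM M X, Op V → f c ∈ V → ∃ y, y ∈ V ∧ y ∈ F c) := by fun_prop
  exact mf_congr h fun c => propext inCl_iff

/-- the closure as a set of the model -/
def PM.cl (s : PM M X) : PM M X := PM.of (fun x => InCl x s) (by fun_prop)

@[simp] theorem PM.mem_cl {s : PM M X} {x : X} : x ∈ s.cl ↔ x ∈ closure s.set := Iff.rfl

theorem PM.cl_set (s : PM M X) : s.cl.set = closure s.set := rfl

theorem cld_cl (s : PM M X) : Cld s.cl := isClosed_closure

@[fun_prop]
theorem mf_cl {F : γ → PM M X} (hF : MF M F) : MF M (fun c => (F c).cl) := by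
  rw [mf_PM_iff]
  show MF M (fun p : γ × X => InCl p.2 (F p.1))
  fun_prop

/-! ### continuous functions -/

/-- the function `f` of the model is continuous -/
def Ctn (f : MFun M X Y) : Prop := Continuous f.toFun

/-- the preimage -/
noncomputable def PM.pre (f : MFun M X Y) (V : PM M Y) : PM M X := PM.of (fun x => f x ∈ V) (by
  have := f.mf
  show MF M (fun x => f.toFun x ∈ V)
  fun_prop)

@[simp] theorem PM.mem_pre {f : MFun M X Y} {V : PM M Y} {x : X} : x ∈ PM.pre f V ↔ f x ∈ V := Iff.rfl

@[fun_prop]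
theorem mf_pre {F : γ → MFun M X Y} {G : γ → PM M Y} (hF : MF M F) (hG : MF M G) :
    MF M (fun c => PM.pre (F c) (G c)) := by
  rw [mf_PM_iff]
  show MF M (fun p : γ × X => (F p.1) p.2 ∈ G p.1)
  fun_prop

theorem ctn_iff {f : MFun M X Y} : Ctn f ↔ ∀ V : PM M Y, Op V → Op (PM.pre f V) := by
  constructor
  · intro h V hV
    exact IsOpen.preimage h hV
  · intro h
    refine continuous_def.2 fun s hs => ?_
    refine isOpen_iff_forall_mem_open.2 fun x hx => ?_
    obtain ⟨V, h1, h2, h3⟩ := MTop.base (M := M) (f.toFun x) s hs hx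
    exact ⟨(PM.pre f V).set, fun y hy => h3 _ hy, h V h1, h2⟩

@[fun_prop]
theorem mf_Ctn {F : γ → MFun M X Y} (hF : MF M F) : MF M (fun c => Ctn (F c)) := by
  have h : MF M (fun c => ∀ V : PM M Y, Op V → Op (PM.pre (F c) V)) := by fun_prop
  exact mf_congr h fun c => propext ctn_iff

variable (M X Y) in
/-- the set of all continuous functions of the model -/
noncomputable def contPM : PM M (MFun M X Y) := PM.of (fun f => Ctn f) (by fun_prop)

variable (M X Y) in
/-- the type of all continuous functions of the model -/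
abbrev CX : Type (max v w) := {f : MFun M X Y // f ∈ contPM M X Y}

theorem CX.cont (f : CX M X Y) : Continuous f.1.toFun := f.2

example (F : γ → CX M X Y) (hF : MF M F) (g : γ → X) (hg : MF M g) :
    MF M (fun c => (F c).1 (g c)) := by fun_prop

/-- a family of continuous functions is in the model iff its uncurried form is -/
theorem mf_CX_iff {F : γ → CX M X Y} : MF M F ↔ MF M (fun p : γ × X => (F p.1).1 p.2) := by
  constructor
  · intro h
    fun_prop
  · intro h
    exact (mf_into_ofInj (instSub _) Subtype.val Subtype.val_injective fun _ => rfl).2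
      (mf_MFun_iff.2 h)

theorem CX.ext {f g : CX M X Y} (h : ∀ x, f.1 x = g.1 x) : f = g := Subtype.ext (MFun.ext h)

end

/-! ### the real line of the model -/

/-- `R` is (a copy of) the real line of the model: a dense linear order without endpoints (these
conditions are separate instances), with its order topology, which is complete and has a countable
dense subset in the model. -/
class RealLine (M : Type u) [ZFM M] (R : Type w) [IT M R] [LinearOrder R] : Prop where
  lt_mf : MF M (fun p : R × R => p.1 < p.2)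
  q_ex : ∃ q : ℕ → R, MF M q ∧ ∀ a b : R, a < b → ∃ n, a < q n ∧ q n < b
  lub : ∀ s : PM M R, (∃ a, a ∈ s) → (∃ b, ∀ a, a ∈ s → a ≤ b) → ∃ c, IsLUB s.set c

section
variable {M : Type u} [ZFM M]
variable {R : Type w} [IT M R] [LinearOrder R] [RealLine M R]
variable {γ : Type v1} [IT M γ]

@[fun_prop]
theorem mf_real_lt {f g : γ → R} (hf : MF M f) (hg : MF M g) : MF M (fun x => f x < g x) :=
  mf_comp M (RealLine.lt_mf (M := M) (R := R)) (mf_mk M hf hg)

@[fun_prop]
theorem mf_real_le {f g : γ → R} (hf : MF M f) (hg : MF M g) : MF M (fun x => f x ≤ g x) := by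
  have h : MF M (fun x => ¬ g x < f x) := by fun_prop
  exact mf_congr h fun x => by simp

variable (M R) in
/-- a countable dense sequence -/
noncomputable def qq : ℕ → R := Classical.choose (RealLine.q_ex (M := M) (R := R))

theorem mf_qq0 : MF M (qq M R) := (Classical.choose_spec (RealLine.q_ex (M := M) (R := R))).1

@[fun_prop]
theorem mf_qq {f : γ → ℕ} (hf : MF M f) : MF M (fun c => qq M R (f c)) := mf_comp M mf_qq0 hf

theorem qq_dense {a b : R} (h : a < b) : ∃ n, a < qq M R n ∧ qq M R n < b :=
  (Classical.choose_spec (RealLine.q_ex (M := M) (R := R))).2 a b h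

/-- The order topology of the real line of the model is a topology of the model.

PROOF. The open intervals with endpoints in `R` are in the model and form a base
(`NoMinOrder`, `NoMaxOrder`, `mem_nhds_iff_exists_Ioo_subset`); a set `U` of the model is open iff
`∀ x ∈ U, ∃ a b, a < x ∧ x < b ∧ ∀ y, a < y → y < b → y ∈ U` (`mf_congr`, `fun_prop`). -/
instance instMTopR [TopologicalSpace R] [OrderTopology R] [NoMinOrder R] [NoMaxOrder R] :
    MTop M R := by
  have key : ∀ U : Set R, IsOpen U ↔ ∀ x, x ∈ U → ∃ a b, a < x ∧ x < b ∧ ∀ y, a < y → y < b → y ∈ U := by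
    intro U
    rw [isOpen_iff_mem_nhds]
    refine forall_congr' fun x => imp_congr_right fun hx => ?_
    rw [mem_nhds_iff_exists_Ioo_subset]
    constructor
    · rintro ⟨a, b, h1, h2⟩
      exact ⟨a, b, h1.1, h1.2, fun y h3 h4 => h2 ⟨h3, h4⟩⟩
    · rintro ⟨a, b, h1, h2, h3⟩
      exact ⟨a, b, ⟨h1, h2⟩, fun y hy => h3 y hy.1 hy.2⟩
  constructor
  · have h : MF M (fun U : PM M R => ∀ x, x ∈ U → ∃ a b : R, a < x ∧ x < b ∧
        ∀ y, a < y → y < b → y ∈ U) := by fun_prop
    exact mf_congr h fun U => propext (key U.set)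
  · intro x U hU hx
    obtain ⟨a, b, h1, h2, h3⟩ := (key U).1 hU x hx
    refine ⟨PM.of (fun y => a < y ∧ y < b) (by fun_prop), ?_, ⟨h1, h2⟩, fun y hy => h3 y hy.1 hy.2⟩
    exact isOpen_Ioo

end

end HM
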