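import Pool.Agent.HM_h27.OmA
import Pool.Agent.HM_h27.Top

/-!
# HM, large weight: the chain of families of functions
-/

namespace HM

open HESR Topology

universe u v w v1 v2 v3 v4

set_option linter.unusedVariables false
set_option linter.unusedSectionVars false

section
variable {M : Type u} [ZFM M]
variable {W : Type v3} [IT M W] [LinearOrder W] [WO M W]
variable {V : Type v4} [IT M V] [LinearOrder V] [WO M V]
variable {X : Type v} [IT M X] [TopologicalSpace X] [MTop M X]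
variable {R : Type w} [IT M R] [LinearOrder R] [RealLine M R] [TopologicalSpace R] [OrderTopology R]
  [DenselyOrdered R] [NoMinOrder R] [NoMaxOrder R] [Nonempty R]

/-- the sequence `m ↦ C (en (i, m))` -/
noncomputable def seqOf (en : MFun M (W × ℕ) W) (C : MFun M W (CX M X R)) (i : W) :
    MFun M ℕ (CX M X R) :=
  MFun.mk (fun m => C (en (i, m))) (by
    have h1 := C.mf
    have h2 := en.mf
    show MF M (fun m : ℕ => C.toFun (en.toFun (i, m)))
    fun_prop)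

theorem mf_seqOf (en : MFun M (W × ℕ) W) :
    MF M (fun q : MFun M W (CX M X R) × W => seqOf en q.1 q.2) := by
  rw [mf_MFun_iff]
  show MF M (fun p : (MFun M W (CX M X R) × W) × ℕ => p.1.1 (en (p.1.2, p.2)))
  fun_prop

/-- The functions added to the family `C` in one step of the construction. -/
def Gam (en : MFun M (W × ℕ) W) (g : X → ℕ → CX M X R) (Φ : MFun M ℕ (CX M X R) → ℕ → CX M X R)
    (C : MFun M W (CX M X R)) (x y : X) (f : CX M X R) : Prop :=
  (∃ i, C i = f) ∨ (∃ n, g x n = f ∨ g y n = f) ∨ ∃ i n, Φ (seqOf en C i) n = f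

theorem BChain_mf_Gam (en : MFun M (W × ℕ) W) {g : X → ℕ → CX M X R}
    (hg : MF M (fun p : X × ℕ => g p.1 p.2)) {Φ : MFun M ℕ (CX M X R) → ℕ → CX M X R}
    (hΦ : MF M (fun p : MFun M ℕ (CX M X R) × ℕ => Φ p.1 p.2)) :
    MF M (fun q : (MFun M W (CX M X R) × (X × X)) × CX M X R =>
      Gam en g Φ q.1.1 q.1.2.1 q.1.2.2 q.2) := by
  have h1 : MF M (fun q : ((MFun M W (CX M X R) × (X × X)) × CX M X R) × ℕ =>
      g q.1.1.2.1 q.2) :=
    mf_comp M (g := fun p : X × ℕ => g p.1 p.2)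
      (f := fun q : ((MFun M W (CX M X R) × (X × X)) × CX M X R) × ℕ => (q.1.1.2.1, q.2)) hg
      (by fun_prop)
  have h2 : MF M (fun q : ((MFun M W (CX M X R) × (X × X)) × CX M X R) × ℕ =>
      g q.1.1.2.2 q.2) :=
    mf_comp M (g := fun p : X × ℕ => g p.1 p.2)
      (f := fun q : ((MFun M W (CX M X R) × (X × X)) × CX M X R) × ℕ => (q.1.1.2.2, q.2)) hg
      (by fun_prop)
  have h3 : MF M (fun q : (((MFun M W (CX M X R) × (X × X)) × CX M X R) × W) × ℕ =>
      seqOf en q.1.1.1.1 q.1.2) :=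
    mf_comp M (g := fun q : MFun M W (CX M X R) × W => seqOf en q.1 q.2)
      (f := fun q : (((MFun M W (CX M X R) × (X × X)) × CX M X R) × W) × ℕ =>
        (q.1.1.1.1, q.1.2)) (mf_seqOf en) (by fun_prop)
  have h4 : MF M (fun q : (((MFun M W (CX M X R) × (X × X)) × CX M X R) × W) × ℕ =>
      Φ (seqOf en q.1.1.1.1 q.1.2) q.2) :=
    mf_comp M (g := fun p : MFun M ℕ (CX M X R) × ℕ => Φ p.1 p.2)
      (f := fun q : (((MFun M W (CX M X R) × (X × X)) × CX M X R) × W) × ℕ =>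
        (seqOf en q.1.1.1.1 q.1.2, q.2)) hΦ (mf_mk M h3 (mf_snd M))
  unfold Gam
  refine mf_or (by fun_prop) (mf_or (by fun_prop) ?_)
  refine mf_ex (R := fun (q : (MFun M W (CX M X R) × (X × X)) × CX M X R) (i : W) =>
    ∃ n, Φ (seqOf en q.1.1 i) n = q.2) ?_
  refine mf_ex (R := fun (q : ((MFun M W (CX M X R) × (X × X)) × CX M X R) × W) (n : ℕ) =>
    Φ (seqOf en q.1.1.1 q.2) n = q.1.2) ?_
  exact mf_eq h4 (by fun_prop)

theorem BChain_nonempty (hW : IsOm1T M W) : Nonempty W := by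
  by_contra hn
  exact hW.unc (MCov.empty fun a _ => hn ⟨a⟩)

theorem BChain_nat (hW : IsOm1T M W) : MCov M W (fun _ : ℕ => True) :=
  MCov.image hW.cov_prod_nat (f := fun p : W × ℕ => p.2) (mf_snd M) fun b _ =>
    ⟨((BChain_nonempty hW).some, b), trivial, rfl⟩

theorem BChain_cov_Gam (hW : IsOm1T M W) (en : MFun M (W × ℕ) W) {g : X → ℕ → CX M X R}
    (hg : MF M (fun p : X × ℕ => g p.1 p.2)) {Φ : MFun M ℕ (CX M X R) → ℕ → CX M X R}
    (hΦ : MF M (fun p : MFun M ℕ (CX M X R) × ℕ => Φ p.1 p.2)) (C : MFun M W (CX M X R))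
    (x y : X) : MCov M W (fun f => Gam en g Φ C x y f) := by
  have hgx : ∀ z : X, MF M (fun n : ℕ => g z n) := fun z =>
    mf_comp M (g := fun p : X × ℕ => g p.1 p.2) (f := fun n : ℕ => (z, n)) hg (by fun_prop)
  have hsq : MF M (fun p : W × ℕ => seqOf en C p.1) :=
    mf_comp M (g := fun q : MFun M W (CX M X R) × W => seqOf en q.1 q.2)
      (f := fun p : W × ℕ => (C, p.1)) (mf_seqOf en) (by fun_prop)
  have hΦ2 : MF M (fun p : W × ℕ => Φ (seqOf en C p.1) p.2) :=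
    mf_comp M (g := fun p : MFun M ℕ (CX M X R) × ℕ => Φ p.1 p.2)
      (f := fun p : W × ℕ => (seqOf en C p.1, p.2)) hΦ (mf_mk M hsq (mf_snd M))
  have hC := C.mf
  have m1 : MF M (fun f : CX M X R => ∃ i, C i = f) := by fun_prop
  have m2 : ∀ z : X, MF M (fun f : CX M X R => ∃ n, g z n = f) := fun z =>
    mf_ex (R := fun (f : CX M X R) (n : ℕ) => g z n = f)
      (mf_eq (mf_comp M (g := fun n : ℕ => g z n) (f := fun p : CX M X R × ℕ => p.2) (hgx z)
        (mf_snd M)) (mf_fst M))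
  have m3 : MF M (fun f : CX M X R => ∃ p : W × ℕ, Φ (seqOf en C p.1) p.2 = f) :=
    mf_ex (R := fun (f : CX M X R) (p : W × ℕ) => Φ (seqOf en C p.1) p.2 = f)
      (mf_eq (mf_comp M (g := fun p : W × ℕ => Φ (seqOf en C p.1) p.2)
        (f := fun p : CX M X R × (W × ℕ) => p.2) hΦ2 (mf_snd M)) (mf_fst M))
  have c1 : MCov M W (fun f : CX M X R => ∃ i, C i = f) := MCov.of_enum hC fun _ h => h
  have c2 : ∀ z : X, MCov M W (fun f : CX M X R => ∃ n, g z n = f) := fun z =>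
    MCov.image (BChain_nat hW) (hgx z) fun f ⟨n, hn⟩ => ⟨n, trivial, hn⟩
  have c3 : MCov M W (fun f : CX M X R => ∃ p : W × ℕ, Φ (seqOf en C p.1) p.2 = f) :=
    MCov.image hW.cov_prod_nat hΦ2 fun f ⟨p, hp⟩ => ⟨p, trivial, hp⟩
  have c4 := MCov.or hW m1 (mf_or (m2 x) (mf_or (m2 y) m3)) c1
    (MCov.or hW (m2 x) (mf_or (m2 y) m3) (c2 x) (MCov.or hW (m2 y) m3 (c2 y) c3))
  refine MCov.mono c4 fun f hf => ?_
  rcases hf with hf | ⟨n, hf | hf⟩ | ⟨i, n, hf⟩
  · exact Or.inl hf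
  · exact Or.inr (Or.inl ⟨n, hf⟩)
  · exact Or.inr (Or.inr (Or.inl ⟨n, hf⟩))
  · exact Or.inr (Or.inr (Or.inr ⟨(i, n), hf⟩))

/-- The transfinite construction.

PROOF. `exists_tdc` along `V` with values `p = (C, (x, y)) : MFun M W (CX M X R) × (X × X)` and
`Φ' w s p := p.2.1 ≠ p.2.2 ∧ (∀ i, (p.1 i).1 p.2.1 = (p.1 i).1 p.2.2) ∧
∀ f, (∃ i, p.1 i = f) ↔ (f = f0 ∨ ∃ b q, (b, q) ∈ s ∧ Gam en g Φ q.1 q.2.1 q.2.2 f)`.
Existence: the set of all `f` with `f = f0 ∨ ∃ b q, (b, q) ∈ s ∧ Gam ...` is covered by `W`: `s` is the graph of a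
function on the initial segment `{b | b < w}`, covered by `W` (`hV.seg`), and every `Gam en g Φ C x y` is covered by
`W` (images of `W`, `ℕ`, `W × ℕ`); use `MCov.iUnion`, `MCov.or`, `hW.cov_sq`, `hW.cov_prod_nat`. Enumerate it
(`MCov.enum`) and apply `hns`. -/
theorem chain_rec (hW : IsOm1T M W) (hV : IsOm2T M W V)
    (hns : ∀ C : W → CX M X R, MF M C → ∃ x y : X, x ≠ y ∧ ∀ i, (C i).1 x = (C i).1 y)
    {g : X → ℕ → CX M X R} (hg : MF M (fun p : X × ℕ => g p.1 p.2))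
    {Φ : MFun M ℕ (CX M X R) → ℕ → CX M X R}
    (hΦ : MF M (fun p : MFun M ℕ (CX M X R) × ℕ => Φ p.1 p.2)) (en : MFun M (W × ℕ) W)
    (f0 : CX M X R) :
    ∃ (C : V → MFun M W (CX M X R)) (x y : V → X), MF M C ∧ MF M x ∧ MF M y ∧
      (∀ a, x a ≠ y a) ∧ (∀ a i, (C a i).1 (x a) = (C a i).1 (y a)) ∧
      ∀ a f, (∃ i, C a i = f) ↔ (f = f0 ∨ ∃ b, b < a ∧ Gam en g Φ (C b) (x b) (y b) f) := by
  have hneW := BChain_nonempty hW
  obtain ⟨x0, y0, -, -⟩ := hns (fun _ => f0) (mf_const M f0)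
  have hneA : Nonempty (MFun M W (CX M X R) × (X × X)) :=
    ⟨(⟨fun _ => f0, mf_const M f0⟩, (x0, y0))⟩
  have hGam := BChain_mf_Gam en hg hΦ
  have hG1 : MF M (fun q : ((((V × PM M (V × (MFun M W (CX M X R) × (X × X)))) ×
      (MFun M W (CX M X R) × (X × X))) × CX M X R) × V) × (MFun M W (CX M X R) × (X × X)) =>
      Gam en g Φ q.2.1 q.2.2.1 q.2.2.2 q.1.1.2) :=
    mf_comp M (g := fun q : (MFun M W (CX M X R) × (X × X)) × CX M X R =>
        Gam en g Φ q.1.1 q.1.2.1 q.1.2.2 q.2)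
      (f := fun q : ((((V × PM M (V × (MFun M W (CX M X R) × (X × X)))) ×
      (MFun M W (CX M X R) × (X × X))) × CX M X R) × V) × (MFun M W (CX M X R) × (X × X)) =>
        (q.2, q.1.1.2)) hGam (by fun_prop)
  obtain ⟨F, hF, hFΦ⟩ := exists_tdc (M := M) (W := V) (α := MFun M W (CX M X R) × (X × X))
    (r := fun a b : V => a < b) WO.mf (WO.wf (M := M) (W := V)).wf (fun a b c => lt_trans)
    (Φ := fun (w : V) (s : PM M (V × (MFun M W (CX M X R) × (X × X))))
      (p : MFun M W (CX M X R) × (X × X)) =>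
      p.2.1 ≠ p.2.2 ∧ (∀ i, (p.1 i).1 p.2.1 = (p.1 i).1 p.2.2) ∧
      ∀ f, (∃ i, p.1 i = f) ↔ (f = f0 ∨ ∃ (b : V) (q : MFun M W (CX M X R) × (X × X)),
        (b, q) ∈ s ∧ Gam en g Φ q.1 q.2.1 q.2.2 f))
    (by
      refine mf_and (by fun_prop) (mf_and (by fun_prop) ?_)
      refine mf_all (R := fun (p : (V × PM M (V × (MFun M W (CX M X R) × (X × X)))) ×
        (MFun M W (CX M X R) × (X × X))) (f : CX M X R) => (∃ i, p.2.1 i = f) ↔ (f = f0 ∨
          ∃ (b : V) (q : MFun M W (CX M X R) × (X × X)),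
        (b, q) ∈ p.1.2 ∧ Gam en g Φ q.1 q.2.1 q.2.2 f)) ?_
      refine mf_iff (by fun_prop) (mf_or (by fun_prop) ?_)
      refine mf_ex (R := fun (p : ((V × PM M (V × (MFun M W (CX M X R) × (X × X)))) ×
        (MFun M W (CX M X R) × (X × X))) × CX M X R) (b : V) =>
          ∃ (q : MFun M W (CX M X R) × (X × X)),
        (b, q) ∈ p.1.1.2 ∧ Gam en g Φ q.1 q.2.1 q.2.2 p.2) ?_
      refine mf_ex (R := fun (p : (((V × PM M (V × (MFun M W (CX M X R) × (X × X)))) ×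
        (MFun M W (CX M X R) × (X × X))) × CX M X R) × V) (q : MFun M W (CX M X R) × (X × X)) =>
        (p.2, q) ∈ p.1.1.1.2 ∧ Gam en g Φ q.1 q.2.1 q.2.2 p.1.2) ?_
      exact mf_and (by fun_prop) hG1)
    (by
      intro w s k _ hs _
      -- the set of all new functions
      have hfun : ∀ b q q', (b, q) ∈ s → (b, q') ∈ s → q = q' := fun b q q' h1 h2 =>
        ((hs _).1 h1).2.symm.trans ((hs _).1 h2).2
      have hcs : MCov M W (fun p : V × (MFun M W (CX M X R) × (X × X)) => p ∈ s) := by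
        obtain ⟨k0, hk1, hk2⟩ := hV.seg w
        refine ⟨PM.of (fun p : W × (V × (MFun M W (CX M X R) × (X × X))) =>
          (p.1, p.2.1) ∈ k0 ∧ p.2 ∈ s) (by fun_prop), ?_, ?_⟩
        · rintro i ⟨b, q⟩ ⟨b', q'⟩ h1 h2
          obtain ⟨h3, h4⟩ := PM.mem_of.1 h1
          obtain ⟨h5, h6⟩ := PM.mem_of.1 h2
          have e1 : b = b' := hk1 i b b' h3 h5
          subst e1
          rw [hfun b q q' h4 h6]
        · rintro ⟨b, q⟩ hbq
          obtain ⟨i, hi⟩ := hk2 b ((hs _).1 hbq).1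
          exact ⟨i, hi, hbq⟩
      have hGs : MF M (fun q : (V × (MFun M W (CX M X R) × (X × X))) × CX M X R =>
          Gam en g Φ q.1.2.1 q.1.2.2.1 q.1.2.2.2 q.2) :=
        mf_comp M (g := fun q : (MFun M W (CX M X R) × (X × X)) × CX M X R =>
            Gam en g Φ q.1.1 q.1.2.1 q.1.2.2 q.2)
          (f := fun q : (V × (MFun M W (CX M X R) × (X × X))) × CX M X R => (q.1.2, q.2)) hGam
          (by fun_prop)
      have hcu : MCov M W (fun f => ∃ p : V × (MFun M W (CX M X R) × (X × X)), p ∈ s ∧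
          Gam en g Φ p.2.1 p.2.2.1 p.2.2.2 f) :=
        MCov.iUnion hW.cov_sq (Q := fun p : V × (MFun M W (CX M X R) × (X × X)) => p ∈ s)
          (P := fun p f => Gam en g Φ p.2.1 p.2.2.1 p.2.2.2 f) (by fun_prop) hGs hcs
          fun p _ => BChain_cov_Gam hW en hg hΦ _ _ _
      have hmu : MF M (fun f => ∃ p : V × (MFun M W (CX M X R) × (X × X)), p ∈ s ∧
          Gam en g Φ p.2.1 p.2.2.1 p.2.2.2 f) := by
        refine mf_ex (R := fun (f : CX M X R) (p : V × (MFun M W (CX M X R) × (X × X))) => p ∈ s ∧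
          Gam en g Φ p.2.1 p.2.2.1 p.2.2.2 f) (mf_and (by fun_prop) ?_)
        exact mf_comp M (g := fun q : (V × (MFun M W (CX M X R) × (X × X))) × CX M X R =>
          Gam en g Φ q.1.2.1 q.1.2.2.1 q.1.2.2.2 q.2)
          (f := fun q : CX M X R × (V × (MFun M W (CX M X R) × (X × X))) => (q.2, q.1)) hGs
          (by fun_prop)
      have hc0 : MCov M W (fun f : CX M X R => f = f0) :=
        MCov.of_enum (e := fun _ : W => f0) (mf_const M f0) fun a ha => ⟨hneW.some, ha.symm⟩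
      have hm0 : MF M (fun f : CX M X R => f = f0) := by fun_prop
      obtain ⟨e, he, he1, he2⟩ := MCov.enum (mf_or hm0 hmu) (MCov.or hW hm0 hmu hc0 hcu)
        ⟨f0, Or.inl rfl⟩
      obtain ⟨x, y, hxy, hi⟩ := hns e he
      refine ⟨(⟨e, he⟩, (x, y)), hxy, hi, fun f => ⟨?_, ?_⟩⟩
      · rintro ⟨i, rfl⟩
        rcases he1 i with h1 | ⟨p, hp, h1⟩
        · exact Or.inl h1
        · exact Or.inr ⟨p.1, p.2, hp, h1⟩
      · rintro (h1 | ⟨b, q, hbq, h1⟩)
        · exact he2 f (Or.inl h1)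
        · exact he2 f (Or.inr ⟨(b, q), hbq, h1⟩))
  have hres : ∀ a : V, MF M (fun p : V × (MFun M W (CX M X R) × (X × X)) =>
      p.1 < a ∧ F p.1 = p.2) := fun a => by fun_prop
  have key := fun a => hFΦ a (PM.of (fun p => p.1 < a ∧ F p.1 = p.2) (hres a)) fun p => Iff.rfl
  refine ⟨fun a => (F a).1, fun a => (F a).2.1, fun a => (F a).2.2, by fun_prop, by fun_prop,
    by fun_prop, fun a => (key a).1, fun a => (key a).2.1, fun a f => ?_⟩
  rw [(key a).2.2 f]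
  constructor
  · rintro (h1 | ⟨b, q, ⟨hb, hq⟩, h1⟩)
    · exact Or.inl h1
    · have hq' : F b = q := hq
      subst hq'
      exact Or.inr ⟨b, hb, h1⟩
  · rintro (h1 | ⟨b, hb, h1⟩)
    · exact Or.inl h1
    · exact Or.inr ⟨b, F b, ⟨hb, rfl⟩, h1⟩

end

end HM
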