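import Pool.Agent.HM_h27.UryB

/-!
# HM, large weight: definitions
-/

namespace HM

open HESR Topology

universe u v w v1 v2 v3 v4

set_option linter.unusedVariables false
set_option linter.unusedSectionVars false

section
variable {M : Type u} [ZFM M]
variable {X : Type v} [IT M X] [TopologicalSpace X] [MTop M X]
variable {R : Type w} [IT M R] [LinearOrder R] [RealLine M R] [TopologicalSpace R] [OrderTopology R]
  [DenselyOrdered R] [NoMinOrder R] [NoMaxOrder R] [Nonempty R]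
variable {γ : Type v1} [IT M γ]

/-! ### level sets -/

/-- `{y | f y < l}` -/
noncomputable def ltS (f : CX M X R) (l : R) : PM M X := PM.of (fun y => f.1 y < l) (by fun_prop)

/-- `{y | l < f y}` -/
noncomputable def gtS (f : CX M X R) (l : R) : PM M X := PM.of (fun y => l < f.1 y) (by fun_prop)

@[simp] theorem mem_ltS {f : CX M X R} {l : R} {y : X} : y ∈ ltS f l ↔ f.1 y < l := Iff.rfl

@[simp] theorem mem_gtS {f : CX M X R} {l : R} {y : X} : y ∈ gtS f l ↔ l < f.1 y := Iff.rfl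

@[fun_prop]
theorem mf_ltS {F : γ → CX M X R} {g : γ → R} (hF : MF M F) (hg : MF M g) :
    MF M (fun c => ltS (F c) (g c)) := by
  rw [mf_PM_iff]
  show MF M (fun p : γ × X => (F p.1).1 p.2 < g p.1)
  fun_prop

@[fun_prop]
theorem mf_gtS {F : γ → CX M X R} {g : γ → R} (hF : MF M F) (hg : MF M g) :
    MF M (fun c => gtS (F c) (g c)) := by
  rw [mf_PM_iff]
  show MF M (fun p : γ × X => g p.1 < (F p.1).1 p.2)
  fun_prop

theorem op_ltS (f : CX M X R) (l : R) : Op (ltS f l) := isOpen_Iio.preimage f.cont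

theorem op_gtS (f : CX M X R) (l : R) : Op (gtS f l) := isOpen_Ioi.preimage f.cont

/-! ### the equivalence relation of a sequence of functions -/

/-- all functions `D n` agree at `x` and `y` -/
def Eqv (D : MFun M ℕ (CX M X R)) (x y : X) : Prop := ∀ n, (D n).1 x = (D n).1 y

theorem Eqv.refl (D : MFun M ℕ (CX M X R)) (x : X) : Eqv D x x := fun _ => rfl

theorem Eqv.symm {D : MFun M ℕ (CX M X R)} {x y : X} (h : Eqv D x y) : Eqv D y x := fun n => (h n).symm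

theorem Eqv.trans {D : MFun M ℕ (CX M X R)} {x y z : X} (h : Eqv D x y) (h' : Eqv D y z) :
    Eqv D x z := fun n => (h n).trans (h' n)

@[fun_prop]
theorem mf_Eqv {D : γ → MFun M ℕ (CX M X R)} {f g : γ → X} (hD : MF M D) (hf : MF M f) (hg : MF M g) :
    MF M (fun c => Eqv (D c) (f c) (g c)) := by
  unfold Eqv
  fun_prop

/-- `r` is a pair of distinct equivalent points -/
def Pr (D : MFun M ℕ (CX M X R)) (r : X × X) : Prop := r.1 ≠ r.2 ∧ Eqv D r.1 r.2

@[fun_prop]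
theorem mf_Pr {D : γ → MFun M ℕ (CX M X R)} {f : γ → X × X} (hD : MF M D) (hf : MF M f) :
    MF M (fun c => Pr (D c) (f c)) := by
  unfold Pr
  fun_prop

/-- the class of `z` is contained in `U` -/
def FibIn (D : MFun M ℕ (CX M X R)) (z : X) (U : PM M X) : Prop := ∀ y, Eqv D y z → y ∈ U

@[fun_prop]
theorem mf_FibIn {D : γ → MFun M ℕ (CX M X R)} {f : γ → X} {U : γ → PM M X} (hD : MF M D)
    (hf : MF M f) (hU : MF M U) : MF M (fun c => FibIn (D c) (f c) (U c)) := by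
  unfold FibIn
  fun_prop

variable {L : Thr R}

/-- The properties of the colouring `c` and of the sequence `e` of pairs obtained from the open
colouring axiom for the sequence `D`. -/
def OcaP (G : Fns M X R L) (D : MFun M ℕ (CX M X R)) (c : MFun M (X × X) ℕ)
    (e : MFun M ℕ (X × X)) : Prop :=
  (∀ r r' : X × X, Pr D r → Pr D r' → c r = c r' → FibIn D r'.1 (gtS (G.F r) L.l1) →
    ¬ FibIn D r.1 (gtS (G.F r') L.l1)) ∧
  (∀ r r' : X × X, Pr D r → Pr D r' → c r = c r' → FibIn D r'.1 (ltS (G.F r) L.l2) →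
    ¬ FibIn D r.1 (ltS (G.F r') L.l2)) ∧
  (∀ (U : PM M X), Op U → ∀ r : X × X, Pr D r → FibIn D r.1 U →
    ∃ n, Pr D (e n) ∧ c (e n) = c r ∧ FibIn D (e n).1 U)

theorem mf_OcaP (G : Fns M X R L) : MF M (fun q : MFun M ℕ (CX M X R) ×
    (MFun M (X × X) ℕ × MFun M ℕ (X × X)) => OcaP G q.1 q.2.1 q.2.2) := by
  have := G.F_mf
  unfold OcaP
  fun_prop

/-- no pair of colour `k` has its class contained in `{g z n < l2}` -/
def Bad (G : Fns M X R L) (D : MFun M ℕ (CX M X R)) (c : MFun M (X × X) ℕ) (k : ℕ) (z : X)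
    (n : ℕ) : Prop := ¬ ∃ r : X × X, Pr D r ∧ c r = k ∧ FibIn D r.1 (ltS (G.g z n) L.l2)

theorem mf_Bad (G : Fns M X R L) (D : MFun M ℕ (CX M X R)) (c : MFun M (X × X) ℕ) :
    MF M (fun q : ℕ × (X × ℕ) => Bad G D c q.1 q.2.1 q.2.2) := by
  have h := G.g_mf
  have h2 : MF M (fun q : (ℕ × (X × ℕ)) × (X × X) => G.g q.1.2.1 q.1.2.2) :=
    mf_comp M (g := fun p : X × ℕ => G.g p.1 p.2) (f := fun q : (ℕ × (X × ℕ)) × (X × X) => q.1.2) h
      (by fun_prop)
  unfold Bad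
  fun_prop

/-! ### the set-up of the main argument -/

variable (M X R) in
/-- The data obtained from OCA and the chain construction (internal form of `Setup` in
`Pool/Agent/W_3b51b4_h27/Defs.lean`). -/
structure HSet (W : Type v3) [IT M W] (V : Type v4) [IT M V] [LinearOrder V] (L : Thr R)
    (G : Fns M X R L) where
  D : MFun M ℕ (CX M X R)
  c : MFun M (X × X) ℕ
  e : MFun M ℕ (X × X)
  oca : OcaP G D c e
  Q : V → Prop
  Q_mf : MF M Q
  Q_unc : ¬ MCov M W Q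
  x : V → X
  x_mf : MF M x
  y : V → X
  y_mf : MF M y
  ne : ∀ a, Q a → x a ≠ y a
  eqv : ∀ a, Q a → Eqv D (x a) (y a)
  C : W → CX M X R
  C_mf : MF M C
  C_const : ∀ i a, Q a → ∀ z, Eqv D z (x a) → (C i).1 z = (C i).1 (x a)
  F_mem : ∀ n, ∃ i, C i = G.F (e n)
  D_mem : ∀ n, ∃ i, C i = D n
  g_const : ∀ a b, Q a → Q b → b < a → ∀ n z, Eqv D z (x a) →
    (G.g (x b) n).1 z = (G.g (x b) n).1 (x a)
  wx : ℕ → ℕ → X
  wx_mf : MF M (fun p : ℕ × ℕ => wx p.1 p.2)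
  wn : ℕ → ℕ → ℕ
  wn_mf : MF M (fun p : ℕ × ℕ => wn p.1 p.2)
  w_cov : ∀ k a n, Q a → ∀ z, z = x a ∨ z = y a → Bad G D c k z n →
    ∃ j, Bad G D c k (wx k j) (wn k j) ∧ (∃ i, C i = G.g (wx k j) (wn k j)) ∧
      (G.g (wx k j) (wn k j)).1 z < L.l1

namespace HSet

variable {W : Type v3} [IT M W] [LinearOrder W] [WO M W] {V : Type v4} [IT M V] [LinearOrder V]
  [WO M V] {G : Fns M X R L} (S : HSet M X R W V L G)

/-- `a` is `k`-good -/
def Good (k : ℕ) (a : V) : Prop :=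
  ∀ n, ¬ Bad G S.D S.c k (S.x a) n ∧ ¬ Bad G S.D S.c k (S.y a) n

theorem mf_Good : MF M (fun q : ℕ × V => S.Good q.1 q.2) := by
  have h := mf_Bad G S.D S.c
  have hx := S.x_mf
  have hy := S.y_mf
  have h1 : MF M (fun q : (ℕ × V) × ℕ => Bad G S.D S.c q.1.1 (S.x q.1.2) q.2) :=
    mf_comp M (g := fun q : ℕ × (X × ℕ) => Bad G S.D S.c q.1 q.2.1 q.2.2)
      (f := fun q : (ℕ × V) × ℕ => (q.1.1, (S.x q.1.2, q.2))) h (by fun_prop)
  have h2 : MF M (fun q : (ℕ × V) × ℕ => Bad G S.D S.c q.1.1 (S.y q.1.2) q.2) :=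
    mf_comp M (g := fun q : ℕ × (X × ℕ) => Bad G S.D S.c q.1 q.2.1 q.2.2)
      (f := fun q : (ℕ × V) × ℕ => (q.1.1, (S.y q.1.2, q.2))) h (by fun_prop)
  unfold Good
  fun_prop

/-- The pair `r` kills the pair `(x a, y a)` with indices `n1`, `n2`. -/
def Kill (r : X × X) (a : V) (n1 n2 : ℕ) : Prop :=
  (∀ t, (G.g (S.x a) n1).1 t < L.l1 → (G.F r).1 t < L.l1) ∧
    (∀ t, (G.g (S.y a) n2).1 t < L.l1 → L.l2 < (G.F r).1 t)

/-- The points equivalent to (the first coordinate of) a pair of colour `k.1` which kills `a` with indices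
`k.2`; empty if `a` is not `k.1`-good. -/
def Rel (k : ℕ × (ℕ × ℕ)) (a : V) (m : X) : Prop :=
  S.Good k.1 a ∧ ∃ r : X × X, Pr S.D r ∧ S.c r = k.1 ∧ S.Kill r a k.2.1 k.2.2 ∧ Eqv S.D m r.1

theorem BDefs_mf_Kill :
    MF M (fun q : (X × X) × (V × (ℕ × ℕ)) => S.Kill q.1 q.2.1 q.2.2.1 q.2.2.2) := by
  have hF := G.F_mf
  have hx := S.x_mf
  have hy := S.y_mf
  have h1 : MF M (fun q : ((X × X) × (V × (ℕ × ℕ))) × X => G.g (S.x q.1.2.1) q.1.2.2.1) :=
    mf_comp M (g := fun p : X × ℕ => G.g p.1 p.2)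
      (f := fun q : ((X × X) × (V × (ℕ × ℕ))) × X => (S.x q.1.2.1, q.1.2.2.1)) G.g_mf (by fun_prop)
  have h2 : MF M (fun q : ((X × X) × (V × (ℕ × ℕ))) × X => G.g (S.y q.1.2.1) q.1.2.2.2) :=
    mf_comp M (g := fun p : X × ℕ => G.g p.1 p.2)
      (f := fun q : ((X × X) × (V × (ℕ × ℕ))) × X => (S.y q.1.2.1, q.1.2.2.2)) G.g_mf (by fun_prop)
  have h3 : MF M (fun q : ((X × X) × (V × (ℕ × ℕ))) × X => G.F q.1.1) := by fun_prop
  exact mf_and
    (mf_all (R := fun (q : (X × X) × (V × (ℕ × ℕ))) (t : X) =>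
      (G.g (S.x q.2.1) q.2.2.1).1 t < L.l1 → (G.F q.1).1 t < L.l1)
      (mf_imp (mf_real_lt (mf_app (mf_subval _ h1) (mf_snd M)) (mf_const M _))
        (mf_real_lt (mf_app (mf_subval _ h3) (mf_snd M)) (mf_const M _))))
    (mf_all (R := fun (q : (X × X) × (V × (ℕ × ℕ))) (t : X) =>
      (G.g (S.y q.2.1) q.2.2.2).1 t < L.l1 → L.l2 < (G.F q.1).1 t)
      (mf_imp (mf_real_lt (mf_app (mf_subval _ h2) (mf_snd M)) (mf_const M _))
        (mf_real_lt (mf_const M _) (mf_app (mf_subval _ h3) (mf_snd M)))))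

/-- PROOF. `fun_prop` after unfolding, with `mf_comp` for `S.Good`, `G.g`, `G.F`, `S.x`, `S.y`. -/
theorem mf_Rel : MF M (fun q : ((ℕ × (ℕ × ℕ)) × V) × X => S.Rel q.1.1 q.1.2 q.2) := by
  have h1 : MF M (fun q : ((ℕ × (ℕ × ℕ)) × V) × X => S.Good q.1.1.1 q.1.2) :=
    mf_comp M (g := fun p : ℕ × V => S.Good p.1 p.2)
      (f := fun q : ((ℕ × (ℕ × ℕ)) × V) × X => (q.1.1.1, q.1.2)) S.mf_Good (by fun_prop)
  have h2 : MF M (fun q : (((ℕ × (ℕ × ℕ)) × V) × X) × (X × X) =>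
      S.Kill q.2 q.1.1.2 q.1.1.1.2.1 q.1.1.1.2.2) :=
    mf_comp M (g := fun p : (X × X) × (V × (ℕ × ℕ)) => S.Kill p.1 p.2.1 p.2.2.1 p.2.2.2)
      (f := fun q : (((ℕ × (ℕ × ℕ)) × V) × X) × (X × X) =>
        (q.2, (q.1.1.2, (q.1.1.1.2.1, q.1.1.1.2.2)))) S.BDefs_mf_Kill (by fun_prop)
  have h3 : MF M (fun q : (((ℕ × (ℕ × ℕ)) × V) × X) × (X × X) => Pr S.D q.2) := by fun_prop
  have h4 : MF M (fun q : (((ℕ × (ℕ × ℕ)) × V) × X) × (X × X) => S.c q.2 = q.1.1.1.1) := by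
    fun_prop
  have h5 : MF M (fun q : (((ℕ × (ℕ × ℕ)) × V) × X) × (X × X) => Eqv S.D q.1.2 q.2.1) := by
    fun_prop
  exact mf_and h1 (mf_ex (R := fun (q : ((ℕ × (ℕ × ℕ)) × V) × X) (r : X × X) =>
    Pr S.D r ∧ S.c r = q.1.1.1 ∧ S.Kill r q.1.2 q.1.1.2.1 q.1.1.2.2 ∧ Eqv S.D q.2 r.1)
    (mf_and h3 (mf_and h4 (mf_and h2 h5))))

end HSet

end

/-! ### the quotient topology -/

section
variable {M : Type u} [ZFM M]
variable {X : Type v} [IT M X] [TopologicalSpace X] [MTop M X]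
variable {R : Type w} [IT M R] [LinearOrder R] [RealLine M R] [TopologicalSpace R] [OrderTopology R]
  [DenselyOrdered R] [NoMinOrder R] [NoMaxOrder R] [Nonempty R]

/-- The space `X` with the topology induced by the functions `D n`. -/
def Quo (D : MFun M ℕ (CX M X R)) : Type v := X

noncomputable instance instITQuo (D : MFun M ℕ (CX M X R)) : IT M (Quo D) := inferInstanceAs (IT M X)

/-- the map to the space of sequences -/
def Quo.ev (D : MFun M ℕ (CX M X R)) (x : Quo D) : ℕ → R := fun n => (D n).1 (show X from x)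

instance instTopQuo (D : MFun M ℕ (CX M X R)) : TopologicalSpace (Quo D) :=
  TopologicalSpace.induced (Quo.ev D) inferInstance

/-- a set of the model, as a subset of the quotient -/
def toQ (D : MFun M ℕ (CX M X R)) (s : PM M X) : PM M (Quo D) := ⟨s.set, s.mf⟩

/-- the set of all points equivalent to a point of `s` -/
noncomputable def hull (D : MFun M ℕ (CX M X R)) (s : PM M X) : PM M X :=
  PM.of (fun y => ∃ x, x ∈ s ∧ Eqv D x y) (by fun_prop)

end

end HM
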