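import Pool.Agent.HM_h27.OmA

/-!
# HM: well-orders of type `ω₂`; a weak pressing down lemma
-/

namespace HM

open HESR

universe u v w v1 v2 v3 v4

set_option linter.unusedVariables false
set_option linter.unusedSectionVars false

/-- Existence of types `W`, `V` of type `ω₁` and `ω₂` in the model.

PROOF. `exists_hartogs` for `ℕ` and then for `W`. -/
theorem exists_om12 (M : Type u) [ZFM M] : ∃ (W : Type) (_ : IT M W) (_ : LinearOrder W) (_ : WO M W)
    (V : Type) (_ : IT M V) (_ : LinearOrder V) (_ : WO M V), IsOm1T M W ∧ IsOm2T M W V := by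
  obtain ⟨W, i1, i2, i3, h1, h2⟩ := exists_hartogs M ℕ
  obtain ⟨V, j1, j2, j3, h3, h4⟩ := exists_hartogs M W
  exact ⟨W, i1, i2, i3, V, j1, j2, j3, ⟨h1, h2⟩, ⟨h3, h4⟩⟩

section
variable {M : Type u} [ZFM M]
variable {W : Type v3} [IT M W] [LinearOrder W] [WO M W]
variable {V : Type v4} [IT M V] [LinearOrder V] [WO M V]

theorem OmB_ne (hW : IsOm1T M W) : Nonempty W := by
  by_contra hn
  exact hW.unc (MCov.empty fun a _ => hn ⟨a⟩)

theorem OmB_neV (hV : IsOm2T M W V) : Nonempty V := by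
  by_contra hn
  exact hV.unc (MCov.empty fun a _ => hn ⟨a⟩)

theorem OmB_cov_le (hW : IsOm1T M W) (hV : IsOm2T M W V) (i : V) : MCov M W (fun j : V => j ≤ i) := by
  obtain ⟨w0⟩ := OmB_ne hW
  have h1 : MCov M W (fun j : V => j < i ∨ j = i) :=
    MCov.or hW (by fun_prop) (by fun_prop) (hV.seg i)
      (MCov.of_enum (e := fun _ : W => i) (mf_const M i) fun a ha => ⟨w0, ha.symm⟩)
  exact MCov.mono h1 fun j hj => lt_or_eq_of_le hj

/-- sets of size `ℵ₁` are bounded in `V`

PROOF. Otherwise `V` is the union of the sets `{j | j ≤ i}`, `P i`; each is covered by `W` (`seg`, and one more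
element), so `V` is covered by `W` (`MCov.iUnion`, `cov_sq`). -/
theorem IsOm2T.bdd (hW : IsOm1T M W) (hV : IsOm2T M W V) {P : V → Prop} (hP : MF M P)
    (hc : MCov M W P) : ∃ b : V, ∀ i, P i → i < b := by
  by_contra hb
  push Not at hb
  have h1 : MCov M W (fun a : V => ∃ i, P i ∧ a ≤ i) :=
    MCov.iUnion hW.cov_sq hP (P := fun i a => a ≤ i) (by fun_prop) hc fun i _ => OmB_cov_le hW hV i
  exact hV.unc (MCov.mono h1 fun a _ => hb a)

theorem IsOm2T.noMax (hW : IsOm1T M W) (hV : IsOm2T M W V) (i : V) : ∃ j : V, i < j := by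
  by_contra hb
  push Not at hb
  exact hV.unc (MCov.mono (OmB_cov_le hW hV i) fun a _ => hb a)

/-- unbounded sets have size `ℵ₂` -/
theorem IsOm2T.not_cov (hW : IsOm1T M W) (hV : IsOm2T M W V) {P : V → Prop} (hP : MF M P)
    (h : ∀ b : V, ∃ i, P i ∧ b < i) : ¬ MCov M W P := by
  intro hc
  obtain ⟨b, hb⟩ := IsOm2T.bdd hW hV hP hc
  obtain ⟨i, hi, hbi⟩ := h b
  exact lt_asymm hbi (hb i hi)

/-- sets of size `ℵ₂` are unbounded -/
theorem IsOm2T.unb (hW : IsOm1T M W) (hV : IsOm2T M W V) {P : V → Prop} (hP : MF M P)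
    (h : ¬ MCov M W P) (b : V) : ∃ i, P i ∧ b < i := by
  by_contra hb
  push Not at hb
  exact h (MCov.mono (OmB_cov_le hW hV b) fun a ha => hb a ha)

/-- Weak pressing down lemma (internal form of `press` in `Pool/Agent/W_3b51b4_h27/Press.lean`).

PROOF. Suppose not. By `exists_choose` there is `h : V × W → V` in the model with `¬ P b i a` for all
`a > h (b, i)`. By `IsOm2T.bdd` (the set `{h (b, i) | b ≤ x, i}` is covered by `W`) and `exists_choose` there is
`H : V → V` in the model with `x < H x` and `h (b, i) < H x` for all `b ≤ x`, `i`. By `exists_tdc` along `W`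
there is `d : W → V` in the model with `H (d j) < d i` for `j < i` (`Φ i s a := ∀ j b, (j, b) ∈ s → H b < a`;
`s` is covered by `W`). The range of `d` is bounded; let `δ` be the least element of `V` with `d i ≤ δ` for all
`i` (external minimum, `WO.wf`). `W` has no maximum, so `d i < δ`, and for `x < δ` there is `i` with `x < d i`.
Hence (1) `h (b, i) < δ` for all `b < δ`; (2) if `s` is countable and below `δ`, choose (`exists_choose`) for
`x` with `s x` some `ξ x` with `x < d (ξ x)`; the countable set of all `ξ x` is bounded (`IsOm1T.bdd`) by some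
`k` and `s` is below `d k < δ`. By the hypothesis there are `b < δ`, `i` with `P b i δ`, contradiction
to (1). -/
theorem press (hW : IsOm1T M W) (hV : IsOm2T M W V) {P : V → W → V → Prop}
    (hP : MF M (fun q : (V × W) × V => P q.1.1 q.1.2 q.2))
    (h : ∀ a : V, (∀ s : V → Prop, MF M s → MCt M s → (∀ x, s x → x < a) →
      ∃ b, b < a ∧ ∀ x, s x → x < b) → ∃ b, b < a ∧ ∃ i, P b i a) :
    ∃ b i, ∀ c, ∃ a, c < a ∧ P b i a := by
  by_contra hcon
  push Not at hcon
  have hneW : Nonempty W := OmB_ne hW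
  have hneV : Nonempty V := OmB_neV hV
  -- the bounds `k (b, i)`
  have hR1 : MF M (fun p : (V × W) × V => ∀ a : V, p.2 < a → ¬ P p.1.1 p.1.2 a) := by
    have h1 : MF M (fun q : ((V × W) × V) × V => P q.1.1.1 q.1.1.2 q.2) :=
      mf_comp M (g := fun q : (V × W) × V => P q.1.1 q.1.2 q.2)
        (f := fun q : ((V × W) × V) × V => (q.1.1, q.2)) hP (by fun_prop)
    exact mf_all (R := fun (p : (V × W) × V) (a : V) => p.2 < a → ¬ P p.1.1 p.1.2 a)
      (mf_imp (by fun_prop) (mf_not h1))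
  obtain ⟨k, hk, hk'⟩ := exists_choose (M := M) (α := V × W) (β := V)
    (R := fun p c => ∀ a : V, c < a → ¬ P p.1 p.2 a) hR1 (fun p => hcon p.1 p.2)
  -- the bounds `H x`
  have hR2 : MF M (fun p : V × V => p.1 < p.2 ∧ ∀ (b : V) (i : W), b ≤ p.1 → k (b, i) < p.2) := by
    have h1 : MF M (fun q : ((V × V) × V) × W => k (q.1.2, q.2)) :=
      mf_comp M (g := k) (f := fun q : ((V × V) × V) × W => (q.1.2, q.2)) hk (by fun_prop)
    fun_prop
  obtain ⟨H, hH, hH'⟩ := exists_choose (M := M) (α := V) (β := V)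
    (R := fun x y => x < y ∧ ∀ (b : V) (i : W), b ≤ x → k (b, i) < y) hR2 (by
      intro x
      have h1 : MCov M W (fun p : V × W => p.1 ≤ x ∧ True) :=
        MCov.prod (Q := fun _ : W => True) hW.cov_sq (OmB_cov_le hW hV x)
          (MCov.of_enum (e := fun w : W => w) (mf_id M) fun a _ => ⟨a, rfl⟩)
      have h2 : MCov M W (fun c : V => ∃ b i, b ≤ x ∧ k (b, i) = c) :=
        MCov.image h1 hk fun c ⟨b, i, hb, hc⟩ => ⟨(b, i), ⟨hb, trivial⟩, hc⟩
      have h3 : MF M (fun c : V => ∃ (b : V) (i : W), b ≤ x ∧ k (b, i) = c) := by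
        have h1 : MF M (fun q : (V × V) × W => k (q.1.2, q.2)) :=
          mf_comp M (g := k) (f := fun q : (V × V) × W => (q.1.2, q.2)) hk (by fun_prop)
        fun_prop
      obtain ⟨B, hB⟩ := IsOm2T.bdd hW hV h3 h2
      obtain ⟨y, hy⟩ := IsOm2T.noMax hW hV x
      exact ⟨max y B, lt_max_of_lt_left hy, fun b i hb => lt_max_of_lt_right (hB _ ⟨b, i, hb, rfl⟩)⟩)
  -- the sequence `d`
  have hΦ : MF M (fun p : (W × PM M (W × V)) × V => ∀ (j : W) (b : V), (j, b) ∈ p.1.2 → H b < p.2) := by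
    fun_prop
  obtain ⟨d, hd, hd'⟩ := exists_tdc (M := M) (W := W) (α := V) (r := fun a b : W => a < b)
    WO.mf (WO.wf (M := M) (W := W)).wf (fun a b c => lt_trans)
    (Φ := fun (i : W) (s : PM M (W × V)) (a : V) => ∀ (j : W) (b : V), (j, b) ∈ s → H b < a)
    hΦ (by
      intro w s g _ hs _
      have h1 : MCov M W (fun b : V => ∃ j, (j, b) ∈ s) :=
        ⟨s, fun i a b ha hb => ((hs _).1 ha).2.symm.trans ((hs _).1 hb).2, fun a ha => ha⟩
      have h2 : MCov M W (fun c : V => ∃ b, (∃ j, (j, b) ∈ s) ∧ H b = c) :=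
        MCov.image h1 hH fun c ⟨b, hb, hc⟩ => ⟨b, hb, hc⟩
      have h3 : MF M (fun c : V => ∃ b : V, (∃ j : W, (j, b) ∈ s) ∧ H b = c) := by fun_prop
      obtain ⟨B, hB⟩ := IsOm2T.bdd hW hV h3 h2
      exact ⟨B, fun j b hb => hB _ ⟨b, ⟨j, hb⟩, rfl⟩⟩)
  have hdlt : ∀ i j : W, j < i → H (d j) < d i := by
    intro i j hij
    exact hd' i (PM.of (fun p : W × V => p.1 < i ∧ d p.1 = p.2) (by fun_prop)) (fun p => Iff.rfl) j (d j)
      ⟨hij, rfl⟩
  have hdmono : ∀ i j : W, j < i → d j < d i := fun i j hij => (hH' (d j)).1.trans (hdlt i j hij)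
  -- the supremum `δ`
  have hran : MCov M W (fun b : V => ∃ i, d i = b) := MCov.of_enum hd fun a ha => ha
  obtain ⟨B, hB⟩ := IsOm2T.bdd hW hV (by fun_prop) hran
  obtain ⟨δ, hδ, hδmin⟩ := exists_min (WO.wf (M := M) (W := V)).wf
    (P := fun x : V => ∀ i, d i ≤ x) ⟨B, fun i => (hB _ ⟨i, rfl⟩).le⟩
  have hlt : ∀ i, d i < δ := by
    intro i
    obtain ⟨j, hj⟩ := hW.noMax i
    exact (hdmono j i hj).trans_le (hδ j)
  have hex : ∀ x, x < δ → ∃ i, x < d i := by
    intro x hx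
    have h1 := hδmin x hx
    push Not at h1
    exact h1
  obtain ⟨b, hb, i, hbi⟩ := h δ (by
    intro s hs hsc hsδ
    obtain ⟨ξ, hξ, hξ'⟩ := exists_choose (M := M) (α := V) (β := W)
      (R := fun x i => s x → x < d i) (by fun_prop) (by
        intro x
        by_cases hx : s x
        · obtain ⟨i, hi⟩ := hex x (hsδ x hx)
          exact ⟨i, fun _ => hi⟩
        · exact ⟨Classical.arbitrary W, fun h => (hx h).elim⟩)
    have h1 : MCt M (fun i : W => ∃ x, s x ∧ ξ x = i) :=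
      MCov.image hsc hξ fun c ⟨x, hx, hc⟩ => ⟨x, hx, hc⟩
    obtain ⟨l, hl⟩ := hW.bdd (P := fun i : W => ∃ x, s x ∧ ξ x = i) (by fun_prop) h1
    exact ⟨d l, hlt l, fun x hx => (hξ' x hx).trans (hdmono l (ξ x) (hl _ ⟨x, hx, rfl⟩))⟩)
  obtain ⟨j, hj⟩ := hex b hb
  obtain ⟨j', hj'⟩ := hW.noMax j
  exact hk' (b, i) δ (((hH' (d j)).2 b i hj.le).trans ((hdlt j' j hj').trans (hlt j'))) hbi

end

end HM
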