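import Pool.Agent.HM_h27.BChain
import Pool.Agent.HM_h27.BDefs
import Pool.Agent.HM_h27.OmB

/-!
# HM, large weight: the chain and one countable subfamily
-/

namespace HM

open HESR Topology

universe u v w v1 v2 v3 v4

set_option linter.unusedVariables false
set_option linter.unusedSectionVars false

section
variable {M : Type u} [ZFM M]
variable {W : Type v3} [IT M W] [LinearOrder W] [WO M W]
variable {V : Type v4} [IT M V] [LinearOrder V] [WO M V]
variable {X : Type v} [IT M X] [TopologicalSpace X] [MTop M X] [MCpt M X] [MPerf M X]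
variable {R : Type w} [IT M R] [LinearOrder R] [RealLine M R] [TopologicalSpace R] [OrderTopology R]
  [DenselyOrdered R] [NoMinOrder R] [NoMaxOrder R] [Nonempty R]

/-- The classes of a point: countably many functions suffice.

PROOF. `exists_lindelof` for the open sets `{y | (C i).1 y < (C i).1 x ∨ (C i).1 x < (C i).1 y}`. -/
theorem countable_fibre {C : W → CX M X R} (hC : MF M C) (x : X) :
    ∃ J : W → Prop, MF M J ∧ MCt M J ∧
      ∀ y, (∀ i, J i → (C i).1 y = (C i).1 x) → ∀ i, (C i).1 y = (C i).1 x := by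
  obtain ⟨J, hJ, hJc, -, hJU⟩ := exists_lindelof (M := M) (X := X) (ι := W) (Q := fun _ => True)
    (mf_const M True) (U := fun i => (ltS (C i) ((C i).1 x)).union (gtS (C i) ((C i).1 x)))
    (by fun_prop) (fun i _ => (op_ltS _ _).union (op_gtS _ _))
  refine ⟨J, hJ, hJc, fun y hy i => ?_⟩
  by_contra hne
  have h1 : y ∈ (ltS (C i) ((C i).1 x)).union (gtS (C i) ((C i).1 x)) := lt_or_gt_of_ne hne
  obtain ⟨j, hj, hyj⟩ := hJU y i trivial h1
  rcases hyj with h2 | h2
  · exact absurd (hy j hj) (ne_of_lt h2)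
  · exact absurd (hy j hj) (ne_of_gt h2)

/-- The chain and one countable subfamily (internal form of `chain` in
`Pool/Agent/W_3b51b4_h27/Chain.lean`).

PROOF. Take `en` from `exists_en` (as `MFun`), `f0` a constant function, `C, x, y` from `chain_rec`. The families
are increasing. Apply `press` to `P b i a := b < a ∧ ∀ y, Eqv (seqOf en (C b) i) y (x a) →
∀ j, (C a j).1 y = (C a j).1 (x a)`. Hypothesis: let all countable sets below `a` be bounded below `a`.
`countable_fibre` gives a countable `J : W → Prop`; every `C a j`, `J j`, is `f0` or in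
`Gam (C b) (x b) (y b)` for some `b < a`, choose `b = β j` (`exists_choose`; for `f0` any `b < a`, which exists by the
hypothesis for the empty set); by the hypothesis all `β j` are below some `b < a`, so `C a j` is in the range of
`C b` (for `b' < b` the family `Gam (C b') ..` is contained in the range of `C b`; `f0` also), choose `ι j : W` with
`C b (ι j) = C a j`, and (`IsOm1T.bdd`) `i : W` above all `ι j`, `J j`. Then `P b i a`. So there are `b, i` such that
`{a | P b i a}` is unbounded, hence not covered by `W` (`IsOm2T.not_cov`). Put `D := seqOf en (C b) i`,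
`A a := P b i a`. The functions `D n` are in the range of `C b`, hence of `C a` for `a > b`; `Φ D n` is in
`Gam (C b) ..`, hence in the range of `C a`. -/
theorem exists_chain (hW : IsOm1T M W) (hV : IsOm2T M W V)
    (hns : ∀ C : W → CX M X R, MF M C → ∃ x y : X, x ≠ y ∧ ∀ i, (C i).1 x = (C i).1 y)
    {g : X → ℕ → CX M X R} (hg : MF M (fun p : X × ℕ => g p.1 p.2))
    {Φ : MFun M ℕ (CX M X R) → ℕ → CX M X R}
    (hΦ : MF M (fun p : MFun M ℕ (CX M X R) × ℕ => Φ p.1 p.2)) :
    ∃ (D : MFun M ℕ (CX M X R)) (A : V → Prop) (x y : V → X) (C : V → MFun M W (CX M X R)),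
      MF M A ∧ MF M x ∧ MF M y ∧ MF M C ∧ ¬ MCov M W A ∧
      (∀ a, x a ≠ y a) ∧ (∀ a, A a → Eqv D (x a) (y a)) ∧
      (∀ a, A a → ∀ i z, Eqv D z (x a) → (C a i).1 z = (C a i).1 (x a)) ∧
      (∀ a, A a → ∀ n, ∃ i, C a i = Φ D n) ∧ (∀ a, A a → ∀ n, ∃ i, C a i = D n) ∧
      (∀ a b, b < a → ∀ n, (∃ i, C a i = g (x b) n) ∧ ∃ i, C a i = g (y b) n) ∧
      (∀ a b, b ≤ a → ∀ i, ∃ j, C a j = C b i) := by
  have hneW : Nonempty W := OmB_ne hW
  have hneV : Nonempty V := OmB_neV hV
  obtain ⟨r0⟩ := ‹Nonempty R›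
  obtain ⟨en0, hen0, -, hen2⟩ := hW.exists_en
  obtain ⟨en, hen⟩ : ∃ en : MFun M (W × ℕ) W, ∀ i n, en (i, n) = en0 i n :=
    ⟨⟨fun p => en0 p.1 p.2, hen0⟩, fun _ _ => rfl⟩
  have f0 : CX M X R := ⟨⟨fun _ => r0, mf_const M r0⟩,
    (continuous_const : Continuous (fun _ : X => r0))⟩
  obtain ⟨C, x, y, hC, hx, hy, hxy, hCxy, hrec⟩ := chain_rec hW hV hns hg hΦ en f0
  have hF1 : ∀ a, ∃ i, C a i = f0 := fun a => (hrec a f0).2 (Or.inl rfl)
  have hF2 : ∀ a b, b < a → ∀ f, Gam en g Φ (C b) (x b) (y b) f → ∃ i, C a i = f :=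
    fun a b hb f hf => (hrec a f).2 (Or.inr ⟨b, hb, hf⟩)
  have hF3 : ∀ a b, b ≤ a → ∀ i, ∃ j, C a j = C b i := by
    intro a b hb i
    rcases lt_or_eq_of_le hb with h1 | h1
    · exact hF2 a b h1 _ (Or.inl ⟨i, rfl⟩)
    · rw [h1]
      exact ⟨i, rfl⟩
  have hsm := mf_seqOf (M := M) (X := X) (R := R) en
  have hseq : MF M (fun q : V × W => seqOf en (C q.1) q.2) :=
    mf_comp M (g := fun q : MFun M W (CX M X R) × W => seqOf en q.1 q.2)
      (f := fun q : V × W => (C q.1, q.2)) hsm (by fun_prop)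
  have hP : MF M (fun q : (V × W) × V => q.1.1 < q.2 ∧ ∀ z, Eqv (seqOf en (C q.1.1) q.1.2) z (x q.2) →
      ∀ j, (C q.2 j).1 z = (C q.2 j).1 (x q.2)) := by
    have h1 : MF M (fun q : ((V × W) × V) × X => seqOf en (C q.1.1.1) q.1.1.2) :=
      mf_comp M (g := fun q : V × W => seqOf en (C q.1) q.2)
        (f := fun q : ((V × W) × V) × X => q.1.1) hseq (by fun_prop)
    fun_prop
  obtain ⟨b, i, hbi⟩ := press (P := fun b i a => b < a ∧ ∀ z, Eqv (seqOf en (C b) i) z (x a) →
      ∀ j, (C a j).1 z = (C a j).1 (x a)) hW hV hP (by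
    intro a ha
    obtain ⟨J, hJ, hJc, hJ'⟩ := countable_fibre (M := M) (C := fun j => C a j) (by fun_prop) (x a)
    obtain ⟨β, hβ, hβ'⟩ := exists_choose (M := M) (α := W) (β := V)
      (R := fun j b => b < a ∧ ∃ i, C b i = C a j) (by fun_prop) (by
        intro j
        rcases (hrec a (C a j)).1 ⟨j, rfl⟩ with h1 | ⟨b, hb, h1⟩
        · obtain ⟨b, hb, -⟩ := ha (fun _ => False) (mf_const M False) (MCov.empty fun _ h => h)
            (fun _ h => h.elim)
          obtain ⟨i, hi⟩ := hF1 b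
          exact ⟨b, hb, i, hi.trans h1.symm⟩
        · obtain ⟨b', hb', hbb⟩ := ha (fun c => c = b) (by fun_prop)
            (mct_finite (Set.finite_singleton b)) (fun c hc => by rw [hc]; exact hb)
          exact ⟨b', hb', hF2 b' b (hbb b rfl) _ h1⟩)
    obtain ⟨b, hb, hbs⟩ := ha (fun c => ∃ j, J j ∧ β j = c) (by fun_prop)
      (MCov.image hJc hβ fun c hc => hc) (by
        rintro c ⟨j, -, rfl⟩
        exact (hβ' j).1)
    obtain ⟨ι, hι, hι'⟩ := exists_choose (M := M) (α := W) (β := W)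
      (R := fun j i => J j → C b i = C a j) (by fun_prop) (by
        intro j
        by_cases hj : J j
        · obtain ⟨i, hi⟩ := (hβ' j).2
          obtain ⟨k, hk⟩ := hF3 b (β j) (hbs _ ⟨j, hj, rfl⟩).le i
          exact ⟨k, fun _ => hk.trans hi⟩
        · exact ⟨Classical.arbitrary W, fun h => absurd h hj⟩)
    obtain ⟨k, hk⟩ := hW.bdd (P := fun i : W => ∃ j, J j ∧ ι j = i) (by fun_prop)
      (MCov.image hJc hι fun c hc => hc)
    refine ⟨b, hb, k, hb, fun z hz => hJ' z fun j hj => ?_⟩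
    obtain ⟨n, hn⟩ := hen2 k (ι j) (hk _ ⟨j, hj, rfl⟩).le
    have h1 := hz n
    have h2 : seqOf en (C b) k n = C a j := by
      show C b (en (k, n)) = C a j
      rw [hen, hn]
      exact hι' j hj
    rw [h2] at h1
    exact h1)
  have hA : MF M (fun a : V => b < a ∧ ∀ z, Eqv (seqOf en (C b) i) z (x a) →
      ∀ j, (C a j).1 z = (C a j).1 (x a)) := by fun_prop
  have hD : ∀ n, seqOf en (C b) i n = C b (en (i, n)) := fun n => rfl
  refine ⟨seqOf en (C b) i, fun a => b < a ∧ ∀ z, Eqv (seqOf en (C b) i) z (x a) →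
      ∀ j, (C a j).1 z = (C a j).1 (x a), x, y, C, hA, hx, hy, hC, ?_, hxy, ?_, ?_, ?_, ?_, ?_, hF3⟩
  · exact IsOm2T.not_cov hW hV hA fun c => by
      obtain ⟨a, ha1, ha2⟩ := hbi c
      exact ⟨a, ha2, ha1⟩
  · intro a ha n
    obtain ⟨j, hj⟩ := hF3 a b ha.1.le (en (i, n))
    rw [hD, ← hj]
    exact hCxy a j
  · intro a ha j z hz
    exact ha.2 z hz j
  · intro a ha n
    exact hF2 a b ha.1 _ (Or.inr (Or.inr ⟨i, n, rfl⟩))
  · intro a ha n
    exact hF3 a b ha.1.le (en (i, n))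
  · intro a b' hb' n
    exact ⟨hF2 a b' hb' _ (Or.inr (Or.inl ⟨n, Or.inl rfl⟩)),
      hF2 a b' hb' _ (Or.inr (Or.inl ⟨n, Or.inr rfl⟩))⟩

end

end HM
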