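import Pool.Agent.HM_h27.BQuo

/-!
# HM, large weight: the closures of the killer sets form a point-countable family
-/

namespace HM

open HESR Topology

universe u v w v1 v2 v3 v4

set_option linter.unusedVariables false
set_option linter.unusedSectionVars false

section
variable {M : Type u} [ZFM M]
variable {W : Type v3} [IT M W] [LinearOrder W] [WO M W]
variable {V : Type v4} [IT M V] [LinearOrder V] [WO M V]
variable {X : Type v} [IT M X] [TopologicalSpace X] [MTop M X] [T2Space X] [MCpt M X] [MPerf M X]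
variable {R : Type w} [IT M R] [LinearOrder R] [RealLine M R] [TopologicalSpace R] [OrderTopology R]
  [DenselyOrdered R] [NoMinOrder R] [NoMaxOrder R] [Nonempty R]
variable {L : Thr R} {G : Fns M X R L} (S : HSet M X R W V L G)

/-- the relation `S.Rel k a` as a set of the model in the quotient -/
noncomputable def HSet.relQ (k : ℕ × (ℕ × ℕ)) (a : V) : PM M (Quo S.D) :=
  PM.of (fun m : Quo S.D => S.Rel k a m)
    (mf_section (M := M) (R := fun (q : (ℕ × (ℕ × ℕ)) × V) (m : X) => S.Rel q.1 q.2 m) S.mf_Rel (k, a))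

/-- PROOF. `mf_PM_iff` and `S.mf_Rel` (up to definitional unfolding of `Quo`). -/
theorem HSet.mf_relQ : MF M (fun q : (ℕ × (ℕ × ℕ)) × V => S.relQ q.1 q.2) := by
  rw [mf_PM_iff]
  exact S.mf_Rel

/-- Internal form of `Setup.countable_closure` in `Pool/Agent/W_3b51b4_h27/Count.lean`.

PROOF. Suppose that the set `T` of these `a` is not countable. By `exists_mem_of_unct` for `x := S.x` and
`U a := ltS (G.g (S.x a) n1) l1`, where `k = (k0, (n1, n2))`, there are `b < a` in `T` with
`(g (x b) n1).1 (x a) < l1`; by `g_const` and `eqv` also `(g (x b) n1).1 (y a) < l1`. Both `a`, `b` are `k0`-good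
(otherwise `Rel k a` is empty, and so is its closure). The open set
`V0 := ltS (g (x b) n1) l1 ∩ ltS (g (y a) n2) l1` contains `y a`; by `g_base` there is `n'` with
`ltS (g (y a) n') l3 ⊆ V0`. As `a` is `k0`-good, `¬ Bad k0 (y a) n'`: there is `r0` of colour `k0` with class in
`ltS (g (y a) n') l2 ⊆ V0`; by the third part of `OcaP` there is `e = S.e n` with `Pr`, colour `k0` and class in
`V0`. If `r` has colour `k0` and kills `b` with `(n1, n2)`, then `F r < l1` on the class of `e.1`, so by the second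
part of `OcaP` (for `r`, `e`) the class of `r.1` is not contained in `{F e < l2}`; hence
`Rel k b ⊆ hull {y | l2 ≤ F e y}`, closed in the quotient (`quo_hull_closed`), and so is the closure. If `r`
kills `a` with `(n1, n2)` then `l2 < F r` on the class of `e.1` (which is contained in `ltS (g (y a) n2) l1`), so by
the first part the class of `r.1` is not contained in `{l1 < F e}`: the closure of `Rel k a` is contained in
`hull {y | F e y ≤ l1}`. So there are `t, t'` equivalent to `x a'` with `l2 ≤ F e t`, `F e t' ≤ l1`; but `F e`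
is some `C i` (`F_mem`) and constant on the class of `x a'` (`C_const`): contradiction. -/
theorem HSet.count (a' : V) (ha' : S.Q a') (k : ℕ × (ℕ × ℕ)) :
    MCt M (fun a => S.Q a ∧ InCl (show Quo S.D from S.x a') (S.relQ k a)) := by
  obtain ⟨k0, n1, n2⟩ := k
  by_contra hc
  have hQ := S.Q_mf
  have hx := S.x_mf
  have hrel : MF M (fun a : V => S.relQ (k0, (n1, n2)) a) :=
    mf_comp M (g := fun q : (ℕ × (ℕ × ℕ)) × V => S.relQ q.1 q.2)
      (f := fun a : V => ((k0, (n1, n2)), a)) S.mf_relQ (by fun_prop)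
  have hT : MF M (fun a : V => S.Q a ∧
      InCl (show Quo S.D from S.x a') (S.relQ (k0, (n1, n2)) a)) := by fun_prop
  have hg : MF M (fun a : V => G.g (S.x a) n1) :=
    mf_comp M (g := fun p : X × ℕ => G.g p.1 p.2) (f := fun a : V => (S.x a, n1)) G.g_mf
      (by fun_prop)
  have hU : MF M (fun a : V => ltS (G.g (S.x a) n1) L.l1) := by fun_prop
  obtain ⟨a, b, ⟨haQ, haC⟩, ⟨hbQ, hbC⟩, hba, hxab⟩ := exists_mem_of_unct (M := M) (X := X)
    hT hc hx hU (fun a _ => op_ltS _ _) (fun a _ => by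
      show (G.g (S.x a) n1).1 (S.x a) < L.l1
      rw [G.g_at]
      exact L.h01)
  have hxab' : (G.g (S.x b) n1).1 (S.x a) < L.l1 := hxab
  have hyab : (G.g (S.x b) n1).1 (S.y a) < L.l1 := by
    rw [S.g_const a b haQ hbQ hba n1 (S.y a) (S.eqv a haQ).symm]
    exact hxab'
  have haG : S.Good k0 a := by
    have h1 : (closure (S.relQ (k0, (n1, n2)) a).set).Nonempty := ⟨_, haC⟩
    obtain ⟨m, hm⟩ := closure_nonempty_iff.1 h1
    exact (show S.Rel (k0, (n1, n2)) a m from hm).1
  set V0 : PM M X := (ltS (G.g (S.x b) n1) L.l1).inter (ltS (G.g (S.y a) n2) L.l1) with hV0def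
  have hV0 : Op V0 := (op_ltS _ _).inter (op_ltS _ _)
  have hzV : S.y a ∈ V0 := by
    refine ⟨hyab, ?_⟩
    show (G.g (S.y a) n2).1 (S.y a) < L.l1
    rw [G.g_at]
    exact L.h01
  obtain ⟨n', hn'⟩ := G.g_base (S.y a) V0.set hV0 hzV
  obtain ⟨r0, hr0, hr0k, hr0F⟩ := not_not.1 (haG n').2
  obtain ⟨n, he, hek, heF⟩ := S.oca.2.2 V0 hV0 r0 hr0 (fun y hy =>
    hn' y ((show (G.g (S.y a) n').1 y < L.l2 from hr0F y hy).trans L.h23))
  have hcont := (G.F (S.e n)).cont
  let K1 : PM M X := PM.of (fun y => L.l2 ≤ (G.F (S.e n)).1 y) (by fun_prop)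
  let K2 : PM M X := PM.of (fun y => (G.F (S.e n)).1 y ≤ L.l1) (by fun_prop)
  have hK1 : Cld K1 := isClosed_Ici.preimage hcont
  have hK2 : Cld K2 := isClosed_Iic.preimage hcont
  have hcl1 : closure (S.relQ (k0, (n1, n2)) b).set ⊆ {y : Quo S.D | ∃ x, x ∈ K1 ∧ Eqv S.D x y} := by
    refine closure_minimal ?_ (quo_hull_closed S.D hK1)
    intro m hm
    obtain ⟨_, r, hr, hrk, hrK, hmr⟩ := (show S.Rel (k0, (n1, n2)) b m from hm)
    by_contra hcon
    refine S.oca.2.1 r (S.e n) hr he (by rw [hrk, hek, hr0k]) ?_ ?_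
    · intro y hy
      show (G.F r).1 y < L.l2
      exact (hrK.1 y (heF y hy).1).trans L.h12
    · intro y hy
      show (G.F (S.e n)).1 y < L.l2
      by_contra h2
      exact hcon ⟨y, not_lt.1 h2, hy.trans (Eqv.symm hmr)⟩
  have hcl2 : closure (S.relQ (k0, (n1, n2)) a).set ⊆ {y : Quo S.D | ∃ x, x ∈ K2 ∧ Eqv S.D x y} := by
    refine closure_minimal ?_ (quo_hull_closed S.D hK2)
    intro m hm
    obtain ⟨_, r, hr, hrk, hrK, hmr⟩ := (show S.Rel (k0, (n1, n2)) a m from hm)
    by_contra hcon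
    refine S.oca.1 r (S.e n) hr he (by rw [hrk, hek, hr0k]) ?_ ?_
    · intro y hy
      show L.l1 < (G.F r).1 y
      exact L.h12.trans (hrK.2 y (heF y hy).2)
    · intro y hy
      show L.l1 < (G.F (S.e n)).1 y
      by_contra h2
      exact hcon ⟨y, not_lt.1 h2, hy.trans (Eqv.symm hmr)⟩
  obtain ⟨t, ht1, ht2⟩ := hcl1 hbC
  obtain ⟨t', ht1', ht2'⟩ := hcl2 haC
  obtain ⟨i, hi⟩ := S.F_mem n
  have e1 := S.C_const i a' ha' t ht2
  have e2 := S.C_const i a' ha' t' ht2'
  rw [hi] at e1 e2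
  have h1 : L.l2 ≤ (G.F (S.e n)).1 t := ht1
  have h2 : (G.F (S.e n)).1 t' ≤ L.l1 := ht1'
  rw [e1] at h1
  rw [e2] at h2
  exact absurd (h1.trans h2) (not_le.2 L.h12)

end

end HM
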