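import Pool.Agent.HM_h27.BDefs

/-!
# HM, large weight: two lemmas on the set-up
-/

namespace HM

open HESR Topology

universe u v w v1 v2 v3 v4

set_option linter.unusedVariables false
set_option linter.unusedSectionVars false

section
variable {M : Type u} [ZFM M]
variable {W : Type} [IT M W] [LinearOrder W] [WO M W]
variable {V : Type v4} [IT M V] [LinearOrder V] [WO M V]
variable {X : Type v} [IT M X] [TopologicalSpace X] [MTop M X] [T2Space X] [MCpt M X] [MPerf M X]
variable {R : Type w} [IT M R] [LinearOrder R] [RealLine M R] [TopologicalSpace R] [OrderTopology R]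
  [DenselyOrdered R] [NoMinOrder R] [NoMaxOrder R] [Nonempty R]
variable {L : Thr R} {G : Fns M X R L} (S : HSet M X R W V L G)

theorem HSet.BDiscA_not_lt {a b : V} (ha : S.Q a) (hb : S.Q b) (hlt : b < a)
    (h : Eqv S.D (S.x b) (S.x a)) : False := by
  have hy : Eqv S.D (S.y b) (S.x a) := (S.eqv b hb).symm.trans h
  have hval : ∀ n, (G.g (S.x b) n).1 (S.y b) = L.l0 := by
    intro n
    rw [S.g_const a b ha hb hlt n _ hy, ← S.g_const a b ha hb hlt n _ h]
    exact G.g_at _ _
  obtain ⟨n, hn⟩ := G.g_base (S.x b) {S.y b}ᶜ isOpen_compl_singleton (S.ne b hb)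
  have h03 : L.l0 < L.l3 := L.h01.trans (L.h12.trans L.h23)
  exact hn (S.y b) (by rw [hval n]; exact h03) rfl

/-- The classes of the pairs are distinct.

PROOF. Let `b < a` and `Eqv D (x b) (x a)`. All `g (x b) n` are constant on the class of `x a` (`g_const`), which
contains `x b` and `y b` (`eqv`). So `(g (x b) n).1 (y b) = l0 < l3` for all `n`, and `y b = x b` by `g_base` (take
the complement of `{y b}`), contradiction to `ne`. -/
theorem HSet.inj {a b : V} (ha : S.Q a) (hb : S.Q b) (h : Eqv S.D (S.x a) (S.x b)) : a = b := by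
  rcases lt_trichotomy a b with h1 | h1 | h1
  · exact (S.BDiscA_not_lt hb ha h1 h).elim
  · exact h1
  · exact (S.BDiscA_not_lt ha hb h1 h.symm).elim

/-- A pair of colour `k` on whose class all functions `C i` are constant has a neighbourhood without pairs
`(x a, y a)` close to a witness.

PROOF. `g := G.g (wx k j) (wn k j)` is some `C i`, so constant on the class of `r.1`, which contains `r.2`. If
`g r.1 < l2` the class would be contained in `ltS g l2`, against `Bad`. So `l2 ≤ g r.1 = g r.2`; take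
`U := V := gtS g l1`. -/
theorem HSet.witness_nhds (r : X × X) (hr : Pr S.D r)
    (hconst : ∀ i z, Eqv S.D z r.1 → (S.C i).1 z = (S.C i).1 r.1) (j : ℕ)
    (hbad : Bad G S.D S.c (S.c r) (S.wx (S.c r) j) (S.wn (S.c r) j))
    (hC : ∃ i, S.C i = G.g (S.wx (S.c r) j) (S.wn (S.c r) j)) :
    ∃ U U' : PM M X, Op U ∧ Op U' ∧ r.1 ∈ U ∧ r.2 ∈ U' ∧ ∀ z, z ∈ U ∨ z ∈ U' →
      ¬ (G.g (S.wx (S.c r) j) (S.wn (S.c r) j)).1 z < L.l1 := by
  obtain ⟨i, hi⟩ := hC
  have hc : ∀ z, Eqv S.D z r.1 → (G.g (S.wx (S.c r) j) (S.wn (S.c r) j)).1 z =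
      (G.g (S.wx (S.c r) j) (S.wn (S.c r) j)).1 r.1 := by
    intro z hz
    rw [← hi]
    exact hconst i z hz
  have h2 : L.l2 ≤ (G.g (S.wx (S.c r) j) (S.wn (S.c r) j)).1 r.1 := by
    by_contra hlt
    rw [not_le] at hlt
    refine hbad ⟨r, hr, rfl, fun y hy => ?_⟩
    rw [mem_ltS, hc y hy]
    exact hlt
  have h3 := hc r.2 hr.2.symm
  refine ⟨gtS (G.g (S.wx (S.c r) j) (S.wn (S.c r) j)) L.l1, gtS (G.g (S.wx (S.c r) j) (S.wn (S.c r) j)) L.l1,
    op_gtS _ _, op_gtS _ _, ?_, ?_, fun z hz => ?_⟩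
  · rw [mem_gtS]
    exact L.h12.trans_le h2
  · rw [mem_gtS, h3]
    exact L.h12.trans_le h2
  · rcases hz with hz | hz <;> exact not_lt.2 (mem_gtS.1 hz).le

end

end HM
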