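import Pool.Agent.HM_h27.OmA

/-!
# HM: free sets for set mappings with countable values
-/

namespace HM

open HESR

universe u v w v1 v2 v3 v4

set_option linter.unusedVariables false
set_option linter.unusedSectionVars false

section
variable {M : Type u} [ZFM M]
variable {W : Type v3} [IT M W] [LinearOrder W] [WO M W]
variable {V : Type v4} [IT M V]

/-- A maximal free subset of every set, as a function of the model.

PROOF. For fixed `T` take a well-order `r` of `V` (`exists_wo`) and define by `exists_wfrec` (values in `Prop`)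
the characteristic function of `H`: `H x ↔ x ∈ T ∧ ∀ y, r y x → H y → ¬ Φ y x ∧ ¬ Φ x y`. Then choose `H` for
all `T` by `exists_choose` (the three conditions are a relation of the model). -/
theorem exists_maxfree {Φ : V → V → Prop} (hΦ : MF M (fun p : V × V => Φ p.1 p.2)) :
    ∃ H : PM M V → PM M V, MF M H ∧ ∀ T, (∀ x, x ∈ H T → x ∈ T) ∧
      (∀ x y, x ∈ H T → y ∈ H T → x ≠ y → ¬ Φ x y) ∧
      ∀ x, x ∈ T → ¬ x ∈ H T → ∃ y, y ∈ H T ∧ (Φ y x ∨ Φ x y) := by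
  classical
  have hex : ∀ T : PM M V, ∃ H : PM M V, (∀ x, x ∈ H → x ∈ T) ∧
      (∀ x y, x ∈ H → y ∈ H → x ≠ y → ¬ Φ x y) ∧
      ∀ x, x ∈ T → ¬ x ∈ H → ∃ y, y ∈ H ∧ (Φ y x ∨ Φ x y) := by
    intro T
    obtain ⟨r, hr, hwf, htr, htot⟩ := exists_wo M V
    have hT : MF M (fun q : V × PM M (V × Prop) => q.1 ∈ T) :=
      mf_mem (mf_fst M) (mf_const M T)
    have h1 : MF M (fun q : (V × PM M (V × Prop)) × V => Φ q.2 q.1.1) :=
      mf_comp M (g := fun p : V × V => Φ p.1 p.2)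
        (f := fun q : (V × PM M (V × Prop)) × V => (q.2, q.1.1)) hΦ (by fun_prop)
    have h2 : MF M (fun q : (V × PM M (V × Prop)) × V => Φ q.1.1 q.2) :=
      mf_comp M (g := fun p : V × V => Φ p.1 p.2)
        (f := fun q : (V × PM M (V × Prop)) × V => (q.1.1, q.2)) hΦ (by fun_prop)
    have h3 : MF M (fun q : (V × PM M (V × Prop)) × V => (q.2, True) ∈ q.1.2) :=
      mf_mem (mf_mk M (mf_snd M) (mf_const M True)) (by fun_prop)
    have hG : MF M (fun q : V × PM M (V × Prop) => q.1 ∈ T ∧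
        ∀ y, (y, True) ∈ q.2 → ¬ Φ y q.1 ∧ ¬ Φ q.1 y) :=
      mf_and hT (mf_all (mf_imp h3 (mf_and (mf_not h1) (mf_not h2))))
    obtain ⟨h, hh, hrec⟩ := exists_wfrec (α := Prop) hr hwf htr
      (G := fun x s => x ∈ T ∧ ∀ y, (y, True) ∈ s → ¬ Φ y x ∧ ¬ Φ x y) hG
    have hspec : ∀ w, h w ↔ (w ∈ T ∧ ∀ y, r y w → h y → ¬ Φ y w ∧ ¬ Φ w y) := by
      intro w
      have hs : MF M (fun p : V × Prop => r p.1 w ∧ h p.1 = p.2) := by
        refine mf_and ?_ ?_
        · exact mf_comp M (g := fun p : V × V => r p.1 p.2)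
            (f := fun p : V × Prop => (p.1, w)) hr (by fun_prop)
        · exact mf_eq (mf_comp M hh (mf_fst M)) (mf_snd M)
      have h4 := hrec w (PM.of _ hs) (fun p => Iff.rfl)
      rw [h4]
      constructor
      · rintro ⟨h5, h6⟩
        exact ⟨h5, fun y hy hy' => h6 y ⟨hy, eq_true hy'⟩⟩
      · rintro ⟨h5, h6⟩
        exact ⟨h5, fun y hy => h6 y hy.1 (of_eq_true hy.2)⟩
    refine ⟨PM.of h hh, ?_, ?_, ?_⟩
    · intro x hx
      exact ((hspec x).1 hx).1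
    · intro x y hx hy hxy
      rcases htot x y with h5 | h5 | h5
      · exact (((hspec y).1 hy).2 x h5 hx).1
      · exact absurd h5 hxy
      · exact (((hspec x).1 hx).2 y h5 hy).2
    · intro x hx hxH
      by_contra hcon
      push Not at hcon
      exact hxH ((hspec x).2 ⟨hx, fun y _ hy => hcon y hy⟩)
  have hA : MF M (fun q : PM M V × PM M V => ∀ x, x ∈ q.2 → x ∈ q.1) := by fun_prop
  have hB : MF M (fun q : PM M V × PM M V => ∀ x y, x ∈ q.2 → y ∈ q.2 → x ≠ y → ¬ Φ x y) := by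
    refine mf_all (R := fun (q : PM M V × PM M V) (x : V) => ∀ y, x ∈ q.2 → y ∈ q.2 → x ≠ y →
      ¬ Φ x y) ?_
    refine mf_all (R := fun (q : (PM M V × PM M V) × V) (y : V) => q.2 ∈ q.1.2 → y ∈ q.1.2 →
      q.2 ≠ y → ¬ Φ q.2 y) ?_
    have h1 : MF M (fun q : ((PM M V × PM M V) × V) × V => Φ q.1.2 q.2) :=
      mf_comp M (g := fun p : V × V => Φ p.1 p.2)
        (f := fun q : ((PM M V × PM M V) × V) × V => (q.1.2, q.2)) hΦ (by fun_prop)
    exact mf_imp (by fun_prop) (mf_imp (by fun_prop) (mf_imp (by fun_prop) (mf_not h1)))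
  have hC : MF M (fun q : PM M V × PM M V => ∀ x, x ∈ q.1 → ¬ x ∈ q.2 →
      ∃ y, y ∈ q.2 ∧ (Φ y x ∨ Φ x y)) := by
    refine mf_all (R := fun (q : PM M V × PM M V) (x : V) => x ∈ q.1 → ¬ x ∈ q.2 →
      ∃ y, y ∈ q.2 ∧ (Φ y x ∨ Φ x y)) ?_
    have h1 : MF M (fun q : ((PM M V × PM M V) × V) × V => Φ q.1.2 q.2) :=
      mf_comp M (g := fun p : V × V => Φ p.1 p.2)
        (f := fun q : ((PM M V × PM M V) × V) × V => (q.1.2, q.2)) hΦ (by fun_prop)
    have h2 : MF M (fun q : ((PM M V × PM M V) × V) × V => Φ q.2 q.1.2) :=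
      mf_comp M (g := fun p : V × V => Φ p.1 p.2)
        (f := fun q : ((PM M V × PM M V) × V) × V => (q.2, q.1.2)) hΦ (by fun_prop)
    have h3 : MF M (fun q : (PM M V × PM M V) × V => ∃ y, y ∈ q.1.2 ∧ (Φ y q.2 ∨ Φ q.2 y)) :=
      mf_ex (R := fun (q : (PM M V × PM M V) × V) (y : V) => y ∈ q.1.2 ∧ (Φ y q.2 ∨ Φ q.2 y))
        (mf_and (by fun_prop) (mf_or h2 h1))
    exact mf_imp (by fun_prop) (mf_imp (by fun_prop) h3)
  obtain ⟨H, hH, hHs⟩ := exists_choose (M := M) (α := PM M V) (β := PM M V)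
    (R := fun T H => (∀ x, x ∈ H → x ∈ T) ∧
      (∀ x y, x ∈ H → y ∈ H → x ≠ y → ¬ Φ x y) ∧
      ∀ x, x ∈ T → ¬ x ∈ H → ∃ y, y ∈ H ∧ (Φ y x ∨ Φ x y)) (mf_and hA (mf_and hB hC)) hex
  exact ⟨H, hH, hHs⟩

/-- Free sets (internal form of `free_set` in `Pool/Agent/W_3b51b4_h27/Free.lean`).

PROOF. If some free subset of `Q` in the model is not countable, it contains the range of an injection of `W`
(`IsOm1T.exists_inj`). Otherwise let `H` be as in `exists_maxfree`; all `H T`, `T ⊆ Q`, are countable. By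
`exists_wfrec`/`exists_tdc` along `W` there is `K : W → PM M V` in the model with
`K i = H {x | Q x ∧ ∀ j < i, ¬ x ∈ K j}`; the sets `K i` are countable and pairwise disjoint. The set
`{x | ∃ i a, a ∈ K i ∧ (x = a ∨ Φ a x)}` is covered by `W` (`MCov.iUnion`, `cov_sq`, `cov_of_mct`), so there is
`x` with `Q x` outside of it. By maximality for every `i` there is `a ∈ K i` with `Φ x a` (as
`Φ a x` is excluded). Choose them: `a : W → V` in the model (`exists_choose`), injective by disjointness, with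
values in the countable set `Φ x`: so `W` is countable, contradiction to `hW.unc`. -/
theorem free_set (hW : IsOm1T M W) {Q : V → Prop} (hQ : MF M Q) (hu : ¬ MCov M W Q)
    {Φ : V → V → Prop} (hΦ : MF M (fun p : V × V => Φ p.1 p.2)) (hc : ∀ a, Q a → MCt M (Φ a)) :
    ∃ e : W → V, MF M e ∧ Function.Injective e ∧ (∀ i, Q (e i)) ∧
      ∀ i j, i ≠ j → ¬ Φ (e i) (e j) := by
  classical
  by_cases hbig : ∃ F : V → Prop, MF M F ∧ (∀ x, F x → Q x) ∧
      (∀ x y, F x → F y → x ≠ y → ¬ Φ x y) ∧ ¬ MCt M F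
  · obtain ⟨F, hF, hFQ, hFf, hFc⟩ := hbig
    obtain ⟨e, he, hinj, heF⟩ := hW.exists_inj hF hFc
    exact ⟨e, he, hinj, fun i => hFQ _ (heF i), fun i j hij =>
      hFf _ _ (heF i) (heF j) fun h => hij (hinj h)⟩
  exfalso
  obtain ⟨H, hH, hHs⟩ := exists_maxfree (M := M) hΦ
  have hne : Nonempty (PM M V) := ⟨PM.of (fun _ => False) (mf_const M False)⟩
  -- the recursion
  have hR : MF M (fun q : (W × PM M (W × PM M V)) × V => Q q.2 ∧
      ∀ j A, (j, A) ∈ q.1.2 → ¬ q.2 ∈ A) := by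
    refine mf_and (mf_comp M hQ (mf_snd M)) ?_
    fun_prop
  obtain ⟨K, hK, hKrec⟩ := exists_wfrec (M := M) (W := W) (α := PM M V)
    (r := fun a b : W => a < b) WO.mf (WO.wf (M := M) (W := W)).wf (fun a b c => lt_trans)
    (G := fun w s => H (PM.sec (fun (q : W × PM M (W × PM M V)) (x : V) => Q x ∧
      ∀ j A, (j, A) ∈ q.2 → ¬ x ∈ A) hR (w, s))) (mf_comp M hH (mf_PMsec hR))
  have hTm : MF M (fun q : W × V => Q q.2 ∧ ∀ j, j < q.1 → ¬ q.2 ∈ K j) := by
    refine mf_and (mf_comp M hQ (mf_snd M)) ?_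
    fun_prop
  have hKs : ∀ w, K w = H (PM.sec (fun (w : W) (x : V) => Q x ∧ ∀ j, j < w → ¬ x ∈ K j) hTm w) := by
    intro w
    rw [hKrec w (PM.of (fun p : W × PM M V => p.1 < w ∧ K p.1 = p.2) (by fun_prop))
      (fun p => Iff.rfl)]
    congr 1
    refine PM.ext fun x => ?_
    rw [PM.mem_sec, PM.mem_sec]
    constructor
    · rintro ⟨h1, h2⟩
      exact ⟨h1, fun j hj => h2 j (K j) ⟨hj, rfl⟩⟩
    · rintro ⟨h1, h2⟩
      refine ⟨h1, fun j A hA => ?_⟩
      have hA' : j < w ∧ K j = A := hA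
      rw [← hA'.2]
      exact h2 j hA'.1
  have hK1 : ∀ i x, x ∈ K i → Q x ∧ ∀ j, j < i → ¬ x ∈ K j := by
    intro i x hx
    rw [hKs i] at hx
    exact (hHs _).1 x hx
  have hK2 : ∀ i x y, x ∈ K i → y ∈ K i → x ≠ y → ¬ Φ x y := by
    intro i x y hx hy
    rw [hKs i] at hx hy
    exact (hHs _).2.1 x y hx hy
  have hK3 : ∀ i x, Q x → (∀ j, j < i → ¬ x ∈ K j) → ¬ x ∈ K i →
      ∃ y, y ∈ K i ∧ (Φ y x ∨ Φ x y) := by
    intro i x h1 h2 h3
    rw [hKs i] at h3 ⊢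
    exact (hHs _).2.2 x ⟨h1, h2⟩ h3
  have hKc : ∀ i, MCt M (fun x => x ∈ K i) := by
    intro i
    by_contra hcon
    exact hbig ⟨fun x => x ∈ K i, (K i).mf', fun x hx => (hK1 i x hx).1, hK2 i, hcon⟩
  -- the covered set
  have hS : MCov M W (fun a : V => ∃ i : W, True ∧ a ∈ K i) :=
    MCov.iUnion hW.cov_sq (Q := fun _ : W => True) (P := fun (i : W) (a : V) => a ∈ K i)
      (mf_const M True) (by fun_prop) (MCov.of_enum (e := fun i : W => i) (mf_id M)
        fun a _ => ⟨a, rfl⟩) fun i _ => hW.cov_of_mct (hKc i)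
  have hU : MCov M W (fun x : V => ∃ a : V, (∃ i : W, True ∧ a ∈ K i) ∧ (x = a ∨ Φ a x)) := by
    refine MCov.iUnion hW.cov_sq (Q := fun a : V => ∃ i : W, True ∧ a ∈ K i)
      (P := fun (a : V) (x : V) => x = a ∨ Φ a x) (by fun_prop) ?_ hS ?_
    · exact mf_or (mf_eq (mf_snd M) (mf_fst M)) hΦ
    · rintro a ⟨i, _, ha⟩
      refine hW.cov_of_mct (Om_mct_or ?_ ?_ (mct_finite ?_) (hc a (hK1 i a ha).1))
      · exact mf_eq (mf_id M) (mf_const M a)
      · exact mf_section (R := fun a x => Φ a x) hΦ a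
      · exact Set.finite_singleton a
  obtain ⟨x, hx, hxU⟩ : ∃ x, Q x ∧ ¬ ∃ a : V, (∃ i : W, True ∧ a ∈ K i) ∧ (x = a ∨ Φ a x) := by
    by_contra hcon
    push Not at hcon
    refine hu (MCov.mono hU fun y hy => ?_)
    obtain ⟨a, ⟨i, hi⟩, ha⟩ := hcon y hy
    exact ⟨a, ⟨i, hi⟩, ha⟩
  have hxK : ∀ i, ¬ x ∈ K i := fun i hi => hxU ⟨x, ⟨i, trivial, hi⟩, Or.inl rfl⟩
  have hpick : ∀ i : W, ∃ y, y ∈ K i ∧ Φ x y := by
    intro i
    obtain ⟨y, hy, h1 | h1⟩ := hK3 i x hx (fun j _ => hxK j) (hxK i)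
    · exact absurd ⟨y, ⟨i, trivial, hy⟩, Or.inr h1⟩ hxU
    · exact ⟨y, hy, h1⟩
  have hΦx : MF M (Φ x) := mf_section (R := fun a x => Φ a x) hΦ x
  obtain ⟨a, ha, has⟩ := exists_choose (M := M) (α := W) (β := V)
    (R := fun i y => y ∈ K i ∧ Φ x y)
    (mf_and (by fun_prop) (mf_comp M hΦx (mf_snd M))) hpick
  have hlt : ∀ i j, i < j → a i ≠ a j := by
    intro i j hij heq
    refine (hK1 j (a j) (has j).1).2 i hij ?_
    rw [← heq]
    exact (has i).1
  have hainj : Function.Injective a := by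
    intro i j hij
    rcases lt_trichotomy i j with h1 | h1 | h1
    · exact absurd hij (hlt i j h1)
    · exact h1
    · exact absurd hij.symm (hlt j i h1)
  obtain ⟨g, hg1, hg2⟩ := hc x hx
  refine hW.unc ⟨PM.of (fun p : ℕ × W => (p.1, a p.2) ∈ g) (by fun_prop), ?_, ?_⟩
  · intro n i j h1 h2
    exact hainj (hg1 n _ _ h1 h2)
  · intro i _
    obtain ⟨n, hn⟩ := hg2 (a i) (has i).2
    exact ⟨n, hn⟩

end

end HM
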