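import Pool.Agent.HM_h27.GenC

/-!
# HM: the generic set, general data
-/

namespace HM

open HESR Topology

universe u v w v1 v2 v3 v4

set_option linter.unusedVariables false
set_option linter.unusedSectionVars false

section
variable {M : Type u} [ZFM M] {W : Type} [IT M W] [LinearOrder W] [WO M W]
variable {Y : Type v} [IT M Y] [TopologicalSpace Y] [MTop M Y] [RegularSpace Y]

/-- The basic property is a predicate of the model. -/
theorem GenD_mf_bas {U : ℕ → PM M Y} (hU : MF M U) {p : W → Y} (hp : MF M p) {idx : ℕ → W → ℕ}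
    (hidx : MF M (fun q : ℕ × W => idx q.1 q.2)) :
    MF M (fun q : (ℕ × Finset (ℕ × ℕ)) × W => p q.2 ∈ U q.1.1 ∧
      ∀ h, h ∈ q.1.2 → idx h.1 q.2 ≤ h.2) := by
  have h1 : MF M (fun q : ((ℕ × Finset (ℕ × ℕ)) × W) × (ℕ × ℕ) => idx q.2.1 q.1.2) :=
    mf_comp M (g := fun q : ℕ × W => idx q.1 q.2)
      (f := fun q : ((ℕ × Finset (ℕ × ℕ)) × W) × (ℕ × ℕ) => (q.2.1, q.1.2)) hidx (by fun_prop)
  fun_prop

/-- The set of all thin elements is in the model. -/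
theorem GenD_mf_thin {U : ℕ → PM M Y} (hU : MF M U) {p : W → Y} (hp : MF M p) {idx : ℕ → W → ℕ}
    (hidx : MF M (fun q : ℕ × W => idx q.1 q.2)) :
    MF M (fun a : W => ∃ c : ℕ × Finset (ℕ × ℕ),
      MCt M (fun b : W => p b ∈ U c.1 ∧ ∀ h, h ∈ c.2 → idx h.1 b ≤ h.2) ∧
      (p a ∈ U c.1 ∧ ∀ h, h ∈ c.2 → idx h.1 a ≤ h.2)) := by
  have h1 := GenD_mf_bas hU hp hidx
  have h2 : MF M (fun c : ℕ × Finset (ℕ × ℕ) =>
      MCt M (fun b : W => p b ∈ U c.1 ∧ ∀ h, h ∈ c.2 → idx h.1 b ≤ h.2)) :=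
    mf_MCov (P := fun (c : ℕ × Finset (ℕ × ℕ)) (b : W) => p b ∈ U c.1 ∧
      ∀ h, h ∈ c.2 → idx h.1 b ≤ h.2) h1
  have h3 : MF M (fun q : W × (ℕ × Finset (ℕ × ℕ)) =>
      MCt M (fun b : W => p b ∈ U q.2.1 ∧ ∀ h, h ∈ q.2.2 → idx h.1 b ≤ h.2)) :=
    mf_comp M (g := fun c : ℕ × Finset (ℕ × ℕ) =>
      MCt M (fun b : W => p b ∈ U c.1 ∧ ∀ h, h ∈ c.2 → idx h.1 b ≤ h.2))
      (f := fun q : W × (ℕ × Finset (ℕ × ℕ)) => q.2) h2 (mf_snd M)
  have h4 : MF M (fun q : W × (ℕ × Finset (ℕ × ℕ)) =>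
      p q.1 ∈ U q.2.1 ∧ ∀ h, h ∈ q.2.2 → idx h.1 q.1 ≤ h.2) :=
    mf_comp M (g := fun q : (ℕ × Finset (ℕ × ℕ)) × W => p q.2 ∈ U q.1.1 ∧
      ∀ h, h ∈ q.1.2 → idx h.1 q.2 ≤ h.2)
      (f := fun q : W × (ℕ × Finset (ℕ × ℕ)) => (q.2, q.1)) h1 (by fun_prop)
  exact mf_ex (mf_and h3 h4)

/-- The set of all thin elements is countable. -/
theorem GenD_mct_thin {U : ℕ → PM M Y} (hU : MF M U) {p : W → Y} (hp : MF M p) {idx : ℕ → W → ℕ}
    (hidx : MF M (fun q : ℕ × W => idx q.1 q.2)) :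
    MCt M (fun a : W => ∃ c : ℕ × Finset (ℕ × ℕ),
      MCt M (fun b : W => p b ∈ U c.1 ∧ ∀ h, h ∈ c.2 → idx h.1 b ≤ h.2) ∧
      (p a ∈ U c.1 ∧ ∀ h, h ∈ c.2 → idx h.1 a ≤ h.2)) := by
  have h1 := GenD_mf_bas hU hp hidx
  have h2 : MF M (fun c : ℕ × Finset (ℕ × ℕ) =>
      MCt M (fun b : W => p b ∈ U c.1 ∧ ∀ h, h ∈ c.2 → idx h.1 b ≤ h.2)) :=
    mf_MCov (P := fun (c : ℕ × Finset (ℕ × ℕ)) (b : W) => p b ∈ U c.1 ∧
      ∀ h, h ∈ c.2 → idx h.1 b ≤ h.2) h1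
  refine MCt.iUnion (Q := fun c : ℕ × Finset (ℕ × ℕ) =>
    MCt M (fun b : W => p b ∈ U c.1 ∧ ∀ h, h ∈ c.2 → idx h.1 b ≤ h.2))
    (P := fun (c : ℕ × Finset (ℕ × ℕ)) (b : W) => p b ∈ U c.1 ∧
      ∀ h, h ∈ c.2 → idx h.1 b ≤ h.2) h2 h1 ?_ fun c hc => hc
  have h3 : MCt M (fun _ : Finset (ℕ × ℕ) => True) :=
    MCov.mono (mct_finset (P := fun _ : ℕ × ℕ => True) (mf_const M True) mct_prod_nat)
      fun F _ a _ => trivial
  exact MCov.mono (mct_prod (P := fun _ : ℕ => True) mct_nat h3) fun c _ => ⟨trivial, trivial⟩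

/-- The generic set (compare `generic` in `Pool/Agent/W_3b51b4_h27/GenFin.lean`).

PROOF. Call `a` thin if for some `v : ℕ` and `H : Finset (ℕ × ℕ)` with `p a ∈ U v`, `∀ h ∈ H, idx h.1 a ≤ h.2` the
set of all `b` with the same property is countable (a predicate of the model, `mf_MCov`). The set of all thin `a`
is countable (`MCt.iUnion` over the countable type of pairs `(v, H)`), so the set `B` of the other elements is not
countable, and `thick` holds for it (an uncountable set minus a countable set). Apply `g_thick`. -/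
theorem g_generic (hMA : MAW M W) (hW : IsOm1T M W) {U : ℕ → PM M Y} (hU : MF M U)
    (hUo : ∀ n, Op (U n))
    (hUb : ∀ (y : Y) (O : Set Y), IsOpen O → y ∈ O → ∃ n, y ∈ U n ∧ closure (U n).set ⊆ O)
    {p : W → Y} (hp : MF M p) {R : ℕ × (ℕ × ℕ) → W → Y → Prop}
    (hR : MF M (fun q : ((ℕ × (ℕ × ℕ)) × W) × Y => R q.1.1 q.1.2 q.2))
    (hfree : ∀ a b, a ≠ b → ∀ k, p a ∉ closure {m | R k b m})
    {idx : ℕ → W → ℕ} (hidx : MF M (fun q : ℕ × W => idx q.1 q.2))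
    {J : Type} [IT M J] (hJ : MCov M W (fun _ : J => True)) {Z : J → PM M Y} (hZ : MF M Z)
    (hZc : ∀ j, Cld (Z j)) (hpZ : ∀ j a, ¬ p a ∈ Z j) :
    ∃ B' : W → Prop, MF M B' ∧ ¬ MCt M B' ∧
      (∀ j m, m ∈ closure {y | ∃ a, B' a ∧ p a = y} → ¬ m ∈ Z j) ∧
      (∀ k, ∃ N, ∀ a, B' a → idx k a ≤ N) ∧
      ∀ k a, B' a → ∀ m, m ∈ closure {y | ∃ a, B' a ∧ p a = y} → R k a m → Inseparable m (p a) := by
  let thin : W → Prop := fun a => ∃ c : ℕ × Finset (ℕ × ℕ),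
      MCt M (fun b : W => p b ∈ U c.1 ∧ ∀ h, h ∈ c.2 → idx h.1 b ≤ h.2) ∧
      (p a ∈ U c.1 ∧ ∀ h, h ∈ c.2 → idx h.1 a ≤ h.2)
  have hthin : MF M thin := GenD_mf_thin hU hp hidx
  have hthinc : MCt M thin := GenD_mct_thin hU hp hidx
  have hB0 : ∃ a, ¬ thin a := by
    by_contra hcon
    push Not at hcon
    exact hW.unc (MCov.mono hthinc fun a _ => hcon a)
  obtain ⟨B', h1, h2, h3, h4, h5, h6⟩ := g_thick (M := M) (W := W) (Y := Y) hMA hW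
    { U := U, U_mf := hU, U_open := hUo, U_base := hUb
      B := fun a => ¬ thin a
      B_mf := mf_not hthin
      p := p, p_mf := hp, R := R, R_mf := hR
      free := fun a b _ _ hab k => hfree a b hab k
      idx := idx, idx_mf := hidx
      thick := by
        intro v H a ha hav haH hc
        apply ha
        have hm : MF M (fun b : W => p b ∈ U v ∧ ∀ h, h ∈ H → idx h.1 b ≤ h.2) :=
          mf_section (R := fun (c : ℕ × Finset (ℕ × ℕ)) (b : W) => p b ∈ U c.1 ∧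
            ∀ h, h ∈ c.2 → idx h.1 b ≤ h.2) (GenD_mf_bas hU hp hidx) (v, H)
        refine ⟨(v, H), ?_, hav, haH⟩
        refine MCov.mono (Om_mct_or hthin (mf_and (mf_not hthin) hm) hthinc hc) fun b hb => ?_
        by_cases hbt : thin b
        · exact Or.inl hbt
        · exact Or.inr ⟨hbt, hb⟩ } hB0 hJ hZ hZc (fun j a _ => hpZ j a)
  exact ⟨B', h1, h2, h4, h5, h6⟩

end

end HM
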