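import Pool.Agent.HM_h27.Om

/-!
# HM: cardinal arithmetic for the types `W` (of type `ω₁`) and `V` (of type `ω₂`)
-/

namespace HM

open HESR

universe u v w v1 v2 v3 v4

set_option linter.unusedVariables false
set_option linter.unusedSectionVars false

section
variable {M : Type u} [ZFM M]
variable {α : Type v} {β : Type w} {γ : Type v1} {δ : Type v2} [IT M α] [IT M β] [IT M γ] [IT M δ]
variable {W : Type v3} [IT M W] [LinearOrder W] [WO M W]
variable {V : Type v4} [IT M V] [LinearOrder V] [WO M V]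

/-- `W` covers `ℕ`. PROOF. `W` is not finite (`mct_finite`), so there is an injective sequence in the model
(`exists_inj_seq`); take the inverse relation. -/
theorem IsOm1T.cov_nat (h : IsOm1T M W) : MCov M W (fun _ : ℕ => True) := by
  obtain ⟨e, he, hinj, -⟩ := exists_inj_seq (M := M) (P := fun _ : W => True) (mf_const M True)
    (fun hf => h.unc (mct_finite hf))
  refine ⟨PM.of (fun p : W × ℕ => e p.2 = p.1) (by fun_prop), ?_, ?_⟩
  · intro i a b h1 h2
    have h1' : e a = i := h1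
    have h2' : e b = i := h2
    exact hinj (h1'.trans h2'.symm)
  · intro a _
    exact ⟨e a, rfl⟩

/-- countable sets are covered by `W`. PROOF. `MCov.trans` and `cov_nat`. -/
theorem IsOm1T.cov_of_mct (h : IsOm1T M W) {P : α → Prop} (hP : MCt M P) : MCov M W P :=
  MCov.trans hP h.cov_nat

/-- `W` covers `W × ℕ`.

PROOF. By `exists_tdc` along `W` with values in `MFun M ℕ W` there is `f : W → MFun M ℕ W` in the model with:
`f i` injective and with range disjoint from the ranges of all `f j`, `j < i` (the complement of a countable set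
`P` is not countable, so contains the range of an injective sequence, `exists_inj_seq`). Then
`(i, n) ↦ f i n` is injective; the inverse relation covers `W × ℕ`. -/
theorem IsOm1T.cov_prod_nat (h : IsOm1T M W) : MCov M W (fun _ : W × ℕ => True) := by
  have hne : Nonempty W := by
    by_contra hn
    exact h.unc (MCov.empty fun a _ => hn ⟨a⟩)
  have hneF : Nonempty (MFun M ℕ W) := ⟨⟨fun _ => Classical.arbitrary W, mf_const M _⟩⟩
  have hstep : ∀ (w : W) (s : PM M (W × MFun M ℕ W)) (g : W → MFun M ℕ W),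
      IsRestr (fun a b : W => a < b) g w s → ∃ f : MFun M ℕ W, (∀ m n, f m = f n → m = n) ∧
        ∀ j k, (j, k) ∈ s → ∀ m n, f m ≠ k n := by
    intro w s g hs
    have h1 : MCt M (fun k : MFun M ℕ W => ∃ j, (j, k) ∈ s) := Om_mct_range h hs
    have h2 : MCt M (fun x : W => ∃ k : MFun M ℕ W, (∃ j, (j, k) ∈ s) ∧ ∃ m, k m = x) := by
      refine MCt.iUnion (Q := fun k : MFun M ℕ W => ∃ j, (j, k) ∈ s)
        (P := fun k x => ∃ m, k m = x) (by fun_prop) (by fun_prop) h1 fun k _ => ?_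
      exact MCov.of_enum k.mf fun a ha => ha
    have h3 : ¬ {x : W | ¬ ∃ k : MFun M ℕ W, (∃ j, (j, k) ∈ s) ∧ ∃ m, k m = x}.Finite := by
      intro hf
      have h4 := Om_mct_or (M := M) (by fun_prop) (by fun_prop) h2 (mct_finite hf)
      exact h.unc (MCov.mono h4 fun a _ => Classical.em _)
    obtain ⟨e, he, hinj, heP⟩ := exists_inj_seq (M := M)
      (P := fun x : W => ¬ ∃ k : MFun M ℕ W, (∃ j, (j, k) ∈ s) ∧ ∃ m, k m = x) (by fun_prop) h3
    refine ⟨⟨e, he⟩, fun m n hmn => hinj hmn, fun j k hjk m n hmn => ?_⟩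
    exact heP m ⟨k, ⟨j, hjk⟩, n, hmn.symm⟩
  obtain ⟨f, hf, hfΦ⟩ := exists_tdc (M := M) (W := W) (α := MFun M ℕ W)
    (r := fun a b : W => a < b) WO.mf (WO.wf (M := M) (W := W)).wf (fun a b c => lt_trans)
    (Φ := fun (i : W) (s : PM M (W × MFun M ℕ W)) (a : MFun M ℕ W) =>
      (∀ m n, a m = a n → m = n) ∧ ∀ j k, (j, k) ∈ s → ∀ m n, a m ≠ k n)
    (by fun_prop) (fun w s g _ hs _ => hstep w s g hs)
  have hΦ : ∀ w, (∀ m n, f w m = f w n → m = n) ∧ ∀ j, j < w → ∀ m n, f w m ≠ f j n := by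
    intro w
    obtain ⟨h1, h2⟩ := hfΦ w (PM.of (fun p : W × MFun M ℕ W => p.1 < w ∧ f p.1 = p.2)
      (by fun_prop)) (fun p => Iff.rfl)
    exact ⟨h1, fun j hj => h2 j (f j) ⟨hj, rfl⟩⟩
  refine ⟨PM.of (fun p : W × (W × ℕ) => f p.2.1 p.2.2 = p.1) (by fun_prop), ?_, ?_⟩
  · rintro i ⟨a, m⟩ ⟨b, n⟩ h1 h2
    have h1' : f a m = i := h1
    have h2' : f b n = i := h2
    have h3 : f a m = f b n := h1'.trans h2'.symm
    rcases lt_trichotomy a b with h4 | h4 | h4
    · exact absurd h3.symm ((hΦ b).2 a h4 n m)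
    · subst h4
      rw [(hΦ a).1 m n h3]
    · exact absurd h3 ((hΦ a).2 b h4 m n)
  · rintro ⟨a, m⟩ _
    exact ⟨f a m, rfl⟩

/-- an enumeration of the initial segments

PROOF. `exists_choose` over `i : W` with values in `MFun M ℕ W` (`MCov.enum` for `{j | j ≤ i}`, `Om_mct_le`). -/
theorem IsOm1T.exists_en (h : IsOm1T M W) : ∃ en : W → ℕ → W, MF M (fun p : W × ℕ => en p.1 p.2) ∧
    (∀ i n, en i n ≤ i) ∧ ∀ i j, j ≤ i → ∃ n, en i n = j := by
  obtain ⟨f, hf, hfR⟩ := exists_choose (M := M) (α := W) (β := MFun M ℕ W)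
    (R := fun i k => (∀ n, k n ≤ i) ∧ ∀ j, j ≤ i → ∃ n, k n = j) (by fun_prop) (fun i => by
      obtain ⟨e, he, he1, he2⟩ := MCov.enum (M := M) (W := ℕ) (P := fun j : W => j ≤ i)
        (by fun_prop) (Om_mct_le h i) ⟨i, le_rfl⟩
      exact ⟨⟨e, he⟩, he1, he2⟩)
  exact ⟨fun i n => f i n, by fun_prop, fun i n => (hfR i).1 n, fun i j hj => (hfR i).2 j hj⟩

/-- `W` covers its square. PROOF. Every pair `(i, j)` is `(en k m, en k n)` for `k = max i j`; `W × ℕ × ℕ` is
covered by `W × ℕ` (`exists_enum_prod`), hence by `W`. -/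
theorem IsOm1T.cov_sq (h : IsOm1T M W) : MCov M W (fun _ : W × W => True) := by
  obtain ⟨en, hen, hen1, hen2⟩ := h.exists_en
  obtain ⟨e, he, hes⟩ := exists_enum_prod M
  have h1 : MF M (fun p : W × ℕ => en p.1 (e p.2).1) :=
    mf_comp M (g := fun p : W × ℕ => en p.1 p.2) (f := fun p : W × ℕ => (p.1, (e p.2).1)) hen
      (by fun_prop)
  have h2 : MF M (fun p : W × ℕ => en p.1 (e p.2).2) :=
    mf_comp M (g := fun p : W × ℕ => en p.1 p.2) (f := fun p : W × ℕ => (p.1, (e p.2).2)) hen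
      (by fun_prop)
  refine MCov.image h.cov_prod_nat (f := fun p : W × ℕ => (en p.1 (e p.2).1, en p.1 (e p.2).2))
    (mf_mk M h1 h2) ?_
  rintro ⟨i, j⟩ _
  obtain ⟨m, hm⟩ := hen2 (max i j) i (le_max_left i j)
  obtain ⟨n, hn⟩ := hen2 (max i j) j (le_max_right i j)
  obtain ⟨l, hl⟩ := hes (m, n)
  refine ⟨(max i j, l), trivial, ?_⟩
  show (en (max i j) (e l).1, en (max i j) (e l).2) = (i, j)
  rw [hl, hm, hn]

/-- products. PROOF. `MCov.trans`-like with `hW`. -/
theorem MCov.prod (hW : MCov M W (fun _ : W × W => True)) {P : α → Prop} {Q : β → Prop}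
    (h1 : MCov M W P) (h2 : MCov M W Q) : MCov M W (fun p : α × β => P p.1 ∧ Q p.2) := by
  obtain ⟨k, hk, hkc⟩ := hW
  obtain ⟨g1, hg1, hg1'⟩ := h1
  obtain ⟨g2, hg2, hg2'⟩ := h2
  refine ⟨PM.of (fun p : W × (α × β) => ∃ u : W × W, (p.1, u) ∈ k ∧ (u.1, p.2.1) ∈ g1 ∧
    (u.2, p.2.2) ∈ g2) (by fun_prop), ?_, ?_⟩
  · rintro i ⟨a, b⟩ ⟨a', b'⟩ h3 h4
    obtain ⟨u, hu, hu1, hu2⟩ := PM.mem_of.1 h3
    obtain ⟨u', hu', hu1', hu2'⟩ := PM.mem_of.1 h4
    have e1 : u = u' := hk i u u' hu hu'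
    subst e1
    exact Prod.ext (hg1 _ _ _ hu1 hu1') (hg2 _ _ _ hu2 hu2')
  · rintro ⟨a, b⟩ ⟨ha, hb⟩
    obtain ⟨i, hi⟩ := hg1' a ha
    obtain ⟨j, hj⟩ := hg2' b hb
    obtain ⟨l, hl⟩ := hkc (i, j) trivial
    exact ⟨l, (i, j), hl, hi, hj⟩

/-- binary unions -/
theorem MCov.or (h : IsOm1T M W) {P Q : α → Prop} (hP : MF M P) (hQ : MF M Q)
    (h1 : MCov M W P) (h2 : MCov M W Q) : MCov M W (fun a => P a ∨ Q a) := by
  have hP' : MF M (fun p : ℕ × α => P p.2) := mf_comp M hP (mf_snd M)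
  have hQ' : MF M (fun p : ℕ × α => Q p.2) := mf_comp M hQ (mf_snd M)
  have h0 := MCov.iUnion (M := M) (W := W) h.cov_sq (Q := fun _ : ℕ => True)
    (P := fun (n : ℕ) (a : α) => (n = 0 ∧ P a) ∨ (n ≠ 0 ∧ Q a)) (mf_const M True)
    (by fun_prop) h.cov_nat (fun n _ => ?_)
  · refine MCov.mono h0 fun a ha => ?_
    rcases ha with ha | ha
    · exact ⟨0, trivial, Or.inl ⟨rfl, ha⟩⟩
    · exact ⟨1, trivial, Or.inr ⟨Nat.one_ne_zero, ha⟩⟩
  · by_cases hn : n = 0
    · refine MCov.mono h1 fun a ha => ?_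
      rcases ha with ha | ha
      · exact ha.2
      · exact absurd hn ha.1
    · refine MCov.mono h2 fun a ha => ?_
      rcases ha with ha | ha
      · exact absurd ha.1 hn
      · exact ha.2

end

end HM
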