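import Pool.Agent.HM_h27.CtB

/-!
# HM: weak delta systems
-/

namespace HM

open HESR

universe u v w v1 v2 v3 v4

set_option linter.unusedVariables false
set_option linter.unusedSectionVars false

section
variable {M : Type u} [ZFM M]

/-- Weak delta systems (internal form of `exists_root` in `Pool/Agent/W_MP_3b51b4_gt/Forcing.lean`).

PROOF. The proof there; `F l` is replaced by `(F l).erase w`. -/
theorem exists_root {Λ : Type v1} [IT M Λ] {Ω : Type v2} [IT M Ω] (m : ℕ) : ∀ (A : Λ → Prop),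
    MF M A → ¬ MCt M A → ∀ (F : Λ → Finset Ω), MF M F → (∀ l, A l → (F l).card = m) →
    ∃ (Rt : Finset Ω) (A' : Λ → Prop), MF M A' ∧ (∀ l, A' l → A l) ∧ ¬ MCt M A' ∧
      (∀ l, A' l → Rt ⊆ F l) ∧ ∀ w, w ∉ Rt → MCt M (fun l => A' l ∧ w ∈ F l) := by
  classical
  induction m with
  | zero =>
    intro A hmA hA F hmF hF
    refine ⟨∅, A, hmA, fun l hl => hl, hA, fun l _ => Finset.empty_subset _, fun w _ => ?_⟩
    refine MCov.empty ?_
    rintro l ⟨hl, hw⟩
    rw [Finset.card_eq_zero.1 (hF l hl)] at hw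
    exact Finset.notMem_empty w hw
  | succ m ih =>
    intro A hmA hA F hmF hF
    by_cases h : ∀ w, MCt M (fun l => A l ∧ w ∈ F l)
    · exact ⟨∅, A, hmA, fun l hl => hl, hA, fun l _ => Finset.empty_subset _, fun w _ => h w⟩
    · push Not at h
      obtain ⟨w, hw⟩ := h
      have hmE : MF M (fun l => (F l).erase w) := by
        rw [mf_Finset_iff]
        have h1 : MF M (fun p : Λ × Ω => p.2 ≠ w ∧ p.2 ∈ F p.1) := by fun_prop
        exact mf_congr h1 fun p => by simp [Finset.mem_erase]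
      have hmA' : MF M (fun l => A l ∧ w ∈ F l) := by fun_prop
      obtain ⟨R, A', hmA'', hA'A, hA', hR, hcount⟩ := ih (fun l => A l ∧ w ∈ F l) hmA' hw
        (fun l => (F l).erase w) hmE
        (by
          rintro l ⟨hl, hwl⟩
          rw [Finset.card_erase_of_mem hwl, hF l hl]
          rfl)
      refine ⟨insert w R, A', hmA'', fun l hl => (hA'A l hl).1, hA', ?_, ?_⟩
      · intro l hl
        refine Finset.insert_subset (hA'A l hl).2 ?_
        exact (hR l hl).trans (Finset.erase_subset _ _)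
      · intro v hv
        rw [Finset.mem_insert, not_or] at hv
        refine MCov.mono (hcount v hv.2) ?_
        rintro l ⟨hl, hvl⟩
        exact ⟨hl, Finset.mem_erase.2 ⟨hv.1, hvl⟩⟩

/-- Weak delta systems, without a bound on the cardinalities (`exists_root'` there). -/
theorem exists_root' {Λ : Type v1} [IT M Λ] {Ω : Type v2} [IT M Ω] {A : Λ → Prop} (hA : MF M A)
    (hu : ¬ MCt M A) {F : Λ → Finset Ω} (hF : MF M F) :
    ∃ (m : ℕ) (Rt : Finset Ω) (A' : Λ → Prop), MF M A' ∧ (∀ l, A' l → A l) ∧ ¬ MCt M A' ∧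
      (∀ l, A' l → Rt ⊆ F l) ∧ (∀ w, w ∉ Rt → MCt M (fun l => A' l ∧ w ∈ F l)) ∧
      ∀ l, A' l → (F l).card = m := by
  obtain ⟨m, hm⟩ := exists_not_mct (f := fun l => (F l).card) hA hu (by fun_prop)
    (MCov.mono (mct_nat (P := fun _ => True)) fun _ _ => trivial)
  obtain ⟨R, A', h1, h2, h3, h4, h5⟩ := exists_root (M := M) m (fun l => A l ∧ (F l).card = m)
    (by fun_prop) hm F hF (fun l hl => hl.2)
  exact ⟨m, R, A', h1, fun l hl => (h2 l hl).1, h3, h4, h5, fun l hl => (h2 l hl).2⟩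

end

end HM
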