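import Pool.Agent.HM_h27.Om
import Pool.Agent.HM_h27.SmR

/-!
# HM, small weight: the countable chain condition
-/

namespace HM

open HESR Topology

universe u v w v1 v2 v3 v4

set_option linter.unusedVariables false
set_option linter.unusedSectionVars false

/-- The order: conditions are pairs of a finite set of indices and a finite set of promises. -/
def smLe {W : Type v3} {J : Type v2} (E : J → W → Prop) (p q : Finset W × Finset J) : Prop :=
  q.1 ⊆ p.1 ∧ q.2 ⊆ p.2 ∧ ∀ w ∈ p.1, w ∉ q.1 → ∀ j ∈ q.2, ¬ E j w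

section
variable {M : Type u} [ZFM M]
variable {W : Type v3} [IT M W] [LinearOrder W] [WO M W]

/-- The countable chain condition (internal form of `ccc` in `Pool/Agent/W_MP_3b51b4_gt/Forcing.lean`).

PROOF. The proof there. Suppose `A` is not countable. `exists_root'` for `F p := p.1` gives `m`, `Rt`, `A'`. Apply
`hseq` to `A'` (constant sequence of sets) and `G p := p.1 \ Rt`, of constant cardinality `m - #Rt`; get `s`.
The set of all `w ∉ Rt` with `E j w` for some `n`, `j ∈ (s n).2` is countable, so the set of all `q` with `A' q`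
such that `q.1` contains such a `w`, or `q = s n` for some `n`, is countable; take `q` with `A' q` outside of it.
For large `n` no `w ∈ (s n).1 \ Rt` satisfies `E j w` with `j ∈ q.2`. Then
`((s n).1 ∪ q.1, (s n).2 ∪ q.2)` is a common extension of `s n` and `q`, contradiction. -/
theorem sm_ccc {J : Type v2} [IT M J] {E : J → W → Prop} (hE : MF M (fun p : J × W => E p.1 p.2))
    (hEc : ∀ j, MCt M (E j))
    (hseq : ∀ (m : ℕ) (A : Finset W × Finset J → Prop), MF M A → ¬ MCt M A →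
      ∀ (G : Finset W × Finset J → Finset W), MF M G → (∀ l, A l → (G l).card = m) →
      (∀ w, MCt M (fun l => A l ∧ w ∈ G l)) →
      ∃ s : ℕ → Finset W × Finset J, MF M s ∧ (∀ n, A (s n)) ∧
        ∀ j, ∃ N, ∀ n, N ≤ n → ∀ w ∈ G (s n), ¬ E j w)
    {A : Finset W × Finset J → Prop} (hA : MF M A)
    (hanti : ∀ p q, A p → A q → p ≠ q → ¬ ∃ r, smLe E r p ∧ smLe E r q) : MCt M A := by
  classical
  by_contra hu
  obtain ⟨m, Rt, A', hA'm, hA'A, hA', hR, hcount, hcard⟩ :=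
    exists_root' hA hu (F := fun p : Finset W × Finset J => p.1) (mf_fst M)
  have hG : MF M (fun p : Finset W × Finset J => p.1 \ Rt) := by
    refine mf_Finset_iff.2 (mf_congr
      (f := fun p : (Finset W × Finset J) × W => p.2 ∈ p.1.1 ∧ ¬ p.2 ∈ Rt) (by fun_prop)
      fun p => ?_)
    simp
  obtain ⟨s, hsm, hsA, hs⟩ := hseq (m - Rt.card) A' hA'm hA' (fun p => p.1 \ Rt) hG
    (fun l hl => by
      rw [Finset.card_sdiff_of_subset (hR l hl), hcard l hl])
    (fun w => by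
      by_cases hw : w ∈ Rt
      · refine MCov.empty ?_
        rintro l ⟨-, hwl⟩
        exact (Finset.mem_sdiff.1 hwl).2 hw
      · exact MCov.mono (hcount w hw) fun l hl => ⟨hl.1, (Finset.mem_sdiff.1 hl.2).1⟩)
  have hC : MCt M (fun w : W => ∃ n : ℕ, True ∧ ∃ j, j ∈ (s n).2 ∧ E j w) := by
    refine MCt.iUnion (Q := fun _ : ℕ => True)
      (P := fun (n : ℕ) (w : W) => ∃ j, j ∈ (s n).2 ∧ E j w) (by fun_prop) ?_ mct_nat ?_
    · have h1 : MF M (fun q : (ℕ × W) × J => q.2 ∈ (s q.1.1).2) :=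
        mf_mem_finset (mf_snd M) (mf_comp M (g := fun p : Finset W × Finset J => p.2)
          (f := fun q : (ℕ × W) × J => s q.1.1) (mf_snd M)
          (mf_comp M (g := s) (f := fun q : (ℕ × W) × J => q.1.1) hsm (by fun_prop)))
      have h2 : MF M (fun q : (ℕ × W) × J => E q.2 q.1.2) :=
        mf_comp M (g := fun p : J × W => E p.1 p.2) (f := fun q : (ℕ × W) × J => (q.2, q.1.2)) hE
          (by fun_prop)
      exact mf_ex (mf_and h1 h2)
    · intro n _
      refine MCt.iUnion (Q := fun j : J => j ∈ (s n).2) (P := fun (j : J) (w : W) => E j w)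
        (by fun_prop) hE (mct_finite (Finset.finite_toSet _)) fun j _ => hEc j
  have hCm : MF M (fun w : W => ∃ n : ℕ, True ∧ ∃ j, j ∈ (s n).2 ∧ E j w) := by
    have h1 : MF M (fun q : (W × ℕ) × J => q.2 ∈ (s q.1.2).2) :=
      mf_mem_finset (mf_snd M) (mf_comp M (g := fun p : Finset W × Finset J => p.2)
        (f := fun q : (W × ℕ) × J => s q.1.2) (mf_snd M)
        (mf_comp M (g := s) (f := fun q : (W × ℕ) × J => q.1.2) hsm (by fun_prop)))
    have h2 : MF M (fun q : (W × ℕ) × J => E q.2 q.1.1) :=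
      mf_comp M (g := fun p : J × W => E p.1 p.2) (f := fun q : (W × ℕ) × J => (q.2, q.1.1)) hE
        (by fun_prop)
    exact mf_ex (mf_and (mf_const M True) (mf_ex (mf_and h1 h2)))
  have hbad1 : MCt M (fun q : Finset W × Finset J =>
      ∃ w : W, ((∃ n : ℕ, True ∧ ∃ j, j ∈ (s n).2 ∧ E j w) ∧ ¬ w ∈ Rt) ∧ (A' q ∧ w ∈ q.1)) := by
    refine MCt.iUnion
      (Q := fun w : W => (∃ n : ℕ, True ∧ ∃ j, j ∈ (s n).2 ∧ E j w) ∧ ¬ w ∈ Rt)
      (P := fun (w : W) (q : Finset W × Finset J) => A' q ∧ w ∈ q.1) ?_ ?_ ?_ ?_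
    · exact mf_and hCm (by fun_prop)
    · exact mf_and (mf_comp M (g := A') (f := fun p : W × (Finset W × Finset J) => p.2) hA'm
        (mf_snd M)) (by fun_prop)
    · exact MCov.mono hC fun w hw => hw.1
    · intro w hw
      exact hcount w hw.2
  have hbad2 : MCt M (fun q : Finset W × Finset J => ∃ n : ℕ, s n = q) :=
    MCov.of_enum hsm fun q hq => hq
  have hbm1 : MF M (fun q : Finset W × Finset J =>
      ∃ w : W, ((∃ n : ℕ, True ∧ ∃ j, j ∈ (s n).2 ∧ E j w) ∧ ¬ w ∈ Rt) ∧ (A' q ∧ w ∈ q.1)) := by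
    refine mf_ex (mf_and (mf_and ?_ (by fun_prop)) (mf_and ?_ (by fun_prop)))
    · exact mf_comp M (g := fun w : W => ∃ n : ℕ, True ∧ ∃ j, j ∈ (s n).2 ∧ E j w)
        (f := fun p : (Finset W × Finset J) × W => p.2) hCm (mf_snd M)
    · exact mf_comp M (g := A') (f := fun p : (Finset W × Finset J) × W => p.1) hA'm (mf_fst M)
  have hbm2 : MF M (fun q : Finset W × Finset J => ∃ n : ℕ, s n = q) :=
    mf_ex (mf_eq (mf_comp M (g := s) (f := fun p : (Finset W × Finset J) × ℕ => p.2) hsm (mf_snd M))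
      (mf_fst M))
  have hbad := Om_mct_or hbm1 hbm2 hbad1 hbad2
  obtain ⟨q, hqA, hq⟩ : ∃ q, A' q ∧ ¬ ((∃ w : W, ((∃ n : ℕ, True ∧ ∃ j, j ∈ (s n).2 ∧ E j w) ∧
      ¬ w ∈ Rt) ∧ (A' q ∧ w ∈ q.1)) ∨ ∃ n : ℕ, s n = q) := by
    by_contra hcon
    apply hA'
    refine MCov.mono hbad fun q hq => ?_
    by_contra hq'
    exact hcon ⟨q, hq, hq'⟩
  rw [not_or] at hq
  obtain ⟨hq1, hq2⟩ := hq
  have hqC : ∀ w ∈ q.1, w ∉ Rt → ∀ n, ∀ j ∈ (s n).2, ¬ E j w := by
    intro w hw hwR n j hj hwE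
    exact hq1 ⟨w, ⟨⟨n, trivial, j, hj, hwE⟩, hwR⟩, hqA, hw⟩
  have hev : ∃ N, ∀ n, N ≤ n → ∀ j ∈ q.2, ∀ w ∈ (s n).1 \ Rt, ¬ E j w := by
    choose N hN using hs
    refine ⟨q.2.sup N, fun n hn j hj w hw => hN j n (le_trans (Finset.le_sup hj) hn) w hw⟩
  obtain ⟨n, hn⟩ := hev
  have hn' := hn n le_rfl
  refine hanti (s n) q (hA'A _ (hsA n)) (hA'A _ hqA) (fun h => hq2 ⟨n, h⟩)
    ⟨((s n).1 ∪ q.1, (s n).2 ∪ q.2), ?_, ?_⟩
  · refine ⟨Finset.subset_union_left, Finset.subset_union_left, fun w hw hwn j hj => ?_⟩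
    have hwq : w ∈ q.1 := (Finset.mem_union.1 hw).resolve_left hwn
    have hwR : w ∉ Rt := fun h => hwn (hR _ (hsA n) h)
    exact hqC w hwq hwR n j hj
  · refine ⟨Finset.subset_union_right, Finset.subset_union_right, fun w hw hwq j hj => ?_⟩
    have hwn : w ∈ (s n).1 := (Finset.mem_union.1 hw).resolve_right hwq
    have hwR : w ∉ Rt := fun h => hwq (hR _ hqA h)
    exact hn' j hj w (Finset.mem_sdiff.2 ⟨hwn, hwR⟩)

end

end HM
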