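import Pool.Agent.HM_h27.Ax
import Pool.Agent.HM_h27.OmA
import Pool.Agent.HM_h27.SmC

/-!
# HM, small weight: the generic set
-/

namespace HM

open HESR Topology

universe u v w v1 v2 v3 v4

set_option linter.unusedVariables false
set_option linter.unusedSectionVars false

section
variable {M : Type u} [ZFM M]

/-- the order on conditions is in the model -/
theorem SmD_mf_le {W : Type v3} [IT M W] {J : Type v2} [IT M J] {E : J → W → Prop}
    (hE : MF M (fun p : J × W => E p.1 p.2)) :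
    MF M (fun p : (Finset W × Finset J) × (Finset W × Finset J) => smLe E p.1 p.2) := by
  have h1 : MF M (fun q : (((Finset W × Finset J) × (Finset W × Finset J)) × W) × J =>
      E q.2 q.1.2) :=
    mf_comp M (g := fun p : J × W => E p.1 p.2)
      (f := fun q : (((Finset W × Finset J) × (Finset W × Finset J)) × W) × J => (q.2, q.1.2)) hE
      (by fun_prop)
  have h2 : MF M (fun p : (Finset W × Finset J) × (Finset W × Finset J) =>
      (∀ w, w ∈ p.2.1 → w ∈ p.1.1) ∧ (∀ j, j ∈ p.2.2 → j ∈ p.1.2) ∧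
        ∀ w, w ∈ p.1.1 → ¬ w ∈ p.2.1 → ∀ j, j ∈ p.2.2 → ¬ E j w) := by
    fun_prop
  exact h2

theorem SmD_refl {W : Type v3} {J : Type v2} {E : J → W → Prop} (p : Finset W × Finset J) :
    smLe E p p :=
  ⟨Finset.Subset.refl _, Finset.Subset.refl _, fun w hw hw' => absurd hw hw'⟩

theorem SmD_trans {W : Type v3} {J : Type v2} {E : J → W → Prop} (p q r : Finset W × Finset J)
    (h1 : smLe E p q) (h2 : smLe E q r) : smLe E p r := by
  refine ⟨h2.1.trans h1.1, h2.2.1.trans h1.2.1, fun w hw hwr j hj => ?_⟩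
  by_cases hwq : w ∈ q.1
  · exact h2.2.2 w hwq hwr j hj
  · exact h1.2.2 w hw hwq j (h2.2.1 hj)

end

section
variable {M : Type u} [ZFM M]
variable {W : Type} [IT M W] [LinearOrder W] [WO M W]

/-- The generic set (internal form of `exists_generic` in `Pool/Agent/W_MP_3b51b4_gt/Forcing.lean`).

PROOF. Apply `MAW.apply` to `P := Finset W × Finset J` with `smLe E` (ccc by `sm_ccc`) and the dense sets, indexed by
`W × J`, `D (a, j) p := (∃ b ∈ p.1, a < b) ∧ j ∈ p.2`. Density: the set of all `b` with `b ≤ a` or `E i b` for some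
`i ∈ q.2` is countable (finite union), so some `b` is outside (`hW.unc`); first add `b`, then `j`. Put
`Ω' w := ∃ p, G p ∧ w ∈ p.1`. It is not countable (`IsOm1T.not_mct`); for `j` take `p` with `G p`, `j ∈ p.2`:
`Ω' w`, `E j w` imply `w ∈ p.1`. -/
theorem sm_generic (hMA : MAW M W) (hW : IsOm1T M W) {J : Type} [IT M J]
    (hJ : MCov M W (fun _ : J => True)) {E : J → W → Prop} (hE : MF M (fun p : J × W => E p.1 p.2))
    (hEc : ∀ j, MCt M (E j))
    (hseq : ∀ (m : ℕ) (A : Finset W × Finset J → Prop), MF M A → ¬ MCt M A →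
      ∀ (G : Finset W × Finset J → Finset W), MF M G → (∀ l, A l → (G l).card = m) →
      (∀ w, MCt M (fun l => A l ∧ w ∈ G l)) →
      ∃ s : ℕ → Finset W × Finset J, MF M s ∧ (∀ n, A (s n)) ∧
        ∀ j, ∃ N, ∀ n, N ≤ n → ∀ w ∈ G (s n), ¬ E j w) :
    ∃ Ω' : W → Prop, MF M Ω' ∧ ¬ MCt M Ω' ∧ ∀ j, {w | Ω' w ∧ E j w}.Finite := by
  classical
  -- the case of an empty index type
  by_cases hJne : Nonempty J
  swap
  · exact ⟨fun _ => True, mf_const M True, hW.unc, fun j => (hJne ⟨j⟩).elim⟩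
  obtain ⟨j0⟩ := hJne
  have hcov : MCov M W (fun _ : W × J => True) :=
    MCov.mono (MCov.prod hW.cov_sq (P := fun _ : W => True) (Q := fun _ : J => True)
      (MCov.of_enum (e := fun w : W => w) (mf_id M) fun a _ => ⟨a, rfl⟩) hJ)
      fun _ _ => ⟨trivial, trivial⟩
  have hD : MF M (fun p : (W × J) × (Finset W × Finset J) =>
      (∃ b, b ∈ p.2.1 ∧ p.1.1 < b) ∧ p.1.2 ∈ p.2.2) := by fun_prop
  have hne : Nonempty (Finset W × Finset J) := ⟨(∅, ∅)⟩
  obtain ⟨G, hG, hGup, hGdir, hGD⟩ := MAW.apply (M := M) (W := W) hMA (J := W × J) hcov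
    (P := Finset W × Finset J) (le := smLe E) (SmD_mf_le hE) SmD_refl SmD_trans
    (fun A hA hanti => sm_ccc hE hEc hseq hA hanti)
    (D := fun i p => (∃ b, b ∈ p.1 ∧ i.1 < b) ∧ i.2 ∈ p.2) hD (by
      rintro ⟨a, j⟩ q
      have h1 : MCt M (fun b : W => ∃ i, i ∈ q.2 ∧ E i b) :=
        MCt.iUnion (M := M) (Q := fun i : J => i ∈ q.2) (by fun_prop)
          (P := fun (i : J) (b : W) => E i b) hE (mct_finite q.2.finite_toSet) fun i _ => hEc i
      have h2 : MF M (fun b : W => ∃ i, i ∈ q.2 ∧ E i b) := by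
        have h3 : MF M (fun p : W × J => E p.2 p.1) :=
          mf_comp M (g := fun p : J × W => E p.1 p.2) (f := fun p : W × J => (p.2, p.1)) hE
            (by fun_prop)
        fun_prop
      have h3 : MCt M (fun b : W => b ≤ a ∨ ∃ i, i ∈ q.2 ∧ E i b) :=
        Om_mct_or (by fun_prop) h2 (Om_mct_le hW a) h1
      obtain ⟨b, hb⟩ : ∃ b : W, ¬ (b ≤ a ∨ ∃ i, i ∈ q.2 ∧ E i b) := by
        by_contra hcon
        push Not at hcon
        refine hW.unc (MCov.mono h3 fun b _ => ?_)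
        by_cases hba : b ≤ a
        · exact Or.inl hba
        · exact Or.inr (hcon b |>.resolve_left hba)
      rw [not_or] at hb
      refine ⟨(insert b q.1, insert j q.2), ⟨⟨b, Finset.mem_insert_self _ _, not_le.1 hb.1⟩,
        Finset.mem_insert_self _ _⟩, Finset.subset_insert _ _, Finset.subset_insert _ _, ?_⟩
      intro w hw hwq i hi hE'
      rcases Finset.mem_insert.1 hw with rfl | hw
      · exact hb.2 ⟨i, hi, hE'⟩
      · exact hwq hw)
  refine ⟨fun w => ∃ p, G p ∧ w ∈ p.1, ?_, ?_, fun j => ?_⟩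
  · have h1 : MF M (fun q : W × (Finset W × Finset J) => G q.2) := mf_comp M hG (mf_snd M)
    fun_prop
  · refine hW.not_mct ?_ fun b => ?_
    · have h1 : MF M (fun q : W × (Finset W × Finset J) => G q.2) := mf_comp M hG (mf_snd M)
      fun_prop
    · obtain ⟨p, hp, ⟨c, hc, hbc⟩, -⟩ := hGD (b, j0)
      exact ⟨c, ⟨p, hp, hc⟩, hbc⟩
  · by_cases hWne : Nonempty W
    · obtain ⟨w0⟩ := hWne
      obtain ⟨p, hp, -, hj⟩ := hGD (w0, j)
      refine p.1.finite_toSet.subset ?_
      rintro w ⟨⟨q, hq, hwq⟩, hwE⟩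
      by_contra hwp
      obtain ⟨r, hr, hrp, hrq⟩ := hGdir p q hp hq
      exact hrp.2.2 w (hrq.1 hwq) (fun h => hwp (Finset.mem_coe.2 h)) j hj hwE
    · exact (hW.unc (MCov.empty fun a _ => hWne ⟨a⟩)).elim

end

end HM
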