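import Pool.Agent.HM_h27.SmB
import Pool.Agent.HM_h27.SmD

/-!
# HM, small weight: the conclusion
-/

namespace HM

open HESR Topology

universe u v w v1 v2 v3 v4

set_option linter.unusedVariables false
set_option linter.unusedSectionVars false

/-- The conclusion of both cases: a family of `ℵ₁` pairs without accumulation points off the diagonal. -/
def Disc (M : Type u) [ZFM M] (W : Type v3) [IT M W] (X : Type v) [IT M X] [TopologicalSpace X]
    [MTop M X] : Prop :=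
  ∃ x y : W → X, MF M x ∧ MF M y ∧ (∀ a, x a ≠ y a) ∧ ∀ r : X × X, r.1 ≠ r.2 →
    ∃ U V : PM M X, Op U ∧ Op V ∧ r.1 ∈ U ∧ r.2 ∈ V ∧ {a | x a ∈ U ∧ y a ∈ V}.Finite

section
variable {M : Type u} [ZFM M]
variable {W : Type} [IT M W] [LinearOrder W] [WO M W]

variable {X : Type v} [IT M X] [TopologicalSpace X] [MTop M X] [T2Space X] [MCpt M X] [MPerf M X]
variable {R : Type w} [IT M R] [LinearOrder R] [RealLine M R] [TopologicalSpace R] [OrderTopology R]
  [DenselyOrdered R] [NoMinOrder R] [NoMaxOrder R] [Nonempty R]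

theorem SmE_op_lt (f : CX M X R) (r : R) (h : MF M (fun t : X => f.1 t < r)) :
    Op (PM.of (fun t : X => f.1 t < r) h) := isOpen_lt (CX.cont f) continuous_const

theorem SmE_op_gt (f : CX M X R) (r : R) (h : MF M (fun t : X => r < f.1 t)) :
    Op (PM.of (fun t : X => r < f.1 t) h) := isOpen_lt continuous_const (CX.cont f)

theorem SmE_mfE {x y : W → X} (hx : MF M x) (hy : MF M y) {C : W → CX M X R} (hC : MF M C) :
    MF M (fun p : (W × ℕ × ℕ) × W => qq M R p.1.2.1 < qq M R p.1.2.2 ∧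
    (((C p.1.1).1 (x p.2) < qq M R p.1.2.1 ∧ qq M R p.1.2.2 < (C p.1.1).1 (y p.2)) ∨
     ((C p.1.1).1 (y p.2) < qq M R p.1.2.1 ∧ qq M R p.1.2.2 < (C p.1.1).1 (x p.2)))) := by
  fun_prop

theorem SmE_exV {C : W → CX M X R} (hC : MF M C) (x y : W → X) (j : W × ℕ × ℕ) :
    ∃ V : X → PM M X, MF M V ∧ (∀ z, Op (V z) ∧ z ∈ V z) ∧
      ∀ a, (qq M R j.2.1 < qq M R j.2.2 ∧
    (((C j.1).1 (x a) < qq M R j.2.1 ∧ qq M R j.2.2 < (C j.1).1 (y a)) ∨
     ((C j.1).1 (y a) < qq M R j.2.1 ∧ qq M R j.2.2 < (C j.1).1 (x a)))) →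
       ∀ z, ¬ (x a ∈ V z ∧ y a ∈ V z) := by
  have hCi : MF M (fun t : X => (C j.1).1 t) := (C j.1).1.mf
  by_cases hq : qq M R j.2.1 < qq M R j.2.2
  · have hm : MF M (fun p : X × X => ((C j.1).1 p.1 < qq M R j.2.2 → (C j.1).1 p.2 < qq M R j.2.2) ∧
        (¬ (C j.1).1 p.1 < qq M R j.2.2 → qq M R j.2.1 < (C j.1).1 p.2)) := by fun_prop
    refine ⟨PM.sec (fun z t => ((C j.1).1 z < qq M R j.2.2 → (C j.1).1 t < qq M R j.2.2) ∧
      (¬ (C j.1).1 z < qq M R j.2.2 → qq M R j.2.1 < (C j.1).1 t)) hm, mf_PMsec hm, ?_, ?_⟩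
    · intro z
      constructor
      · by_cases hz : (C j.1).1 z < qq M R j.2.2
        · have h1 : IsOpen {t : X | (C j.1).1 t < qq M R j.2.2} :=
            isOpen_lt (CX.cont (C j.1)) continuous_const
          refine (congrArg IsOpen (Set.ext fun t => ?_)).mp h1
          exact ⟨fun h => ⟨fun _ => h, fun h' => absurd hz h'⟩, fun h => h.1 hz⟩
        · have h1 : IsOpen {t : X | qq M R j.2.1 < (C j.1).1 t} :=
            isOpen_lt continuous_const (CX.cont (C j.1))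
          refine (congrArg IsOpen (Set.ext fun t => ?_)).mp h1
          exact ⟨fun h => ⟨fun h' => absurd h' hz, fun _ => h⟩, fun h => h.2 hz⟩
      · exact ⟨fun h => h, fun h => hq.trans_le (not_lt.1 h)⟩
    · rintro a ⟨_, ha⟩ z ⟨⟨h1, h2⟩, ⟨h3, h4⟩⟩
      by_cases hz : (C j.1).1 z < qq M R j.2.2
      · rcases ha with ⟨_, ha⟩ | ⟨_, ha⟩
        · exact lt_asymm ha (h3 hz)
        · exact lt_asymm ha (h1 hz)
      · rcases ha with ⟨ha, _⟩ | ⟨ha, _⟩
        · exact lt_asymm ha (h2 hz)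
        · exact lt_asymm ha (h4 hz)
  · refine ⟨fun _ => PM.of (fun _ => True) (mf_const M True), mf_const M _, fun z => ⟨?_, trivial⟩, ?_⟩
    · exact isOpen_univ
    · rintro a ⟨ha, _⟩
      exact absurd ha hq

/-- The case of weight at most `ℵ₁`.

PROOF. Take `x, y` from `exists_pairs` and `B` from `exists_base`. Let `J := W × ℕ × ℕ` (covered by `W`) and
`E (i, m, n) a := qq m < qq n ∧ (((C i).1 (x a) < qq m ∧ qq n < (C i).1 (y a)) ∨
((C i).1 (y a) < qq m ∧ qq n < (C i).1 (x a)))`. For `j = (i, m, n)` let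
`V z := {t | ((C i).1 z < qq n → (C i).1 t < qq n) ∧ (¬ (C i).1 z < qq n → qq m < (C i).1 t)}` if `qq m < qq n`
(if not, `E j` is empty and `V z := everything`; or put `qq m < qq n →` in front); this is an open neighbourhood of
`z`, and `E j a` implies `¬ (x a ∈ V z ∧ y a ∈ V z)`. So `E j` is countable (`NearDiag`) and `hseq` of `sm_generic`
holds by `exists_conv_seq` (with the constant sequence of sets). Take `Ω'` from `sm_generic`, enumerate it by
`e : W → W` (`IsOm1T.exists_enum`), and use the pairs `(x (e a), y (e a))`. For `r` with `r.1 ≠ r.2` there is `i` with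
`(C i).1 r.1 ≠ (C i).1 r.2`, so (say `<`) there are `m, n` with
`(C i).1 r.1 < qq m < qq n < (C i).1 r.2`; take the open sets `{t | (C i).1 t < qq m}`,
`{t | qq n < (C i).1 t}`: the pairs in their product have `Ω' (e a)`, `E (i, m, n) (e a)`, finitely many. -/
theorem small_case (hMA : MAW M W) (hW : IsOm1T M W) (hX : ¬ MSC M X) {C : W → CX M X R}
    (hC : MF M C) (hsep : ∀ x y : X, x ≠ y → ∃ i, (C i).1 x ≠ (C i).1 y) : Disc M W X := by
  classical
  obtain ⟨x, y, hx, hy, hxy, hnd⟩ := exists_pairs (X := X) hW hX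
  obtain ⟨B, hBm, hBo, hBx, hBd, hBb⟩ := exists_base (M := M) (X := X)
  let E : (W × ℕ × ℕ) → W → Prop := fun j a => qq M R j.2.1 < qq M R j.2.2 ∧
    (((C j.1).1 (x a) < qq M R j.2.1 ∧ qq M R j.2.2 < (C j.1).1 (y a)) ∨
     ((C j.1).1 (y a) < qq M R j.2.1 ∧ qq M R j.2.2 < (C j.1).1 (x a)))
  have hE : MF M (fun p : (W × ℕ × ℕ) × W => E p.1 p.2) := SmE_mfE hx hy hC
  have hEV : ∀ j, ∃ V : X → PM M X, MF M V ∧ (∀ z, Op (V z) ∧ z ∈ V z) ∧
      ∀ a, E j a → ∀ z, ¬ (x a ∈ V z ∧ y a ∈ V z) := fun j => SmE_exV hC x y j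
  have hEc : ∀ j, MCt M (E j) := by
    intro j
    obtain ⟨V, hV, hV1, hV2⟩ := hEV j
    exact MCov.mono (hnd V hV hV1) fun a ha => hV2 a ha
  have hJ : MCov M W (fun _ : W × ℕ × ℕ => True) := by
    have h1 : MCov M W (fun _ : ℕ × ℕ => True) := hW.cov_of_mct mct_prod_nat
    have h2 : MCov M W (fun _ : W => True) := MCov.of_enum (e := fun w : W => w) (mf_id M) fun a _ => ⟨a, rfl⟩
    exact MCov.mono (MCov.prod hW.cov_sq h2 h1) fun _ _ => ⟨trivial, trivial⟩
  obtain ⟨Ω', hΩ, hΩu, hΩf⟩ := sm_generic hMA hW hJ hE hEc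
    (fun m A hA hAu G hG hGc hGw =>
      exists_conv_seq hx hy hnd hBm hBo hBx hBd hBb hEV m (fun _ => A)
        (mf_comp M (g := A) (f := fun p : ℕ × (Finset W × Finset (W × ℕ × ℕ)) => p.2) hA (mf_snd M))
        (fun _ _ _ _ h => h) (fun _ => hAu) G hG hGc hGw)
  obtain ⟨e, he, hem, heΩ⟩ := hW.exists_enum hΩ hΩu
  have hinj : Function.Injective e := by
    intro i j hij
    rcases lt_trichotomy i j with h | h | h
    · exact absurd hij (hem i j h).ne
    · exact h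
    · exact absurd hij (hem j i h).ne'
  refine ⟨fun a => x (e a), fun a => y (e a), mf_comp M hx he, mf_comp M hy he, fun a => hxy _, ?_⟩
  intro r hr
  obtain ⟨i, hi⟩ := hsep r.1 r.2 hr
  have hfin : ∀ j : W × ℕ × ℕ, {a | E j (e a)}.Finite := by
    intro j
    refine Set.Finite.subset ((hΩf j).preimage hinj.injOn) ?_
    intro a ha
    exact ⟨heΩ a, ha⟩
  have hCi : MF M (fun t : X => (C i).1 t) := (C i).1.mf
  rcases lt_or_gt_of_ne hi with h | h
  · obtain ⟨m, h1, h2⟩ := qq_dense (M := M) h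
    obtain ⟨n, h3, h4⟩ := qq_dense (M := M) h2
    refine ⟨PM.of (fun t => (C i).1 t < qq M R m) (by fun_prop),
      PM.of (fun t => qq M R n < (C i).1 t) (by fun_prop), SmE_op_lt (C i) _ _, SmE_op_gt (C i) _ _, h1, h4, ?_⟩
    refine Set.Finite.subset (hfin (i, m, n)) ?_
    rintro a ⟨ha1, ha2⟩
    exact ⟨h3, Or.inl ⟨ha1, ha2⟩⟩
  · obtain ⟨m, h1, h2⟩ := qq_dense (M := M) h
    obtain ⟨n, h3, h4⟩ := qq_dense (M := M) h2
    refine ⟨PM.of (fun t => qq M R n < (C i).1 t) (by fun_prop),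
      PM.of (fun t => (C i).1 t < qq M R m) (by fun_prop), SmE_op_gt (C i) _ _, SmE_op_lt (C i) _ _, h4, h1, ?_⟩
    refine Set.Finite.subset (hfin (i, m, n)) ?_
    rintro a ⟨ha1, ha2⟩
    exact ⟨h3, Or.inr ⟨ha2, ha1⟩⟩

end

end HM
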