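import Pool.Agent.HM_h27.BCount
import Pool.Agent.HM_h27.BDiscA
import Pool.Agent.HM_h27.GenD
import Pool.Agent.HM_h27.Free
import Pool.Agent.HM_h27.SmE

/-!
# HM, large weight: an uncountable family of pairs without accumulation points
-/

namespace HM

open HESR Topology

universe u v w v1 v2 v3 v4

set_option linter.unusedVariables false
set_option linter.unusedSectionVars false

section
variable {M : Type u} [ZFM M]
variable {W : Type} [IT M W] [LinearOrder W] [WO M W]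
variable {V : Type v4} [IT M V] [LinearOrder V] [WO M V]
variable {X : Type v} [IT M X] [TopologicalSpace X] [MTop M X] [T2Space X] [MCpt M X] [MPerf M X]
variable {R : Type w} [IT M R] [LinearOrder R] [RealLine M R] [TopologicalSpace R] [OrderTopology R]
  [DenselyOrdered R] [NoMinOrder R] [NoMaxOrder R] [Nonempty R]
variable {L : Thr R} {G : Fns M X R L} (S : HSet M X R W V L G)

/-- the witness functions -/
noncomputable def BDisc_gw (q : ℕ × ℕ) : CX M X R := G.g (S.wx q.1 q.2) (S.wn q.1 q.2)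

theorem BDisc_mf_gw : MF M (BDisc_gw S) :=
  mf_comp M (g := fun p : X × ℕ => G.g p.1 p.2)
    (f := fun q : ℕ × ℕ => (S.wx q.1 q.2, S.wn q.1 q.2)) G.g_mf (mf_mk M S.wx_mf S.wn_mf)

/-- the witness is bad -/
def BDisc_bad (q : ℕ × ℕ) : Prop := Bad G S.D S.c q.1 (S.wx q.1 q.2) (S.wn q.1 q.2)

theorem BDisc_mf_bad : MF M (BDisc_bad S) :=
  mf_comp M (g := fun q : ℕ × (X × ℕ) => Bad G S.D S.c q.1 q.2.1 q.2.2)
    (f := fun q : ℕ × ℕ => (q.1, (S.wx q.1 q.2, S.wn q.1 q.2))) (mf_Bad G S.D S.c)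
    (mf_mk M (mf_fst M) (mf_mk M S.wx_mf S.wn_mf))

/-- the witness function is some `C i` -/
def BDisc_inC (q : ℕ × ℕ) : Prop := ∃ i, S.C i = BDisc_gw S q

theorem BDisc_mf_inC : MF M (BDisc_inC S) := by
  have h1 := BDisc_mf_gw S
  have h2 := S.C_mf
  unfold BDisc_inC
  fun_prop

/-- the condition which defines the index -/
def BDisc_cond (k j : ℕ) (z z' : X) : Prop :=
  BDisc_bad S (k, j) ∧ BDisc_inC S (k, j) ∧
    ((BDisc_gw S (k, j)).1 z < L.l1 ∨ (BDisc_gw S (k, j)).1 z' < L.l1)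

/-- the index function -/
theorem BDisc_idx {ε : W → V} (hε : MF M ε) (hεQ : ∀ i, S.Q (ε i)) :
    ∃ idx : ℕ → W → ℕ, MF M (fun q : ℕ × W => idx q.1 q.2) ∧
      ∀ k i, ¬ S.Good k (ε i) → BDisc_cond S k (idx k i) (S.x (ε i)) (S.y (ε i)) := by
  have h1 := BDisc_mf_gw S
  have h2 := BDisc_mf_bad S
  have h3 := BDisc_mf_inC S
  have hx : MF M (fun i => S.x (ε i)) := mf_comp M S.x_mf hε
  have hy : MF M (fun i => S.y (ε i)) := mf_comp M S.y_mf hε
  have hG : MF M (fun q : ℕ × W => S.Good q.1 (ε q.2)) :=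
    mf_comp M (g := fun q : ℕ × V => S.Good q.1 q.2) (f := fun q : ℕ × W => (q.1, ε q.2)) S.mf_Good
      (by fun_prop)
  have hx' : MF M (fun q : (ℕ × W) × ℕ => S.x (ε q.1.2)) :=
    mf_comp M (g := fun i => S.x (ε i)) (f := fun q : (ℕ × W) × ℕ => q.1.2) hx (by fun_prop)
  have hy' : MF M (fun q : (ℕ × W) × ℕ => S.y (ε q.1.2)) :=
    mf_comp M (g := fun i => S.y (ε i)) (f := fun q : (ℕ × W) × ℕ => q.1.2) hy (by fun_prop)
  have hG' : MF M (fun q : (ℕ × W) × ℕ => S.Good q.1.1 (ε q.1.2)) :=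
    mf_comp M (g := fun q : ℕ × W => S.Good q.1 (ε q.2)) (f := fun q : (ℕ × W) × ℕ => q.1) hG
      (by fun_prop)
  have hR : MF M (fun q : (ℕ × W) × ℕ => ¬ S.Good q.1.1 (ε q.1.2) →
      BDisc_cond S q.1.1 q.2 (S.x (ε q.1.2)) (S.y (ε q.1.2))) := by
    unfold BDisc_cond
    fun_prop
  obtain ⟨f, hf, hf'⟩ := exists_choose (M := M) (α := ℕ × W) (β := ℕ)
    (R := fun q j => ¬ S.Good q.1 (ε q.2) → BDisc_cond S q.1 j (S.x (ε q.2)) (S.y (ε q.2))) hR (by
      rintro ⟨k, i⟩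
      by_cases hg : S.Good k (ε i)
      · exact ⟨0, fun h => absurd hg h⟩
      · have hg' := hg
        unfold HSet.Good at hg'
        push Not at hg'
        obtain ⟨n, hn⟩ := hg'
        by_cases hb : Bad G S.D S.c k (S.x (ε i)) n
        · obtain ⟨j, hj1, hj2, hj3⟩ := S.w_cov k (ε i) n (hεQ i) _ (Or.inl rfl) hb
          exact ⟨j, fun _ => ⟨hj1, hj2, Or.inl hj3⟩⟩
        · obtain ⟨j, hj1, hj2, hj3⟩ := S.w_cov k (ε i) n (hεQ i) _ (Or.inr rfl) (hn hb)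
          exact ⟨j, fun _ => ⟨hj1, hj2, Or.inr hj3⟩⟩)
  exact ⟨fun k i => f (k, i), hf, fun k i => hf' (k, i)⟩

/-- the non-constancy relation -/
def BDisc_Zr (j : W × (ℕ × ℕ)) (t : X) : Prop :=
  qq M R j.2.1 < qq M R j.2.2 ∧ (∃ t1, (S.C j.1).1 t1 ≤ qq M R j.2.1 ∧ Eqv S.D t1 t) ∧
    ∃ t2, qq M R j.2.2 ≤ (S.C j.1).1 t2 ∧ Eqv S.D t2 t

theorem BDisc_mf_Zr : MF M (fun p : (W × (ℕ × ℕ)) × X => BDisc_Zr S p.1 p.2) := by
  have h := S.C_mf
  unfold BDisc_Zr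
  fun_prop

theorem BDisc_Zr_closed (j : W × (ℕ × ℕ)) : IsClosed (X := Quo S.D) {t | BDisc_Zr S j t} := by
  by_cases hq : qq M R j.2.1 < qq M R j.2.2
  · have h1 := quo_hull_closed S.D (K := PM.of (fun x : X => (S.C j.1).1 x ≤ qq M R j.2.1)
      (by fun_prop)) (isClosed_Iic.preimage (S.C j.1).cont)
    have h2 := quo_hull_closed S.D (K := PM.of (fun x : X => qq M R j.2.2 ≤ (S.C j.1).1 x)
      (by fun_prop)) (isClosed_Ici.preimage (S.C j.1).cont)
    have h3 : {t : Quo S.D | BDisc_Zr S j t} =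
        {y : Quo S.D | ∃ x, x ∈ (PM.of (fun x : X => (S.C j.1).1 x ≤ qq M R j.2.1)
          (by fun_prop) : PM M X) ∧ Eqv S.D x y} ∩
        {y : Quo S.D | ∃ x, x ∈ (PM.of (fun x : X => qq M R j.2.2 ≤ (S.C j.1).1 x)
          (by fun_prop) : PM M X) ∧ Eqv S.D x y} := by
      ext t
      exact ⟨fun h => ⟨h.2.1, h.2.2⟩, fun h => ⟨hq, h.1, h.2⟩⟩
    rw [h3]
    exact h1.inter h2
  · have h3 : {t : Quo S.D | BDisc_Zr S j t} = ∅ := by
      ext t
      exact ⟨fun h => (hq h.1).elim, fun h => h.elim⟩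
    rw [h3]
    exact isClosed_empty

theorem BDisc_Zr_x (j : W × (ℕ × ℕ)) {a : V} (ha : S.Q a) : ¬ BDisc_Zr S j (S.x a) := by
  rintro ⟨h1, ⟨t1, h2, h3⟩, ⟨t2, h4, h5⟩⟩
  have h6 := S.C_const j.1 a ha t1 h3
  have h7 := S.C_const j.1 a ha t2 h5
  rw [h6] at h2
  rw [h7] at h4
  exact absurd h1 (not_lt.2 (h4.trans h2))

/-- all `C i` are constant on a class outside of all `Z j` -/
theorem BDisc_const {t : X} (h : ∀ j, ¬ BDisc_Zr S j t) (i : W) (z : X) (hz : Eqv S.D z t) :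
    (S.C i).1 z = (S.C i).1 t := by
  by_contra hne
  rcases lt_or_gt_of_ne hne with hlt | hlt
  · obtain ⟨m, hm1, hm2⟩ := qq_dense (M := M) hlt
    obtain ⟨n, hn1, hn2⟩ := qq_dense (M := M) hm2
    exact h (i, (m, n)) ⟨hn1, ⟨z, hm1.le, hz⟩, ⟨t, hn2.le, Eqv.refl _ _⟩⟩
  · obtain ⟨m, hm1, hm2⟩ := qq_dense (M := M) hlt
    obtain ⟨n, hn1, hn2⟩ := qq_dense (M := M) hm2
    exact h (i, (m, n)) ⟨hn1, ⟨t, hm1.le, Eqv.refl _ _⟩, ⟨z, hn2.le, hz⟩⟩

/-- the free family -/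
theorem BDisc_free (hW : IsOm1T M W) : ∃ ε : W → V, MF M ε ∧ Function.Injective ε ∧
    (∀ i, S.Q (ε i)) ∧ ∀ i j, i ≠ j → ∀ k,
      (show Quo S.D from S.x (ε i)) ∉ closure {m : Quo S.D | S.Rel k (ε j) m} := by
  have hrel := S.mf_relQ
  have hQ := S.Q_mf
  have hx : MF M (fun a : V => (show Quo S.D from S.x a)) := S.x_mf
  have hQ' : MF M (fun q : (V × V) × (ℕ × (ℕ × ℕ)) => S.Q q.1.2) :=
    mf_comp M (g := S.Q) (f := fun q : (V × V) × (ℕ × (ℕ × ℕ)) => q.1.2) hQ (by fun_prop)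
  have hx' : MF M (fun q : (V × V) × (ℕ × (ℕ × ℕ)) => (show Quo S.D from S.x q.1.1)) :=
    mf_comp M (g := fun a : V => (show Quo S.D from S.x a))
      (f := fun q : (V × V) × (ℕ × (ℕ × ℕ)) => q.1.1) hx (by fun_prop)
  have hrel' : MF M (fun q : (V × V) × (ℕ × (ℕ × ℕ)) => S.relQ q.2 q.1.2) :=
    mf_comp M (g := fun q : (ℕ × (ℕ × ℕ)) × V => S.relQ q.1 q.2)
      (f := fun q : (V × V) × (ℕ × (ℕ × ℕ)) => (q.2, q.1.2)) hrel (by fun_prop)
  have hΦ : MF M (fun p : V × V => ∃ k : ℕ × (ℕ × ℕ), S.Q p.2 ∧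
      InCl (show Quo S.D from S.x p.1) (S.relQ k p.2)) :=
    mf_ex (mf_and hQ' (mf_InCl hx' hrel'))
  have hc : ∀ a', S.Q a' → MCt M (fun a : V => ∃ k : ℕ × (ℕ × ℕ), S.Q a ∧
      InCl (show Quo S.D from S.x a') (S.relQ k a)) := by
    intro a' ha'
    have h3 : MCt M (fun _ : ℕ × (ℕ × ℕ) => True) :=
      MCov.mono (mct_prod (P := fun _ : ℕ => True) (Q := fun _ : ℕ × ℕ => True) mct_nat mct_prod_nat)
        fun _ _ => ⟨trivial, trivial⟩
    have h4 : MF M (fun q : (ℕ × (ℕ × ℕ)) × V => S.Q q.2 ∧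
        InCl (show Quo S.D from S.x a') (S.relQ q.1 q.2)) :=
      mf_and (mf_comp M (g := S.Q) (f := fun q : (ℕ × (ℕ × ℕ)) × V => q.2) hQ (by fun_prop))
        (mf_InCl (mf_const M _) hrel)
    have h5 := MCt.iUnion (M := M) (Q := fun _ : ℕ × (ℕ × ℕ) => True)
      (P := fun k a => S.Q a ∧ InCl (show Quo S.D from S.x a') (S.relQ k a)) (mf_const M True) h4 h3
      fun k _ => S.count a' ha' k
    refine MCov.mono h5 ?_
    rintro a ⟨k, h6⟩
    exact ⟨k, trivial, h6⟩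
  obtain ⟨ε, h1, h2, h3, h4⟩ := free_set hW hQ S.Q_unc hΦ hc
  refine ⟨ε, h1, h2, h3, fun i j hij k hk => h4 i j hij ⟨k, h3 j, hk⟩⟩

/-- a neighbourhood of the model inside finitely many -/
theorem BDisc_nhd (z : X) (U : ℕ → PM M X) (hU : ∀ j, Op (U j)) (hz : ∀ j, z ∈ U j) (N : ℕ)
    (O : Set X) (hO : IsOpen O) (hzO : z ∈ O) :
    ∃ U' : PM M X, Op U' ∧ z ∈ U' ∧ ∀ t, t ∈ U' → t ∈ O ∧ ∀ j, j ≤ N → t ∈ U j := by
  have h1 : IsOpen ((⋂ j ∈ Finset.range (N + 1), (U j).set) ∩ O) :=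
    (isOpen_biInter_finset fun j _ => hU j).inter hO
  have h2 : z ∈ ((⋂ j ∈ Finset.range (N + 1), (U j).set) ∩ O) :=
    ⟨Set.mem_iInter₂.2 fun j _ => hz j, hzO⟩
  obtain ⟨U', h3, h4, h5⟩ := MTop.base (M := M) z _ h1 h2
  refine ⟨U', h3, h4, fun t ht => ⟨(h5 t ht).2, fun j hj => ?_⟩⟩
  exact Set.mem_iInter₂.1 (h5 t ht).1 j (Finset.mem_range.2 (Nat.lt_succ_of_le hj))

/-- The case of weight bigger than `ℵ₁` (internal form of `Setup.exists_discrete` in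
`Pool/Agent/W_3b51b4_h27/Discrete.lean`).

PROOF. Let `Ph a' a := ∃ k, InCl (x a') (relQ k a)` (a relation of the model, `mf_relQ`, `mf_InCl`) and
`Ph' a' a := S.Q a ∧ Ph a' a`; `{a | Ph' a' a}` is countable for `S.Q a'` by `HSet.count` (`MCt.iUnion` over the
countable type of all `k`). `free_set` for `Q := S.Q` and `Ph'` gives `ε : W → V` in the model, injective, with
values in `S.Q` and `¬ Ph (ε i) (ε j)` for `i ≠ j`. Choose (`exists_choose`) `idx : ℕ → W → ℕ` in the model such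
that `idx k i` is a `j` as in `w_cov` for `z = x (ε i)` or `z = y (ε i)` if `ε i` is not `k`-good, i.e.
`¬ S.Good k (ε i) → Bad (wx k j) (wn k j) ∧ (∃ i', C i' = g ..) ∧ (g.. (x (ε i)) < l1 ∨ g.. (y (ε i)) < l1)`.
Apply `g_generic` to `Y := Quo S.D`, the base of `exists_quo_base`, `p i := S.x (ε i)`,
`R k i m := S.Rel k (ε i) m`, `idx`, the index type `J := W × (ℕ × ℕ)` and
`Z (i, (m, n)) := {t | qq m < qq n ∧ (∃ t1, Eqv t1 t ∧ (C i).1 t1 ≤ qq m) ∧ (∃ t2, Eqv t2 t ∧ qq n ≤ (C i).1 t2)}`,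
closed in the quotient as intersection of two hulls (`quo_hull_closed`); `p j` is not in it, as `C i` is constant
on the class of `x (ε j)` (`C_const`). We get `B' : W → Prop`; enumerate it by `η : W → W`
(`IsOm1T.exists_enum`) and put `x a := S.x (ε (η a))`, `y a := S.y (ε (η a))` (with `η`, `ε` injective). Let `r.1 ≠ r.2`.
(1) If not `Eqv D r.1 r.2`, some `D n` and levels separate them by disjoint `ltS`, `gtS`: no pair there
(`eqv`). (2) If `r.1` is not in the closure `K` of `{x (ε i) | B' i}` in the quotient, its complement is open in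
`X` (`quo_open`; use `MTop.base` to get a set of the model) and contains no `x a`. (3) Let `Pr D r` and `r.1 ∈ K`.
All `C i` are constant on the class of `r.1` (otherwise `r.1 ∈ Z (i, (m, n))` for suitable `m, n`; note that the
class of `r.1` is used). Let `k := c r` and let `N` bound `idx k` on `B'`. For `j ≤ N` let `U_j, U'_j` be as in
`witness_nhds` if its hypotheses hold (otherwise everything); let `U` be the intersection of the `U_j`, `j ≤ N`,
and `ltS (F r) l1`, `U'` the intersection of the `U'_j` and `gtS (F r) l2` (`F_zero`, `F_one`). Let `B' i` with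
`x (ε i) ∈ U`, `y (ε i) ∈ U'`. Then `ε i` is `k`-good (otherwise `j := idx k i ≤ N` gives a contradiction). By
`g_base` there are `n1`, `n2` with `ltS (g (x (ε i)) n1) l3 ⊆ ltS (F r) l1`,
`ltS (g (y (ε i)) n2) l3 ⊆ gtS (F r) l2`: so `r` kills `ε i` and `r.1` satisfies `Rel (k, (n1, n2)) (ε i)`; by the
last property of `B'` `r.1` and `x (ε i)` are inseparable, i.e. equivalent (`quo_insep`). By `HSet.inj` there is
at most one such `i`. -/
theorem HSet.exists_disc (S : HSet M X R W V L G) (hMA : MAW M W) (hW : IsOm1T M W) :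
    Disc M W X := by
  classical
  obtain ⟨ε, hε, hεinj, hεQ, hfree⟩ := BDisc_free S hW
  obtain ⟨idx, hidx, hidx'⟩ := BDisc_idx S hε hεQ
  have hx : MF M (fun i => S.x (ε i)) := mf_comp M S.x_mf hε
  have hy : MF M (fun i => S.y (ε i)) := mf_comp M S.y_mf hε
  obtain ⟨Ub, hUb1, hUb2, hUb3⟩ := exists_quo_base S.D
  have hJ : MCov M W (fun _ : W × (ℕ × ℕ) => True) := by
    have h1 : MCov M W (fun _ : W => True) :=
      MCov.of_enum (e := fun i : W => i) (mf_id M) fun a _ => ⟨a, rfl⟩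
    have h2 : MCov M W (fun _ : ℕ × ℕ => True) := hW.cov_of_mct mct_prod_nat
    exact MCov.mono (MCov.prod (P := fun _ : W => True) (Q := fun _ : ℕ × ℕ => True) hW.cov_sq h1 h2)
      fun _ _ => ⟨trivial, trivial⟩
  have hRel : MF M (fun q : ((ℕ × (ℕ × ℕ)) × W) × Quo S.D => S.Rel q.1.1 (ε q.1.2) q.2) := by
    have h1 := S.mf_Rel
    have h2 : MF M (fun q : ((ℕ × (ℕ × ℕ)) × W) × X => S.Rel q.1.1 (ε q.1.2) q.2) :=
      mf_comp M (g := fun q : ((ℕ × (ℕ × ℕ)) × V) × X => S.Rel q.1.1 q.1.2 q.2)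
        (f := fun q : ((ℕ × (ℕ × ℕ)) × W) × X => ((q.1.1, ε q.1.2), q.2)) h1 (by fun_prop)
    exact h2
  obtain ⟨B', hB', hB'u, hB'Z, hB'idx, hB'R⟩ := g_generic (M := M) (W := W) (Y := Quo S.D) hMA hW
    hUb1 hUb2 hUb3 (p := fun i => (show Quo S.D from S.x (ε i))) hx
    (R := fun k i (m : Quo S.D) => S.Rel k (ε i) m) hRel
    (fun a b hab k => hfree a b hab k) hidx (J := W × (ℕ × ℕ)) hJ
    (Z := fun j => (PM.sec (BDisc_Zr S) (BDisc_mf_Zr S) j : PM M X))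
    (mf_PMsec (BDisc_mf_Zr S)) (fun j => BDisc_Zr_closed S j) (fun j a => BDisc_Zr_x S j (hεQ a))
  obtain ⟨η, hη, hηlt, hηB⟩ := hW.exists_enum hB' hB'u
  have hηinj : Function.Injective η := by
    intro a b hab
    rcases lt_trichotomy a b with h | h | h
    · exact absurd hab (hηlt a b h).ne
    · exact h
    · exact absurd hab (hηlt b a h).ne'
  refine ⟨fun a => S.x (ε (η a)), fun a => S.y (ε (η a)),
    mf_comp M (g := fun i => S.x (ε i)) hx hη, mf_comp M (g := fun i => S.y (ε i)) hy hη,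
    fun a => S.ne _ (hεQ _), fun r hr12 => ?_⟩
  have huniv : Op (PM.of (fun _ : X => True) (mf_const M True) : PM M X) := isOpen_univ
  by_cases hE : Eqv S.D r.1 r.2
  swap
  · unfold Eqv at hE
    push Not at hE
    obtain ⟨n, hn⟩ := hE
    rcases lt_or_gt_of_ne hn with hlt | hlt
    · obtain ⟨l, hl1, hl2⟩ := _root_.exists_between hlt
      refine ⟨ltS (S.D n) l, gtS (S.D n) l, op_ltS _ _, op_gtS _ _, hl1, hl2, ?_⟩
      convert Set.finite_empty using 1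
      rw [Set.eq_empty_iff_forall_notMem]
      rintro a ⟨h1, h2⟩
      have h3 := S.eqv _ (hεQ (η a)) n
      rw [mem_ltS] at h1
      rw [mem_gtS] at h2
      rw [h3] at h1
      exact lt_asymm h1 h2
    · obtain ⟨l, hl1, hl2⟩ := _root_.exists_between hlt
      refine ⟨gtS (S.D n) l, ltS (S.D n) l, op_gtS _ _, op_ltS _ _, hl2, hl1, ?_⟩
      convert Set.finite_empty using 1
      rw [Set.eq_empty_iff_forall_notMem]
      rintro a ⟨h1, h2⟩
      have h3 := S.eqv _ (hεQ (η a)) n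
      rw [mem_gtS] at h1
      rw [mem_ltS] at h2
      rw [h3] at h1
      exact lt_asymm h1 h2
  have hr : Pr S.D r := ⟨hr12, hE⟩
  by_cases hm : (show Quo S.D from r.1) ∈
      closure {y : Quo S.D | ∃ a, B' a ∧ (show Quo S.D from S.x (ε a)) = y}
  swap
  · have h0 : IsOpen (X := Quo S.D)
        (closure {y : Quo S.D | ∃ a, B' a ∧ (show Quo S.D from S.x (ε a)) = y})ᶜ :=
      isClosed_closure.isOpen_compl
    have h1 := quo_open S.D h0
    obtain ⟨U, hU1, hU2, hU3⟩ := MTop.base (M := M) r.1 _ h1 hm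
    refine ⟨U, _, hU1, huniv, hU2, trivial, ?_⟩
    convert Set.finite_empty using 1
    rw [Set.eq_empty_iff_forall_notMem]
    rintro a ⟨h2, -⟩
    exact hU3 _ h2 (subset_closure ⟨η a, hηB a, rfl⟩)
  -- the main case
  have hconst : ∀ i z, Eqv S.D z r.1 → (S.C i).1 z = (S.C i).1 r.1 :=
    fun i z hz => BDisc_const S (fun j => hB'Z j r.1 hm) i z hz
  obtain ⟨N, hN⟩ := hB'idx (S.c r)
  have hUj : ∀ j, ∃ U U' : PM M X, Op U ∧ Op U' ∧ r.1 ∈ U ∧ r.2 ∈ U' ∧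
      ∀ z, z ∈ U ∨ z ∈ U' → BDisc_bad S (S.c r, j) → BDisc_inC S (S.c r, j) →
        ¬ (BDisc_gw S (S.c r, j)).1 z < L.l1 := by
    intro j
    by_cases hw : BDisc_bad S (S.c r, j) ∧ BDisc_inC S (S.c r, j)
    · obtain ⟨U, U', h1, h2, h3, h4, h5⟩ := S.witness_nhds r hr hconst j hw.1 hw.2
      exact ⟨U, U', h1, h2, h3, h4, fun z hz _ _ => h5 z hz⟩
    · exact ⟨_, _, huniv, huniv, trivial, trivial, fun z _ h1 h2 => (hw ⟨h1, h2⟩).elim⟩
  choose U U' hU1 hU1' hU2 hU2' hU3 using hUj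
  have hF0 : (G.F r).1 r.1 < L.l1 := by
    rw [G.F_zero r hr12]
    exact L.h01
  have hF1 : L.l2 < (G.F r).1 r.2 := by
    rw [G.F_one r hr12]
    exact L.h23
  obtain ⟨O, hO1, hO2, hO3⟩ := BDisc_nhd (M := M) r.1 U hU1 hU2 N (ltS (G.F r) L.l1).set
    (op_ltS _ _) hF0
  obtain ⟨O', hO1', hO2', hO3'⟩ := BDisc_nhd (M := M) r.2 U' hU1' hU2' N (gtS (G.F r) L.l2).set
    (op_gtS _ _) hF1
  refine ⟨O, O', hO1, hO1', hO2, hO2', ?_⟩
  have hkey : ∀ a, S.x (ε (η a)) ∈ O → S.y (ε (η a)) ∈ O' → Eqv S.D r.1 (S.x (ε (η a))) := by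
    intro a ha ha'
    obtain ⟨h1, h2⟩ := hO3 _ ha
    obtain ⟨h1', h2'⟩ := hO3' _ ha'
    have hgood : S.Good (S.c r) (ε (η a)) := by
      by_contra hng
      obtain ⟨h3, h4, h5⟩ := hidx' (S.c r) (η a) hng
      have h6 : idx (S.c r) (η a) ≤ N := hN (η a) (hηB a)
      rcases h5 with h5 | h5
      · exact hU3 _ _ (Or.inl (h2 _ h6)) h3 h4 h5
      · exact hU3 _ _ (Or.inr (h2' _ h6)) h3 h4 h5
    obtain ⟨n1, hn1⟩ := G.g_base (S.x (ε (η a))) (ltS (G.F r) L.l1).set (op_ltS _ _) h1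
    obtain ⟨n2, hn2⟩ := G.g_base (S.y (ε (η a))) (gtS (G.F r) L.l2).set (op_gtS _ _) h1'
    have h13 : L.l1 < L.l3 := L.h12.trans L.h23
    have hkill : S.Kill r (ε (η a)) n1 n2 :=
      ⟨fun t ht => hn1 t (ht.trans h13), fun t ht => hn2 t (ht.trans h13)⟩
    have hrel : S.Rel (S.c r, (n1, n2)) (ε (η a)) r.1 :=
      ⟨hgood, r, hr, rfl, hkill, Eqv.refl _ _⟩
    exact (quo_insep S.D).1 (hB'R (S.c r, (n1, n2)) (η a) (hηB a) r.1 hm hrel)
  refine Set.Subsingleton.finite ?_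
  rintro a ⟨ha, ha'⟩ b ⟨hb, hb'⟩
  have h1 := (hkey a ha ha').symm.trans (hkey b hb hb')
  exact hηinj (hεinj (S.inj (hεQ _) (hεQ _) h1))

end

end HM
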