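import Pool.Agent.HM_h27.BDefs

/-!
# HM, large weight: the quotient topology
-/

namespace HM

open HESR Topology

universe u v w v1 v2 v3 v4

set_option linter.unusedVariables false
set_option linter.unusedSectionVars false

section
variable {M : Type u} [ZFM M]
variable {X : Type v} [IT M X] [TopologicalSpace X] [MTop M X]
variable {R : Type w} [IT M R] [LinearOrder R] [RealLine M R] [TopologicalSpace R] [OrderTopology R]
  [DenselyOrdered R] [NoMinOrder R] [NoMaxOrder R] [Nonempty R]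
variable (D : MFun M ℕ (CX M X R))

theorem quo_inducing : IsInducing (Quo.ev D) := ⟨rfl⟩

/-- PROOF. `quo_inducing`, `ℕ → R` is regular (order topologies are). -/
instance instRegQuo : RegularSpace (Quo D) := (quo_inducing D).regularSpace

theorem BQuo_cont : Continuous (fun x : X => (Quo.ev D x : ℕ → R)) :=
  continuous_pi fun n => (D n).cont

/-- open sets of the quotient topology are open in `X`. PROOF. `Quo.ev D` is continuous on `X`. -/
theorem quo_open {O : Set (Quo D)} (h : IsOpen O) : IsOpen (X := X) O := by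
  obtain ⟨V, hV, hVO⟩ := (quo_inducing D).isOpen_iff.1 h
  rw [← hVO]
  exact hV.preimage (BQuo_cont D)

/-- PROOF. `quo_inducing.inseparable_iff`, the space `ℕ → R` is Hausdorff. -/
theorem quo_insep {x y : Quo D} : Inseparable x y ↔ Eqv D x y := by
  rw [← (quo_inducing D).inseparable_iff, inseparable_iff_eq]
  exact funext_iff

/-- closed and open sets of the quotient topology are saturated -/
theorem quo_sat_closed {C : Set (Quo D)} (h : IsClosed C) {x y : Quo D} (hxy : Eqv D x y)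
    (hx : x ∈ C) : y ∈ C :=
  (((quo_insep D).2 hxy).mem_closed_iff h).1 hx

theorem quo_sat_open {O : Set (Quo D)} (h : IsOpen O) {x y : Quo D} (hxy : Eqv D x y)
    (hx : x ∈ O) : y ∈ O :=
  (((quo_insep D).2 hxy).mem_open_iff h).1 hx

/-- A base of the quotient topology: finite intersections of sets `{y | qq i < D j y ∧ D j y < qq k}`.

PROOF. `quo_inducing`, `isOpen_pi_iff`, base of the order topology, density of `qq`. -/
theorem quo_base0 (y : Quo D) (O : Set (Quo D)) (hO : IsOpen O) (hy : y ∈ O) :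
    ∃ t : Finset (ℕ × (ℕ × ℕ)),
      (∀ j ∈ t, qq M R j.2.1 < Quo.ev D y j.1 ∧ Quo.ev D y j.1 < qq M R j.2.2) ∧
      ∀ z : Quo D, (∀ j ∈ t, qq M R j.2.1 < Quo.ev D z j.1 ∧ Quo.ev D z j.1 < qq M R j.2.2) → z ∈ O := by
  classical
  obtain ⟨V, hV, hVO⟩ := (quo_inducing D).isOpen_iff.1 hO
  have hy' : Quo.ev D y ∈ V := by
    rw [← hVO] at hy
    exact hy
  obtain ⟨I, u, hu, huV⟩ := isOpen_pi_iff.1 hV (Quo.ev D y) hy'
  have h1 : ∀ i : ℕ, ∃ p : ℕ × ℕ, i ∈ I → (qq M R p.1 < Quo.ev D y i ∧ Quo.ev D y i < qq M R p.2) ∧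
      ∀ r : R, qq M R p.1 < r → r < qq M R p.2 → r ∈ u i := by
    intro i
    by_cases hi : i ∈ I
    · obtain ⟨h2, h3⟩ := hu i hi
      obtain ⟨a, b, h4, h5⟩ := mem_nhds_iff_exists_Ioo_subset.1 (h2.mem_nhds h3)
      obtain ⟨p, hp1, hp2⟩ := qq_dense (M := M) h4.1
      obtain ⟨q, hq1, hq2⟩ := qq_dense (M := M) h4.2
      exact ⟨(p, q), fun _ => ⟨⟨hp2, hq1⟩, fun r hr1 hr2 => h5 ⟨hp1.trans hr1, hr2.trans hq2⟩⟩⟩
    · exact ⟨(0, 0), fun h => absurd h hi⟩
  choose p hp using h1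
  refine ⟨I.image (fun i => (i, p i)), ?_, ?_⟩
  · intro j hj
    obtain ⟨i, hi, rfl⟩ := Finset.mem_image.1 hj
    exact (hp i hi).1
  · intro z hz
    rw [← hVO]
    refine huV fun i hi => ?_
    have h2 := hz (i, p i) (Finset.mem_image.2 ⟨i, hi, rfl⟩)
    exact (hp i hi).2 _ h2.1 h2.2

theorem BQuo_ev_cont (n : ℕ) : Continuous (fun z : Quo D => Quo.ev D z n) :=
  (continuous_apply n).comp (quo_inducing D).continuous

/-- The sets of this base are open. -/
theorem quo_base_open (t : Finset (ℕ × (ℕ × ℕ))) :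
    IsOpen {z : Quo D | ∀ j ∈ t, qq M R j.2.1 < Quo.ev D z j.1 ∧ Quo.ev D z j.1 < qq M R j.2.2} := by
  have h : {z : Quo D | ∀ j ∈ t, qq M R j.2.1 < Quo.ev D z j.1 ∧ Quo.ev D z j.1 < qq M R j.2.2} =
      ⋂ j ∈ t, {z : Quo D | qq M R j.2.1 < Quo.ev D z j.1 ∧ Quo.ev D z j.1 < qq M R j.2.2} := by
    ext z
    simp only [Set.mem_ofPred_eq, Set.mem_iInter]
  rw [h]
  refine isOpen_biInter_finset fun j _ => ?_
  exact (isOpen_Ioi.preimage (BQuo_ev_cont D j.1)).inter (isOpen_Iio.preimage (BQuo_ev_cont D j.1))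

theorem BQuo_mf_ev : MF M (fun p : Quo D × ℕ => Quo.ev D p.1 p.2) := by
  have h := D.mf
  show MF M (fun p : X × ℕ => (D.toFun p.2).1 p.1)
  fun_prop

/-- the basic open sets depend on the finite set in the model -/
theorem BQuo_mf_base : MF M (fun q : Finset (ℕ × (ℕ × ℕ)) × Quo D => ∀ j ∈ q.1,
    qq M R j.2.1 < Quo.ev D q.2 j.1 ∧ Quo.ev D q.2 j.1 < qq M R j.2.2) := by
  have h1 : MF M (fun q : (Finset (ℕ × (ℕ × ℕ)) × Quo D) × (ℕ × (ℕ × ℕ)) =>
      Quo.ev D q.1.2 q.2.1) :=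
    mf_comp M (g := fun p : Quo D × ℕ => Quo.ev D p.1 p.2)
      (f := fun q : (Finset (ℕ × (ℕ × ℕ)) × Quo D) × (ℕ × (ℕ × ℕ)) => (q.1.2, q.2.1))
      (BQuo_mf_ev D) (by fun_prop)
  have h2 : MF M (fun q : (Finset (ℕ × (ℕ × ℕ)) × Quo D) × (ℕ × (ℕ × ℕ)) => q.2 ∈ q.1.1) := by
    fun_prop
  exact mf_all (R := fun (q : Finset (ℕ × (ℕ × ℕ)) × Quo D) (j : ℕ × (ℕ × ℕ)) =>
      j ∈ q.1 → qq M R j.2.1 < Quo.ev D q.2 j.1 ∧ Quo.ev D q.2 j.1 < qq M R j.2.2)
    (mf_imp h2 (mf_and (mf_real_lt (by fun_prop) h1) (mf_real_lt h1 (by fun_prop))))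

/-- the basic open set of a finite set of conditions -/
noncomputable def BQuo_B (t : Finset (ℕ × (ℕ × ℕ))) : PM M (Quo D) :=
  PM.sec (fun (t : Finset (ℕ × (ℕ × ℕ))) (z : Quo D) => ∀ j ∈ t,
    qq M R j.2.1 < Quo.ev D z j.1 ∧ Quo.ev D z j.1 < qq M R j.2.2) (BQuo_mf_base D) t

theorem BQuo_mf_B : MF M (BQuo_B D) := mf_PMsec (BQuo_mf_base D)

theorem BQuo_mem_B {t : Finset (ℕ × (ℕ × ℕ))} {z : Quo D} : z ∈ BQuo_B D t ↔ ∀ j ∈ t,
    qq M R j.2.1 < Quo.ev D z j.1 ∧ Quo.ev D z j.1 < qq M R j.2.2 := Iff.rfl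

theorem BQuo_B_open (t : Finset (ℕ × (ℕ × ℕ))) : IsOpen (BQuo_B D t).set := quo_base_open D t

theorem BQuo_open_iff (U : PM M (Quo D)) : IsOpen U.set ↔
    ∀ y, y ∈ U → ∃ t : Finset (ℕ × (ℕ × ℕ)), y ∈ BQuo_B D t ∧ ∀ z, z ∈ BQuo_B D t → z ∈ U := by
  constructor
  · intro h y hy
    obtain ⟨t, h1, h2⟩ := quo_base0 D y U.set h hy
    exact ⟨t, h1, fun z hz => h2 z hz⟩
  · intro h
    refine isOpen_iff_forall_mem_open.2 fun y hy => ?_
    obtain ⟨t, h1, h2⟩ := h y hy
    exact ⟨(BQuo_B D t).set, fun z hz => h2 z hz, BQuo_B_open D t, h1⟩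

/-- The quotient topology is a topology of the model.

PROOF. `U` is open iff for all `y ∈ U` there is `t : Finset (ℕ × (ℕ × ℕ))` as in `quo_base0` (`mf_congr`,
`fun_prop`; `(z, j) ↦ Quo.ev D z j.1` is in the model because `D` is). -/
instance instMTopQuo : MTop M (Quo D) := by
  have hB := BQuo_mf_B D
  constructor
  · have h : MF M (fun U : PM M (Quo D) => ∀ y, y ∈ U → ∃ t : Finset (ℕ × (ℕ × ℕ)),
        y ∈ BQuo_B D t ∧ ∀ z, z ∈ BQuo_B D t → z ∈ U) := by
      fun_prop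
    exact mf_congr h fun U => propext (BQuo_open_iff D U)
  · intro x U hU hx
    obtain ⟨t, h1, h2⟩ := quo_base0 D x U hU hx
    exact ⟨BQuo_B D t, BQuo_B_open D t, h1, fun z hz => h2 z hz⟩

/-- A countable base of the quotient topology in the model, with closures.

PROOF. Enumerate `Finset (ℕ × (ℕ × ℕ))` by `ℕ` in the model (`mct_finset`, `MCov.enum`); for the closures use
`RegularSpace` (`exists_mem_nhds_isClosed_subset`). -/
theorem exists_quo_base : ∃ U : ℕ → PM M (Quo D), MF M U ∧ (∀ n, Op (U n)) ∧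
    ∀ (y : Quo D) (O : Set (Quo D)), IsOpen O → y ∈ O → ∃ n, y ∈ U n ∧ closure (U n).set ⊆ O := by
  have hc1 : MCt M (fun _ : ℕ × (ℕ × ℕ) => True) :=
    (mct_prod (M := M) (α := ℕ) (β := ℕ × ℕ) (P := fun _ => True) (Q := fun _ => True) mct_nat
      mct_prod_nat).mono fun _ _ => ⟨trivial, trivial⟩
  have hc2 : MCt M (fun _ : Finset (ℕ × (ℕ × ℕ)) => True) :=
    (mct_finset (M := M) (α := ℕ × (ℕ × ℕ)) (P := fun _ => True) (by fun_prop) hc1).mono
      fun _ _ _ _ => trivial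
  obtain ⟨e, he, -, he2⟩ := MCov.enum (M := M) (P := fun _ : Finset (ℕ × (ℕ × ℕ)) => True)
    (by fun_prop) hc2 ⟨∅, trivial⟩
  refine ⟨fun n => BQuo_B D (e n), mf_comp M (BQuo_mf_B D) he, fun n => BQuo_B_open D (e n), ?_⟩
  intro y O hO hy
  obtain ⟨C, hC, hCc, hCO⟩ := exists_mem_nhds_isClosed_subset (hO.mem_nhds hy)
  obtain ⟨t, h1, h2⟩ := quo_base0 D y (interior C) isOpen_interior (mem_interior_iff_mem_nhds.2 hC)
  obtain ⟨n, hn⟩ := he2 t trivial
  refine ⟨n, ?_, ?_⟩
  · show y ∈ BQuo_B D (e n)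
    rw [hn]
    exact h1
  · show closure (BQuo_B D (e n)).set ⊆ O
    rw [hn]
    refine Set.Subset.trans (closure_minimal (fun z hz => ?_) hCc) hCO
    exact interior_subset (h2 z hz)

/-- The quotient map is closed.

PROOF. Let `y` be outside the hull. For every `x ∈ K` some `(D n).1 x ≠ (D n).1 y`, so `x` belongs to one of the
open sets `{x | (D n).1 x < qq i}` with `qq i < (D n).1 y`, `{x | qq i < (D n).1 x}` with `(D n).1 y < qq i`. By
`exists_finite_cover` (index type `ℕ × ℕ`, `U (n, i) := {x | (qq i < (D n).1 y ∧ (D n).1 x < qq i) ∨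
((D n).1 y < qq i ∧ qq i < (D n).1 x)}`) finitely many of them cover `K`; the set of all `z` such that for these
`(n, i)`: `(qq i < (D n).1 y → qq i < (D n).1 z) ∧ ((D n).1 y < qq i → (D n).1 z < qq i)` is an open neighbourhood
of `y` in the quotient topology which misses the hull. -/
theorem quo_hull_closed [MCpt M X] {K : PM M X} (hK : Cld K) :
    IsClosed (X := Quo D) {y : Quo D | ∃ x, x ∈ K ∧ Eqv D x y} := by
  rw [← isOpen_compl_iff]
  refine isOpen_iff_forall_mem_open.2 fun y hy => ?_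
  have hD := D.mf
  have hU : MF M (fun q : (ℕ × ℕ) × X =>
      (qq M R q.1.2 < (D q.1.1).1 (show X from y) ∧ (D q.1.1).1 q.2 < qq M R q.1.2) ∨
      ((D q.1.1).1 (show X from y) < qq M R q.1.2 ∧ qq M R q.1.2 < (D q.1.1).1 q.2)) := by
    have h1 : MF M (fun q : (ℕ × ℕ) × X => (D.toFun q.1.1).1 (show X from y)) := by fun_prop
    have h2 : MF M (fun q : (ℕ × ℕ) × X => (D.toFun q.1.1).1 q.2) := by fun_prop
    have h3 : MF M (fun q : (ℕ × ℕ) × X => qq M R q.1.2) := by fun_prop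
    exact mf_or (mf_and (mf_real_lt h3 h1) (mf_real_lt h2 h3))
      (mf_and (mf_real_lt h1 h3) (mf_real_lt h3 h2))
  obtain ⟨F, -, hF⟩ := exists_finite_cover (M := M) (X := X) (ι := ℕ × ℕ) (Q := fun _ => True)
    (by fun_prop) (U := PM.sec (fun (j : ℕ × ℕ) (x : X) =>
      (qq M R j.2 < (D j.1).1 (show X from y) ∧ (D j.1).1 x < qq M R j.2) ∨
      ((D j.1).1 (show X from y) < qq M R j.2 ∧ qq M R j.2 < (D j.1).1 x)) hU) (mf_PMsec hU)
    (by
      intro j _
      have e1 : IsOpen {x : X | qq M R j.2 < (D j.1).1 (show X from y) ∧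
          (D j.1).1 x < qq M R j.2} := by
        by_cases h : qq M R j.2 < (D j.1).1 (show X from y)
        · have : {x : X | qq M R j.2 < (D j.1).1 (show X from y) ∧ (D j.1).1 x < qq M R j.2} =
              (fun x : X => (D j.1).1 x) ⁻¹' Set.Iio (qq M R j.2) := by
            ext x
            exact ⟨fun h' => h'.2, fun h' => ⟨h, h'⟩⟩
          rw [this]
          exact isOpen_Iio.preimage (D j.1).cont
        · have : {x : X | qq M R j.2 < (D j.1).1 (show X from y) ∧ (D j.1).1 x < qq M R j.2} =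
              ∅ := by
            ext x
            exact ⟨fun h' => absurd h'.1 h, fun h' => absurd h' (Set.notMem_empty x)⟩
          rw [this]
          exact isOpen_empty
      have e2 : IsOpen {x : X | (D j.1).1 (show X from y) < qq M R j.2 ∧
          qq M R j.2 < (D j.1).1 x} := by
        by_cases h : (D j.1).1 (show X from y) < qq M R j.2
        · have : {x : X | (D j.1).1 (show X from y) < qq M R j.2 ∧ qq M R j.2 < (D j.1).1 x} =
              (fun x : X => (D j.1).1 x) ⁻¹' Set.Ioi (qq M R j.2) := by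
            ext x
            exact ⟨fun h' => h'.2, fun h' => ⟨h, h'⟩⟩
          rw [this]
          exact isOpen_Ioi.preimage (D j.1).cont
        · have : {x : X | (D j.1).1 (show X from y) < qq M R j.2 ∧ qq M R j.2 < (D j.1).1 x} =
              ∅ := by
            ext x
            exact ⟨fun h' => absurd h'.1 h, fun h' => absurd h' (Set.notMem_empty x)⟩
          rw [this]
          exact isOpen_empty
      exact e1.union e2)
    hK (by
      intro x hx
      have h1 : ¬ Eqv D x (show X from y) := fun h => hy ⟨x, hx, h⟩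
      unfold Eqv at h1
      push Not at h1
      obtain ⟨n, hn⟩ := h1
      rcases lt_or_gt_of_ne hn with h2 | h2
      · obtain ⟨i, hi1, hi2⟩ := qq_dense (M := M) h2
        exact ⟨(n, i), trivial, Or.inl ⟨hi2, hi1⟩⟩
      · obtain ⟨i, hi1, hi2⟩ := qq_dense (M := M) h2
        exact ⟨(n, i), trivial, Or.inr ⟨hi1, hi2⟩⟩)
  refine ⟨⋂ j ∈ F, {z : Quo D | (qq M R j.2 < Quo.ev D y j.1 → qq M R j.2 < Quo.ev D z j.1) ∧
    (Quo.ev D y j.1 < qq M R j.2 → Quo.ev D z j.1 < qq M R j.2)}, ?_, ?_, ?_⟩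
  · rintro z hz ⟨x, hx, hxz⟩
    rw [Set.mem_iInter₂] at hz
    obtain ⟨j, hj, hxj⟩ := hF x hx
    have h1 := hz j hj
    have h2 : Quo.ev D z j.1 = (D j.1).1 x := (hxz j.1).symm
    rcases hxj with h3 | h3
    · have h4 := h1.1 h3.1
      rw [h2] at h4
      exact lt_asymm h4 h3.2
    · have h4 := h1.2 h3.1
      rw [h2] at h4
      exact lt_asymm h4 h3.2
  · refine isOpen_biInter_finset fun j _ => ?_
    have e1 : IsOpen {z : Quo D | qq M R j.2 < Quo.ev D y j.1 → qq M R j.2 < Quo.ev D z j.1} := by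
      by_cases h : qq M R j.2 < Quo.ev D y j.1
      · have : {z : Quo D | qq M R j.2 < Quo.ev D y j.1 → qq M R j.2 < Quo.ev D z j.1} =
            (fun z : Quo D => Quo.ev D z j.1) ⁻¹' Set.Ioi (qq M R j.2) := by
          ext z
          exact ⟨fun h' => h' h, fun h' _ => h'⟩
        rw [this]
        exact isOpen_Ioi.preimage (BQuo_ev_cont D j.1)
      · have : {z : Quo D | qq M R j.2 < Quo.ev D y j.1 → qq M R j.2 < Quo.ev D z j.1} =
            Set.univ := by
          ext z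
          exact ⟨fun _ => Set.mem_univ z, fun _ h' => absurd h' h⟩
        rw [this]
        exact isOpen_univ
    have e2 : IsOpen {z : Quo D | Quo.ev D y j.1 < qq M R j.2 → Quo.ev D z j.1 < qq M R j.2} := by
      by_cases h : Quo.ev D y j.1 < qq M R j.2
      · have : {z : Quo D | Quo.ev D y j.1 < qq M R j.2 → Quo.ev D z j.1 < qq M R j.2} =
            (fun z : Quo D => Quo.ev D z j.1) ⁻¹' Set.Iio (qq M R j.2) := by
          ext z
          exact ⟨fun h' => h' h, fun h' _ => h'⟩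
        rw [this]
        exact isOpen_Iio.preimage (BQuo_ev_cont D j.1)
      · have : {z : Quo D | Quo.ev D y j.1 < qq M R j.2 → Quo.ev D z j.1 < qq M R j.2} =
            Set.univ := by
          ext z
          exact ⟨fun _ => Set.mem_univ z, fun _ h' => absurd h' h⟩
        rw [this]
        exact isOpen_univ
    exact e1.inter e2
  · rw [Set.mem_iInter₂]
    intro j _
    exact ⟨fun h => h, fun h => h⟩

/-- Upper semicontinuity. PROOF. The complement of the hull of `U.compl`. -/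
theorem quo_usc [MCpt M X] {U : PM M X} (hU : Op U) {z : X} (hz : FibIn D z U) :
    ∃ O : Set (Quo D), IsOpen O ∧ (show Quo D from z) ∈ O ∧ ∀ y : Quo D, y ∈ O → (show X from y) ∈ U := by
  have h1 := quo_hull_closed D (K := U.compl) (op_compl_iff.2 hU)
  refine ⟨{y : Quo D | ∃ x, x ∈ U.compl ∧ Eqv D x y}ᶜ, h1.isOpen_compl, ?_, ?_⟩
  · rintro ⟨x, hx, hxz⟩
    exact hx (hz x hxz)
  · intro y hy
    by_contra h2
    exact hy ⟨y, h2, Eqv.refl D y⟩

end

end HM
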