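import Pool.Agent.HM_h27.Ax
import Pool.Agent.HM_h27.BQuo

/-!
# HM, large weight: the colouring from the open colouring axiom
-/

namespace HM

open HESR Topology

universe u v w v1 v2 v3 v4

set_option linter.unusedVariables false
set_option linter.unusedSectionVars false

section
variable {M : Type u} [ZFM M]
variable {W : Type v3} [IT M W] [LinearOrder W] [WO M W]
variable {X : Type v} [IT M X] [TopologicalSpace X] [MTop M X] [T2Space X] [MCpt M X] [MPerf M X]
variable {R : Type w} [IT M R] [LinearOrder R] [RealLine M R] [TopologicalSpace R] [OrderTopology R]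
  [DenselyOrdered R] [NoMinOrder R] [NoMaxOrder R] [Nonempty R]

/-- One colouring (internal form of `OcaStep_colour` in `Pool/Agent/W_3b51b4_h27/OcaStep.lean`). `K r` is a
closed and `U r ⊆ K r` an open set, `x r ∈ U r` is equivalent to `r.1`.

PROOF. Let `Vn` be the base of `exists_quo_base`. Apply `OCAW` to `S := X × X`, `Q := Pr D`,
`A r n := r.1 ∈ Vn n` (as a point of the quotient), `B r n := ∀ t ∈ Vn n, ¬ t ∈ K r`. For `Pr D r` they are
disjoint: `x r ∈ K r` and `Vn n` is saturated (`quo_sat_open`). Clique `e : W → X × X`: for `i ≠ j` there is `n`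
with `(e i).1 ∈ Vn n` and `Vn n` disjoint from `K (e j)`; so `x (e i) ∉ U (e j)`. By `exists_lindelof` for
`U (e i)`, `i : W`, there is a countable `J` with `x (e i) ∈ U (e j)` for some `j` with `J j`, hence `i = j`: so `W`
is countable, contradiction to `hW.unc`. Colouring `c`: if `c r = c r'` and the classes of `r'.1`, `r.1` miss `K r`,
`K r'`, then by `quo_usc` (for `(K r).compl`) and the base there are `n` with `r'.1 ∈ Vn n`, `B r n`, and `n'` with
`r.1 ∈ Vn n'`, `B r' n'`: contradiction. -/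
theorem oca_colour (hW : IsOm1T M W) (hOCA : OCAW.{u, v, v3} M W) (D : MFun M ℕ (CX M X R))
    {K U : X × X → PM M X} (hK : MF M K) (hU : MF M U) (hKc : ∀ r, Cld (K r)) (hUo : ∀ r, Op (U r))
    (hUK : ∀ r t, t ∈ U r → t ∈ K r) {x : X × X → X} (hx : MF M x) (hxU : ∀ r, Pr D r → x r ∈ U r)
    (hxE : ∀ r, Pr D r → Eqv D (x r) r.1) :
    ∃ c : X × X → ℕ, MF M c ∧ ∀ r r', Pr D r → Pr D r' → c r = c r' →
      FibIn D r'.1 (K r).compl → ¬ FibIn D r.1 (K r').compl := by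
  obtain ⟨Vn, hVn, hVo, hVb⟩ := exists_quo_base (M := M) (X := X) (R := R) D
  obtain ⟨V, hV, hVV⟩ : ∃ V : ℕ → PM M X, MF M V ∧ ∀ n t, t ∈ V n ↔ (show Quo D from t) ∈ Vn n :=
    ⟨fun n => ⟨(Vn n).set, (Vn n).mf⟩, hVn, fun n t => Iff.rfl⟩
  have hsat : ∀ n {a b : X}, Eqv D a b → a ∈ V n → b ∈ V n := by
    intro n a b hab ha
    rw [hVV] at ha ⊢
    exact quo_sat_open D (O := (Vn n).set) (hVo n) hab ha
  have hsep : ∀ r r' : X × X, FibIn D r'.1 (K r).compl →
      ∃ n, r'.1 ∈ V n ∧ ∀ t, t ∈ V n → ¬ t ∈ K r := by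
    intro r r' h
    obtain ⟨O, hO, h1, h2⟩ := quo_usc D (U := (K r).compl) (cld_iff.1 (hKc r)) h
    obtain ⟨n, h3, h4⟩ := hVb _ O hO h1
    refine ⟨n, (hVV n _).2 h3, fun t ht => ?_⟩
    exact h2 _ (h4 (subset_closure ((hVV n t).1 ht)))
  have hdis : ∀ (r : X × X) (n : ℕ), Pr D r → ¬ (r.1 ∈ V n ∧ ∀ t, t ∈ V n → ¬ t ∈ K r) := by
    rintro r n hr ⟨h1, h2⟩
    exact h2 _ (hsat n (hxE r hr).symm h1) (hUK r _ (hxU r hr))
  rcases hOCA (X × X) (Pr D) (fun r n => r.1 ∈ V n) (fun r n => ∀ t, t ∈ V n → ¬ t ∈ K r)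
    (by fun_prop) (by fun_prop) (by fun_prop) hdis with ⟨e, he, heQ, hec⟩ | ⟨c, hc, hcc⟩
  · exfalso
    obtain ⟨J, hJ, hJc, -, hJx⟩ := exists_lindelof (M := M) (X := X) (ι := W) (Q := fun _ => True)
      (mf_const M True) (U := fun i => U (e i)) (by fun_prop) (fun i _ => hUo (e i))
    refine hW.unc (MCov.mono hJc fun i _ => ?_)
    obtain ⟨j, hj, hij⟩ := hJx (x (e i)) i trivial (hxU _ (heQ i))
    by_cases h : i = j
    · rw [h]; exact hj
    · exfalso
      obtain ⟨n, h1, h2⟩ := hec i j h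
      exact h2 _ (hsat n (hxE _ (heQ i)).symm h1) (hUK _ _ hij)
  · refine ⟨c, hc, fun r r' hr hr' hrr h1 h2 => ?_⟩
    exact hcc r r' hr hr' hrr ⟨hsep r' r h2, hsep r r' h1⟩

end

end HM
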