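import Pool.Agent.HM_h27.BOca

/-!
# HM, large weight: the colouring and the dense sequence
-/

namespace HM

open HESR Topology

universe u v w v1 v2 v3 v4

set_option linter.unusedVariables false
set_option linter.unusedSectionVars false

section
variable {M : Type u} [ZFM M]
variable {W : Type v3} [IT M W] [LinearOrder W] [WO M W]
variable {X : Type v} [IT M X] [TopologicalSpace X] [MTop M X] [T2Space X] [MCpt M X] [MPerf M X]
variable {R : Type w} [IT M R] [LinearOrder R] [RealLine M R] [TopologicalSpace R] [OrderTopology R]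
  [DenselyOrdered R] [NoMinOrder R] [NoMaxOrder R] [Nonempty R]

variable {L : Thr R}

/-- The colouring and the dense sequence for one `D` (internal form of `oca_step`).

PROOF. Apply `oca_colour` to `K r := {y | ¬ l1 < F r y}`, `U r := {y | F r y < l1}`, `x r := r.1`, and to
`K r := {y | ¬ F r y < l2}`, `U r := {y | l2 < F r y}`, `x r := r.2`. Let `c r := 2 ^ ..`-free pairing: choose an
injection of `ℕ × ℕ` into `ℕ` in the model (inverse of `exists_enum_prod` by `exists_choose`) and combine the two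
colourings. For the dense sequence let `Vn` be the base of `exists_quo_base`; choose (`exists_choose`) for
every `(k, n)` a pair `r` with `Pr D r`, `c r = k`, `r.1 ∈ Vn n`, if there is one, and enumerate `ℕ × ℕ`; use
`quo_usc` and saturation of `Vn n`. (If `X` has no two distinct points there is nothing to prove; `X × X` may be
empty: then take any function, or treat `IsEmpty X` separately: `MFun M ℕ (X × X)` must be inhabited, so the
statement assumes `[Nonempty X]`.) -/
theorem oca_step [Nonempty X] (hW : IsOm1T M W) (hOCA : OCAW.{u, v, v3} M W) (G : Fns M X R L)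
    (D : MFun M ℕ (CX M X R)) : ∃ (c : MFun M (X × X) ℕ) (e : MFun M ℕ (X × X)), OcaP G D c e := by
  classical
  have hF := G.F_mf
  obtain ⟨c1, hc1, h1⟩ := oca_colour hW hOCA D (K := fun r => (gtS (G.F r) L.l1).compl)
    (U := fun r => ltS (G.F r) L.l1) (by fun_prop) (by fun_prop)
    (fun r => op_compl_iff.2 (op_gtS _ _)) (fun r => op_ltS _ _)
    (fun r t ht => not_lt.2 (le_of_lt (mem_ltS.1 ht))) (x := fun r => r.1) (by fun_prop)
    (fun r hr => by
      rw [mem_ltS, G.F_zero r hr.1]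
      exact L.h01)
    (fun r hr => Eqv.refl D _)
  obtain ⟨c2, hc2, h2⟩ := oca_colour hW hOCA D (K := fun r => (ltS (G.F r) L.l2).compl)
    (U := fun r => gtS (G.F r) L.l2) (by fun_prop) (by fun_prop)
    (fun r => op_compl_iff.2 (op_ltS _ _)) (fun r => op_gtS _ _)
    (fun r t ht => not_lt.2 (le_of_lt (mem_gtS.1 ht))) (x := fun r => r.2) (by fun_prop)
    (fun r hr => by
      rw [mem_gtS, G.F_one r hr.1]
      exact L.h23)
    (fun r hr => hr.2.symm)
  obtain ⟨e0, he0, hs0⟩ := exists_enum_prod M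
  obtain ⟨p0, hp0, hp0'⟩ := exists_choose (M := M) (α := ℕ × ℕ) (β := ℕ)
    (R := fun a n => e0 n = a) (by fun_prop) hs0
  have hinj : ∀ a b : ℕ × ℕ, p0 a = p0 b → a = b := by
    intro a b hab
    rw [← hp0' a, ← hp0' b, hab]
  have hc : MF M (fun r : X × X => p0 (c1 r, c2 r)) := by fun_prop
  obtain ⟨V, hV, hVo, hVb⟩ := exists_quo_base D
  have hV' : MF M (fun q : ℕ × X => (show Quo D from q.2) ∈ V q.1) :=
    (mf_PM_iff (M := M) (γ := ℕ) (α := Quo D) (F := V)).1 hV
  have hV1 : MF M (fun q : (ℕ × ℕ) × (X × X) => (show Quo D from q.2.1) ∈ V q.1.2) :=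
    mf_comp M (g := fun q : ℕ × X => (show Quo D from q.2) ∈ V q.1)
      (f := fun q : (ℕ × ℕ) × (X × X) => (q.1.2, q.2.1)) hV' (by fun_prop)
  have hA : MF M (fun q : (ℕ × ℕ) × (X × X) => Pr D q.2 ∧ p0 (c1 q.2, c2 q.2) = q.1.1 ∧
      (show Quo D from q.2.1) ∈ V q.1.2) := mf_and (by fun_prop) (mf_and (by fun_prop) hV1)
  have hA1 : MF M (fun q : ((ℕ × ℕ) × (X × X)) × (X × X) =>
      Pr D q.2 ∧ p0 (c1 q.2, c2 q.2) = q.1.1.1 ∧ (show Quo D from q.2.1) ∈ V q.1.1.2) :=
    mf_comp M (g := fun q : (ℕ × ℕ) × (X × X) => Pr D q.2 ∧ p0 (c1 q.2, c2 q.2) = q.1.1 ∧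
      (show Quo D from q.2.1) ∈ V q.1.2)
      (f := fun q : ((ℕ × ℕ) × (X × X)) × (X × X) => (q.1.1, q.2)) hA (by fun_prop)
  obtain ⟨f, hf, hf'⟩ := exists_choose (M := M) (α := ℕ × ℕ) (β := X × X)
    (R := fun k r => (∃ r' : X × X, Pr D r' ∧ p0 (c1 r', c2 r') = k.1 ∧
      (show Quo D from r'.1) ∈ V k.2) → (Pr D r ∧ p0 (c1 r, c2 r) = k.1 ∧
      (show Quo D from r.1) ∈ V k.2)) (mf_imp (mf_ex hA1) hA) (by
      intro k
      by_cases hk : ∃ r' : X × X, Pr D r' ∧ p0 (c1 r', c2 r') = k.1 ∧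
        (show Quo D from r'.1) ∈ V k.2
      · obtain ⟨r', hr'⟩ := hk
        exact ⟨r', fun _ => hr'⟩
      · exact ⟨Classical.arbitrary (X × X), fun h => absurd h hk⟩)
  refine ⟨⟨fun r => p0 (c1 r, c2 r), hc⟩, ⟨fun n => f (e0 n), by fun_prop⟩, ?_, ?_, ?_⟩
  · intro r r' hr hr' hcc h3 h4
    have h5 := Prod.mk.inj (hinj _ _ hcc)
    exact h1 r r' hr hr' h5.1 (fun y hy hn => hn (h3 y hy)) (fun y hy hn => hn (h4 y hy))
  · intro r r' hr hr' hcc h3 h4
    have h5 := Prod.mk.inj (hinj _ _ hcc)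
    exact h2 r r' hr hr' h5.2 (fun y hy hn => hn (h3 y hy)) (fun y hy hn => hn (h4 y hy))
  · intro U hU r hr hfib
    obtain ⟨O, hO, hrO, hOU⟩ := quo_usc D hU hfib
    obtain ⟨m, hm, hmO⟩ := hVb _ O hO hrO
    obtain ⟨n, hn⟩ := hs0 (p0 (c1 r, c2 r), m)
    have h3 := hf' (p0 (c1 r, c2 r), m) ⟨r, hr, rfl, hm⟩
    rw [← hn] at h3
    refine ⟨n, h3.1, h3.2.1.trans (by rw [hn]), fun y hy => ?_⟩
    have h4 : (show Quo D from (f (e0 n)).1) ∈ (V m).set := by
      have h5 := h3.2.2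
      rw [hn] at h5 ⊢
      exact h5
    have h6 : (show Quo D from y) ∈ (V m).set :=
      quo_sat_open D (hVo m) (x := (show Quo D from (f (e0 n)).1)) (y := (show Quo D from y))
        hy.symm h4
    exact hOU _ (hmO (subset_closure h6))

/-- Choice for all `D`. PROOF. `exists_choose`, `mf_OcaP`. -/
theorem exists_oca [Nonempty X] (hW : IsOm1T M W) (hOCA : OCAW.{u, v, v3} M W) (G : Fns M X R L) :
    ∃ (c : MFun M ℕ (CX M X R) → MFun M (X × X) ℕ) (e : MFun M ℕ (CX M X R) → MFun M ℕ (X × X)),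
      MF M c ∧ MF M e ∧ ∀ D, OcaP G D (c D) (e D) := by
  obtain ⟨f, hf, hf'⟩ := exists_choose (M := M) (α := MFun M ℕ (CX M X R))
    (β := MFun M (X × X) ℕ × MFun M ℕ (X × X)) (R := fun D q => OcaP G D q.1 q.2) (mf_OcaP G)
    (fun D => by
      obtain ⟨c, e, h⟩ := oca_step hW hOCA G D
      exact ⟨(c, e), h⟩)
  exact ⟨fun D => (f D).1, fun D => (f D).2, by fun_prop, by fun_prop, fun D => hf' D⟩

end

end HM
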