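import Pool.Agent.HM_h27.BChainB
import Pool.Agent.HM_h27.BOcaB

/-!
# HM, large weight: witnesses; existence of the set-up
-/

namespace HM

open HESR Topology

universe u v w v1 v2 v3 v4

set_option linter.unusedVariables false
set_option linter.unusedSectionVars false

section
variable {M : Type u} [ZFM M]
variable {W : Type v3} [IT M W] [LinearOrder W] [WO M W]
variable {V : Type v4} [IT M V] [LinearOrder V] [WO M V]
variable {X : Type v} [IT M X] [TopologicalSpace X] [MTop M X] [T2Space X] [MCpt M X] [MPerf M X]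
variable {R : Type w} [IT M R] [LinearOrder R] [RealLine M R] [TopologicalSpace R] [OrderTopology R]
  [DenselyOrdered R] [NoMinOrder R] [NoMaxOrder R] [Nonempty R]
variable {L : Thr R}

theorem BWit_seq [Nonempty X] {B : ℕ × (X × ℕ) → Prop} (hB : MF M B) {P : X → Prop}
    (hP : MF M P) {g : X × ℕ → CX M X R} (hg : MF M g) {l : R} (hgl : ∀ p, (g p).1 p.1 < l) :
    ∃ e : ℕ → MFun M ℕ (X × ℕ), MF M e ∧ ∀ k p, P p.1 → B (k, p) →
      ∃ j, (B (k, e k j) ∧ P (e k j).1) ∧ (g (e k j)).1 p.1 < l := by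
  classical
  refine exists_choose (M := M) (α := ℕ) (β := MFun M ℕ (X × ℕ))
    (R := fun k e => ∀ p : X × ℕ, P p.1 → B (k, p) →
      ∃ j, (B (k, e j) ∧ P (e j).1) ∧ (g (e j)).1 p.1 < l) (by fun_prop) fun k => ?_
  obtain ⟨J, hJ, hJc, hJQ, hJU⟩ := exists_lindelof (M := M) (X := X) (ι := X × ℕ)
    (Q := fun p => B (k, p) ∧ P p.1) (by fun_prop) (U := fun p => ltS (g p) l) (by fun_prop)
    (fun p _ => op_ltS _ _)
  by_cases h0 : ∃ p, J p
  · obtain ⟨e, he, he1, he2⟩ := MCov.enum (M := M) (W := ℕ) hJ hJc h0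
    refine ⟨⟨e, he⟩, fun p hp hb => ?_⟩
    obtain ⟨q, hq, hqU⟩ := hJU p.1 p ⟨hb, hp⟩ (hgl p)
    obtain ⟨i, hi⟩ := he2 q hq
    refine ⟨i, ?_, ?_⟩
    · show B (k, e i) ∧ P (e i).1
      exact hJQ _ (he1 i)
    · show (g (e i)).1 p.1 < l
      rw [hi]
      exact hqU
  · refine ⟨⟨fun _ => (Classical.arbitrary X, 0), mf_const M _⟩, fun p hp hb => ?_⟩
    obtain ⟨q, hq, -⟩ := hJU p.1 p ⟨hb, hp⟩ (hgl p)
    exact absurd ⟨q, hq⟩ h0

/-- Existence of the set-up (internal form of `exists_setup` in `Pool/Agent/W_3b51b4_h27/Witness.lean`).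

PROOF. `hns` shows that `X` is nonempty. Take `c, e` from `exists_oca`, `Φ D n := G.F (e D n)` and apply
`exists_chain` to `G.g`: `D, A, x, y, C`. For `k, n` the set of all `a` with `A a`, `Bad G D (c D) k (x a) n`
and the open sets `ltS (G.g (x a) n) L.l1` (which contain `x a`): by `exists_lindelof` there is a countable set
`J k n` of such `a` such that every such `a` has `b` with `J k n b`, `(G.g (x b) n).1 (x a) < l1`; do this for
the disjoint union over `k, n` at once: index type `(ℕ × ℕ) × V`... or choose `J` for every `(k, n)` with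
`exists_choose` (values in `PM M V`). The same for `y` instead of `x`. The set `K` of all `b` in some of these
countable sets is countable, so bounded in `V` by some `c0` (`IsOm2T.bdd`), which we can take with `A c0`
(`IsOm2T.unb`). Put `Q a := A a ∧ c0 < a` (not covered by `W`, `IsOm2T.not_cov`), `C := C c0`. The set of pairs
`(z, n) : X × ℕ` with `z = x b` or `z = y b` for some `b` with `K b` is countable; let `(wx j, wn j)` enumerate it
(if it is empty, take any function; then nothing is bad) and put `wx k j := wx j`, `wn k j := wn j`. `C_const`: the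
range of `C c0` is contained in the range of `C a`, `a > c0`. `g_const`: for `b < a` the functions
`g (x b) n` are in the range of `C a`. `w_cov`: for bad `(k, z, n)`, `z = x a` (or `y a`), `Q a`, there is `b` with
`J k n b` (for `x` or `y`), `Bad G D c k (x b) n` and `(g (x b) n).1 (x a) < l1`; `b < c0`, so `g (x b) n` is in the
range of `C c0`. -/
theorem exists_hset (hW : IsOm1T M W) (hV : IsOm2T M W V) (hOCA : OCAW.{u, v, v3} M W)
    (G : Fns M X R L)
    (hns : ∀ C : W → CX M X R, MF M C → ∃ x y : X, x ≠ y ∧ ∀ i, (C i).1 x = (C i).1 y) :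
    Nonempty (HSet M X R W V L G) := by
  classical
  have hXne : Nonempty X := by
    obtain ⟨x, -⟩ := hns (fun _ => ⟨⟨fun _ => Classical.arbitrary R, mf_const M _⟩, continuous_const⟩)
      (mf_const M _)
    exact ⟨x⟩
  have hVne : Nonempty V := OmB_neV hV
  obtain ⟨c, e, hcm, hem, hoca⟩ := exists_oca hW hOCA G
  have hΦ : MF M (fun p : MFun M ℕ (CX M X R) × ℕ => G.F (e p.1 p.2)) :=
    mf_comp M (g := G.F) (f := fun p : MFun M ℕ (CX M X R) × ℕ => e p.1 p.2) G.F_mf (by fun_prop)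
  obtain ⟨D, A, x, y, C, hAm, hxm, hym, hCm, hAu, hne, heqv, hCk, hCΦ, hCD, hCg, hCmono⟩ :=
    exists_chain hW hV hns G.g_mf (Φ := fun D n => G.F (e D n)) hΦ
  have hPm : MF M (fun z : X => ∃ b, A b ∧ (z = x b ∨ z = y b)) := by fun_prop
  obtain ⟨β, hβm, hβ⟩ := exists_choose (M := M) (α := X) (β := V)
    (R := fun z b => (∃ b, A b ∧ (z = x b ∨ z = y b)) → A b ∧ (z = x b ∨ z = y b))
    (by fun_prop) (fun z => by
      by_cases h : ∃ b, A b ∧ (z = x b ∨ z = y b)
      · obtain ⟨b, hb⟩ := h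
        exact ⟨b, fun _ => hb⟩
      · exact ⟨Classical.arbitrary V, fun h' => absurd h' h⟩)
  obtain ⟨w, hwm, hw⟩ := BWit_seq (M := M) (X := X) (R := R)
    (B := fun q => Bad G D (c D) q.1 q.2.1 q.2.2) (mf_Bad G D (c D)) hPm
    (g := fun p => G.g p.1 p.2) G.g_mf (l := L.l1) (fun p => by
      rw [G.g_at]
      exact L.h01)
  have hKm : MF M (fun b : V => ∃ q : ℕ × ℕ, β (w q.1 q.2).1 = b) := by fun_prop
  have hKc : MCt M (fun b : V => ∃ q : ℕ × ℕ, β (w q.1 q.2).1 = b) := by
    refine MCov.image (M := M) (mct_prod_nat (M := M)) (f := fun q : ℕ × ℕ => β (w q.1 q.2).1)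
      (by fun_prop) ?_
    rintro b ⟨q, hq⟩
    exact ⟨q, trivial, hq⟩
  obtain ⟨b0, hb0⟩ := IsOm2T.bdd hW hV hKm (hW.cov_of_mct hKc)
  obtain ⟨c0, hc0, hbc⟩ := IsOm2T.unb hW hV hAm hAu b0
  have hconst : ∀ a i, A a → c0 < a → ∀ z, Eqv D z (x a) → (C c0 i).1 z = (C c0 i).1 (x a) := by
    intro a i ha hca z hz
    obtain ⟨j, hj⟩ := hCmono a c0 hca.le i
    rw [← hj]
    exact hCk a ha j z hz
  refine ⟨{ D := D, c := c D, e := e D, oca := hoca D, Q := fun a => A a ∧ c0 < a,
            Q_mf := by fun_prop, Q_unc := ?_, x := x, x_mf := hxm, y := y, y_mf := hym,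
            ne := fun a _ => hne a, eqv := fun a ha => heqv a ha.1, C := fun i => C c0 i,
            C_mf := by fun_prop, C_const := fun i a ha => hconst a i ha.1 ha.2,
            F_mem := fun n => hCΦ c0 hc0 n, D_mem := fun n => hCD c0 hc0 n,
            g_const := ?_, wx := fun k j => (w k j).1, wx_mf := by fun_prop,
            wn := fun k j => (w k j).2, wn_mf := by fun_prop, w_cov := ?_ }⟩
  · refine IsOm2T.not_cov hW hV (by fun_prop) fun b => ?_
    obtain ⟨i, hi, hbi⟩ := IsOm2T.unb hW hV hAm hAu (max b c0)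
    exact ⟨i, ⟨hi, (le_max_right _ _).trans_lt hbi⟩, (le_max_left _ _).trans_lt hbi⟩
  · intro a b ha hb hba n z hz
    obtain ⟨i, hi⟩ := (hCg a b hba n).1
    rw [← hi]
    exact hCk a ha.1 i z hz
  · intro k a n ha z hz hbad
    have hz' : ∃ b, A b ∧ (z = x b ∨ z = y b) := ⟨a, ha.1, hz⟩
    obtain ⟨j, ⟨hj1, hj2⟩, hj3⟩ := hw k (z, n) hz' hbad
    refine ⟨j, hj1, ?_, hj3⟩
    obtain ⟨h1, h2⟩ := hβ _ hj2
    have h3 : β (w k j).1 < c0 := (hb0 _ ⟨(k, j), rfl⟩).trans hbc
    rcases h2 with h2 | h2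
    · obtain ⟨i, hi⟩ := (hCg c0 _ h3 (w k j).2).1
      refine ⟨i, hi.trans ?_⟩
      rw [← h2]
    · obtain ⟨i, hi⟩ := (hCg c0 _ h3 (w k j).2).2
      refine ⟨i, hi.trans ?_⟩
      rw [← h2]

end

end HM
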