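import Pool.Agent.W_MP_83aea7_lc.Basic

/-!
# HM: Henkin model of higher order logic over a well-founded model of ZFC (base)

`ZFM M`: `M` is a well-founded model of ZFC. `IT M α`: the type `α` is coded by a set of `M`
(`code : α → M` injective, its range is a set of `M`). `MF M f`, for a function `f : α → β` between
coded types: the graph of `f` is a set of `M`. A predicate is a function with values in `Prop`.
The closure properties of `MF` are proved here and used through `fun_prop`.
-/

namespace HM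

open HESR

universe u v w v1 v2 v3

set_option linter.unusedVariables false

/-- `M` is a well-founded model of ZFC. -/
class ZFM (M : Type u) where
  E : M → M → Prop
  zfc : IsZFC E
  wf : WellFounded E

/-- The type `α` is coded by a set of `M`. -/
class IT (M : Type u) [ZFM M] (α : Type v) where
  code : α → M
  inj : Function.Injective code
  dom : M
  mem_dom : ∀ x, ZFM.E x dom ↔ ∃ a, code a = x

section
variable (M : Type u) [ZFM M]

/-- the code of `a` in `M` -/
abbrev cd {α : Type v} [IT M α] (a : α) : M := IT.code a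

theorem cd_inj {α : Type v} [IT M α] {a b : α} (h : cd M a = cd M b) : a = b := IT.inj h

theorem cd_inj_iff {α : Type v} [IT M α] {a b : α} : cd M a = cd M b ↔ a = b :=
  ⟨fun h => cd_inj M h, fun h => by rw [h]⟩

theorem cd_mem {α : Type v} [IT M α] (a : α) : ZFM.E (cd M a) (IT.dom (M := M) α) :=
  (IT.mem_dom _).2 ⟨a, rfl⟩

variable {M}

/-- the ordered pair -/
noncomputable def pr (x y : M) : M := Classical.choose (ZFM.zfc.exPair x y)

theorem isPair_pr (x y : M) : IsPair ZFM.E (pr x y) x y :=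
  Classical.choose_spec (ZFM.zfc.exPair x y)

theorem isPair_iff {p x y : M} : IsPair ZFM.E p x y ↔ p = pr x y :=
  ⟨fun h => h.uniq ZFM.zfc (isPair_pr x y), fun h => h ▸ isPair_pr x y⟩

theorem pr_inj {x y x' y' : M} (h : pr x y = pr x' y') : x = x' ∧ y = y' :=
  IsPair.inj ZFM.zfc (isPair_pr x y) (h ▸ isPair_pr x' y')

theorem exists_prod (a b : M) : ∃ c : M, ∀ p, ZFM.E p c ↔ ∃ x y, ZFM.E x a ∧ ZFM.E y b ∧ p = pr x y := by
  obtain ⟨c, hc⟩ := (ZFM.zfc (M := M)).exProd a b
  refine ⟨c, fun p => (hc p).trans ?_⟩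
  simp only [isPair_iff]

/-! ### definability tools -/

theorem Def1.app {N : Type u} {E : N → N → Prop} {P : N → Prop} (h : Def1 E P) {k : ℕ}
    {f : (Fin k → N) → N} (hf : DefFun E f) : Def E (fun v => P (f v)) := by
  refine Def.subst (R := fun x _ => P x) ?_ hf
  exact (Def.rename h ![0]).congr fun v => by simp

/-- pairs -/
theorem defFun_pr {k : ℕ} {f g : (Fin k → M) → M} (hf : DefFun ZFM.E f) (hg : DefFun ZFM.E g) :
    DefFun (ZFM.E (M := M)) (fun v => pr (f v) (g v)) := by
  unfold DefFun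
  refine Def.congr (R := fun w => IsPair ZFM.E (w 0) (f fun i => w i.succ) (g fun i => w i.succ))
    (IsPair.df (DefFun.var _) hf.shift hg.shift) fun w => ?_
  exact isPair_iff.symm

/-! ### coded predicates -/

variable {α : Type v} {β : Type w} {γ : Type v1} [IT M α] [IT M β] [IT M γ]

variable (M) in
/-- `x` is the code of an element of `P` -/
def Dm (P : α → Prop) (x : M) : Prop := ∃ a, cd M a = x ∧ P a

variable (M) in
/-- the predicate `P` is a set of `M` (auxiliary form of `MF`) -/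
def MP (P : α → Prop) : Prop := ∃ s : M, ∀ a, ZFM.E (cd M a) s ↔ P a

theorem mp_iff_def (P : α → Prop) : MP M P ↔ Def1 ZFM.E (Dm M P) := by
  constructor
  · rintro ⟨s, hs⟩
    refine Def.congr (R := fun v : Fin 1 → M => ZFM.E (v 0) (IT.dom (M := M) α) ∧ ZFM.E (v 0) s)
      (by repeat' (first | exact DefFun.var _ | exact DefFun.const _ | apply Def.and | apply Def.mem))
      ?_
    intro x
    constructor
    · rintro ⟨a, ha, hP⟩
      rw [← ha]
      exact ⟨cd_mem M a, (hs a).2 hP⟩
    · rintro ⟨h1, h2⟩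
      obtain ⟨a, ha⟩ := (IT.mem_dom _).1 h1
      refine ⟨a, ha, (hs a).1 ?_⟩
      show ZFM.E (IT.code a) s
      rw [ha]
      exact h2
  · intro h
    obtain ⟨b, hb⟩ := (ZFM.zfc (M := M)).sep1 h (IT.dom (M := M) α)
    refine ⟨b, fun a => ?_⟩
    rw [hb]
    constructor
    · rintro ⟨_, a', ha', hP⟩
      rw [← cd_inj M ha']
      exact hP
    · intro hP
      exact ⟨cd_mem M a, a, rfl, hP⟩

/-- to prove `MP M P` give a definable description of the codes -/
theorem mp_of {P : α → Prop} {D : M → Prop} (hD : Def1 ZFM.E D)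
    (h : ∀ a, P a ↔ D (cd M a)) : MP M P := by
  obtain ⟨b, hb⟩ := (ZFM.zfc (M := M)).sep1 hD (IT.dom (M := M) α)
  exact ⟨b, fun a => by rw [hb, h]; exact ⟨fun h => h.2, fun h => ⟨cd_mem M a, h⟩⟩⟩

theorem MP.dm {P : α → Prop} (h : MP M P) {k : ℕ} {f : (Fin k → M) → M} (hf : DefFun ZFM.E f) :
    Def ZFM.E (fun v => Dm M P (f v)) := Def1.app ((mp_iff_def P).1 h) hf

theorem dm_cd {P : α → Prop} {a : α} : Dm M P (cd M a) ↔ P a := by
  constructor
  · rintro ⟨b, hb, h⟩
    rw [← cd_inj M hb]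
    exact h
  · intro h
    exact ⟨a, rfl, h⟩

theorem mp_congr {P Q : α → Prop} (h : MP M P) (he : ∀ a, Q a ↔ P a) : MP M Q := by
  have : Q = P := funext fun a => propext (he a)
  rw [this]
  exact h

theorem mp_and {P Q : α → Prop} (h : MP M P) (h' : MP M Q) : MP M (fun a => P a ∧ Q a) :=
  mp_of (D := fun x => Dm M P x ∧ Dm M Q x) ((h.dm (DefFun.var 0)).and (h'.dm (DefFun.var 0)))
    fun a => by rw [dm_cd, dm_cd]

theorem mp_not {P : α → Prop} (h : MP M P) : MP M (fun a => ¬ P a) :=
  mp_of (D := fun x => ¬ Dm M P x) (h.dm (DefFun.var 0)).not fun a => by rw [dm_cd]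

theorem mp_or {P Q : α → Prop} (h : MP M P) (h' : MP M Q) : MP M (fun a => P a ∨ Q a) :=
  mp_of (D := fun x => Dm M P x ∨ Dm M Q x) ((h.dm (DefFun.var 0)).or (h'.dm (DefFun.var 0)))
    fun a => by rw [dm_cd, dm_cd]

theorem mp_const (p : Prop) : MP M (fun _ : α => p) := by
  by_cases hp : p
  · exact mp_of (D := fun x => x = x) (Def.eq (DefFun.var 0) (DefFun.var 0)) fun a => by simp [hp]
  · exact mp_of (D := fun x => ¬ x = x) (Def.eq (DefFun.var 0) (DefFun.var 0)).not fun a => by simp [hp]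

theorem mp_single (b : α) : MP M (fun a : α => a = b) :=
  mp_of (D := fun x => x = cd M b) (Def.eq (DefFun.var 0) (DefFun.const _)) fun a =>
    (cd_inj_iff M).symm

/-! ### products -/

noncomputable instance instProd : IT M (α × β) where
  code p := pr (cd M p.1) (cd M p.2)
  inj := by
    rintro ⟨a, b⟩ ⟨a', b'⟩ h
    obtain ⟨h1, h2⟩ := pr_inj h
    exact Prod.ext (cd_inj M h1) (cd_inj M h2)
  dom := Classical.choose (exists_prod (IT.dom (M := M) α) (IT.dom (M := M) β))
  mem_dom := by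
    intro x
    rw [Classical.choose_spec (exists_prod (IT.dom (M := M) α) (IT.dom (M := M) β))]
    constructor
    · rintro ⟨y, z, hy, hz, rfl⟩
      obtain ⟨a, rfl⟩ := (IT.mem_dom _).1 hy
      obtain ⟨b, rfl⟩ := (IT.mem_dom _).1 hz
      exact ⟨(a, b), rfl⟩
    · rintro ⟨p, rfl⟩
      exact ⟨_, _, cd_mem M p.1, cd_mem M p.2, rfl⟩

theorem cd_prod (a : α) (b : β) : cd M (a, b) = pr (cd M a) (cd M b) := rfl

theorem cd_prod' (p : α × β) : cd M p = pr (cd M p.1) (cd M p.2) := rfl

/-- description of a product predicate -/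
theorem mp_of2 {P : α × β → Prop} {D : M → M → Prop} (hD : Def2 ZFM.E D)
    (h : ∀ a b, P (a, b) ↔ D (cd M a) (cd M b)) : MP M P := by
  refine mp_of (D := fun z => ∃ x y, IsPair ZFM.E z x y ∧ D x y) ?_ ?_
  · refine Def.ex (R := fun x v => ∃ y, IsPair ZFM.E (v 0) x y ∧ D x y) ?_
    refine Def.ex (R := fun y v => IsPair ZFM.E (v 1) (v 0) y ∧ D (v 0) y) ?_
    refine (IsPair.df (DefFun.var _) (DefFun.var _) (DefFun.var _)).and ?_
    exact (Def.rename hD ![1, 0]).congr fun v => by simp
  · rintro ⟨a, b⟩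
    rw [h]
    constructor
    · intro hd
      exact ⟨_, _, isPair_pr _ _, hd⟩
    · rintro ⟨x, y, hp, hd⟩
      obtain ⟨h1, h2⟩ := pr_inj (isPair_iff.1 hp)
      rw [show cd M a = x from h1, show cd M b = y from h2]
      exact hd

/-- existential quantification over a coded type -/
theorem mp_ex {R : α → β → Prop} (h : MP M (fun p : α × β => R p.1 p.2)) :
    MP M (fun a => ∃ b, R a b) := by
  refine mp_of (D := fun x => ∃ y, ZFM.E y (IT.dom (M := M) β) ∧
    Dm M (fun p : α × β => R p.1 p.2) (pr x y)) ?_ ?_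
  · refine Def.ex (R := fun y v => ZFM.E y (IT.dom (M := M) β) ∧
      Dm M (fun p : α × β => R p.1 p.2) (pr (v 0) y)) ?_
    exact (Def.mem (DefFun.var _) (DefFun.const _)).and
      (h.dm (defFun_pr (DefFun.var _) (DefFun.var _)))
  · intro a
    constructor
    · rintro ⟨b, hb⟩
      exact ⟨cd M b, cd_mem M b, (dm_cd (a := (a, b))).2 hb⟩
    · rintro ⟨y, hy, hd⟩
      obtain ⟨b, rfl⟩ := (IT.mem_dom _).1 hy
      exact ⟨b, (dm_cd (P := fun p : α × β => R p.1 p.2) (a := (a, b))).1 hd⟩

theorem mp_all {R : α → β → Prop} (h : MP M (fun p : α × β => R p.1 p.2)) :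
    MP M (fun a => ∀ b, R a b) :=
  mp_congr (mp_not (mp_ex (R := fun a b => ¬ R a b) (mp_not h))) fun a => by push Not; rfl

theorem mp_fst {P : α → Prop} (h : MP M P) : MP M (fun p : α × β => P p.1) :=
  mp_of2 (D := fun x _ => Dm M P x) (h.dm (DefFun.var 0)) fun a b => dm_cd.symm

theorem mp_snd {P : β → Prop} (h : MP M P) : MP M (fun p : α × β => P p.2) :=
  mp_of2 (D := fun _ y => Dm M P y) (h.dm (DefFun.var 1)) fun a b => dm_cd.symm

theorem mp_swap {P : α × β → Prop} (h : MP M P) : MP M (fun p : β × α => P (p.2, p.1)) :=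
  mp_of2 (D := fun x y => Dm M P (pr y x)) (h.dm (defFun_pr (DefFun.var 1) (DefFun.var 0)))
    fun a b => (dm_cd (a := (b, a))).symm

theorem mp_eq : MP M (fun p : α × α => p.1 = p.2) :=
  mp_of2 (D := fun x y => x = y) (Def.eq (DefFun.var 0) (DefFun.var 1)) fun a b =>
    (cd_inj_iff M).symm

/-- description of a predicate on a triple product -/
theorem mp_of3 {P : (α × β) × γ → Prop} {D : M → M → M → Prop}
    (hD : Def ZFM.E (fun v : Fin 3 → M => D (v 0) (v 1) (v 2)))
    (h : ∀ a b c, P ((a, b), c) ↔ D (cd M a) (cd M b) (cd M c)) : MP M P := by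
  refine mp_of2 (D := fun z t => ∃ x y, IsPair ZFM.E z x y ∧ D x y t) ?_ ?_
  · refine Def.ex (R := fun x v => ∃ y, IsPair ZFM.E (v 0) x y ∧ D x y (v 1)) ?_
    refine Def.ex (R := fun y v => IsPair ZFM.E (v 1) (v 0) y ∧ D (v 0) y (v 2)) ?_
    refine (IsPair.df (DefFun.var _) (DefFun.var _) (DefFun.var _)).and ?_
    exact (Def.rename hD ![1, 0, 3]).congr fun v => by simp
  · rintro ⟨a, b⟩ c
    rw [h]
    constructor
    · intro hd
      exact ⟨_, _, isPair_pr _ _, hd⟩
    · rintro ⟨x, y, hp, hd⟩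
      obtain ⟨h1, h2⟩ := pr_inj (isPair_iff.1 hp)
      rw [show cd M a = x from h1, show cd M b = y from h2]
      exact hd

end

end HM
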