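import Pool.Agent.HM_h27.Pow
import Pool.Agent.W_MP_83aea7_lc.WO

/-!
# HM: well-orders and choice
-/

namespace HM

open HESR

universe u v w v1 v2 v3

section
variable {M : Type u} [ZFM M]
variable {α : Type v} {β : Type w} {γ : Type v1} {δ : Type v2} [IT M α] [IT M β] [IT M γ] [IT M δ]

/-- Every coded type has a well-order in the model.

PROOF. `IsZFC.exWO` applied to `IT.dom α` gives an ordinal `δ` and a bijection `g` of `δ` onto
`dom α`; put `r a b := ∃ x y, App E g x (cd M a) ∧ App E g y (cd M b) ∧ E x y`. Use `mp_of2` (with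
`App.df`, `Def.ex`, `Def.and`, `Def.mem`) and `mf_iff_mp` for the first part, `ZFM.wf` for
well-foundedness (`InvImage`), `IsOrd.tri` for totality. -/
theorem exists_wo (M : Type u) [ZFM M] (α : Type v) [IT M α] : ∃ r : α → α → Prop,
    MF M (fun p : α × α => r p.1 p.2) ∧ WellFounded r ∧ (∀ a b c, r a b → r b c → r a c) ∧
    ∀ a b, r a b ∨ a = b ∨ r b a := by
  obtain ⟨δ, g, hδ, hg, hga, hinj⟩ := (ZFM.zfc (M := M)).exWO (IT.dom (M := M) α)
  have hex : ∀ a : α, ∃ x, App ZFM.E g x (cd M a) := fun a => (hga _).1 (cd_mem M a)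
  choose f hf using hex
  have hfδ : ∀ a, ZFM.E (f a) δ := fun a => hg.dom ZFM.zfc (hf a)
  refine ⟨fun a b => ZFM.E (f a) (f b), ?_, InvImage.wf f ZFM.wf, ?_, ?_⟩
  · refine mf_iff_mp.2 (mp_of2 (D := fun u v => ∃ x y, App ZFM.E g x u ∧ App ZFM.E g y v ∧
      ZFM.E x y) ?_ ?_)
    · refine Def.ex (R := fun x w => ∃ y, App ZFM.E g x (w 0) ∧ App ZFM.E g y (w 1) ∧
        ZFM.E x y) ?_
      refine Def.ex (R := fun y w => App ZFM.E g (w 0) (w 1) ∧ App ZFM.E g y (w 2) ∧
        ZFM.E (w 0) y) ?_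
      exact (App.df (DefFun.const _) (DefFun.var _) (DefFun.var _)).and
        ((App.df (DefFun.const _) (DefFun.var _) (DefFun.var _)).and
          (Def.mem (DefFun.var _) (DefFun.var _)))
    · intro a b
      constructor
      · intro h
        exact ⟨f a, f b, hf a, hf b, h⟩
      · rintro ⟨x, y, hx, hy, hxy⟩
        rw [hinj x (f a) _ hx (hf a), hinj y (f b) _ hy (hf b)] at hxy
        exact hxy
  · intro a b c hab hbc
    exact (hδ.mem (hfδ c)).trans hbc hab
  · intro a b
    rcases (hδ.mem (hfδ a)).tri ZFM.zfc (hδ.mem (hfδ b)) with h | h | h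
    · exact Or.inl h
    · refine Or.inr (Or.inl (cd_inj M ?_))
      have h1 := hf a
      rw [h] at h1
      exact hg.val ZFM.zfc h1 (hf b)
    · exact Or.inr (Or.inr h)

/-- Choice: a relation of the model which is total has a choice function in the model.

PROOF. Take the well-order of `β` from `exists_wo`; `f a` = the least `b` with `R a b`; its graph is
`R a b ∧ ∀ c, r c b → ¬ R a c` (`mf_of_graph`, `fun_prop`). -/
theorem exists_choose {R : α → β → Prop} (hR : MF M (fun p : α × β => R p.1 p.2))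
    (h : ∀ a, ∃ b, R a b) : ∃ f : α → β, MF M f ∧ ∀ a, R a (f a) := by
  obtain ⟨r, hr, hwf, _, htot⟩ := exists_wo M β
  have hex : ∀ a, ∃ b, R a b ∧ ∀ c, r c b → ¬ R a c := fun a =>
    ⟨hwf.min {b | R a b} (h a), hwf.min_mem {b | R a b} (h a), fun c hc hR =>
      hwf.not_lt_min {b | R a b} hR hc⟩
  choose f hf hf' using hex
  refine ⟨f, mf_of_graph (R := fun a b => R a b ∧ ∀ c, r c b → ¬ R a c) ?_ ?_, hf⟩
  · have h1 : MF M (fun q : (α × β) × β => r q.2 q.1.2) :=
      mf_comp M (g := fun p : β × β => r p.1 p.2) (f := fun q : (α × β) × β => (q.2, q.1.2)) hr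
        (by fun_prop)
    have h2 : MF M (fun q : (α × β) × β => R q.1.1 q.2) :=
      mf_comp M (g := fun p : α × β => R p.1 p.2) (f := fun q : (α × β) × β => (q.1.1, q.2)) hR
        (by fun_prop)
    exact mf_and hR (mf_all (mf_imp h1 (mf_not h2)))
  · intro a b
    constructor
    · rintro ⟨h1, h2⟩
      rcases htot (f a) b with h3 | h3 | h3
      · exact absurd (hf a) (h2 _ h3)
      · exact h3
      · exact absurd h1 (hf' a _ h3)
    · rintro rfl
      exact ⟨hf a, hf' a⟩

/-- A choice function on the internal power type. -/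
theorem exists_choiceFn (M : Type u) [ZFM M] (α : Type v) [IT M α] [Nonempty α] :
    ∃ c : PM M α → α, MF M c ∧ ∀ s, (∃ a, a ∈ s) → c s ∈ s := by
  obtain ⟨c, hc, h⟩ := exists_choose (M := M) (α := PM M α) (β := α)
    (R := fun s a => (∃ b, b ∈ s) → a ∈ s) (by fun_prop) (fun s => by
      by_cases hs : ∃ b, b ∈ s
      · obtain ⟨b, hb⟩ := hs
        exact ⟨b, fun _ => hb⟩
      · exact ⟨Classical.arbitrary α, fun h => (hs h).elim⟩)
  exact ⟨c, hc, h⟩

/-- least element principle for a well-founded relation (external) -/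
theorem exists_min {r : α → α → Prop} (hwf : WellFounded r) {P : α → Prop} (h : ∃ a, P a) :
    ∃ a, P a ∧ ∀ b, r b a → ¬ P b := by
  obtain ⟨a, ha⟩ := h
  exact ⟨hwf.min {a | P a} ⟨a, ha⟩, hwf.min_mem {a | P a} ⟨a, ha⟩, fun b hb hP =>
    hwf.not_lt_min {a | P a} hP hb⟩

end

end HM
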