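import Pool.Agent.HM_h27.Pow
import Pool.Agent.W_MP_83aea7_lc.Ord

/-!
# HM: the natural numbers, recursion
-/

namespace HM

open HESR

universe u v w v1 v2 v3

section
variable {M : Type u} [ZFM M]
variable {α : Type v} {β : Type w} {γ : Type v1} {δ : Type v2} [IT M α] [IT M β] [IT M γ] [IT M δ]

/-- the natural number `n` of the model -/
noncomputable def num (M : Type u) [ZFM M] (n : ℕ) : M := Classical.choose ((ZFM.zfc (M := M)).exNum n)

theorem num_spec (n : ℕ) : IsNum ZFM.E n (num M n) :=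
  Classical.choose_spec ((ZFM.zfc (M := M)).exNum n)

theorem num_inj {m n : ℕ} (h : num M m = num M n) : m = n :=
  (num_spec m).inj ZFM.zfc (h ▸ num_spec n)

/-- the set `ω` of the model -/
noncomputable def omM (M : Type u) [ZFM M] : M := Classical.choose (ZFM.zfc (M := M)).exOmega

theorem omM_spec : IsOmega ZFM.E (omM M) := Classical.choose_spec (ZFM.zfc (M := M)).exOmega

/-- PROOF. `IsOmega.mem_iff`; well-founded induction (`ZFM.wf`): a natural number `x` of the model is
empty or the successor of some `y ∈ x`. -/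
theorem mem_omM {x : M} : ZFM.E x (omM M) ↔ ∃ n, num M n = x := by
  constructor
  · intro h
    have hn : IsNat ZFM.E x := (omM_spec.mem_iff ZFM.zfc).1 h
    have key : ∀ x : M, IsNat ZFM.E x → ∃ n, IsNum ZFM.E n x := by
      intro x
      induction x using (ZFM.wf (M := M)).induction with
      | _ x ih =>
        intro hx
        rcases hx.2.1 with h0 | ⟨y, hy⟩
        · exact ⟨0, h0⟩
        · have hyx : ZFM.E y x := (hy y).2 (Or.inr rfl)
          obtain ⟨n, hn⟩ := ih y hyx (IsNat.mem hx hyx)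
          exact ⟨n + 1, y, hn, hy⟩
    obtain ⟨n, hn⟩ := key x hn
    exact ⟨n, (num_spec n).uniq ZFM.zfc hn⟩
  · rintro ⟨n, rfl⟩
    exact (omM_spec.mem_iff ZFM.zfc).2 (num_spec n).nat

noncomputable instance instNat : IT M ℕ where
  code n := num M n
  inj := fun _ _ h => num_inj h
  dom := omM M
  mem_dom := fun _ => mem_omM

/-- PROOF. Induction on `n` from `IsNum`, `IsSucc`. -/
theorem E_num {x : M} {n : ℕ} : ZFM.E x (num M n) ↔ ∃ m < n, num M m = x := by
  induction n with
  | zero =>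
    constructor
    · intro h
      exact absurd h (num_spec (M := M) 0 x)
    · rintro ⟨m, hm, _⟩
      exact absurd hm (Nat.not_lt_zero m)
  | succ n ih =>
    obtain ⟨y, hy, hs⟩ := num_spec (M := M) (n + 1)
    have hy' : y = num M n := hy.uniq ZFM.zfc (num_spec n)
    rw [hs x, hy', ih]
    constructor
    · rintro (⟨m, hm, h⟩ | h)
      · exact ⟨m, by omega, h⟩
      · exact ⟨n, by omega, h.symm⟩
    · rintro ⟨m, hm, h⟩
      rcases Nat.lt_succ_iff_lt_or_eq.1 hm with h1 | h1
      · exact Or.inl ⟨m, h1, h⟩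
      · right
        rw [← h, h1]

theorem mf_lt0 : MF M (fun p : ℕ × ℕ => p.1 < p.2) := by
  rw [mf_iff_mp]
  refine mp_of2 (D := fun x y => ZFM.E x y) (Def.mem (DefFun.var 0) (DefFun.var 1)) fun m n => ?_
  show m < n ↔ ZFM.E (num M m) (num M n)
  rw [E_num]
  constructor
  · intro h
    exact ⟨m, h, rfl⟩
  · rintro ⟨k, hk, h⟩
    rwa [← num_inj h]

@[fun_prop]
theorem mf_nat_lt {f g : γ → ℕ} (hf : MF M f) (hg : MF M g) : MF M (fun x => f x < g x) :=
  mf_comp M mf_lt0 (mf_mk M hf hg)

@[fun_prop]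
theorem mf_nat_le {f g : γ → ℕ} (hf : MF M f) (hg : MF M g) : MF M (fun x => f x ≤ g x) := by
  have h : MF M (fun x => ¬ g x < f x) := by fun_prop
  exact mf_congr h fun x => by simp

@[fun_prop]
theorem mf_nat_succ {f : γ → ℕ} (hf : MF M f) : MF M (fun x => f x + 1) := by
  have h : MF M (fun n : ℕ => n + 1) := by
    refine mf_of_graph (R := fun m n => m < n ∧ ∀ k, ¬ (m < k ∧ k < n)) (by fun_prop) ?_
    intro m n
    constructor
    · rintro ⟨h1, h2⟩
      have := h2 (m + 1)
      omega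
    · rintro rfl
      exact ⟨by omega, fun k => by omega⟩
  exact mf_comp M h hf

/-- Primitive recursion with parameters.

PROOF. For fixed `c`, `n` the set `{p : ℕ × α | p.1 ≤ n ∧ f c p.1 = p.2}` is in the model (induction on `n`,
`mf_iff_mp`/`fun_prop` with constants). Hence the graph of `f` is
`{((c,n),x) | ∃ s : PM M (ℕ × α), (∀ b, (0,b) ∈ s ↔ b = a c) ∧
(∀ m < n, ∀ b, (m+1,b) ∈ s ↔ ∃ d, (m,d) ∈ s ∧ b = G c m d) ∧ (n,x) ∈ s}` (`mf_of_graph`, `fun_prop`). -/
theorem mf_natrec {f : γ → ℕ → α} {a : γ → α} {G : γ → ℕ → α → α} (ha : MF M a)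
    (hG : MF M (fun p : (γ × ℕ) × α => G p.1.1 p.1.2 p.2)) (h0 : ∀ c, f c 0 = a c)
    (hs : ∀ c n, f c (n + 1) = G c n (f c n)) : MF M (fun p : γ × ℕ => f p.1 p.2) := by
  have hP : ∀ (c : γ) (n : ℕ), MF M (fun p : ℕ × α => p.1 ≤ n ∧ f c p.1 = p.2) := by
    intro c n
    induction n with
    | zero =>
      have h : MF M (fun p : ℕ × α => p.1 = 0 ∧ a c = p.2) := by fun_prop
      refine mf_congr h fun p => ?_
      refine propext ⟨?_, ?_⟩
      · rintro ⟨h1, h2⟩
        have h3 : p.1 = 0 := by omega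
        rw [h3, h0] at h2
        exact ⟨h3, h2⟩
      · rintro ⟨h1, h2⟩
        exact ⟨by omega, by rw [h1, h0, h2]⟩
    | succ n ih =>
      have h : MF M (fun p : ℕ × α => (p.1 ≤ n ∧ f c p.1 = p.2) ∨
          (p.1 = n + 1 ∧ f c (n + 1) = p.2)) := mf_or ih (by fun_prop)
      refine mf_congr h fun p => ?_
      refine propext ⟨?_, ?_⟩
      · rintro ⟨h1, h2⟩
        rcases Nat.lt_or_ge n p.1 with h3 | h3
        · have h4 : p.1 = n + 1 := by omega
          right
          exact ⟨h4, by rw [← h4]; exact h2⟩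
        · exact Or.inl ⟨h3, h2⟩
      · rintro (⟨h1, h2⟩ | ⟨h1, h2⟩)
        · exact ⟨by omega, h2⟩
        · exact ⟨by omega, by rw [h1]; exact h2⟩
  refine mf_of_graph (R := fun q x => ∃ s : PM M (ℕ × α), (∀ b, (0, b) ∈ s ↔ b = a q.1) ∧
    (∀ m, m < q.2 → ∀ b, (m + 1, b) ∈ s ↔ ∃ d, (m, d) ∈ s ∧ b = G q.1 m d) ∧ (q.2, x) ∈ s) ?_ ?_
  · refine mf_ex ?_
    refine mf_and (by fun_prop) (mf_and ?_ (by fun_prop))
    refine mf_all ?_
    refine mf_imp (by fun_prop) ?_
    refine mf_all ?_
    refine mf_iff (by fun_prop) ?_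
    refine mf_ex ?_
    refine mf_and (by fun_prop) (mf_eq (by fun_prop) ?_)
    exact mf_comp M (g := fun p : (γ × ℕ) × α => G p.1.1 p.1.2 p.2)
        (f := fun t : ((((((γ × ℕ) × α) × PM M (ℕ × α)) × ℕ) × α) × α) =>
          ((t.1.1.1.1.1.1, t.1.1.2), t.2)) hG (by fun_prop)
  · rintro ⟨c, n⟩ x
    constructor
    · rintro ⟨s, hs0, hs1, hx⟩
      have key : ∀ m, m ≤ n → ∀ b, (m, b) ∈ s ↔ b = f c m := by
        intro m
        induction m with
        | zero =>
          intro _ b
          rw [hs0 b, h0]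
        | succ m ih =>
          intro hm b
          rw [hs1 m (by exact hm) b]
          constructor
          · rintro ⟨d, hd, hb⟩
            rw [hb, hs, (ih (by omega) d).1 hd]
          · intro hb
            exact ⟨f c m, (ih (by omega) _).2 rfl, by rw [hb, hs]⟩
      exact ((key n le_rfl x).1 hx).symm
    · intro hx
      refine ⟨PM.of _ (hP c n), ?_, ?_, ?_⟩
      · intro b
        rw [PM.mem_of]
        constructor
        · rintro ⟨_, h⟩
          exact h.symm.trans (h0 c)
        · intro h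
          exact ⟨Nat.zero_le _, (h0 c).trans h.symm⟩
      · intro m hm b
        simp only [PM.mem_of]
        constructor
        · rintro ⟨_, h⟩
          exact ⟨f c m, ⟨le_of_lt hm, rfl⟩, by rw [← h, hs]⟩
        · rintro ⟨d, ⟨_, hd⟩, hb⟩
          refine ⟨hm, ?_⟩
          rw [hb, hs, hd]
      · rw [PM.mem_of]
        exact ⟨le_rfl, hx⟩

/-- Recursion without parameters. -/
theorem mf_natrec' {f : ℕ → α} {G : ℕ → α → α} (hG : MF M (fun p : ℕ × α => G p.1 p.2))
    (hs : ∀ n, f (n + 1) = G n (f n)) : MF M f := by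
  have h : MF M (fun p : ℕ × ℕ => f p.2) :=
    mf_natrec (f := fun (_ : ℕ) n => f n) (a := fun _ => f 0) (G := fun _ n x => G n x)
      (mf_const M _)
      (mf_comp M (g := fun p : ℕ × α => G p.1 p.2) (f := fun p : (ℕ × ℕ) × α => (p.1.2, p.2)) hG
        (by fun_prop)) (fun _ => rfl) (fun _ n => hs n)
  exact mf_comp M (g := fun p : ℕ × ℕ => f p.2) (f := fun n : ℕ => (0, n)) h (by fun_prop)

@[fun_prop]
theorem mf_nat_add {f g : γ → ℕ} (hf : MF M f) (hg : MF M g) : MF M (fun x => f x + g x) := by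
  have h : MF M (fun p : ℕ × ℕ => p.1 + p.2) :=
    mf_natrec (f := fun (c : ℕ) n => c + n) (a := fun c => c) (G := fun _ _ x => x + 1)
      (mf_id M) (by fun_prop) (fun _ => rfl) (fun _ _ => rfl)
  exact mf_comp M (g := fun p : ℕ × ℕ => p.1 + p.2) (f := fun x => (f x, g x)) h (by fun_prop)

@[fun_prop]
theorem mf_nat_pred {f : γ → ℕ} (hf : MF M f) : MF M (fun x => f x - 1) := by
  have h : MF M (fun n : ℕ => n - 1) := by
    refine mf_of_graph (R := fun m n => n + 1 = m ∨ (m = 0 ∧ n = 0)) (by fun_prop) ?_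
    intro m n
    omega
  exact mf_comp M h hf

/-- An enumeration of `ℕ × ℕ` in the model.

PROOF. `e n = G^[n] (0, 0)` with `G (a, b) = if b = 0 then (0, a + 1) else (a + 1, b - 1)`
(`mf_natrec'`, `mf_ite`); surjectivity by induction on `a + b` and `a`. -/
theorem exists_enum_prod (M : Type u) [ZFM M] : ∃ e : ℕ → ℕ × ℕ, MF M e ∧ Function.Surjective e := by
  let G : ℕ × ℕ → ℕ × ℕ := fun p => if p.2 = 0 then (0, p.1 + 1) else (p.1 + 1, p.2 - 1)
  let e : ℕ → ℕ × ℕ := fun n => G^[n] (0, 0)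
  have he : ∀ n, e (n + 1) = G (e n) := fun n => Function.iterate_succ_apply' G n (0, 0)
  have hG : MF M (fun p : ℕ × (ℕ × ℕ) => G p.2) :=
    mf_ite (P := fun p : ℕ × (ℕ × ℕ) => p.2.2 = 0) (by fun_prop) (by fun_prop) (by fun_prop)
  refine ⟨e, mf_natrec' (G := fun _ p => G p) hG he, ?_⟩
  have key : ∀ k a, a ≤ k → ∃ n, e n = (a, k - a) := by
    intro k
    induction k with
    | zero =>
      intro a ha
      have : a = 0 := by omega
      subst this
      exact ⟨0, rfl⟩
    | succ k ih =>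
      intro a
      induction a with
      | zero =>
        intro _
        obtain ⟨n, hn⟩ := ih k le_rfl
        refine ⟨n + 1, ?_⟩
        rw [he, hn]
        simp [G]
      | succ a iha =>
        intro ha
        obtain ⟨n, hn⟩ := iha (by omega)
        refine ⟨n + 1, ?_⟩
        rw [he, hn]
        have h1 : k + 1 - a ≠ 0 := by omega
        simp only [G, h1, if_false]
        congr 1
  rintro ⟨a, b⟩
  obtain ⟨n, hn⟩ := key (a + b) a (by omega)
  exact ⟨n, by rw [hn]; congr 1; omega⟩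

/-- Every finite set (external) of elements of a coded type is in the model. -/
theorem mf_finite {S : Set α} (h : S.Finite) : MF M (fun a => a ∈ S) := by
  induction S, h using Set.Finite.induction_on with
  | empty => exact mf_congr (mf_const M False) fun a => by simp
  | @insert b T _ _ ih =>
    exact mf_congr (f := fun a => a = b ∨ a ∈ T) (mf_or (mf_eq (mf_id M) (mf_const M b)) ih)
      fun a => by simp

/-- Every function on `ℕ` is in the model when it is restricted to a finite set. -/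
theorem mf_finite_graph (f : ℕ → α) (n : ℕ) : MF M (fun p : ℕ × α => p.1 < n ∧ f p.1 = p.2) := by
  have h : ((fun m => (m, f m)) '' {m | m < n}).Finite :=
    (Set.finite_lt_nat n).image _
  refine mf_congr (mf_finite (M := M) h) fun p => ?_
  refine propext ⟨?_, ?_⟩
  · rintro ⟨h1, h2⟩
    exact ⟨p.1, h1, Prod.ext rfl h2⟩
  · rintro ⟨m, hm, rfl⟩
    exact ⟨hm, rfl⟩

end

end HM
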