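import Pool.Agent.HM_h27.Choice
import Pool.Agent.HM_h27.Nat

/-!
# HM: countable sets of the model

`MCt M P`: the set `{a | P a}` (usually in the model) is contained in the range of a partial function on `ℕ`
which is in the model. `MCov M W P`: the same with the type `W` in place of `ℕ`.
-/

namespace HM

open HESR

universe u v w v1 v2 v3 v4

section
variable (M : Type u) [ZFM M]
variable {α : Type v} {β : Type w} {γ : Type v1} {δ : Type v2} [IT M α] [IT M β] [IT M γ] [IT M δ]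

/-- the set `{a | P a}` is covered by a partial function of the model with domain contained in `W` -/
def MCov (W : Type v3) [IT M W] (P : α → Prop) : Prop :=
  ∃ g : PM M (W × α), (∀ i a b, (i, a) ∈ g → (i, b) ∈ g → a = b) ∧ ∀ a, P a → ∃ i, (i, a) ∈ g

/-- the set `{a | P a}` is countable in the model -/
abbrev MCt (P : α → Prop) : Prop := MCov M ℕ P

variable {M}
variable {W : Type v3} [IT M W] {V : Type v4} [IT M V]

theorem MCov.mono {P Q : α → Prop} (h : MCov M W Q) (hPQ : ∀ a, P a → Q a) : MCov M W P := by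
  obtain ⟨g, h1, h2⟩ := h
  exact ⟨g, h1, fun a ha => h2 a (hPQ a ha)⟩

/-- a total enumeration with values in the (nonempty) set

PROOF. `e i = a` iff `((i,a) ∈ g ∧ P a) ∨ ((¬ ∃ b, (i,b) ∈ g ∧ P b) ∧ a = a0)` (`mf_of_graph`). -/
theorem MCov.enum {P : α → Prop} (hP : MF M P) (h : MCov M W P) (h0 : ∃ a, P a) :
    ∃ e : W → α, MF M e ∧ (∀ i, P (e i)) ∧ ∀ a, P a → ∃ i, e i = a := by
  classical
  obtain ⟨g, hg, hc⟩ := h
  obtain ⟨a0, ha0⟩ := h0
  let e : W → α := fun i => if h : ∃ a, (i, a) ∈ g ∧ P a then h.choose else a0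
  have hpos : ∀ i a, (i, a) ∈ g → P a → e i = a := by
    intro i a h1 h2
    have h : ∃ a, (i, a) ∈ g ∧ P a := ⟨a, h1, h2⟩
    have h3 : e i = h.choose := dif_pos h
    rw [h3]
    exact hg i _ _ h.choose_spec.1 h1
  have hneg : ∀ i, (¬ ∃ a, (i, a) ∈ g ∧ P a) → e i = a0 := fun i h => dif_neg h
  refine ⟨e, ?_, ?_, ?_⟩
  · refine mf_of_graph (R := fun i a => ((i, a) ∈ g ∧ P a) ∨
      ((¬ ∃ b, (i, b) ∈ g ∧ P b) ∧ a = a0)) (by fun_prop) ?_
    intro i a
    constructor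
    · rintro (⟨h1, h2⟩ | ⟨h1, h2⟩)
      · exact hpos i a h1 h2
      · rw [hneg i h1, h2]
    · intro h1
      by_cases h : ∃ a, (i, a) ∈ g ∧ P a
      · obtain ⟨b, hb1, hb2⟩ := h
        have h2 : a = b := h1.symm.trans (hpos i b hb1 hb2)
        left
        rw [h2]
        exact ⟨hb1, hb2⟩
      · exact Or.inr ⟨h, h1.symm.trans (hneg i h)⟩
  · intro i
    by_cases h : ∃ a, (i, a) ∈ g ∧ P a
    · obtain ⟨b, hb1, hb2⟩ := h
      rw [hpos i b hb1 hb2]
      exact hb2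
    · rw [hneg i h]
      exact ha0
  · intro a ha
    obtain ⟨i, hi⟩ := hc a ha
    exact ⟨i, hpos i a hi ha⟩

/-- PROOF. `g := PM.of (fun p => e p.1 = p.2)`. -/
theorem MCov.of_enum {P : α → Prop} {e : W → α} (he : MF M e) (h : ∀ a, P a → ∃ i, e i = a) :
    MCov M W P := by
  refine ⟨PM.of (fun p : W × α => e p.1 = p.2) (by fun_prop), ?_, ?_⟩
  · intro i a b h1 h2
    have h1' : e i = a := h1
    have h2' : e i = b := h2
    exact h1'.symm.trans h2'
  · intro a ha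
    exact h a ha

theorem MCov.empty {P : α → Prop} (h : ∀ a, ¬ P a) : MCov M W P := by
  refine ⟨PM.of (fun _ => False) (mf_const M False), ?_, ?_⟩
  · intro i a b h1 _
    exact (show False from h1).elim
  · intro a ha
    exact (h a ha).elim

/-- image under a function of the model -/
theorem MCov.image {P : α → Prop} (h : MCov M W P) {f : α → β} (hf : MF M f) {Q : β → Prop}
    (hQ : ∀ b, Q b → ∃ a, P a ∧ f a = b) : MCov M W Q := by
  obtain ⟨g, hg, hc⟩ := h
  refine ⟨PM.of (fun p : W × β => ∃ a : α, (p.1, a) ∈ g ∧ f a = p.2) (by fun_prop), ?_, ?_⟩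
  · intro i b b' h1 h2
    obtain ⟨a, ha, hb⟩ := PM.mem_of.1 h1
    obtain ⟨a', ha', hb'⟩ := PM.mem_of.1 h2
    have h3 : a = a' := hg i a a' ha ha'
    have h4 : f a = b := hb
    have h5 : f a' = b' := hb'
    rw [← h4, ← h5, h3]
  · intro b hb
    obtain ⟨a, ha, hab⟩ := hQ b hb
    obtain ⟨i, hi⟩ := hc a ha
    exact ⟨i, a, hi, hab⟩

/-- change of the index type -/
theorem MCov.trans {P : α → Prop} (h : MCov M W P) (hW : MCov M V (fun _ : W => True)) :
    MCov M V P := by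
  obtain ⟨g, hg, hc⟩ := h
  obtain ⟨k, hk, hd⟩ := hW
  refine ⟨PM.of (fun p : V × α => ∃ w : W, (p.1, w) ∈ k ∧ (w, p.2) ∈ g) (by fun_prop), ?_, ?_⟩
  · intro i a b h1 h2
    obtain ⟨w, hw, ha⟩ := PM.mem_of.1 h1
    obtain ⟨w', hw', hb⟩ := PM.mem_of.1 h2
    have h3 : w = w' := hk i w w' hw hw'
    rw [← h3] at hb
    exact hg w a b ha hb
  · intro a ha
    obtain ⟨w, hw⟩ := hc a ha
    obtain ⟨i, hi⟩ := hd w trivial
    exact ⟨i, w, hi, hw⟩

/-- the union of a family of covered sets, indexed by a covered set; `W` absorbs its square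

PROOF. Choose (`exists_choose`, on the subtype or with a default) for every `i` with `Q i` a partial function `g i`
covering `P i`; combine with an enumeration of `Q` and a surjection of `W` onto `W × W`. -/
theorem MCov.iUnion (hW : MCov M W (fun _ : W × W => True)) {Q : β → Prop} (hQ : MF M Q)
    {P : β → α → Prop} (hP : MF M (fun p : β × α => P p.1 p.2)) (h1 : MCov M W Q)
    (h2 : ∀ i, Q i → MCov M W (P i)) : MCov M W (fun a => ∃ i, Q i ∧ P i a) := by
  obtain ⟨k, hk, hkc⟩ := hW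
  obtain ⟨q, hq, hqc⟩ := h1
  have hR : MF M (fun p : β × PM M (W × α) => Q p.1 →
      (∀ i a b, (i, a) ∈ p.2 → (i, b) ∈ p.2 → a = b) ∧ ∀ a, P p.1 a → ∃ i, (i, a) ∈ p.2) := by
    have hP' : MF M (fun q : (β × PM M (W × α)) × α => P q.1.1 q.2) :=
      mf_comp M (g := fun p : β × α => P p.1 p.2)
        (f := fun q : (β × PM M (W × α)) × α => (q.1.1, q.2)) hP (by fun_prop)
    fun_prop
  obtain ⟨G, hG, hG'⟩ := exists_choose (M := M) (α := β) (β := PM M (W × α))
    (R := fun i g => Q i → (∀ j a b, (j, a) ∈ g → (j, b) ∈ g → a = b) ∧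
      ∀ a, P i a → ∃ j, (j, a) ∈ g) hR (by
      intro i
      by_cases hi : Q i
      · obtain ⟨g, h3, h4⟩ := h2 i hi
        exact ⟨g, fun _ => ⟨h3, h4⟩⟩
      · exact ⟨PM.of (fun _ => False) (mf_const M False), fun h => (hi h).elim⟩)
  refine ⟨PM.of (fun p : W × α => ∃ w₁ : W, ∃ w₂ : W, ∃ i : β, (p.1, (w₁, w₂)) ∈ k ∧ (w₁, i) ∈ q ∧ Q i ∧
    (w₂, p.2) ∈ G i) (by fun_prop), ?_, ?_⟩
  · intro w a b h3 h4
    obtain ⟨w₁, w₂, i, hw, hi, hQi, ha⟩ := PM.mem_of.1 h3
    obtain ⟨w₁', w₂', i', hw', hi', hQi', hb⟩ := PM.mem_of.1 h4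
    have e1 : (w₁, w₂) = (w₁', w₂') := hk w _ _ hw hw'
    obtain ⟨e2, e3⟩ := Prod.mk.inj e1
    subst e2
    subst e3
    have e4 : i = i' := hq w₁ i i' hi hi'
    subst e4
    exact (hG' i hQi).1 w₂ a b ha hb
  · rintro a ⟨i, hQi, ha⟩
    obtain ⟨w₁, hw₁⟩ := hqc i hQi
    obtain ⟨w₂, hw₂⟩ := (hG' i hQi).2 a ha
    obtain ⟨w, hw⟩ := hkc (w₁, w₂) trivial
    exact ⟨w, w₁, w₂, i, hw, hw₁, hQi, hw₂⟩

/-! ### countable sets -/

theorem mct_prod_nat : MCt M (fun _ : ℕ × ℕ => True) := by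
  obtain ⟨e, he, hs⟩ := exists_enum_prod M
  exact MCov.of_enum he fun a _ => hs a

/-- countable unions of countable sets -/
theorem MCt.iUnion {Q : β → Prop} (hQ : MF M Q) {P : β → α → Prop}
    (hP : MF M (fun p : β × α => P p.1 p.2)) (h1 : MCt M Q)
    (h2 : ∀ i, Q i → MCt M (P i)) : MCt M (fun a => ∃ i, Q i ∧ P i a) :=
  MCov.iUnion (W := ℕ) (mct_prod_nat (M := M)) hQ hP h1 h2

end

end HM
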