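import Pool.Agent.HM_h27.Nat

/-!
# HM: finite sets
-/

namespace HM

open HESR

universe u v w v1 v2 v3

section
variable {M : Type u} [ZFM M]
variable {α : Type v} {β : Type w} {γ : Type v1} {δ : Type v2} [IT M α] [IT M β] [IT M γ] [IT M δ]

/-- the finite set `F` as an element of the internal power type -/
def finPM (F : Finset α) : PM M α := PM.of (fun a => a ∈ F) (mf_finite F.finite_toSet)

@[simp] theorem mem_finPM {F : Finset α} {a : α} : a ∈ finPM (M := M) F ↔ a ∈ F := Iff.rfl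

theorem finPM_inj : Function.Injective (finPM (M := M) (α := α)) := by
  intro F G h
  ext a
  rw [← mem_finPM (M := M), h, mem_finPM]

/-- Internal description of finiteness: a set is finite iff it is enumerated by a function of the model on an
initial segment of `ℕ`.

PROOF. If the set is finite, enumerate it and use `mf_finite_graph`-like arguments (`mf_finite` for the finite
set of pairs). Conversely the set is contained in the image of a finite set. -/
theorem finite_iff {s : PM M α} : s.set.Finite ↔ ∃ (n : ℕ) (g : PM M (ℕ × α)),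
    (∀ a, a ∈ s → ∃ k, k < n ∧ (k, a) ∈ g) ∧ ∀ k a b, (k, a) ∈ g → (k, b) ∈ g → a = b := by
  constructor
  · intro hs
    obtain ⟨F, hF⟩ := hs.exists_finset_coe
    have hF' : ∀ a, a ∈ s ↔ a ∈ F := fun a => by
      rw [← PM.mem_set, ← hF]
      exact Iff.rfl
    let e := F.equivFin
    have hS : (Set.range fun a : F => ((e a : ℕ), a.1)).Finite := Set.finite_range _
    refine ⟨F.card, PM.of (fun p => p ∈ Set.range fun a : F => ((e a : ℕ), a.1)) (mf_finite hS), ?_, ?_⟩
    · intro a ha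
      exact ⟨e ⟨a, (hF' a).1 ha⟩, (e ⟨a, (hF' a).1 ha⟩).2, ⟨⟨a, (hF' a).1 ha⟩, rfl⟩⟩
    · rintro k a b ⟨x, hx⟩ ⟨y, hy⟩
      obtain ⟨hx1, hx2⟩ := Prod.mk.inj hx
      obtain ⟨hy1, hy2⟩ := Prod.mk.inj hy
      have hxy : x = y := e.injective (Fin.ext (hx1.trans hy1.symm))
      rw [← hx2, ← hy2, hxy]
  · rintro ⟨n, g, h1, h2⟩
    choose! k hk hk' using h1
    refine Set.Finite.of_injOn (f := k) (t := Set.Iio n) (fun a ha => hk a ha) ?_ (Set.finite_Iio n)
    intro a ha b hb hab
    have hb' := hk' b hb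
    rw [← hab] at hb'
    exact h2 (k a) a b (hk' a ha) hb'

theorem mf_finite_range : MF M (fun s : PM M α => ∃ F : Finset α, finPM F = s) := by
  refine mf_congr (f := fun s : PM M α => ∃ (n : ℕ) (g : PM M (ℕ × α)),
    (∀ a, a ∈ s → ∃ k, k < n ∧ (k, a) ∈ g) ∧ ∀ k a b, (k, a) ∈ g → (k, b) ∈ g → a = b)
    (by fun_prop) fun s => ?_
  rw [← finite_iff]
  refine propext ⟨?_, ?_⟩
  · rintro ⟨F, rfl⟩
    exact F.finite_toSet
  · intro h
    exact ⟨h.toFinset, PM.ext fun a => by simp [PM.mem_set]⟩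

noncomputable instance instFinset : IT M (Finset α) :=
  IT.ofInj finPM finPM_inj mf_finite_range

theorem mf_finPM : MF M (finPM (M := M) (α := α)) := mf_ofInj _ _ fun _ => rfl

@[fun_prop]
theorem mf_mem_finset {f : γ → α} {g : γ → Finset α} (hf : MF M f) (hg : MF M g) :
    MF M (fun x => f x ∈ g x) := by
  have h : MF M (fun p : α × Finset α => p.1 ∈ finPM (M := M) p.2) :=
    mf_mem (mf_fst M) (mf_comp M mf_finPM (mf_snd M))
  exact mf_comp M (g := fun p : α × Finset α => p.1 ∈ finPM (M := M) p.2)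
    (f := fun x => (f x, g x)) h (mf_mk M hf hg)

/-- a family of finite sets is in the model iff its graph is

PROOF. `mf_into_ofInj` and `mf_PM_iff`. -/
theorem mf_Finset_iff {F : γ → Finset α} : MF M F ↔ MF M (fun p : γ × α => p.2 ∈ F p.1) := by
  rw [mf_into_ofInj (instFinset (M := M) (α := α)) finPM finPM_inj (fun _ => rfl), mf_PM_iff]
  exact Iff.rfl

@[fun_prop]
theorem mf_singleton {f : γ → α} (hf : MF M f) : MF M (fun x => ({f x} : Finset α)) := by
  refine mf_Finset_iff.2 (mf_congr (f := fun p : γ × α => p.2 = f p.1) (by fun_prop) fun p => ?_)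
  simp

@[fun_prop]
theorem mf_insert [DecidableEq α] {f : γ → α} {g : γ → Finset α} (hf : MF M f) (hg : MF M g) :
    MF M (fun x => insert (f x) (g x)) := by
  refine mf_Finset_iff.2 (mf_congr (f := fun p : γ × α => p.2 = f p.1 ∨ p.2 ∈ g p.1) (by fun_prop)
    fun p => ?_)
  simp

@[fun_prop]
theorem mf_union [DecidableEq α] {f g : γ → Finset α} (hf : MF M f) (hg : MF M g) :
    MF M (fun x => f x ∪ g x) := by
  refine mf_Finset_iff.2 (mf_congr (f := fun p : γ × α => p.2 ∈ f p.1 ∨ p.2 ∈ g p.1) (by fun_prop)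
    fun p => ?_)
  simp

@[fun_prop]
theorem mf_subset {f g : γ → Finset α} (hf : MF M f) (hg : MF M g) :
    MF M (fun x => f x ⊆ g x) := by
  have h : MF M (fun x => ∀ a, a ∈ f x → a ∈ g x) := by fun_prop
  exact h

theorem mf_image [DecidableEq β] {f : α → β} (hf : MF M f) {g : γ → Finset α} (hg : MF M g) :
    MF M (fun x => (g x).image f) := by
  refine mf_Finset_iff.2 (mf_congr (f := fun p : γ × β => ∃ a, a ∈ g p.1 ∧ f a = p.2) (by fun_prop)
    fun p => ?_)
  simp

/-- cardinality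

PROOF. `#F = n` iff there is a bijection in the model of `{k | k < n}` with `F` (a finite set of pairs, hence in the
model): express by `∃ g : PM M (ℕ × α), ...` and `mf_of_graph`. -/
@[fun_prop]
theorem mf_card {f : γ → Finset α} (hf : MF M f) : MF M (fun x => (f x).card) := by
  refine mf_of_graph (R := fun c n => ∃ g : PM M (ℕ × α), (∀ k, k < n → ∃ a, a ∈ f c ∧ (k, a) ∈ g) ∧
    (∀ a, a ∈ f c → ∃ k, k < n ∧ (k, a) ∈ g) ∧ (∀ k a b, (k, a) ∈ g → (k, b) ∈ g → a = b) ∧
    ∀ k l a, (k, a) ∈ g → (l, a) ∈ g → k = l) (by fun_prop) fun c n => ?_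
  constructor
  · rintro ⟨g, h1, h2, h3, h4⟩
    choose! k hk hk' using h2
    have h5 : ((f c).image k) = Finset.range n := by
      ext m
      rw [Finset.mem_image, Finset.mem_range]
      constructor
      · rintro ⟨a, ha, rfl⟩
        exact hk a ha
      · intro hm
        obtain ⟨a, ha, ha'⟩ := h1 m hm
        exact ⟨a, ha, h4 _ _ a (hk' a ha) ha'⟩
    have h6 : Set.InjOn k (f c) := by
      intro a ha b hb hab
      have hb' := hk' b hb
      rw [← hab] at hb'
      exact h3 (k a) a b (hk' a ha) hb'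
    rw [← Finset.card_image_of_injOn h6, h5, Finset.card_range]
  · intro hn
    let e := (f c).equivFinOfCardEq hn
    have hS : (Set.range fun a : (f c) => ((e a : ℕ), a.1)).Finite := Set.finite_range _
    refine ⟨PM.of (fun p => p ∈ Set.range fun a : (f c) => ((e a : ℕ), a.1)) (mf_finite hS), ?_, ?_, ?_, ?_⟩
    · intro k hk
      exact ⟨(e.symm ⟨k, hk⟩).1, (e.symm ⟨k, hk⟩).2, ⟨e.symm ⟨k, hk⟩, by simp⟩⟩
    · intro a ha
      exact ⟨e ⟨a, ha⟩, (e ⟨a, ha⟩).2, ⟨⟨a, ha⟩, rfl⟩⟩
    · rintro k a b ⟨x, hx⟩ ⟨y, hy⟩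
      obtain ⟨hx1, hx2⟩ := Prod.mk.inj hx
      obtain ⟨hy1, hy2⟩ := Prod.mk.inj hy
      have hxy : x = y := e.injective (Fin.ext (hx1.trans hy1.symm))
      rw [← hx2, ← hy2, hxy]
    · rintro k l a ⟨x, hx⟩ ⟨y, hy⟩
      obtain ⟨hx1, hx2⟩ := Prod.mk.inj hx
      obtain ⟨hy1, hy2⟩ := Prod.mk.inj hy
      have hxy : x = y := Subtype.ext (hx2.trans hy2.symm)
      rw [← hx1, ← hy1, hxy]

end

end HM
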