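import Pool.Agent.HM_h27.Ct
import Pool.Agent.HM_h27.Fin

/-!
# HM: countable sets of the model, continued
-/

namespace HM

open HESR

universe u v w v1 v2 v3 v4

section
variable {M : Type u} [ZFM M]
variable {α : Type v} {β : Type w} {γ : Type v1} {δ : Type v2} [IT M α] [IT M β] [IT M γ] [IT M δ]

theorem mct_nat {P : ℕ → Prop} : MCt M P :=
  MCov.of_enum (e := fun n : ℕ => n) (mf_id M) fun a _ => ⟨a, rfl⟩

theorem mct_finite {P : α → Prop} (h : {a | P a}.Finite) : MCt M P := by
  have : Finite {a // P a} := h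
  have : Countable {a // P a} := Finite.to_countable
  obtain ⟨f, hf⟩ := exists_injective_nat {a // P a}
  have hT : (Set.range (fun a : {a // P a} => (f a, a.1))).Finite := Set.finite_range _
  refine ⟨PM.of _ (mf_finite hT), ?_, ?_⟩
  · intro i a b h1 h2
    obtain ⟨a', ha'⟩ := PM.mem_of.1 h1
    obtain ⟨b', hb'⟩ := PM.mem_of.1 h2
    have h3 : f a' = i := congrArg Prod.fst ha'
    have h4 : f b' = i := congrArg Prod.fst hb'
    have h5 : a'.1 = a := congrArg Prod.snd ha'
    have h6 : b'.1 = b := congrArg Prod.snd hb'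
    rw [← h5, ← h6, hf (h3.trans h4.symm)]
  · intro a ha
    exact ⟨f ⟨a, ha⟩, PM.mem_of.2 ⟨⟨a, ha⟩, rfl⟩⟩

theorem mct_prod {P : α → Prop} {Q : β → Prop} (h1 : MCt M P) (h2 : MCt M Q) :
    MCt M (fun p : α × β => P p.1 ∧ Q p.2) := by
  obtain ⟨g1, hg1, hg1'⟩ := h1
  obtain ⟨g2, hg2, hg2'⟩ := h2
  obtain ⟨e, he, hs⟩ := exists_enum_prod M
  refine ⟨PM.of (fun p : ℕ × (α × β) => ((e p.1).1, p.2.1) ∈ g1 ∧ ((e p.1).2, p.2.2) ∈ g2)
    (by fun_prop), ?_, ?_⟩
  · rintro i ⟨a, b⟩ ⟨a', b'⟩ h1 h2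
    obtain ⟨h3, h4⟩ := PM.mem_of.1 h1
    obtain ⟨h5, h6⟩ := PM.mem_of.1 h2
    exact Prod.ext (hg1 _ _ _ h3 h5) (hg2 _ _ _ h4 h6)
  · rintro ⟨a, b⟩ ⟨ha, hb⟩
    obtain ⟨i, hi⟩ := hg1' a ha
    obtain ⟨j, hj⟩ := hg2' b hb
    obtain ⟨k, hk⟩ := hs (i, j)
    refine ⟨k, PM.mem_of.2 ⟨?_, ?_⟩⟩
    · show ((e k).1, a) ∈ g1
      rw [hk]
      exact hi
    · show ((e k).2, b) ∈ g2
      rw [hk]
      exact hj

private theorem mct_finset_nat : MCt M (fun _ : Finset ℕ => True) := by
  have h : MCt M (fun F : Finset ℕ => ∃ n : ℕ, True ∧ ∀ k, k ∈ F → k < n) := by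
    refine MCt.iUnion (Q := fun _ : ℕ => True) (P := fun (n : ℕ) (F : Finset ℕ) => ∀ k, k ∈ F → k < n)
      (by fun_prop) (by fun_prop) mct_nat ?_
    intro n _
    refine mct_finite ?_
    refine Set.Finite.subset ((Finset.range n).powerset.finite_toSet) ?_
    intro F hF
    rw [Finset.mem_coe, Finset.mem_powerset]
    intro k hk
    exact Finset.mem_range.2 (hF k hk)
  refine MCov.mono h fun F _ => ⟨F.sup id + 1, trivial, fun k hk => ?_⟩
  have := Finset.le_sup (f := id) hk
  simp only [id] at this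
  exact Nat.lt_succ_of_le this

/-- the finite subsets of a countable set

PROOF. The finite subsets of `ℕ`: by recursion an enumeration of all `Finset ℕ`, for example
`MCt.iUnion` over the bound `n` of the set `{F | ∀ k ∈ F, k < n}`, which is finite. -/
theorem mct_finset {P : α → Prop} (hP : MF M P) (h1 : MCt M P) :
    MCt M (fun F : Finset α => ∀ a ∈ F, P a) := by
  classical
  by_cases h0 : ∃ a, P a
  · obtain ⟨e, he, he1, he2⟩ := MCov.enum hP h1 h0
    refine MCov.image (f := fun G : Finset ℕ => G.image e) mct_finset_nat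
      (mf_image he (mf_id M)) ?_
    intro F hF
    choose! j hj using he2
    refine ⟨F.image j, trivial, ?_⟩
    ext a
    simp only [Finset.mem_image]
    constructor
    · rintro ⟨n, ⟨b, hb, rfl⟩, rfl⟩
      rw [hj b (hF b hb)]
      exact hb
    · intro ha
      exact ⟨j a, ⟨a, ha, rfl⟩, hj a (hF a ha)⟩
  · refine mct_finite ((Set.finite_singleton (∅ : Finset α)).subset ?_)
    intro F hF
    rw [Set.mem_singleton_iff, Finset.eq_empty_iff_forall_notMem]
    intro a ha
    exact h0 ⟨a, hF a ha⟩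

/-- pigeonhole principle -/
theorem exists_not_mct {P : α → Prop} (hP : MF M P) (h : ¬ MCt M P) {f : α → β} (hf : MF M f)
    (hc : MCt M (fun b : β => ∃ a, P a ∧ f a = b)) : ∃ b, ¬ MCt M (fun a => P a ∧ f a = b) := by
  by_contra hcon
  push Not at hcon
  apply h
  have h1 : MCt M (fun a : α => ∃ b : β, (∃ a, P a ∧ f a = b) ∧ (P a ∧ f a = b)) := by
    refine MCt.iUnion (Q := fun b : β => ∃ a, P a ∧ f a = b) (P := fun (b : β) (a : α) => P a ∧ f a = b)
      ?_ ?_ hc fun b _ => hcon b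
    · exact mf_ex (mf_and (mf_comp M (g := P) (f := fun p : β × α => p.2) hP (mf_snd M))
        (mf_eq (mf_comp M (g := f) (f := fun p : β × α => p.2) hf (mf_snd M)) (mf_fst M)))
    · exact mf_and (mf_comp M (g := P) (f := fun p : β × α => p.2) hP (mf_snd M))
        (mf_eq (mf_comp M (g := f) (f := fun p : β × α => p.2) hf (mf_snd M)) (mf_fst M))
  exact MCov.mono h1 fun a ha => ⟨f a, ⟨a, ha, rfl⟩, ha, rfl⟩

/-- an infinite set of the model contains an injective sequence of the model -/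
theorem exists_inj_seq {P : α → Prop} (hP : MF M P) (h : ¬ {a | P a}.Finite) :
    ∃ e : ℕ → α, MF M e ∧ Function.Injective e ∧ ∀ n, P (e n) := by
  classical
  have htot : ∀ F : Finset α, ∃ a, P a ∧ ¬ a ∈ F := by
    intro F
    by_contra hcon
    push Not at hcon
    exact h (F.finite_toSet.subset fun a ha => hcon a ha)
  obtain ⟨c, hc, hcP⟩ := exists_choose (M := M) (α := Finset α) (β := α)
    (R := fun F a => P a ∧ ¬ a ∈ F)
    (mf_and (mf_comp M (g := P) (f := fun p : Finset α × α => p.2) hP (mf_snd M)) (by fun_prop))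
    htot
  let F : ℕ → Finset α := fun n => Nat.rec ∅ (fun _ G => insert (c G) G) n
  have hF : ∀ n, F (n + 1) = insert (c (F n)) (F n) := fun n => rfl
  have hmF : MF M F := mf_natrec' (G := fun _ G => insert (c G) G)
    (mf_insert (mf_comp M (g := c) (f := fun p : ℕ × Finset α => p.2) hc (mf_snd M)) (mf_snd M)) hF
  have hmono : ∀ m n, m ≤ n → F m ⊆ F n := by
    intro m n hmn
    induction n, hmn using Nat.le_induction with
    | base => exact subset_rfl
    | succ n _ ih =>
      rw [hF]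
      exact ih.trans (Finset.subset_insert _ _)
  have hlt : ∀ m n, m < n → c (F m) ≠ c (F n) := by
    intro m n hmn heq
    have h1 : c (F m) ∈ F n := hmono (m + 1) n hmn (by rw [hF]; exact Finset.mem_insert_self _ _)
    rw [heq] at h1
    exact (hcP (F n)).2 h1
  refine ⟨fun n => c (F n), mf_comp M hc hmF, ?_, fun n => (hcP (F n)).1⟩
  intro m n hmn
  rcases Nat.lt_trichotomy m n with h1 | h1 | h1
  · exact absurd hmn (hlt m n h1)
  · exact h1
  · exact absurd hmn.symm (hlt n m h1)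

end

end HM
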