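import Pool.Agent.HM_h27.Top
import Pool.Agent.HM_h27.CtB

/-!
# HM: existence of the real line of the model
-/

namespace HM

open HESR

universe u v w v1 v2 v3 v4

set_option linter.unusedVariables false
set_option linter.unusedSectionVars false

/-- The lexicographic order of nonempty finite subsets of `ℕ`: a countable dense order without endpoints. -/
def qlt (F G : Finset ℕ) : Prop := ∃ n, n ∉ F ∧ n ∈ G ∧ ∀ m < n, (m ∈ F ↔ m ∈ G)

theorem qlt_irrefl (F : Finset ℕ) : ¬ qlt F F := by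
  rintro ⟨n, h1, h2, -⟩
  exact h1 h2

theorem qlt_trans {F G H : Finset ℕ} (h1 : qlt F G) (h2 : qlt G H) : qlt F H := by
  obtain ⟨a, ha1, ha2, ha3⟩ := h1
  obtain ⟨b, hb1, hb2, hb3⟩ := h2
  rcases Nat.lt_trichotomy a b with h | h | h
  · exact ⟨a, ha1, (hb3 a h).1 ha2, fun m hm => (ha3 m hm).trans (hb3 m (hm.trans h))⟩
  · subst h
    exact absurd ha2 hb1
  · exact ⟨b, fun hb => hb1 ((ha3 b h).1 hb), hb2, fun m hm => (ha3 m (hm.trans h)).trans (hb3 m hm)⟩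

/-- PROOF. The least element of the symmetric difference. -/
theorem qlt_tri (F G : Finset ℕ) : qlt F G ∨ F = G ∨ qlt G F := by
  classical
  by_cases h : ∃ n, ¬ (n ∈ F ↔ n ∈ G)
  · have h1 := Nat.find_spec h
    have h2 : ∀ m < Nat.find h, (m ∈ F ↔ m ∈ G) := fun m hm => not_not.1 (Nat.find_min h hm)
    by_cases hF : Nat.find h ∈ F
    · have hG : Nat.find h ∉ G := fun hG => h1 ⟨fun _ => hG, fun _ => hF⟩
      exact Or.inr (Or.inr ⟨_, hG, hF, fun m hm => (h2 m hm).symm⟩)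
    · have hG : Nat.find h ∈ G := by
        by_contra hG
        exact h1 ⟨fun h => absurd h hF, fun h => absurd h hG⟩
      exact Or.inl ⟨_, hF, hG, h2⟩
  · push Not at h
    exact Or.inr (Or.inl (Finset.ext h))

/-- adding a large element -/
theorem Cuts_add (F : Finset ℕ) {k : ℕ} (hk : ∀ m ∈ F, m < k) : qlt F (insert k F) := by
  refine ⟨k, fun h => lt_irrefl _ (hk k h), Finset.mem_insert_self _ _, fun m hm => ?_⟩
  rw [Finset.mem_insert]
  exact ⟨Or.inr, fun h => h.resolve_left hm.ne⟩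

theorem Cuts_bd (F : Finset ℕ) : ∀ m ∈ F, m < F.sup id + 1 := fun m hm =>
  Nat.lt_succ_of_le (Finset.le_sup (f := id) hm)

/-- PROOF. `F ∪ {k}` with `k` larger than all elements of `F` and than the first difference. -/
theorem qlt_dense {F G : Finset ℕ} (h : qlt F G) : ∃ H : Finset ℕ, H.Nonempty ∧ qlt F H ∧ qlt H G := by
  obtain ⟨n, h1, h2, h3⟩ := h
  have hk : ∀ m ∈ F, m < (F.sup id + 1) + (n + 1) := fun m hm =>
    lt_of_lt_of_le (Cuts_bd F m hm) (Nat.le_add_right _ _)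
  have hn : n < (F.sup id + 1) + (n + 1) := by omega
  refine ⟨insert ((F.sup id + 1) + (n + 1)) F, Finset.insert_nonempty _ _, Cuts_add F hk, n, ?_, h2, ?_⟩
  · rw [Finset.mem_insert]
    rintro (h | h)
    · omega
    · exact h1 h
  · intro m hm
    rw [Finset.mem_insert, ← h3 m hm]
    constructor
    · rintro (h | h)
      · omega
      · exact h
    · exact Or.inr

theorem qlt_noMax (F : Finset ℕ) : ∃ G : Finset ℕ, G.Nonempty ∧ qlt F G :=
  ⟨insert (F.sup id + 1) F, Finset.insert_nonempty _ _, Cuts_add F (Cuts_bd F)⟩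

/-- PROOF. Replace the maximum `m` of `F` by `m + 1`. -/
theorem qlt_noMin {F : Finset ℕ} (h : F.Nonempty) : ∃ G : Finset ℕ, G.Nonempty ∧ qlt G F := by
  have hm : F.max' h ∈ F := F.max'_mem h
  refine ⟨insert (F.max' h + 1) (F.erase (F.max' h)), Finset.insert_nonempty _ _, F.max' h, ?_, hm, ?_⟩
  · rw [Finset.mem_insert, Finset.mem_erase]
    rintro (h1 | h1)
    · omega
    · exact h1.1 rfl
  · intro m hm'
    rw [Finset.mem_insert, Finset.mem_erase]
    constructor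
    · rintro (h1 | h1)
      · omega
      · exact h1.2
    · intro h1
      exact Or.inr ⟨hm'.ne, h1⟩

section
variable {M : Type u} [ZFM M]

/-- cuts: nonempty, not everything, closed downwards, without maximum; only nonempty finite sets are used -/
def IsCut (s : PM M (Finset ℕ)) : Prop :=
  (∀ F, F ∈ s → F.Nonempty) ∧ (∃ F, F ∈ s) ∧ (∃ F : Finset ℕ, F.Nonempty ∧ ¬ F ∈ s) ∧
  (∀ F G : Finset ℕ, F ∈ s → G.Nonempty → qlt G F → G ∈ s) ∧ ∀ F, F ∈ s → ∃ G, G ∈ s ∧ qlt F G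

theorem Cuts_mf_qlt : MF M (fun p : Finset ℕ × Finset ℕ => qlt p.1 p.2) := by
  unfold qlt
  have h : MF M (fun p : Finset ℕ × Finset ℕ => ∃ n, ¬ n ∈ p.1 ∧ n ∈ p.2 ∧
    ∀ m, m < n → (m ∈ p.1 ↔ m ∈ p.2)) := by fun_prop
  exact h

@[fun_prop]
theorem Cuts_mf_qlt' {γ : Type v1} [IT M γ] {f g : γ → Finset ℕ} (hf : MF M f) (hg : MF M g) :
    MF M (fun c => qlt (f c) (g c)) :=
  mf_comp M (g := fun p : Finset ℕ × Finset ℕ => qlt p.1 p.2) (f := fun c => (f c, g c))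
    Cuts_mf_qlt (by fun_prop)

@[fun_prop]
theorem Cuts_mf_ne {γ : Type v1} [IT M γ] {f : γ → Finset ℕ} (hf : MF M f) :
    MF M (fun c => (f c).Nonempty) := by
  have h : MF M (fun c => ∃ n, n ∈ f c) := by fun_prop
  exact h

theorem Cuts_mf_IsCut : MF M (fun s : PM M (Finset ℕ) => IsCut s) := by
  unfold IsCut
  fun_prop

variable (M) in
/-- the type of all cuts -/
def CutR : Type := {s : PM M (Finset ℕ) // s ∈ PM.of (fun s => IsCut s) Cuts_mf_IsCut}

noncomputable instance Cuts_it : IT M (CutR M) :=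
  inferInstanceAs (IT M {s : PM M (Finset ℕ) // s ∈ PM.of (fun s => IsCut s) Cuts_mf_IsCut})

/-- the underlying set -/
def CutR.s (a : CutR M) : PM M (Finset ℕ) := a.1

theorem CutR.cut (a : CutR M) : IsCut a.s := a.2

theorem CutR.ext {a b : CutR M} (h : ∀ F, F ∈ a.s ↔ F ∈ b.s) : a = b := Subtype.ext (PM.ext h)

@[fun_prop]
theorem Cuts_mf_s {γ : Type v1} [IT M γ] {f : γ → CutR M} (hf : MF M f) : MF M (fun c => (f c).s) :=
  mf_subval (PM.of (fun s => IsCut s) Cuts_mf_IsCut) hf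

/-- constructor -/
def CutR.mk (s : PM M (Finset ℕ)) (h : IsCut s) : CutR M := ⟨s, h⟩

theorem Cuts_mf_mk {γ : Type v1} [IT M γ] {g : γ → PM M (Finset ℕ)} (hg : MF M g)
    (h : ∀ c, IsCut (g c)) : MF M (fun c => CutR.mk (g c) (h c)) :=
  mf_submk (PM.of (fun s => IsCut s) Cuts_mf_IsCut) hg h

theorem Cuts_mem_mk {s : PM M (Finset ℕ)} {h : IsCut s} {F : Finset ℕ} : F ∈ (CutR.mk s h).s ↔ F ∈ s :=
  Iff.rfl

theorem CutR.down (a : CutR M) {F G : Finset ℕ} (hF : F ∈ a.s) (hG : G.Nonempty) (h : qlt G F) :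
    G ∈ a.s := a.cut.2.2.2.1 F G hF hG h

theorem CutR.lt_of (a : CutR M) {F G : Finset ℕ} (hG : G ∈ a.s) (hF : F.Nonempty) (h : ¬ F ∈ a.s) :
    qlt G F := by
  rcases qlt_tri G F with h1 | h1 | h1
  · exact h1
  · exact absurd (h1 ▸ hG) h
  · exact absurd (a.down hG hF h1) h

open Classical in
noncomputable instance Cuts_ord : LinearOrder (CutR M) where
  le a b := ∀ F, F ∈ a.s → F ∈ b.s
  le_refl a F h := h
  le_trans a b c h1 h2 F h := h2 F (h1 F h)
  le_antisymm a b h1 h2 := CutR.ext fun F => ⟨h1 F, h2 F⟩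
  le_total a b := by
    by_cases h : ∀ F, F ∈ a.s → F ∈ b.s
    · exact Or.inl h
    · push Not at h
      obtain ⟨F, hFa, hFb⟩ := h
      refine Or.inr fun G hG => ?_
      have hF : F.Nonempty := a.cut.1 F hFa
      exact a.down hFa (b.cut.1 G hG) (b.lt_of hG hF hFb)
  toDecidableLE := fun _ _ => Classical.propDecidable _

theorem Cuts_le {a b : CutR M} : a ≤ b ↔ ∀ F, F ∈ a.s → F ∈ b.s := Iff.rfl

theorem Cuts_lt {a b : CutR M} : a < b ↔ ∃ F, F ∈ b.s ∧ ¬ F ∈ a.s := by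
  rw [← not_le, Cuts_le]
  push Not
  exact Iff.rfl

theorem Cuts_pc_cut {F : Finset ℕ} (hF : F.Nonempty) (h : MF M (fun G : Finset ℕ => G.Nonempty ∧ qlt G F)) :
    IsCut (PM.of (fun G : Finset ℕ => G.Nonempty ∧ qlt G F) h) := by
  refine ⟨fun G hG => hG.1, ?_, ⟨F, hF, fun hF' => qlt_irrefl F hF'.2⟩,
    fun G H hG hH hlt => ⟨hH, qlt_trans hlt hG.2⟩, ?_⟩
  · obtain ⟨G, hG1, hG2⟩ := qlt_noMin hF
    exact ⟨G, hG1, hG2⟩
  · intro G hG
    obtain ⟨H, h1, h2, h3⟩ := qlt_dense hG.2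
    exact ⟨H, ⟨h1, h3⟩, h2⟩

/-- the principal cut -/
noncomputable def Cuts_pc (F : Finset ℕ) (hF : F.Nonempty) : CutR M :=
  CutR.mk (PM.of (fun G : Finset ℕ => G.Nonempty ∧ qlt G F) (by fun_prop)) (Cuts_pc_cut hF _)

theorem Cuts_mem_pc {F G : Finset ℕ} {hF : F.Nonempty} :
    G ∈ (Cuts_pc (M := M) F hF).s ↔ G.Nonempty ∧ qlt G F := Iff.rfl

theorem Cuts_pc_lt {F : Finset ℕ} {hF : F.Nonempty} {a : CutR M} (h : F ∈ a.s) : Cuts_pc F hF < a :=
  Cuts_lt.2 ⟨F, h, fun h1 => qlt_irrefl F h1.2⟩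

theorem Cuts_lt_pc {F G : Finset ℕ} {hG : G.Nonempty} {a : CutR M} (hF : F.Nonempty) (h : ¬ F ∈ a.s)
    (hFG : qlt F G) : a < Cuts_pc G hG := Cuts_lt.2 ⟨F, ⟨hF, hFG⟩, h⟩

theorem Cuts_between {a b : CutR M} (h : a < b) :
    ∃ F : Finset ℕ, ∃ hF : F.Nonempty, a < Cuts_pc F hF ∧ Cuts_pc F hF < b := by
  obtain ⟨F, h1, h2⟩ := Cuts_lt.1 h
  obtain ⟨G, h3, h4⟩ := b.cut.2.2.2.2 F h1
  exact ⟨G, b.cut.1 G h3, Cuts_lt_pc (b.cut.1 F h1) h2 h4, Cuts_pc_lt h3⟩

instance Cuts_dense : DenselyOrdered (CutR M) := ⟨fun a b h => by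
  obtain ⟨F, hF, h1, h2⟩ := Cuts_between h
  exact ⟨_, h1, h2⟩⟩

instance Cuts_noMin : NoMinOrder (CutR M) := ⟨fun a => by
  obtain ⟨F, hF⟩ := a.cut.2.1
  exact ⟨Cuts_pc F (a.cut.1 F hF), Cuts_pc_lt hF⟩⟩

instance Cuts_noMax : NoMaxOrder (CutR M) := ⟨fun a => by
  obtain ⟨F, hF, hFa⟩ := a.cut.2.2.1
  obtain ⟨G, hG, hFG⟩ := qlt_noMax F
  exact ⟨Cuts_pc G hG, Cuts_lt_pc hF hFa hFG⟩⟩

instance Cuts_nonempty : Nonempty (CutR M) := ⟨Cuts_pc {0} (Finset.singleton_nonempty 0)⟩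

theorem Cuts_real : RealLine M (CutR M) := by
  refine ⟨?_, ?_, ?_⟩
  · have h : MF M (fun p : CutR M × CutR M => ∃ F : Finset ℕ, F ∈ p.2.s ∧ ¬ F ∈ p.1.s) := by fun_prop
    exact mf_congr h fun p => propext Cuts_lt
  · have hc : MCt M (fun F : Finset ℕ => F.Nonempty) :=
      MCov.mono (mct_finset (M := M) (P := fun _ : ℕ => True) (mf_const M True) mct_nat)
        fun F _ _ _ => trivial
    obtain ⟨e, he, he1, he2⟩ := MCov.enum (M := M) (P := fun F : Finset ℕ => F.Nonempty)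
      (by fun_prop) hc ⟨{0}, Finset.singleton_nonempty 0⟩
    refine ⟨fun n => Cuts_pc (e n) (he1 n), ?_, ?_⟩
    · refine Cuts_mf_mk (g := fun n => PM.of (fun G : Finset ℕ => G.Nonempty ∧ qlt G (e n)) (by fun_prop))
        ?_ (fun n => Cuts_pc_cut (he1 n) _)
      exact mf_PMof _ (by fun_prop)
    · intro a b hab
      obtain ⟨F, hF, h1, h2⟩ := Cuts_between hab
      obtain ⟨n, rfl⟩ := he2 F hF
      exact ⟨n, h1, h2⟩
  · rintro s ⟨a, ha⟩ ⟨b, hb⟩
    have hcut : IsCut (PM.of (fun F : Finset ℕ => ∃ a : CutR M, a ∈ s ∧ F ∈ a.s) (by fun_prop)) := by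
      refine ⟨?_, ?_, ?_, ?_, ?_⟩
      · rintro F ⟨c, hc, hF⟩
        exact c.cut.1 F hF
      · obtain ⟨F, hF⟩ := a.cut.2.1
        exact ⟨F, a, ha, hF⟩
      · obtain ⟨F, hF, hFb⟩ := b.cut.2.2.1
        refine ⟨F, hF, ?_⟩
        rintro ⟨c, hc, hFc⟩
        exact hFb (hb c hc F hFc)
      · rintro F G ⟨c, hc, hF⟩ hG hlt
        exact ⟨c, hc, c.down hF hG hlt⟩
      · rintro F ⟨c, hc, hF⟩
        obtain ⟨G, hG, hFG⟩ := c.cut.2.2.2.2 F hF
        exact ⟨G, ⟨c, hc, hG⟩, hFG⟩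
    refine ⟨CutR.mk _ hcut, ?_, ?_⟩
    · intro c hc F hF
      exact ⟨c, hc, hF⟩
    · intro c hc F hF
      obtain ⟨d, hd, hFd⟩ := hF
      exact hc hd F hFd

/-- Existence of the real line of the model.

PROOF. `R := {s : PM M (Finset ℕ) // s ∈ PM.of IsCut _}` with `s ≤ t ↔ ∀ F, F ∈ s → F ∈ t`, a linear order
(`LinearOrder` via classical decidability; totality from `qlt_tri` and downward closedness). Dense and without
endpoints: principal cuts `{G | G.Nonempty ∧ qlt G F}`. `q`: the principal cuts of an enumeration of the nonempty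
finite sets by `ℕ` in the model (`mct_finset`, `MCov.enum`). Least upper bounds: unions (in the model by
`fun_prop`). `IsCut` is a predicate of the model (`fun_prop`; `F.Nonempty` is `∃ n, n ∈ F`). -/
theorem exists_real_line (M : Type u) [ZFM M] : ∃ (R : Type) (_ : IT M R) (_ : LinearOrder R),
    DenselyOrdered R ∧ NoMinOrder R ∧ NoMaxOrder R ∧ Nonempty R ∧ RealLine M R :=
  ⟨CutR M, inferInstance, inferInstance, inferInstance, inferInstance, inferInstance, inferInstance,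
    Cuts_real⟩

end

end HM
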