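import Pool.Agent.HM_h27.Fin
import Pool.Agent.HM_h27.Top

/-!
# HM: the forcing with neighbourhoods, definitions and the refinement lemma
-/

namespace HM

open HESR Topology

universe u v w v1 v2 v3 v4

set_option linter.unusedVariables false
set_option linter.unusedSectionVars false

/-- The data of the forcing construction (compare `Dat` in `Pool/Agent/W_3b51b4_h27/GenDefs.lean`). `U` is a
countable base of the regular space `Y`, `B` the set of all allowed indices. -/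
structure GDat (M : Type u) [ZFM M] (W : Type v3) [IT M W] (Y : Type v) [IT M Y] [TopologicalSpace Y]
    [MTop M Y] where
  U : ℕ → PM M Y
  U_mf : MF M U
  U_open : ∀ n, Op (U n)
  U_base : ∀ (y : Y) (O : Set Y), IsOpen O → y ∈ O → ∃ n, y ∈ U n ∧ closure (U n).set ⊆ O
  B : W → Prop
  B_mf : MF M B
  p : W → Y
  p_mf : MF M p
  R : ℕ × (ℕ × ℕ) → W → Y → Prop
  R_mf : MF M (fun q : ((ℕ × (ℕ × ℕ)) × W) × Y => R q.1.1 q.1.2 q.2)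
  free : ∀ a b, B a → B b → a ≠ b → ∀ k, p a ∉ closure {m | R k b m}
  idx : ℕ → W → ℕ
  idx_mf : MF M (fun q : ℕ × W => idx q.1 q.2)
  thick : ∀ (v : ℕ) (H : Finset (ℕ × ℕ)) (a : W), B a → p a ∈ U v → (∀ h ∈ H, idx h.1 a ≤ h.2) →
    ¬ MCt M (fun b => B b ∧ p b ∈ U v ∧ ∀ h ∈ H, idx h.1 b ≤ h.2)

/-- The type of the conditions: a finite set `F = p.1` of indices, a finite set `p.2.1` of (indices of) basic open
sets, a finite set `p.2.2.1` of bounds `(k, N)` for `idx k`, and a finite set `p.2.2.2` of relations to be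
avoided. -/
abbrev Cnd (W : Type v3) : Type v3 :=
  Finset W × (Finset ℕ × (Finset (ℕ × ℕ) × Finset (ℕ × (ℕ × ℕ))))

section
variable {M : Type u} [ZFM M] {W : Type v3} [IT M W]
variable {Y : Type v} [IT M Y] [TopologicalSpace Y] [MTop M Y]
variable {γ : Type v1} [IT M γ]
variable (D : GDat M W Y)

/-- the conditions -/
def Ok (p : Cnd W) : Prop :=
  (∃ a, a ∈ p.1) ∧ (∀ a, a ∈ p.1 → D.B a) ∧ (∀ a, a ∈ p.1 → ∃ v, v ∈ p.2.1 ∧ D.p a ∈ D.U v) ∧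
  (∀ a, a ∈ p.1 → ∀ v, v ∈ p.2.1 → ¬ InCl (D.p a) (D.U v) → ∀ k, k ∈ p.2.2.2 → ∀ m, InCl m (D.U v) →
    ¬ D.R k a m) ∧
  (∀ a, a ∈ p.1 → ∀ h, h ∈ p.2.2.1 → D.idx h.1 a ≤ h.2)

/-- the order: `q` is stronger than `p` -/
def Le (q p : Cnd W) : Prop :=
  p.1 ⊆ q.1 ∧ (∀ v, v ∈ q.2.1 → ∃ w, w ∈ p.2.1 ∧ ∀ y, y ∈ D.U v → y ∈ D.U w) ∧
    p.2.2.1 ⊆ q.2.2.1 ∧ p.2.2.2 ⊆ q.2.2.2

theorem Le.refl (p : Cnd W) : Le D p p :=
  ⟨Finset.Subset.refl _, fun v hv => ⟨v, hv, fun y hy => hy⟩, Finset.Subset.refl _,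
    Finset.Subset.refl _⟩

theorem Le.trans {p q r : Cnd W} (h : Le D p q) (h' : Le D q r) : Le D p r :=
  ⟨h'.1.trans h.1, fun v hv => by
    obtain ⟨w, hw, h1⟩ := h.2.1 v hv
    obtain ⟨t, ht, h2⟩ := h'.2.1 w hw
    exact ⟨t, ht, fun y hy => h2 y (h1 y hy)⟩, h'.2.2.1.trans h.2.2.1, h'.2.2.2.trans h.2.2.2⟩

@[fun_prop]
theorem gdat_mf_U {f : γ → ℕ} (hf : MF M f) : MF M (fun x => D.U (f x)) :=
  mf_comp M D.U_mf hf

@[fun_prop]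
theorem gdat_mf_B {f : γ → W} (hf : MF M f) : MF M (fun x => D.B (f x)) :=
  mf_comp M D.B_mf hf

@[fun_prop]
theorem gdat_mf_p {f : γ → W} (hf : MF M f) : MF M (fun x => D.p (f x)) :=
  mf_comp M D.p_mf hf

@[fun_prop]
theorem gdat_mf_R {f : γ → ℕ × (ℕ × ℕ)} {g : γ → W} {h : γ → Y} (hf : MF M f) (hg : MF M g)
    (hh : MF M h) : MF M (fun x => D.R (f x) (g x) (h x)) :=
  mf_comp M (g := fun q : ((ℕ × (ℕ × ℕ)) × W) × Y => D.R q.1.1 q.1.2 q.2)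
    (f := fun x => ((f x, g x), h x)) D.R_mf (by fun_prop)

@[fun_prop]
theorem gdat_mf_idx {f : γ → ℕ} {g : γ → W} (hf : MF M f) (hg : MF M g) :
    MF M (fun x => D.idx (f x) (g x)) :=
  mf_comp M (g := fun q : ℕ × W => D.idx q.1 q.2) (f := fun x => (f x, g x)) D.idx_mf (by fun_prop)

/-- PROOF. `fun_prop` after unfolding; the functions `D.U`, `D.B`, `D.p`, `D.R`, `D.idx` are in the model. -/
theorem mf_Ok : MF M (Ok D) := by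
  have h : MF M (fun p : Cnd W => (∃ a, a ∈ p.1) ∧ (∀ a, a ∈ p.1 → D.B a) ∧
      (∀ a, a ∈ p.1 → ∃ v, v ∈ p.2.1 ∧ D.p a ∈ D.U v) ∧
      (∀ a, a ∈ p.1 → ∀ v, v ∈ p.2.1 → ¬ InCl (D.p a) (D.U v) → ∀ k, k ∈ p.2.2.2 → ∀ m, InCl m (D.U v) →
        ¬ D.R k a m) ∧
      (∀ a, a ∈ p.1 → ∀ h, h ∈ p.2.2.1 → D.idx h.1 a ≤ h.2)) := by
    fun_prop
  exact h

theorem mf_Le : MF M (fun q : Cnd W × Cnd W => Le D q.1 q.2) := by
  unfold Le
  fun_prop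

/-- Shrinking the neighbourhoods (external; compare `refine_exists` in
`Pool/Agent/W_3b51b4_h27/GenDefs.lean`).

PROOF. For `a ∈ F` choose `w ∈ Vs` with `p a ∈ U w` and, by `U_base`, some `v` with `p a ∈ U v` and `closure (U v)`
contained in the open set `U w ∩ (Zᶜ or Z'ᶜ) ∩ ⋂ a' ∈ F, a' ≠ a, k ∈ K, (closure {m | R k a' m})ᶜ`, which contains
`p a` by `free`. Let `V'` be the set of all these `v`. -/
theorem g_refine (F : Finset W) (hF : ∀ a, a ∈ F → D.B a) (Vs : Finset ℕ)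
    (hcov : ∀ a, a ∈ F → ∃ v, v ∈ Vs ∧ D.p a ∈ D.U v) (K : Finset (ℕ × (ℕ × ℕ))) (Z Z' : Set Y)
    (hZ : IsClosed Z) (hZ' : IsClosed Z') (h : ∀ a, a ∈ F → D.p a ∉ Z ∨ D.p a ∉ Z') :
    ∃ V' : Finset ℕ, (∀ a, a ∈ F → ∃ v, v ∈ V' ∧ D.p a ∈ D.U v) ∧
      (∀ v, v ∈ V' → ∃ w, w ∈ Vs ∧ ∀ y, y ∈ D.U v → y ∈ D.U w) ∧
      (∀ v, v ∈ V' → (∀ y, InCl y (D.U v) → y ∉ Z) ∨ ∀ y, InCl y (D.U v) → y ∉ Z') ∧
      ∀ a, a ∈ F → ∀ v, v ∈ V' → ¬ InCl (D.p a) (D.U v) → ∀ k, k ∈ K → ∀ m, InCl m (D.U v) →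
        ¬ D.R k a m := by
  classical
  have key : ∀ a, a ∈ F → ∃ v, D.p a ∈ D.U v ∧ (∃ w, w ∈ Vs ∧ ∀ y, y ∈ D.U v → y ∈ D.U w) ∧
      ((∀ y, InCl y (D.U v) → y ∉ Z) ∨ ∀ y, InCl y (D.U v) → y ∉ Z') ∧
      ∀ b, b ∈ F → b ≠ a → ∀ k, k ∈ K → ∀ m, InCl m (D.U v) → ¬ D.R k b m := by
    intro a ha
    obtain ⟨w, hw, hpw⟩ := hcov a ha
    obtain ⟨Z0, hZ0, hp0, hZZ⟩ : ∃ Z0 : Set Y, IsClosed Z0 ∧ D.p a ∉ Z0 ∧ (Z0 = Z ∨ Z0 = Z') := by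
      rcases h a ha with h1 | h1
      · exact ⟨Z, hZ, h1, Or.inl rfl⟩
      · exact ⟨Z', hZ', h1, Or.inr rfl⟩
    let O : Set Y := ((D.U w).set ∩ Z0ᶜ) ∩
      ⋂ x ∈ (F.erase a) ×ˢ K, (closure {m | D.R x.2 x.1 m})ᶜ
    have hO : IsOpen O := by
      refine (IsOpen.inter (D.U_open w) hZ0.isOpen_compl).inter ?_
      exact isOpen_biInter_finset fun x _ => isClosed_closure.isOpen_compl
    have hpO : D.p a ∈ O := by
      refine ⟨⟨hpw, hp0⟩, ?_⟩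
      refine Set.mem_iInter₂.2 fun x hx => ?_
      obtain ⟨hx1, hx2⟩ := Finset.mem_product.1 hx
      obtain ⟨hx3, hx4⟩ := Finset.mem_erase.1 hx1
      exact D.free a x.1 (hF a ha) (hF _ hx4) (Ne.symm hx3) x.2
    obtain ⟨v, hv1, hv2⟩ := D.U_base (D.p a) O hO hpO
    refine ⟨v, hv1, ⟨w, hw, fun y hy => (hv2 (subset_closure hy)).1.1⟩, ?_, ?_⟩
    · rcases hZZ with h1 | h1
      · refine Or.inl fun y hy => ?_
        rw [← h1]
        exact (hv2 hy).1.2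
      · refine Or.inr fun y hy => ?_
        rw [← h1]
        exact (hv2 hy).1.2
    · intro b hb hba k hk m hm hR
      have h1 := Set.mem_iInter₂.1 (hv2 hm).2 (b, k)
        (Finset.mem_product.2 ⟨Finset.mem_erase.2 ⟨hba, hb⟩, hk⟩)
      exact h1 (subset_closure hR)
  choose! f hf1 hf2 hf3 hf4 using key
  refine ⟨F.image f, fun a ha => ⟨f a, Finset.mem_image_of_mem f ha, hf1 a ha⟩, ?_, ?_, ?_⟩
  · intro v hv
    obtain ⟨a, ha, rfl⟩ := Finset.mem_image.1 hv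
    exact hf2 a ha
  · intro v hv
    obtain ⟨a, ha, rfl⟩ := Finset.mem_image.1 hv
    exact hf3 a ha
  · intro a ha v hv hnc k hk m hm
    obtain ⟨b, hb, rfl⟩ := Finset.mem_image.1 hv
    by_cases hab : a = b
    · exfalso
      rw [hab] at hnc
      exact hnc (subset_closure (hf1 b hb))
    · exact hf4 b hb a ha hab k hk m hm

end

end HM
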