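import Pool.Agent.HM_h27.Choice

/-!
# HM: well-founded recursion, transfinite dependent choice
-/

namespace HM

open HESR

universe u v w v1 v2 v3

section
variable {M : Type u} [ZFM M]
variable {W : Type v} {α : Type w} {γ : Type v1} {δ : Type v2} [IT M W] [IT M α] [IT M γ] [IT M δ]

/-- `s` is the graph of `f` below `w` -/
def IsRestr (r : W → W → Prop) (f : W → α) (w : W) (s : PM M (W × α)) : Prop :=
  ∀ p, p ∈ s ↔ r p.1 w ∧ f p.1 = p.2

theorem Rec_app2 {F : γ → δ → α} (hF : MF M (fun p : γ × δ => F p.1 p.2)) {f : W → γ} {g : W → δ}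
    (hf : MF M f) (hg : MF M g) : MF M (fun x => F (f x) (g x)) :=
  mf_comp M (g := fun p : γ × δ => F p.1 p.2) (f := fun x => (f x, g x)) hF (mf_mk M hf hg)

/-- the part of `s` below `u` -/
noncomputable def Rec_res {r : W → W → Prop} (hr : MF M (fun p : W × W => r p.1 p.2)) (s : PM M (W × α))
    (u : W) : PM M (W × α) :=
  PM.of (fun p => p ∈ s ∧ r p.1 u) (mf_and (by fun_prop)
    (Rec_app2 hr (f := fun p : W × α => p.1) (g := fun _ => u) (by fun_prop) (by fun_prop)))

theorem Rec_mfres {r : W → W → Prop} (hr : MF M (fun p : W × W => r p.1 p.2)) :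
    MF M (fun q : PM M (W × α) × W => Rec_res (α := α) hr q.1 q.2) := by
  refine mf_PM_iff.2 ?_
  refine mf_and (P := fun x : (PM M (W × α) × W) × (W × α) => x.2 ∈ x.1.1) (by fun_prop) ?_
  exact Rec_app2 hr (f := fun x : (PM M (W × α) × W) × (W × α) => x.2.1) (g := fun x => x.1.2)
    (by fun_prop) (by fun_prop)

/-- `s` is an approximation up to `v` -/
def Rec_Appr {r : W → W → Prop} (hr : MF M (fun p : W × W => r p.1 p.2))
    (G : W → PM M (W × α) → α) (s : PM M (W × α)) (v : W) : Prop :=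
  ∀ u b, (r u v ∨ u = v) → ((u, b) ∈ s ↔ b = G u (Rec_res hr s u))

theorem Rec_mfAppr {r : W → W → Prop} (hr : MF M (fun p : W × W => r p.1 p.2))
    {G : W → PM M (W × α) → α} (hG : MF M (fun p : W × PM M (W × α) => G p.1 p.2)) :
    MF M (fun q : PM M (W × α) × W => Rec_Appr hr G q.1 q.2) := by
  unfold Rec_Appr
  refine mf_all (R := fun (q : PM M (W × α) × W) (u : W) => ∀ b, (r u q.2 ∨ u = q.2) →
    ((u, b) ∈ q.1 ↔ b = G u (Rec_res hr q.1 u))) ?_
  refine mf_all (R := fun (x : (PM M (W × α) × W) × W) (b : α) => (r x.2 x.1.2 ∨ x.2 = x.1.2) →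
    ((x.2, b) ∈ x.1.1 ↔ b = G x.2 (Rec_res hr x.1.1 x.2))) ?_
  refine mf_imp (P := fun y : ((PM M (W × α) × W) × W) × α => r y.1.2 y.1.1.2 ∨ y.1.2 = y.1.1.2)
    (Q := fun y => (y.1.2, y.2) ∈ y.1.1.1 ↔ y.2 = G y.1.2 (Rec_res hr y.1.1.1 y.1.2)) ?_ ?_
  · refine mf_or (Rec_app2 hr (f := fun y : ((PM M (W × α) × W) × W) × α => y.1.2)
      (g := fun y => y.1.1.2) (by fun_prop) (by fun_prop)) (by fun_prop)
  · refine mf_iff (P := fun y : ((PM M (W × α) × W) × W) × α => (y.1.2, y.2) ∈ y.1.1.1)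
      (Q := fun y => y.2 = G y.1.2 (Rec_res hr y.1.1.1 y.1.2)) (by fun_prop) ?_
    refine mf_eq (f := fun y : ((PM M (W × α) × W) × W) × α => y.2)
      (g := fun y => G y.1.2 (Rec_res hr y.1.1.1 y.1.2)) (by fun_prop) ?_
    refine Rec_app2 hG (f := fun y : ((PM M (W × α) × W) × W) × α => y.1.2)
      (g := fun y => Rec_res hr y.1.1.1 y.1.2) (by fun_prop) ?_
    exact mf_comp M (g := fun q : PM M (W × α) × W => Rec_res (α := α) hr q.1 q.2)
      (f := fun y : ((PM M (W × α) × W) × W) × α => (y.1.1.1, y.1.2)) (Rec_mfres hr) (by fun_prop)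

theorem Rec_restr {r : W → W → Prop} (hr : MF M (fun p : W × W => r p.1 p.2))
    {f : W → α} {s : PM M (W × α)} {u : W}
    (h : ∀ v b, r v u → ((v, b) ∈ s ↔ b = f v)) : IsRestr r f u (Rec_res hr s u) := by
  rintro ⟨v, b⟩
  constructor
  · rintro ⟨h1, h2⟩
    exact ⟨h2, ((h v b h2).1 h1).symm⟩
  · rintro ⟨h1, h2⟩
    exact ⟨(h v b h1).2 h2.symm, h1⟩

/-- Recursion along a well-founded transitive relation of the model.

PROOF. `f w := if h : MF M (fun p : W × α => r p.1 w ∧ f p.1 = p.2) then G w (PM.of _ h) else default`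
(`WellFounded.fix`). Put `res s u := PM.of (fun p => p ∈ s ∧ r p.1 u)` and
`Appr s v := ∀ u b, (r u v ∨ u = v) → ((u, b) ∈ s ↔ b = G u (res s u))`, a predicate of the model.
(A) `Appr s v` implies `(u, b) ∈ s ↔ b = f u` for `u ≤ v` (induction on `u`); (B) if the graph of
`f` on `{u ≤ v}` is in the model, it satisfies `Appr`; (C) by induction on `w` the graph on
`{v ≤ w}` is in the model: below `w` it is `{(v, a) | r v w ∧ ∃ s, Appr s v ∧ (v, a) ∈ s}`. -/
theorem exists_wfrec [Nonempty α] {r : W → W → Prop} (hr : MF M (fun p : W × W => r p.1 p.2))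
    (hwf : WellFounded r) (htr : ∀ a b c, r a b → r b c → r a c) {G : W → PM M (W × α) → α}
    (hG : MF M (fun p : W × PM M (W × α) => G p.1 p.2)) :
    ∃ f : W → α, MF M f ∧ ∀ w s, IsRestr r f w s → f w = G w s := by
  classical
  let F : (w : W) → ((v : W) → r v w → α) → α := fun w ih =>
    if h : MF M (fun p : W × α => ∃ hp : r p.1 w, ih p.1 hp = p.2) then G w (PM.of _ h)
    else Classical.arbitrary α
  let f : W → α := hwf.fix F
  have hf : ∀ w, f w = F w (fun v _ => f v) := fun w => hwf.fix_eq F w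
  have hrec : ∀ w s, IsRestr r f w s → f w = G w s := by
    intro w s hs
    have h1 : (fun p : W × α => ∃ _ : r p.1 w, f p.1 = p.2) = fun p => p ∈ s := by
      funext p
      refine propext ?_
      rw [hs p]
      exact ⟨fun ⟨h, h'⟩ => ⟨h, h'⟩, fun ⟨h, h'⟩ => ⟨h, h'⟩⟩
    have h2 : MF M (fun p : W × α => ∃ _ : r p.1 w, f p.1 = p.2) := by
      rw [h1]
      exact s.mf'
    rw [hf w]
    show (if h : MF M (fun p : W × α => ∃ _ : r p.1 w, f p.1 = p.2) then G w (PM.of _ h)
      else Classical.arbitrary α) = G w s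
    rw [dif_pos h2]
    congr 1
    refine PM.ext fun p => ?_
    rw [PM.mem_of]
    exact iff_of_eq (congrFun h1 p)
  have hA : ∀ s v, Rec_Appr hr G s v → ∀ u, (r u v ∨ u = v) → ∀ b, ((u, b) ∈ s ↔ b = f u) := by
    intro s v hs u
    induction u using hwf.induction with
    | _ u ih =>
      intro hu b
      rw [hs u b hu, hrec u (Rec_res hr s u)]
      refine Rec_restr hr fun v' b' hv' => ih v' hv' ?_ b'
      left
      rcases hu with hu | hu
      · exact htr _ _ _ hv' hu
      · rw [← hu]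
        exact hv'
  have hB : ∀ s v, (∀ u, (r u v ∨ u = v) → ∀ b, ((u, b) ∈ s ↔ b = f u)) → Rec_Appr hr G s v := by
    intro s v hs u b hu
    rw [hs u hu b, hrec u (Rec_res hr s u)]
    refine Rec_restr hr fun v' b' hv' => hs v' ?_ b'
    left
    rcases hu with hu | hu
    · exact htr _ _ _ hv' hu
    · rw [← hu]
      exact hv'
  have hC : ∀ w, MF M (fun p : W × α => (r p.1 w ∨ p.1 = w) ∧ f p.1 = p.2) := by
    intro w
    induction w using hwf.induction with
    | _ w ih =>
      have h1 : MF M (fun p : W × α => r p.1 w ∧ ∃ s : PM M (W × α), Rec_Appr hr G s p.1 ∧ p ∈ s) := by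
        refine mf_and (Rec_app2 hr (f := fun p : W × α => p.1) (g := fun _ => w) (by fun_prop)
          (by fun_prop)) ?_
        refine mf_ex (R := fun (p : W × α) (s : PM M (W × α)) => Rec_Appr hr G s p.1 ∧ p ∈ s) ?_
        refine mf_and (P := fun q : (W × α) × PM M (W × α) => Rec_Appr hr G q.2 q.1.1) ?_
          (by fun_prop)
        exact mf_comp M (g := fun q : PM M (W × α) × W => Rec_Appr hr G q.1 q.2)
          (f := fun q : (W × α) × PM M (W × α) => (q.2, q.1.1)) (Rec_mfAppr hr hG) (by fun_prop)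
      have h2 : MF M (fun p : W × α => p.1 = w ∧ p.2 = f w) := by fun_prop
      refine mf_congr (mf_or h1 h2) ?_
      rintro ⟨v, b⟩
      refine propext ?_
      constructor
      · rintro ⟨h3 | h3, h4⟩
        · left
          refine ⟨h3, PM.of _ (ih v h3), hB _ _ ?_, ⟨Or.inr rfl, h4⟩⟩
          intro u hu b'
          exact ⟨fun h5 => h5.2.symm, fun h5 => ⟨hu, h5.symm⟩⟩
        · right
          have h3' : v = w := h3
          have h4' : f v = b := h4
          exact ⟨h3, by rw [← h3', h4']⟩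
      · rintro (⟨h3, s, h4, h5⟩ | ⟨h3, h4⟩)
        · exact ⟨Or.inl h3, ((hA s v h4 v (Or.inr rfl) b).1 h5).symm⟩
        · have h3' : v = w := h3
          have h4' : b = f w := h4
          refine ⟨Or.inr h3, ?_⟩
          show f v = b
          rw [h3', h4']
  refine ⟨f, ?_, hrec⟩
  refine mf_of_graph (R := fun w b => ∃ s : PM M (W × α), Rec_Appr hr G s w ∧ (w, b) ∈ s) ?_ ?_
  · refine mf_ex (R := fun (p : W × α) (s : PM M (W × α)) => Rec_Appr hr G s p.1 ∧
      (p.1, p.2) ∈ s) ?_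
    refine mf_and (P := fun q : (W × α) × PM M (W × α) => Rec_Appr hr G q.2 q.1.1) ?_
      (by fun_prop)
    exact mf_comp M (g := fun q : PM M (W × α) × W => Rec_Appr hr G q.1 q.2)
      (f := fun q : (W × α) × PM M (W × α) => (q.2, q.1.1)) (Rec_mfAppr hr hG) (by fun_prop)
  · intro w b
    constructor
    · rintro ⟨s, h1, h2⟩
      exact ((hA s w h1 w (Or.inr rfl) b).1 h2).symm
    · intro h1
      refine ⟨PM.of _ (hC w), hB _ _ ?_, ⟨Or.inr rfl, h1⟩⟩
      intro u hu b'
      exact ⟨fun h5 => h5.2.symm, fun h5 => ⟨hu, h5.symm⟩⟩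

/-- Transfinite dependent choice.

PROOF. `exists_wfrec` applied to a choice function `G` for the relation
`(∃ b, Φ w s b) → Φ w s a` (`exists_choose` for pairs `(w, s)`), then well-founded induction. -/
theorem exists_tdc [Nonempty α] {r : W → W → Prop} (hr : MF M (fun p : W × W => r p.1 p.2))
    (hwf : WellFounded r) (htr : ∀ a b c, r a b → r b c → r a c)
    {Φ : W → PM M (W × α) → α → Prop}
    (hΦ : MF M (fun p : (W × PM M (W × α)) × α => Φ p.1.1 p.1.2 p.2))
    (h : ∀ (w : W) (s : PM M (W × α)) (g : W → α), MF M (fun p : W × α => r p.1 w ∧ g p.1 = p.2) →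
      IsRestr r g w s →
      (∀ v t, r v w → IsRestr r g v t → Φ v t (g v)) → ∃ a, Φ w s a) :
    ∃ f : W → α, MF M f ∧ ∀ w s, IsRestr r f w s → Φ w s (f w) := by
  obtain ⟨G, hG, hGs⟩ := exists_choose (M := M) (α := W × PM M (W × α)) (β := α)
    (R := fun q a => (∃ b, Φ q.1 q.2 b) → Φ q.1 q.2 a) (by
      refine mf_imp (P := fun y : (W × PM M (W × α)) × α => ∃ b, Φ y.1.1 y.1.2 b)
        (Q := fun y => Φ y.1.1 y.1.2 y.2) ?_ hΦ
      refine mf_ex (R := fun (y : (W × PM M (W × α)) × α) (b : α) => Φ y.1.1 y.1.2 b) ?_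
      exact mf_comp M (g := fun p : (W × PM M (W × α)) × α => Φ p.1.1 p.1.2 p.2)
        (f := fun z : ((W × PM M (W × α)) × α) × α => (z.1.1, z.2)) hΦ (by fun_prop)) (fun q => by
      by_cases hq : ∃ b, Φ q.1 q.2 b
      · obtain ⟨b, hb⟩ := hq
        exact ⟨b, fun _ => hb⟩
      · exact ⟨Classical.arbitrary α, fun h => (hq h).elim⟩)
  obtain ⟨f, hf, hfr⟩ := exists_wfrec (α := α) hr hwf htr (G := fun w s => G (w, s)) hG
  refine ⟨f, hf, fun w => ?_⟩
  induction w using hwf.induction with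
  | _ w ih =>
    intro s hs
    rw [hfr w s hs]
    refine hGs (w, s) (h w s f ?_ hs fun v t hv ht => ih v hv t ht)
    refine mf_congr s.mf' fun p => ?_
    exact propext (hs p).symm

end

end HM
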