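import Pool.Agent.HM_h27.CtB
import Pool.Agent.HM_h27.Rec

/-!
# HM: well-orders of type `ω₁` and `ω₂`
-/

namespace HM

open HESR

universe u v w v1 v2 v3 v4

/-- A linear order on a coded type which is a well-order and whose strict order is in the model. -/
class WO (M : Type u) [ZFM M] (W : Type v3) [IT M W] [LinearOrder W] : Prop where
  wf : WellFoundedLT W
  mf : MF M (fun p : W × W => p.1 < p.2)

section
variable {M : Type u} [ZFM M]
variable {α : Type v} {β : Type w} {γ : Type v1} {δ : Type v2} [IT M α] [IT M β] [IT M γ] [IT M δ]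
variable {W : Type v3} [IT M W] [LinearOrder W] [WO M W]

@[fun_prop]
theorem mf_wo_lt {f g : γ → W} (hf : MF M f) (hg : MF M g) : MF M (fun x => f x < g x) :=
  mf_comp M (WO.mf (M := M) (W := W)) (mf_mk M hf hg)

@[fun_prop]
theorem mf_wo_le {f g : γ → W} (hf : MF M f) (hg : MF M g) : MF M (fun x => f x ≤ g x) := by
  have h : MF M (fun x => ¬ g x < f x) := by fun_prop
  exact mf_congr h fun x => by simp

/-- `W` is a well-order of type `ω₁` of the model -/
structure IsOm1T (M : Type u) [ZFM M] (W : Type v3) [IT M W] [LinearOrder W] [WO M W] : Prop where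
  seg : ∀ i : W, MCt M (fun j : W => j < i)
  unc : ¬ MCt M (fun _ : W => True)

/-- `V` is a well-order of type `ω₂` of the model, `W` being one of type `ω₁` -/
structure IsOm2T (M : Type u) [ZFM M] (W : Type v3) [IT M W] (V : Type v4) [IT M V] [LinearOrder V]
    [WO M V] : Prop where
  seg : ∀ i : V, MCov M W (fun j : V => j < i)
  unc : ¬ MCov M W (fun _ : V => True)

/-- the union of two countable sets -/
theorem Om_mct_or {P Q : α → Prop} (hP : MF M P) (hQ : MF M Q) (h1 : MCt M P) (h2 : MCt M Q) :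
    MCt M (fun a => P a ∨ Q a) := by
  have hP' : MF M (fun p : ℕ × α => P p.2) := mf_comp M hP (mf_snd M)
  have hQ' : MF M (fun p : ℕ × α => Q p.2) := mf_comp M hQ (mf_snd M)
  have h := MCt.iUnion (M := M) (Q := fun _ : ℕ => True)
    (P := fun (n : ℕ) (a : α) => (n = 0 ∧ P a) ∨ (n ≠ 0 ∧ Q a)) (mf_const M True)
    (by fun_prop) mct_nat (fun n _ => ?_)
  · refine MCov.mono h fun a ha => ?_
    rcases ha with ha | ha
    · exact ⟨0, trivial, Or.inl ⟨rfl, ha⟩⟩
    · exact ⟨1, trivial, Or.inr ⟨Nat.one_ne_zero, ha⟩⟩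
  · by_cases hn : n = 0
    · refine MCov.mono h1 fun a ha => ?_
      rcases ha with ha | ha
      · exact ha.2
      · exact absurd hn ha.1
    · refine MCov.mono h2 fun a ha => ?_
      rcases ha with ha | ha
      · exact absurd ha.1 hn
      · exact ha.2

theorem Om_mct_le (h : IsOm1T M W) (i : W) : MCt M (fun j : W => j ≤ i) := by
  have h1 : MCt M (fun j : W => j < i ∨ j = i) := by
    refine Om_mct_or (by fun_prop) (by fun_prop) (h.seg i) (mct_finite ?_)
    exact Set.finite_singleton i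
  exact MCov.mono h1 fun j hj => lt_or_eq_of_le hj

/-- the range of a function on an initial segment -/
theorem Om_mct_range (h : IsOm1T M W) {f : W → α} {w : W} {s : PM M (W × α)}
    (hs : IsRestr (fun a b : W => a < b) f w s) : MCt M (fun b : α => ∃ j, (j, b) ∈ s) := by
  obtain ⟨g, hg1, hg2⟩ := h.seg w
  refine ⟨PM.of (fun p : ℕ × α => ∃ j : W, (p.1, j) ∈ g ∧ (j, p.2) ∈ s) (by fun_prop), ?_, ?_⟩
  · rintro n a b ⟨j, hj, hja⟩ ⟨k, hk, hkb⟩
    have hjk : j = k := hg1 n j k hj hk
    subst hjk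
    exact ((hs _).1 hja).2.symm.trans ((hs _).1 hkb).2
  · rintro b ⟨j, hj⟩
    obtain ⟨n, hn⟩ := hg2 j ((hs _).1 hj).1
    exact ⟨n, j, hn, hj⟩

/-- a countable set of countable ordinals is bounded -/
theorem IsOm1T.bdd (h : IsOm1T M W) {P : W → Prop} (hP : MF M P) (hc : MCt M P) :
    ∃ b : W, ∀ i, P i → i < b := by
  by_contra hb
  push Not at hb
  have h1 : MCt M (fun a : W => ∃ i, P i ∧ a ≤ i) :=
    MCt.iUnion hP (P := fun i a => a ≤ i) (by fun_prop) hc fun i _ => Om_mct_le h i
  exact h.unc (MCov.mono h1 fun a _ => hb a)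

theorem IsOm1T.noMax (h : IsOm1T M W) (i : W) : ∃ j : W, i < j := by
  by_contra hb
  push Not at hb
  exact h.unc (MCov.mono (Om_mct_le h i) fun a _ => hb a)

/-- an unbounded set is uncountable -/
theorem IsOm1T.not_mct (h : IsOm1T M W) {P : W → Prop} (hP : MF M P)
    (hu : ∀ b : W, ∃ i, P i ∧ b < i) : ¬ MCt M P := by
  intro hc
  obtain ⟨b, hb⟩ := h.bdd hP hc
  obtain ⟨i, hi, hbi⟩ := hu b
  exact lt_asymm hbi (hb i hi)

/-- an uncountable set of countable ordinals has an increasing enumeration of type `ω₁`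

PROOF. `exists_tdc` along `W`: `Φ i s a := P a ∧ ∀ j b, (j, b) ∈ s → b < a` (`s` covers a countable set, use
`bdd`). -/
theorem IsOm1T.exists_enum (h : IsOm1T M W) {P : W → Prop} (hP : MF M P) (hc : ¬ MCt M P) :
    ∃ e : W → W, MF M e ∧ (∀ i j, i < j → e i < e j) ∧ ∀ i, P (e i) := by
  have hne : Nonempty W := by
    by_contra hn
    exact h.unc (MCov.empty fun a _ => hn ⟨a⟩)
  have hP' : MF M (fun p : (W × PM M (W × W)) × W => P p.2) := mf_comp M hP (mf_snd M)
  have hstep : ∀ (w : W) (s : PM M (W × W)) (g : W → W),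
      IsRestr (fun a b : W => a < b) g w s → ∃ a, P a ∧ ∀ j b, (j, b) ∈ s → b < a := by
    intro w s g hs
    have h1 : MCt M (fun b : W => ∃ j, (j, b) ∈ s) := Om_mct_range h hs
    obtain ⟨b, hb⟩ := h.bdd (P := fun b : W => ∃ j, (j, b) ∈ s) (by fun_prop) h1
    by_contra hcon
    push Not at hcon
    refine hc (MCov.mono (h.seg b) fun a ha => ?_)
    obtain ⟨j, c, hjc, hac⟩ := hcon a ha
    exact lt_of_le_of_lt hac (hb c ⟨j, hjc⟩)
  obtain ⟨f, hf, hfΦ⟩ := exists_tdc (M := M) (W := W) (α := W) (r := fun a b : W => a < b)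
    WO.mf (WO.wf (M := M) (W := W)).wf (fun a b c => lt_trans)
    (Φ := fun (i : W) (s : PM M (W × W)) (a : W) => P a ∧ ∀ j b, (j, b) ∈ s → b < a)
    (by fun_prop) (fun w s g _ hs _ => hstep w s g hs)
  · refine ⟨f, hf, fun i j hij => ?_, fun i => ?_⟩
    · obtain ⟨_, h2⟩ := hfΦ j (PM.of (fun p : W × W => p.1 < j ∧ f p.1 = p.2) (by fun_prop))
        (fun p => Iff.rfl)
      exact h2 i (f i) ⟨hij, rfl⟩
    · exact (hfΦ i (PM.of (fun p : W × W => p.1 < i ∧ f p.1 = p.2) (by fun_prop))
        (fun p => Iff.rfl)).1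

/-- an uncountable set of any coded type contains the range of an injection of `W`

PROOF. `exists_tdc` along `W`: `Φ i s a := P a ∧ ∀ j b, (j, b) ∈ s → b ≠ a`. -/
theorem IsOm1T.exists_inj (h : IsOm1T M W) {P : α → Prop} (hP : MF M P) (hc : ¬ MCt M P) :
    ∃ e : W → α, MF M e ∧ Function.Injective e ∧ ∀ i, P (e i) := by
  have hne : Nonempty α := by
    by_contra hn
    exact hc (MCov.empty fun a _ => hn ⟨a⟩)
  have hP' : MF M (fun p : (W × PM M (W × α)) × α => P p.2) := mf_comp M hP (mf_snd M)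
  have hstep : ∀ (w : W) (s : PM M (W × α)) (g : W → α),
      IsRestr (fun a b : W => a < b) g w s → ∃ a, P a ∧ ∀ j b, (j, b) ∈ s → b ≠ a := by
    intro w s g hs
    have h1 : MCt M (fun b : α => ∃ j, (j, b) ∈ s) := Om_mct_range h hs
    by_contra hcon
    push Not at hcon
    refine hc (MCov.mono h1 fun a ha => ?_)
    obtain ⟨j, c, hjc, hac⟩ := hcon a ha
    exact ⟨j, hac ▸ hjc⟩
  obtain ⟨f, hf, hfΦ⟩ := exists_tdc (M := M) (W := W) (α := α) (r := fun a b : W => a < b)
    WO.mf (WO.wf (M := M) (W := W)).wf (fun a b c => lt_trans)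
    (Φ := fun (i : W) (s : PM M (W × α)) (a : α) => P a ∧ ∀ j b, (j, b) ∈ s → b ≠ a)
    (by fun_prop) (fun w s g _ hs _ => hstep w s g hs)
  · have key : ∀ i j : W, i < j → f i ≠ f j := fun i j hij =>
      (hfΦ j (PM.of (fun p : W × α => p.1 < j ∧ f p.1 = p.2) (by fun_prop))
        (fun p => Iff.rfl)).2 i (f i) ⟨hij, rfl⟩
    refine ⟨f, hf, fun i j hij => ?_, fun i => ?_⟩
    · rcases lt_trichotomy i j with h1 | h1 | h1
      · exact absurd hij (key i j h1)
      · exact h1
      · exact absurd hij.symm (key j i h1)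
    · exact (hfΦ i (PM.of (fun p : W × α => p.1 < i ∧ f p.1 = p.2) (by fun_prop))
        (fun p => Iff.rfl)).1

/-- a well-order of the model as an instance -/
theorem Om_inst {X : Type v3} [IT M X] {r : X → X → Prop}
    (hr : MF M (fun p : X × X => r p.1 p.2)) (hwf : WellFounded r)
    (htr : ∀ a b c, r a b → r b c → r a c) (htot : ∀ a b, r a b ∨ a = b ∨ r b a) :
    ∃ (_ : LinearOrder X) (_ : WO M X), ∀ a b : X, a < b ↔ r a b := by
  classical
  have hirr : ∀ a, ¬ r a a := fun a => hwf.irrefl.irrefl a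
  have hsto : IsStrictTotalOrder X r :=
    { trichotomous := fun a b h1 h2 => by
        rcases htot a b with h | h | h
        · exact absurd h h1
        · exact h
        · exact absurd h h2
      irrefl := hirr
      trans := htr }
  refine ⟨linearOrderOfSTO r, ?_, fun a b => Iff.rfl⟩
  let _ := linearOrderOfSTO r
  exact { wf := ⟨hwf⟩, mf := hr }

/-- Hartogs: for every coded type `A` there is a well-ordered coded type which is not covered by `A` and all
whose initial segments are.

PROOF. `exists_wo` for `PM M A`, which is not covered by `A` (Cantor, in the model). If some initial segment is not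
covered take the least such segment `{x | r x z}` as a subtype (`instSub`), otherwise the whole type. -/
theorem exists_hartogs (M : Type u) [ZFM M] (A : Type v) [IT M A] : ∃ (W : Type v) (_ : IT M W)
    (_ : LinearOrder W) (_ : WO M W), (∀ i : W, MCov M A (fun j : W => j < i)) ∧
      ¬ MCov M A (fun _ : W => True) := by
  obtain ⟨r, hr, hwf, htr, htot⟩ := exists_wo M (PM M A)
  have hcantor : ¬ MCov M A (fun _ : PM M A => True) := by
    rintro ⟨g, hg1, hg2⟩
    obtain ⟨i, hi⟩ := hg2 (PM.of (fun a : A => ∃ s : PM M A, (a, s) ∈ g ∧ ¬ a ∈ s) (by fun_prop))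
      trivial
    by_cases hD : ∃ s : PM M A, (i, s) ∈ g ∧ ¬ i ∈ s
    · obtain ⟨s, hs, his⟩ := id hD
      have := hg1 i _ _ hi hs
      rw [← this] at his
      exact his hD
    · exact hD ⟨_, hi, hD⟩
  by_cases hseg : ∀ z : PM M A, MCov M A (fun x : PM M A => r x z)
  · obtain ⟨i1, i2, hlt⟩ := Om_inst hr hwf htr htot
    refine ⟨PM M A, inferInstance, i1, i2, fun i => ?_, hcantor⟩
    exact MCov.mono (hseg i) fun j hj => (hlt j i).1 hj
  · push Not at hseg
    obtain ⟨z, hz, hzmin⟩ := exists_min hwf (P := fun z : PM M A => ¬ MCov M A (fun x => r x z)) hseg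
    have hrz : MF M (fun x : PM M A => r x z) :=
      mf_comp M (g := fun p : PM M A × PM M A => r p.1 p.2) (f := fun x => (x, z)) hr (by fun_prop)
    let S : PM M (PM M A) := PM.of (fun x => r x z) hrz
    let r' : {a // a ∈ S} → {a // a ∈ S} → Prop := fun a b => r a.1 b.1
    have hr' : MF M (fun p : {a // a ∈ S} × {a // a ∈ S} => r' p.1 p.2) :=
      mf_comp M (g := fun p : PM M A × PM M A => r p.1 p.2)
        (f := fun p : {a // a ∈ S} × {a // a ∈ S} => (p.1.1, p.2.1)) hr
        (mf_mk M (mf_subval S (mf_fst M)) (mf_subval S (mf_snd M)))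
    obtain ⟨i1, i2, hlt⟩ := Om_inst hr' (InvImage.wf Subtype.val hwf)
      (fun a b c => htr a.1 b.1 c.1) (fun a b => by
        rcases htot a.1 b.1 with h | h | h
        · exact Or.inl h
        · exact Or.inr (Or.inl (Subtype.ext h))
        · exact Or.inr (Or.inr h))
    refine ⟨{a // a ∈ S}, inferInstance, i1, i2, fun i => ?_, fun hcov => hz ?_⟩
    · have hi : MCov M A (fun x : PM M A => r x i.1) := by
        by_contra hn
        exact hzmin i.1 i.2 hn
      obtain ⟨g, hg1, hg2⟩ := hi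
      refine ⟨PM.of (fun p : A × {a // a ∈ S} => (p.1, p.2.1) ∈ g) ?_, ?_, ?_⟩
      · exact mf_mem (mf_mk M (mf_fst M) (mf_subval S (mf_snd M))) (mf_const M g)
      · intro a x y hx hy
        exact Subtype.ext (hg1 a x.1 y.1 hx hy)
      · intro x hx
        exact hg2 x.1 ((hlt x i).1 hx)
    · refine MCov.image hcov (f := fun x : {a // a ∈ S} => x.1) (mf_subval S (mf_id M))
        fun b hb => ⟨⟨b, hb⟩, trivial, rfl⟩

end

end HM
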