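import Pool.Agent.HM_h27.GenA
import Pool.Agent.HM_h27.Om

/-!
# HM: the forcing with neighbourhoods, chain condition and density lemmas
-/

namespace HM

open HESR Topology

universe u v w v1 v2 v3 v4

set_option linter.unusedVariables false
set_option linter.unusedSectionVars false

section
variable {M : Type u} [ZFM M] {W : Type v3} [IT M W]
variable {Y : Type v} [IT M Y] [TopologicalSpace Y] [MTop M Y]
variable (D : GDat M W Y)

/-- the refinement step with larger sets of indices, bounds and relations -/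
theorem GenB_step (p : Cnd W) (F : Finset W) (hF : ∀ a, a ∈ F → D.B a) (hne : ∃ a, a ∈ F)
    (hsub : p.1 ⊆ F) (hcov : ∀ a, a ∈ F → ∃ v, v ∈ p.2.1 ∧ D.p a ∈ D.U v) (H : Finset (ℕ × ℕ))
    (hH : p.2.2.1 ⊆ H) (hb : ∀ a, a ∈ F → ∀ h, h ∈ H → D.idx h.1 a ≤ h.2)
    (K : Finset (ℕ × (ℕ × ℕ))) (hK : p.2.2.2 ⊆ K) (Z Z' : Set Y) (hZ : IsClosed Z)
    (hZ' : IsClosed Z') (h : ∀ a, a ∈ F → D.p a ∉ Z ∨ D.p a ∉ Z') :
    ∃ V' : Finset ℕ, Ok D (F, (V', (H, K))) ∧ Le D (F, (V', (H, K))) p ∧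
      ∀ v, v ∈ V' → (∀ y, InCl y (D.U v) → y ∉ Z) ∨ ∀ y, InCl y (D.U v) → y ∉ Z' := by
  obtain ⟨V', h1, h2, h3, h4⟩ := g_refine D F hF p.2.1 hcov K Z Z' hZ hZ' h
  exact ⟨V', ⟨hne, hF, h1, h4, hb⟩, ⟨hsub, h2, hH, hK⟩, h3⟩

/-- Conditions with the same neighbourhoods, bounds and relations are compatible.

PROOF. `g_refine` for `F := p.1 ∪ q.1`, `Vs := p.2.1`, `K := p.2.2.2`, `Z := Z' := ∅`. -/
theorem g_compat (p q : Cnd W) (hp : Ok D p) (hq : Ok D q) (h : p.2 = q.2) :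
    ∃ r, Ok D r ∧ Le D r p ∧ Le D r q := by
  classical
  obtain ⟨p1, c⟩ := p
  obtain ⟨q1, c'⟩ := q
  have h' : c = c' := h
  subst h'
  obtain ⟨hp1, hp2, hp3, hp4, hp5⟩ := hp
  obtain ⟨hq1, hq2, hq3, hq4, hq5⟩ := hq
  have hcase : ∀ {P : W → Prop}, (∀ a, a ∈ p1 → P a) → (∀ a, a ∈ q1 → P a) →
      ∀ a, a ∈ p1 ∪ q1 → P a := by
    intro P h1 h2 a ha
    rcases Finset.mem_union.1 ha with h3 | h3
    · exact h1 a h3
    · exact h2 a h3
  obtain ⟨V', h1, h2, _⟩ := GenB_step D (p1, c) (p1 ∪ q1) (hcase hp2 hq2)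
    (by obtain ⟨a, ha⟩ := hp1; exact ⟨a, Finset.mem_union_left _ ha⟩) Finset.subset_union_left
    (hcase hp3 hq3) c.2.1 (Finset.Subset.refl _) (hcase hp5 hq5) c.2.2 (Finset.Subset.refl _)
    ∅ ∅ isClosed_empty isClosed_empty (fun a _ => Or.inl (Set.notMem_empty _))
  exact ⟨_, h1, h2, Finset.subset_union_right, h2.2.1, h2.2.2.1, h2.2.2.2⟩

/-- The countable chain condition.

PROOF. The function `p ↦ p.2` to a countable type (`mct_finset`, `mct_prod`) is injective on `A` by `g_compat`; the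
inverse relation covers `A`. -/
theorem g_ccc {A : Cnd W → Prop} (hA : MF M A) (hOk : ∀ p, A p → Ok D p)
    (hanti : ∀ p q, A p → A q → p ≠ q → ¬ ∃ r, Ok D r ∧ Le D r p ∧ Le D r q) : MCt M A := by
  have hC1 : MCt M (fun F : Finset ℕ => ∀ a ∈ F, True) :=
    mct_finset (P := fun _ : ℕ => True) (mf_const M True) mct_nat
  have hN2 : MCt M (fun _ : ℕ × ℕ => True) := mct_prod_nat
  have hC2 : MCt M (fun F : Finset (ℕ × ℕ) => ∀ a ∈ F, True) :=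
    mct_finset (P := fun _ : ℕ × ℕ => True) (mf_const M True) hN2
  have hN3 : MCt M (fun _ : ℕ × (ℕ × ℕ) => True) :=
    MCov.mono (mct_prod (P := fun _ : ℕ => True) (Q := fun _ : ℕ × ℕ => True) mct_nat hN2)
      fun _ _ => ⟨trivial, trivial⟩
  have hC3 : MCt M (fun F : Finset (ℕ × (ℕ × ℕ)) => ∀ a ∈ F, True) :=
    mct_finset (P := fun _ : ℕ × (ℕ × ℕ) => True) (mf_const M True) hN3
  obtain ⟨k, hk, hkc⟩ := mct_prod hC1 (mct_prod hC2 hC3)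
  refine ⟨PM.of (fun q : ℕ × Cnd W => A q.2 ∧ (q.1, q.2.2) ∈ k) (by fun_prop), ?_, ?_⟩
  · intro i p q h1 h2
    obtain ⟨h3, h4⟩ := PM.mem_of.1 h1
    obtain ⟨h5, h6⟩ := PM.mem_of.1 h2
    have h7 : p.2 = q.2 := hk i _ _ h4 h6
    by_contra hne
    exact hanti p q h3 h5 hne (g_compat D p q (hOk p h3) (hOk q h5) h7)
  · intro p hp
    obtain ⟨i, hi⟩ := hkc p.2 ⟨fun _ _ => trivial, fun _ _ => trivial, fun _ _ => trivial⟩
    exact ⟨i, PM.mem_of.2 ⟨hp, hi⟩⟩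

/-- Density: a bound for `idx k`. PROOF. Add `(k, p.1.sup (idx k))` to the bounds. -/
theorem g_dense_bd (p : Cnd W) (hp : Ok D p) (k : ℕ) :
    ∃ q, Ok D q ∧ Le D q p ∧ ∃ N, (k, N) ∈ q.2.2.1 := by
  classical
  obtain ⟨h1, h2, h3, h4, h5⟩ := hp
  refine ⟨(p.1, (p.2.1, (insert (k, p.1.sup (D.idx k)) p.2.2.1, p.2.2.2))),
    ⟨h1, h2, h3, h4, ?_⟩, ⟨Finset.Subset.refl _, fun v hv => ⟨v, hv, fun y hy => hy⟩,
      Finset.subset_insert _ _, Finset.Subset.refl _⟩, p.1.sup (D.idx k),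
    Finset.mem_insert_self _ _⟩
  intro a ha h hh
  rcases Finset.mem_insert.1 hh with h6 | h6
  · rw [h6]
    exact Finset.le_sup (f := D.idx k) ha
  · exact h5 a ha h h6

/-- Density: a relation to be avoided. PROOF. `g_refine` for `K := insert k p.2.2.2`, `Z := Z' := ∅`. -/
theorem g_dense_rel (p : Cnd W) (hp : Ok D p) (k : ℕ × (ℕ × ℕ)) :
    ∃ q, Ok D q ∧ Le D q p ∧ k ∈ q.2.2.2 := by
  classical
  obtain ⟨V', h1, h2, _⟩ := GenB_step D p p.1 hp.2.1 hp.1 (Finset.Subset.refl _) hp.2.2.1 p.2.2.1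
    (Finset.Subset.refl _) hp.2.2.2.2 (insert k p.2.2.2) (Finset.subset_insert _ _)
    ∅ ∅ isClosed_empty isClosed_empty (fun a _ => Or.inl (Set.notMem_empty _))
  exact ⟨_, h1, h2, Finset.mem_insert_self _ _⟩

/-- Density: closed sets. PROOF. `g_refine` for `K := p.2.2.2`. -/
theorem g_dense_closed (p : Cnd W) (hp : Ok D p) (Z Z' : Set Y) (hZ : IsClosed Z)
    (hZ' : IsClosed Z') (h : ∀ a, D.B a → D.p a ∉ Z ∨ D.p a ∉ Z') :
    ∃ q, Ok D q ∧ Le D q p ∧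
      ∀ v, v ∈ q.2.1 → (∀ y, InCl y (D.U v) → y ∉ Z) ∨ ∀ y, InCl y (D.U v) → y ∉ Z' := by
  obtain ⟨V', h1, h2, h3⟩ := GenB_step D p p.1 hp.2.1 hp.1 (Finset.Subset.refl _) hp.2.2.1 p.2.2.1
    (Finset.Subset.refl _) hp.2.2.2.2 p.2.2.2 (Finset.Subset.refl _)
    Z Z' hZ hZ' (fun a ha => h a (hp.2.1 a ha))
  exact ⟨_, h1, h2, h3⟩

/-- Density: large indices.

PROOF. Let `a ∈ p.1`, `v ∈ p.2.1` with `p a ∈ U v`. By `thick` the set of all `b` with `B b`, `p b ∈ U v` and the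
bounds `p.2.2.1` is not countable, hence contains some `b` with `ξ < b` (`hW.seg` for initial segments, one more
element). Use `g_refine` for `insert b p.1`, `Vs := p.2.1`, `K := p.2.2.2`, `Z := Z' := ∅`. -/
theorem g_dense_beyond [LinearOrder W] [WO M W] (hW : IsOm1T M W) (p : Cnd W) (hp : Ok D p)
    (ξ : W) : ∃ q, Ok D q ∧ Le D q p ∧ ∃ b, b ∈ q.1 ∧ ξ < b := by
  classical
  obtain ⟨a, ha⟩ := hp.1
  obtain ⟨v, hv, hav⟩ := hp.2.2.1 a ha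
  have hth := D.thick v p.2.2.1 a (hp.2.1 a ha) hav (fun h hh => hp.2.2.2.2 a ha h hh)
  have hex : ∃ b, (D.B b ∧ D.p b ∈ D.U v ∧ ∀ h ∈ p.2.2.1, D.idx h.1 b ≤ h.2) ∧ ξ < b := by
    by_contra hcon
    push Not at hcon
    exact hth (MCov.mono (Om_mct_le hW ξ) fun b hb => hcon b hb)
  obtain ⟨b, ⟨hb1, hb2, hb3⟩, hb4⟩ := hex
  have hcase : ∀ {P : W → Prop}, P b → (∀ a, a ∈ p.1 → P a) → ∀ a, a ∈ insert b p.1 → P a := by
    intro P h1 h2 a ha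
    rcases Finset.mem_insert.1 ha with h3 | h3
    · rw [h3]
      exact h1
    · exact h2 a h3
  obtain ⟨V', h1, h2, _⟩ := GenB_step D p (insert b p.1) (hcase hb1 hp.2.1)
    ⟨b, Finset.mem_insert_self _ _⟩ (Finset.subset_insert _ _)
    (hcase (P := fun c => ∃ v, v ∈ p.2.1 ∧ D.p c ∈ D.U v) ⟨v, hv, hb2⟩ hp.2.2.1) p.2.2.1
    (Finset.Subset.refl _)
    (hcase (P := fun c => ∀ h, h ∈ p.2.2.1 → D.idx h.1 c ≤ h.2) hb3 hp.2.2.2.2) p.2.2.2
    (Finset.Subset.refl _)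
    ∅ ∅ isClosed_empty isClosed_empty (fun a _ => Or.inl (Set.notMem_empty _))
  exact ⟨_, h1, h2, b, Finset.mem_insert_self _ _, hb4⟩

end

end HM
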