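import Pool.Agent.HM_h27.Ax
import Pool.Agent.HM_h27.GenB
import Pool.Agent.HM_h27.OmA

/-!
# HM: the generic set
-/

namespace HM

open HESR Topology

universe u v w v1 v2 v3 v4

set_option linter.unusedVariables false
set_option linter.unusedSectionVars false

section
variable {M : Type u} [ZFM M] {W : Type} [IT M W] [LinearOrder W] [WO M W]
variable {Y : Type v} [IT M Y] [TopologicalSpace Y] [MTop M Y] [RegularSpace Y]

/-- the combined density requirement -/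
def GGood (D : GDat M W Y) {J : Type} [IT M J] (Z : J → PM M Y)
    (i : ((ℕ × (ℕ × (ℕ × ℕ))) × (ℕ × ℕ)) × (J × W)) (q : Cnd W) : Prop :=
  (∃ N, (i.1.1.1, N) ∈ q.2.2.1) ∧ i.1.1.2 ∈ q.2.2.2 ∧
  ((∀ y, ¬ (InCl y (D.U i.1.2.1) ∧ InCl y (D.U i.1.2.2))) → ∀ v, v ∈ q.2.1 →
    (∀ y, InCl y (D.U v) → ¬ InCl y (D.U i.1.2.1)) ∨
      ∀ y, InCl y (D.U v) → ¬ InCl y (D.U i.1.2.2)) ∧
  (∀ v, v ∈ q.2.1 → ∀ y, InCl y (D.U v) → ¬ y ∈ Z i.2.1) ∧
  ∃ b, b ∈ q.1 ∧ i.2.2 < b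

theorem g_le_cl (D : GDat M W Y) {q p : Cnd W} (h : Le D q p) {v : ℕ} (hv : v ∈ q.2.1) :
    ∃ w, w ∈ p.2.1 ∧ ∀ y, InCl y (D.U v) → InCl y (D.U w) := by
  obtain ⟨w, hw, h1⟩ := h.2.1 v hv
  exact ⟨w, hw, fun y hy => closure_mono (fun z hz => h1 z hz) hy⟩

theorem mf_GGood (D : GDat M W Y) {J : Type} [IT M J] {Z : J → PM M Y} (hZ : MF M Z) :
    MF M (fun r : (((ℕ × (ℕ × (ℕ × ℕ))) × (ℕ × ℕ)) × (J × W)) × Cnd W =>
      GGood D Z r.1 r.2) := by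
  have hU := D.U_mf
  unfold GGood
  fun_prop

theorem g_dense (hW : IsOm1T M W) (D : GDat M W Y)
    {J : Type} [IT M J] {Z : J → PM M Y}
    (hZc : ∀ j, Cld (Z j)) (hpZ : ∀ j a, D.B a → ¬ D.p a ∈ Z j)
    (i : ((ℕ × (ℕ × (ℕ × ℕ))) × (ℕ × ℕ)) × (J × W)) (p : Cnd W) (hp : Ok D p) :
    ∃ q, Ok D q ∧ Le D q p ∧ GGood D Z i q := by
  obtain ⟨q1, h1, l1, e1⟩ := g_dense_bd D p hp i.1.1.1
  obtain ⟨q2, h2, l2, e2⟩ := g_dense_rel D q1 h1 i.1.1.2
  obtain ⟨q3, h3, l3, e3⟩ : ∃ q3, Ok D q3 ∧ Le D q3 q2 ∧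
      ((∀ y, ¬ (InCl y (D.U i.1.2.1) ∧ InCl y (D.U i.1.2.2))) → ∀ v, v ∈ q3.2.1 →
        (∀ y, InCl y (D.U v) → ¬ InCl y (D.U i.1.2.1)) ∨
          ∀ y, InCl y (D.U v) → ¬ InCl y (D.U i.1.2.2)) := by
    by_cases hd : ∀ y, ¬ (InCl y (D.U i.1.2.1) ∧ InCl y (D.U i.1.2.2))
    · obtain ⟨q3, h3, l3, e3⟩ := g_dense_closed D q2 h2 (closure (D.U i.1.2.1).set)
        (closure (D.U i.1.2.2).set) isClosed_closure isClosed_closure (fun a ha => by
          by_contra hcon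
          push Not at hcon
          exact hd _ hcon)
      exact ⟨q3, h3, l3, fun _ => e3⟩
    · exact ⟨q2, h2, Le.refl D q2, fun h => absurd h hd⟩
  obtain ⟨q4, h4, l4, e4⟩ := g_dense_closed D q3 h3 (Z i.2.1).set Set.univ (hZc i.2.1)
    isClosed_univ (fun a ha => Or.inl (hpZ i.2.1 a ha))
  obtain ⟨q5, h5, l5, e5⟩ := g_dense_beyond D hW q4 h4 i.2.2
  have l53 : Le D q5 q3 := Le.trans D l5 l4
  have l52 : Le D q5 q2 := Le.trans D l53 l3
  have l51 : Le D q5 q1 := Le.trans D l52 l2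
  have l50 : Le D q5 p := Le.trans D l51 l1
  refine ⟨q5, h5, l50, ?_, ?_, ?_, ?_, e5⟩
  · obtain ⟨N, hN⟩ := e1
    exact ⟨N, l51.2.2.1 hN⟩
  · exact l52.2.2.2 e2
  · intro hd v hv
    obtain ⟨w, hw, hvw⟩ := g_le_cl D l53 hv
    rcases e3 hd w hw with h | h
    · exact Or.inl fun y hy => h y (hvw y hy)
    · exact Or.inr fun y hy => h y (hvw y hy)
  · intro v hv y hy
    obtain ⟨w, hw, hvw⟩ := g_le_cl D l5 hv
    rcases e4 w hw with h | h
    · exact h y (hvw y hy)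
    · exact absurd (Set.mem_univ y) (h y (hvw y hy))

theorem g_thick_aux (hMA : MAW M W) (hW : IsOm1T M W) (D : GDat M W Y) (hB : ∃ a, D.B a)
    {J : Type} [IT M J] [Nonempty J] (hJ : MCov M W (fun _ : J => True)) {Z : J → PM M Y}
    (hZ : MF M Z) (hZc : ∀ j, Cld (Z j)) (hpZ : ∀ j a, D.B a → ¬ D.p a ∈ Z j) :
    ∃ B' : W → Prop, MF M B' ∧ ¬ MCt M B' ∧ (∀ a, B' a → D.B a) ∧
      (∀ j m, m ∈ closure {y | ∃ a, B' a ∧ D.p a = y} → ¬ m ∈ Z j) ∧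
      (∀ k, ∃ N, ∀ a, B' a → D.idx k a ≤ N) ∧
      ∀ k a, B' a → ∀ m, m ∈ closure {y | ∃ a, B' a ∧ D.p a = y} → D.R k a m →
        Inseparable m (D.p a) := by
  obtain ⟨a0, ha0⟩ := hB
  obtain ⟨v0, hv0, -⟩ := D.U_base (D.p a0) Set.univ isOpen_univ trivial
  have hc0 : Ok D (({a0}, ({v0}, (∅, ∅))) : Cnd W) := by
    refine ⟨⟨a0, Finset.mem_singleton_self a0⟩, ?_, ?_, ?_, ?_⟩
    · intro a ha
      rw [Finset.mem_singleton.1 ha]
      exact ha0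
    · intro a ha
      rw [Finset.mem_singleton.1 ha]
      exact ⟨v0, Finset.mem_singleton_self v0, hv0⟩
    · intro a ha v hv _ k hk
      exact absurd hk (Finset.notMem_empty k)
    · intro a ha h hh
      exact absurd hh (Finset.notMem_empty h)
  have : Nonempty {c // c ∈ PM.of (Ok D) (mf_Ok D)} := ⟨⟨_, hc0⟩⟩
  let j0 : J := Classical.arbitrary J
  -- the index type
  have hI : MCov M W (fun _ : ((ℕ × (ℕ × (ℕ × ℕ))) × (ℕ × ℕ)) × (J × W) => True) := by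
    have hn : MCov M W (fun _ : ℕ => True) := hW.cov_nat
    have hw : MCov M W (fun _ : W => True) :=
      MCov.of_enum (e := fun w : W => w) (mf_id M) fun a _ => ⟨a, rfl⟩
    have hnn : MCov M W (fun _ : ℕ × ℕ => True) :=
      MCov.mono (MCov.prod hW.cov_sq hn hn) fun _ _ => ⟨trivial, trivial⟩
    have hnnn : MCov M W (fun _ : ℕ × (ℕ × ℕ) => True) :=
      MCov.mono (MCov.prod hW.cov_sq hn hnn) fun _ _ => ⟨trivial, trivial⟩
    have h4 : MCov M W (fun _ : ℕ × (ℕ × (ℕ × ℕ)) => True) :=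
      MCov.mono (MCov.prod hW.cov_sq hn hnnn) fun _ _ => ⟨trivial, trivial⟩
    have h5 : MCov M W (fun _ : (ℕ × (ℕ × (ℕ × ℕ))) × (ℕ × ℕ) => True) :=
      MCov.mono (MCov.prod hW.cov_sq h4 hnn) fun _ _ => ⟨trivial, trivial⟩
    have h6 : MCov M W (fun _ : J × W => True) :=
      MCov.mono (MCov.prod hW.cov_sq hJ hw) fun _ _ => ⟨trivial, trivial⟩
    exact MCov.mono (MCov.prod hW.cov_sq h5 h6) fun _ _ => ⟨trivial, trivial⟩
  have hle : MF M (fun r : {c // c ∈ PM.of (Ok D) (mf_Ok D)} × {c // c ∈ PM.of (Ok D) (mf_Ok D)} =>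
      Le D r.1.1 r.2.1) :=
    mf_comp M (g := fun q : Cnd W × Cnd W => Le D q.1 q.2)
      (f := fun r : {c // c ∈ PM.of (Ok D) (mf_Ok D)} × {c // c ∈ PM.of (Ok D) (mf_Ok D)} =>
        (r.1.1, r.2.1)) (mf_Le D)
      (mf_mk M (mf_subval _ (mf_fst M)) (mf_subval _ (mf_snd M)))
  have hDmf : MF M (fun r : (((ℕ × (ℕ × (ℕ × ℕ))) × (ℕ × ℕ)) × (J × W)) ×
      {c // c ∈ PM.of (Ok D) (mf_Ok D)} => GGood D Z r.1 r.2.1) :=
    mf_comp M (g := fun r : (((ℕ × (ℕ × (ℕ × ℕ))) × (ℕ × ℕ)) × (J × W)) × Cnd W =>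
      GGood D Z r.1 r.2)
      (f := fun r : (((ℕ × (ℕ × (ℕ × ℕ))) × (ℕ × ℕ)) × (J × W)) ×
        {c // c ∈ PM.of (Ok D) (mf_Ok D)} => (r.1, r.2.1)) (mf_GGood D hZ)
      (mf_mk M (mf_fst M) (mf_subval _ (mf_snd M)))
  obtain ⟨G, hG, hGup, hGdir, hGD⟩ := MAW.apply (M := M) hMA hI
    (P := {c // c ∈ PM.of (Ok D) (mf_Ok D)}) (le := fun a b => Le D a.1 b.1) hle
    (fun p => Le.refl D p.1) (fun p q r h h' => Le.trans D h h')
    (fun A hA hanti => by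
      have hA' : MF M (fun c : Cnd W => ∃ x : {c // c ∈ PM.of (Ok D) (mf_Ok D)}, A x ∧ x.1 = c) := by
        have h1 : MF M (fun q : Cnd W × {c // c ∈ PM.of (Ok D) (mf_Ok D)} => A q.2) :=
          mf_comp M (g := A) hA (mf_snd M)
        have h2 : MF M (fun q : Cnd W × {c // c ∈ PM.of (Ok D) (mf_Ok D)} => q.2.1 = q.1) :=
          mf_eq (mf_subval _ (mf_snd M)) (mf_fst M)
        exact mf_ex (mf_and h1 h2)
      have h1 := g_ccc D hA' (fun c hc => by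
          obtain ⟨x, _, rfl⟩ := hc
          exact x.2)
        (fun c d hc hd hne => by
          obtain ⟨x, hx, rfl⟩ := hc
          obtain ⟨y, hy, rfl⟩ := hd
          rintro ⟨r, hr, hrx, hry⟩
          exact hanti x y hx hy (fun h => hne (by rw [h])) ⟨⟨r, hr⟩, hrx, hry⟩)
      obtain ⟨g, hg1, hg2⟩ := h1
      refine ⟨PM.of (fun p : ℕ × {c // c ∈ PM.of (Ok D) (mf_Ok D)} => (p.1, p.2.1) ∈ g) ?_, ?_, ?_⟩
      · exact mf_mem (mf_mk M (mf_fst M) (mf_subval _ (mf_snd M))) (mf_const M g)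
      · intro n x y hx hy
        exact Subtype.ext (hg1 n x.1 y.1 hx hy)
      · intro x hx
        exact hg2 x.1 ⟨x, hx, rfl⟩)
    (D := fun i q => GGood D Z i q.1) hDmf
    (fun i p => by
      obtain ⟨q, hq, hqp, hqi⟩ := g_dense hW D hZc hpZ i p.1 p.2
      exact ⟨⟨q, hq⟩, hqi, hqp⟩)
  have hB'mf : MF M (fun a : W => ∃ q : {c // c ∈ PM.of (Ok D) (mf_Ok D)}, G q ∧ a ∈ q.1.1) := by
    have h1 : MF M (fun r : W × {c // c ∈ PM.of (Ok D) (mf_Ok D)} => G r.2) :=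
      mf_comp M (g := G) hG (mf_snd M)
    have h2 : MF M (fun r : W × {c // c ∈ PM.of (Ok D) (mf_Ok D)} => r.1 ∈ r.2.1.1) :=
      mf_mem_finset (mf_fst M) (mf_comp M (g := fun c : Cnd W => c.1) (mf_fst M)
        (mf_subval _ (mf_snd M)))
    exact mf_ex (mf_and h1 h2)
  -- the key property of the closure
  have key : ∀ q : {c // c ∈ PM.of (Ok D) (mf_Ok D)}, G q → ∀ m,
      m ∈ closure {y | ∃ a, (∃ q : {c // c ∈ PM.of (Ok D) (mf_Ok D)}, G q ∧ a ∈ q.1.1) ∧ D.p a = y} →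
      ∃ v, v ∈ q.1.2.1 ∧ InCl m (D.U v) := by
    intro q hq m hm
    have hcl : IsClosed (⋃ v ∈ q.1.2.1, closure (D.U v).set) :=
      isClosed_biUnion_finset fun v _ => isClosed_closure
    have hsub : {y | ∃ a, (∃ q : {c // c ∈ PM.of (Ok D) (mf_Ok D)}, G q ∧ a ∈ q.1.1) ∧ D.p a = y} ⊆
        ⋃ v ∈ q.1.2.1, closure (D.U v).set := by
      rintro y ⟨a, ⟨q', hq', haq'⟩, rfl⟩
      obtain ⟨r, _, hrq, hrq'⟩ := hGdir q q' hq hq'
      obtain ⟨v, hv, hav⟩ := (show Ok D r.1 from r.2).2.2.1 a (hrq'.1 haq')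
      obtain ⟨w, hw, hvw⟩ := hrq.2.1 v hv
      exact Set.mem_biUnion (show w ∈ (q.1.2.1 : Set ℕ) from hw) (subset_closure (hvw _ hav))
    have h1 := closure_minimal hsub hcl hm
    obtain ⟨v, hv, hmv⟩ := Set.mem_iUnion₂.1 h1
    exact ⟨v, hv, hmv⟩
  refine ⟨fun a => ∃ q : {c // c ∈ PM.of (Ok D) (mf_Ok D)}, G q ∧ a ∈ q.1.1, hB'mf, ?_, ?_, ?_, ?_, ?_⟩
  · refine hW.not_mct hB'mf fun ξ => ?_
    obtain ⟨q, hq, hqi⟩ := hGD (((0, (0, (0, 0))), (0, 0)), (j0, ξ))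
    obtain ⟨b, hb, hξ⟩ := hqi.2.2.2.2
    exact ⟨b, ⟨q, hq, hb⟩, hξ⟩
  · rintro a ⟨q, _, haq⟩
    exact (show Ok D q.1 from q.2).2.1 a haq
  · intro j m hm
    obtain ⟨q, hq, hqi⟩ := hGD (((0, (0, (0, 0))), (0, 0)), (j, a0))
    obtain ⟨v, hv, hmv⟩ := key q hq m hm
    exact hqi.2.2.2.1 v hv m hmv
  · intro k
    obtain ⟨q, hq, hqi⟩ := hGD (((k, (0, (0, 0))), (0, 0)), (j0, a0))
    obtain ⟨N, hN⟩ := hqi.1
    refine ⟨N, ?_⟩
    rintro a ⟨q', hq', haq'⟩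
    obtain ⟨r, _, hrq, hrq'⟩ := hGdir q q' hq hq'
    exact (show Ok D r.1 from r.2).2.2.2.2 a (hrq'.1 haq') (k, N) (hrq.2.2.1 hN)
  · rintro k a ⟨q', hq', haq'⟩ m hm hR
    by_contra hins
    obtain ⟨O₁, O₂, hO₁, hO₂, hm₁, ha₂, hdis⟩ := r1_separation hins
    obtain ⟨s, has, hs⟩ := D.U_base (D.p a) O₂ hO₂ ha₂
    obtain ⟨t, hmt, ht⟩ := D.U_base m O₁ hO₁ hm₁
    obtain ⟨q, hq, hqi⟩ := hGD (((0, k), (s, t)), (j0, a0))
    obtain ⟨r, hr, hrq, hrq'⟩ := hGdir q q' hq hq'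
    obtain ⟨v, hv, hmv⟩ := key r hr m hm
    have hdis' : ∀ y, ¬ (InCl y (D.U s) ∧ InCl y (D.U t)) := by
      rintro y ⟨h1, h2⟩
      exact Set.disjoint_left.1 hdis (ht h2) (hs h1)
    obtain ⟨w, hw, hvw⟩ := g_le_cl D hrq hv
    rcases hqi.2.2.1 hdis' w hw with h | h
    · have hnv : ¬ InCl (D.p a) (D.U v) := fun h1 => h _ (hvw _ h1) (subset_closure has)
      exact (show Ok D r.1 from r.2).2.2.2.1 a (hrq'.1 haq') v hv hnv k (hrq.2.2.2 hqi.2.1) m hmv hR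
    · exact h m (hvw m hmv) (subset_closure hmt)

/-- The generic set for thick data (compare `generic_thick` in `Pool/Agent/W_3b51b4_h27/GenFin.lean`).

PROOF. Let `P := {p : Cnd W // p ∈ PM.of (Ok D) _}` with the order `Le D` (nonempty: `({a}, {v}, ∅, ∅)` with
`B a`, `p a ∈ U v`). Apply `MAW.apply` (ccc by `g_ccc`, transport countability between the subtype and `Cnd W` by
`MCov.image`) with the index type `I := ℕ × (ℕ × (ℕ × ℕ)) × (ℕ × ℕ) × J × W`, covered by `W`, and the dense sets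
`D (k, κ, (s, t), j, ξ) q := (∃ N, (k, N) ∈ q.2.2.1) ∧ κ ∈ q.2.2.2 ∧
(closure (U s) and closure (U t) disjoint → every v ∈ q.2.1 has closure (U v) disjoint from closure (U s) or from
closure (U t)) ∧ (∀ v ∈ q.2.1, closure (U v) is disjoint from Z j) ∧ ∃ b ∈ q.1, ξ < b`.
Every single condition is dense by the density lemmas (`Z' := univ` for `Z j`) and passes to stronger
conditions, so extend five times. Let `G` be the filter, `B' a := ∃ q, G q ∧ a ∈ q.1`.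
(a) `B'` is unbounded, so not countable (`IsOm1T.not_mct`).
(b) For `q` in `G` and `a` with `B' a`: `p a ∈ U v` for some `v ∈ q.2.1` (common extension). Hence
`closure {y | ∃ a, B' a ∧ p a = y} ⊆ ⋃ v ∈ q.2.1, closure (U v)` (finite union of closed sets).
(c) `Z j`: by (b). (d) `idx k`: `N` with `(k, N) ∈ q.2.2.1`, `q` in `G`; common extension with a condition
containing `a`. (e) Let `B' a`, `m` in the closure, `R κ a m`, and `m`, `p a` not inseparable. By regularity there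
are disjoint open sets around them (`RegularSpace` is `R1Space`: `r1_separation` / `specializes_or_disjoint_nhds`), so `s, t` with
`p a ∈ U s`, `m ∈ U t`, `closure (U s) ∩ closure (U t) = ∅` (first separate by open sets, shrink by `U_base` twice). Take `q` in `G` with `a ∈ q.1`, `κ ∈ q.2.2.2` and the
property for `(s, t)` (inherited by stronger conditions because every `U v` is contained in some `U w`). By (b)
`m ∈ closure (U v)`, `v ∈ q.2.1`; then `closure (U v)` meets `closure (U t)`, so it misses `closure (U s)`,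
`p a ∉ closure (U v)`, and `Ok` gives `¬ R κ a m`. -/
theorem g_thick (hMA : MAW M W) (hW : IsOm1T M W) (D : GDat M W Y) (hB : ∃ a, D.B a)
    {J : Type} [IT M J] (hJ : MCov M W (fun _ : J => True)) {Z : J → PM M Y} (hZ : MF M Z)
    (hZc : ∀ j, Cld (Z j)) (hpZ : ∀ j a, D.B a → ¬ D.p a ∈ Z j) :
    ∃ B' : W → Prop, MF M B' ∧ ¬ MCt M B' ∧ (∀ a, B' a → D.B a) ∧
      (∀ j m, m ∈ closure {y | ∃ a, B' a ∧ D.p a = y} → ¬ m ∈ Z j) ∧
      (∀ k, ∃ N, ∀ a, B' a → D.idx k a ≤ N) ∧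
      ∀ k a, B' a → ∀ m, m ∈ closure {y | ∃ a, B' a ∧ D.p a = y} → D.R k a m →
        Inseparable m (D.p a) := by
  by_cases hn : Nonempty J
  · exact g_thick_aux hMA hW D hB hJ hZ hZc hpZ
  · obtain ⟨B', h1, h2, h3, h4, h5, h6⟩ := g_thick_aux hMA hW D hB (J := ℕ) hW.cov_nat
      (Z := fun _ => PM.of (fun _ => False) (mf_const M False)) (mf_const M _)
      (fun _ => isClosed_empty) (fun _ _ _ h => h)
    exact ⟨B', h1, h2, h3, fun j => (hn ⟨j⟩).elim, h5, h6⟩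

end

end HM
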