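import Pool.Agent.HM_h27.Top

/-!
# HM: compact Hausdorff spaces and perfectly normal compacta of the model
-/

namespace HM

open HESR Topology

universe u v w v1 v2 v3 v4

set_option linter.unusedVariables false
set_option linter.unusedSectionVars false

/-- The space `X` of the model is compact in the model. -/
class MCpt (M : Type u) [ZFM M] (X : Type v) [IT M X] [TopologicalSpace X] [MTop M X] : Prop where
  cpt : ∀ 𝒰 : PM M (PM M X), (∀ U, U ∈ 𝒰 → Op U) → (∀ x : X, ∃ U, U ∈ 𝒰 ∧ x ∈ U) →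
    ∃ F : Finset (PM M X), (∀ U ∈ F, U ∈ 𝒰) ∧ ∀ x, ∃ U ∈ F, x ∈ U

/-- Every closed set of the model is a countable intersection of open sets in the model. -/
class MPerf (M : Type u) [ZFM M] (X : Type v) [IT M X] [TopologicalSpace X] [MTop M X] : Prop where
  gd : ∀ C : PM M X, Cld C → ∃ O : ℕ → PM M X, MF M O ∧ (∀ n, Op (O n)) ∧
    ∀ x, x ∈ C ↔ ∀ n, x ∈ O n

section
variable {M : Type u} [ZFM M]
variable {X : Type v} [IT M X] [TopologicalSpace X] [MTop M X]
variable {ι : Type v2} [IT M ι]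

/-- Finite subcovers of indexed open covers of closed sets.

PROOF. Apply `MCpt.cpt` to the family of all `V : PM M X` with `(∃ i, Q i ∧ U i = V) ∨ V = K.compl`
(`PM.of`, `fun_prop`), and choose (externally) an index for every member of the finite subcover of the
first kind. -/
theorem exists_finite_cover [MCpt M X] {Q : ι → Prop} (hQ : MF M Q) {U : ι → PM M X} (hU : MF M U)
    (hUo : ∀ i, Q i → Op (U i)) {K : PM M X} (hK : Cld K) (h : ∀ x, x ∈ K → ∃ i, Q i ∧ x ∈ U i) :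
    ∃ F : Finset ι, (∀ i ∈ F, Q i) ∧ ∀ x, x ∈ K → ∃ i ∈ F, x ∈ U i := by
  classical
  obtain ⟨F, hF1, hF2⟩ := MCpt.cpt (M := M) (X := X)
    (PM.of (fun V : PM M X => (∃ i, Q i ∧ U i = V) ∨ V = K.compl) (by fun_prop))
    (by
      rintro V (⟨i, hi, rfl⟩ | hV)
      · exact hUo i hi
      · rw [hV]
        exact cld_iff.1 hK)
    (by
      intro x
      by_cases hx : x ∈ K
      · obtain ⟨i, hi, hxi⟩ := h x hx
        exact ⟨U i, Or.inl ⟨i, hi, rfl⟩, hxi⟩
      · exact ⟨K.compl, Or.inr rfl, hx⟩)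
  have h1 : ((F.filter (fun V => ∃ i, Q i ∧ U i = V) : Finset (PM M X)) : Set (PM M X)) ⊆
      U '' {i | Q i} := by
    intro V hV
    obtain ⟨i, hi, hiV⟩ := (Finset.mem_filter.1 (Finset.mem_coe.1 hV)).2
    exact ⟨i, hi, hiV⟩
  obtain ⟨F', hF', hF''⟩ := Finset.subset_set_image_iff.1 h1
  refine ⟨F', fun i hi => hF' (Finset.mem_coe.2 hi), fun x hx => ?_⟩
  obtain ⟨V, hV, hxV⟩ := hF2 x
  have h2 : ∃ i, Q i ∧ U i = V := by
    rcases hF1 V hV with h3 | h3
    · exact h3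
    · rw [h3] at hxV
      exact absurd hx hxV
  have h3 : V ∈ F'.image U := by
    rw [hF'']
    exact Finset.mem_filter.2 ⟨hV, h2⟩
  obtain ⟨i, hi, hiV⟩ := Finset.mem_image.1 h3
  exact ⟨i, hi, hiV ▸ hxV⟩

/-- A decreasing sequence of closed sets with intersection in an open set.

PROOF. `exists_finite_cover` with `ι := ℕ`, `Q := True`, `U n := (C n).compl`, `K := O.compl`; take the
maximum of the finite set. -/
theorem exists_subset_of_decr [MCpt M X] {C : ℕ → PM M X} (hC : MF M C) (hCc : ∀ n, Cld (C n))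
    (hd : ∀ m n, m ≤ n → ∀ x, x ∈ C n → x ∈ C m) {O : PM M X} (hO : Op O)
    (h : ∀ x, (∀ n, x ∈ C n) → x ∈ O) : ∃ n, ∀ x, x ∈ C n → x ∈ O := by
  obtain ⟨F, -, hF⟩ := exists_finite_cover (M := M) (X := X) (ι := ℕ) (Q := fun _ => True)
    (by fun_prop) (U := fun n => (C n).compl) (by fun_prop) (fun n _ => cld_iff.1 (hCc n))
    (K := O.compl) (op_compl_iff.2 hO) (by
      intro x hx
      by_contra hc
      push Not at hc
      refine hx (h x fun n => ?_)
      by_contra h1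
      exact hc n trivial h1)
  refine ⟨F.sup id, fun x hx => ?_⟩
  by_contra hc
  obtain ⟨i, hi, hxi⟩ := hF x hc
  exact hxi (hd i (F.sup id) (Finset.le_sup (f := id) hi) x hx)

/-- separation from a closed set, abstract form -/
theorem TopA_sep [MCpt M X] {A B : PM M X} (hB : Cld B)
    (h : ∀ b, b ∈ B → ∃ U V : PM M X, Op U ∧ Op V ∧ (∀ y, y ∈ A → y ∈ U) ∧ b ∈ V ∧
      ∀ y, y ∈ U → ¬ y ∈ V) :
    ∃ U V : PM M X, Op U ∧ Op V ∧ (∀ y, y ∈ A → y ∈ U) ∧ (∀ y, y ∈ B → y ∈ V) ∧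
      ∀ y, y ∈ U → ¬ y ∈ V := by
  classical
  obtain ⟨F, hF1, hF2⟩ := exists_finite_cover (M := M) (X := X) (ι := PM M X)
    (Q := fun V => Op V ∧ ∃ U : PM M X, Op U ∧ (∀ y, y ∈ A → y ∈ U) ∧ ∀ y, y ∈ U → ¬ y ∈ V)
    (by fun_prop) (U := fun V => V) (by fun_prop) (fun V hV => hV.1) (K := B) hB (by
      intro b hb
      obtain ⟨U, V, h1, h2, h3, h4, h5⟩ := h b hb
      exact ⟨V, ⟨h2, U, h1, h3, h5⟩, h4⟩)
  have key : ∀ F : Finset (PM M X), (∀ V ∈ F, Op V ∧ ∃ U : PM M X, Op U ∧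
      (∀ y, y ∈ A → y ∈ U) ∧ ∀ y, y ∈ U → ¬ y ∈ V) →
      ∃ U V' : PM M X, Op U ∧ Op V' ∧ (∀ y, y ∈ A → y ∈ U) ∧ (∀ V ∈ F, ∀ y, y ∈ V → y ∈ V') ∧
        ∀ y, y ∈ U → ¬ y ∈ V' := by
    intro F
    induction F using Finset.induction_on with
    | empty =>
      intro _
      refine ⟨PM.of (fun _ => True) (by fun_prop), PM.of (fun _ => False) (by fun_prop),
        isOpen_univ, isOpen_empty, fun _ _ => trivial, fun V hV => absurd hV (Finset.notMem_empty V),
        fun _ _ h => h⟩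
    | insert V F hV ih =>
      intro hF
      obtain ⟨U, V', h1, h2, h3, h4, h5⟩ := ih fun W hW => hF W (Finset.mem_insert_of_mem hW)
      obtain ⟨g1, U', g2, g3, g4⟩ := hF V (Finset.mem_insert_self _ _)
      refine ⟨U.inter U', V'.union V, h1.inter g2, h2.union g1, fun y hy => ⟨h3 y hy, g3 y hy⟩,
        ?_, ?_⟩
      · intro W hW y hy
        rcases Finset.mem_insert.1 hW with rfl | hW
        · exact Or.inr hy
        · exact Or.inl (h4 W hW y hy)
      · rintro y ⟨hy1, hy2⟩ (hy3 | hy3)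
        · exact h5 y hy1 hy3
        · exact g4 y hy2 hy3
  obtain ⟨U, V', h1, h2, h3, h4, h5⟩ := key F hF1
  refine ⟨U, V', h1, h2, h3, fun y hy => ?_, h5⟩
  obtain ⟨V, hV, hyV⟩ := hF2 y hy
  exact h4 V hV y hyV

/-- A point and a closed set are separated by open sets.

PROOF. Let `𝒱` be the set of all open `V` (in the model) such that some open `U` (in the model) with
`x ∈ U` is disjoint from `V`. It covers `B` (`T2Space`, `MTop.base` for both points). Take a finite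
subcover `F` (`exists_finite_cover` with `ι := PM M X`, `U := id`) and (externally, finitely many
choices; induction on the finset) intersect the corresponding neighbourhoods of `x`. -/
theorem exists_sep_point [T2Space X] [MCpt M X] {x : X} {B : PM M X} (hB : Cld B) (hx : ¬ x ∈ B) :
    ∃ U V : PM M X, Op U ∧ Op V ∧ x ∈ U ∧ (∀ y, y ∈ B → y ∈ V) ∧ ∀ y, y ∈ U → ¬ y ∈ V := by
  obtain ⟨U, V, h1, h2, h3, h4, h5⟩ := TopA_sep (A := PM.single (M := M) x) hB (by
    intro b hb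
    have hne : x ≠ b := fun h => hx (h ▸ hb)
    obtain ⟨u, v, hu, hv, hxu, hbv, huv⟩ := t2_separation hne
    obtain ⟨U, hU1, hU2, hU3⟩ := MTop.base (M := M) x u hu hxu
    obtain ⟨V, hV1, hV2, hV3⟩ := MTop.base (M := M) b v hv hbv
    refine ⟨U, V, hU1, hV1, ?_, hV2, fun y hy hy' =>
      Set.disjoint_left.1 huv (hU3 y hy) (hV3 y hy')⟩
    rintro y hy
    rw [PM.mem_single] at hy
    rw [hy]
    exact hU2)
  exact ⟨U, V, h1, h2, h3 x rfl, h4, h5⟩

/-- Normality. PROOF. As `exists_sep_point`, with `exists_sep_point` in place of `T2Space`. -/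
theorem exists_sep [T2Space X] [MCpt M X] {A B : PM M X} (hA : Cld A) (hB : Cld B)
    (hd : ∀ x, x ∈ A → ¬ x ∈ B) :
    ∃ U V : PM M X, Op U ∧ Op V ∧ (∀ y, y ∈ A → y ∈ U) ∧ (∀ y, y ∈ B → y ∈ V) ∧
      ∀ y, y ∈ U → ¬ y ∈ V := by
  refine TopA_sep hB fun b hb => ?_
  obtain ⟨U, V, h1, h2, h3, h4, h5⟩ := exists_sep_point (x := b) hA (fun h => hd b h hb)
  exact ⟨V, U, h2, h1, h4, h3, fun y hy hy' => h5 y hy' hy⟩

/-- Normality, second form. PROOF. `exists_sep` for `A` and `O.compl`; `C := V.compl`. -/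
theorem exists_between [T2Space X] [MCpt M X] {A O : PM M X} (hA : Cld A) (hO : Op O)
    (h : ∀ x, x ∈ A → x ∈ O) :
    ∃ U C : PM M X, Op U ∧ Cld C ∧ (∀ x, x ∈ A → x ∈ U) ∧ (∀ x, x ∈ U → x ∈ C) ∧
      ∀ x, x ∈ C → x ∈ O := by
  obtain ⟨U, V, h1, h2, h3, h4, h5⟩ := exists_sep hA (op_compl_iff.2 hO)
    (fun x hx hx' => hx' (h x hx))
  refine ⟨U, V.compl, h1, op_compl_iff.2 h2, h3, fun x hx => h5 x hx, fun x hx => ?_⟩
  by_contra hc
  exact hx (h4 x hc)

end

end HM
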