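import Pool.Agent.HM_h27.Ax
import Pool.Agent.HM_h27.TopA

/-!
# HM: point-finite cellularity in the model
-/

namespace HM

open HESR Topology

universe u v w v1 v2 v3 v4

set_option linter.unusedVariables false
set_option linter.unusedSectionVars false

section
variable {M : Type u} [ZFM M]
variable {X : Type v} [IT M X] [TopologicalSpace X] [MTop M X]
variable {R : Type w} [IT M R] [LinearOrder R] [RealLine M R] [TopologicalSpace R] [OrderTopology R]
  [DenselyOrdered R] [NoMinOrder R] [NoMaxOrder R] [Nonempty R]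

/-- The set `O` of continuous functions is open in the topology of pointwise convergence. -/
def OpP (O : PM M (CX M X R)) : Prop := ∀ f, f ∈ O → ∃ B : Finset (X × PM M R),
  (∀ b, b ∈ B → Op b.2 ∧ f.1 b.1 ∈ b.2) ∧
    ∀ g : CX M X R, (∀ b, b ∈ B → g.1 b.1 ∈ b.2) → g ∈ O

variable (M X R) in
/-- `p(C_p(X)) = ω` in the model: every point-finite family of nonempty open subsets of `C_p(X)` is
countable. -/
def PFC : Prop := ∀ 𝒰 : PM M (PM M (CX M X R)), (∀ O, O ∈ 𝒰 → OpP O ∧ ∃ f, f ∈ O) →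
  (∀ f : CX M X R, {O | O ∈ 𝒰 ∧ f ∈ O}.Finite) → MCt M (fun O => O ∈ 𝒰)

variable {W : Type v3} [IT M W] [LinearOrder W] [WO M W]

/-- finite intersections of neighbourhoods and finite unions -/
theorem HFinA_key {x y : W → X} {A : X → Prop} (F : Finset (PM M X))
    (hF : ∀ V ∈ F, Op V ∧ ∃ U : PM M X, Op U ∧ (∀ t, A t → t ∈ U) ∧
      {i | x i ∈ U ∧ y i ∈ V}.Finite) :
    ∃ U V' : PM M X, Op U ∧ Op V' ∧ (∀ t, A t → t ∈ U) ∧ (∀ V ∈ F, ∀ t, t ∈ V → t ∈ V') ∧
      {i | x i ∈ U ∧ y i ∈ V'}.Finite := by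
  classical
  induction F using Finset.induction_on with
  | empty =>
    refine ⟨PM.of (fun _ => True) (by fun_prop), PM.of (fun _ => False) (by fun_prop),
      isOpen_univ, isOpen_empty, fun _ _ => trivial, fun V hV => absurd hV (Finset.notMem_empty V), ?_⟩
    refine Set.Finite.subset Set.finite_empty ?_
    rintro i ⟨_, h⟩
    exact h
  | insert V F hV ih =>
    obtain ⟨U, V', h1, h2, h3, h4, h5⟩ := ih fun W hW => hF W (Finset.mem_insert_of_mem hW)
    obtain ⟨g1, U', g2, g3, g4⟩ := hF V (Finset.mem_insert_self _ _)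
    refine ⟨U.inter U', V'.union V, h1.inter g2, h2.union g1, fun t ht => ⟨h3 t ht, g3 t ht⟩,
      ?_, ?_⟩
    · intro W hW t ht
      rcases Finset.mem_insert.1 hW with rfl | hW
      · exact Or.inr ht
      · exact Or.inl (h4 W hW t ht)
    · refine Set.Finite.subset (h5.union g4) ?_
      rintro i ⟨⟨hi1, hi2⟩, hi3 | hi3⟩
      · exact Or.inl ⟨hi1, hi3⟩
      · exact Or.inr ⟨hi2, hi3⟩

/-- finiteness of the pairs in a product is a predicate of the model -/
theorem HFinA_mf {γ : Type v1} [IT M γ] {x y : W → X} (hx : MF M x) (hy : MF M y)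
    {F G : γ → PM M X} (hF : MF M F) (hG : MF M G) :
    MF M (fun c => {i | x i ∈ F c ∧ y i ∈ G c}.Finite) := by
  refine mf_setFinite (P := fun c i => x i ∈ F c ∧ y i ∈ G c) ?_
  have h1 : MF M (fun p : γ × W => x p.2) := mf_comp M hx (mf_snd M)
  have h2 : MF M (fun p : γ × W => y p.2) := mf_comp M hy (mf_snd M)
  have h3 : MF M (fun p : γ × W => F p.1) := mf_comp M hF (mf_fst M)
  have h4 : MF M (fun p : γ × W => G p.1) := mf_comp M hG (mf_fst M)
  exact mf_and (mf_mem h1 h3) (mf_mem h2 h4)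

/-- For every continuous function only finitely many pairs are separated by it.

PROOF. Let `a < b`, `A0 := {t | f t ≤ a}`, `B0 := {t | b ≤ f t}`, closed and disjoint. For `u ∈ A0` the family
of all open `V'` (in the model) for which there is an open `U'` with `u ∈ U'` and
`{i | x i ∈ U' ∧ y i ∈ V'}` finite (`mf_setFinite`) covers `B0`; by `exists_finite_cover` there are finitely many,
intersect the `U'`s: there are open `U'`, `V'` with `u ∈ U'`, `B0 ⊆ V'` and `{i | x i ∈ U' ∧ y i ∈ V'}` finite.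
The family of all open `U'` for which there is such a `V'` covers `A0`; take a finite subcover. -/
theorem disc_finite [T2Space X] [MCpt M X] {x y : W → X} (hx : MF M x) (hy : MF M y)
    (hd : ∀ r : X × X, r.1 ≠ r.2 → ∃ U V : PM M X, Op U ∧ Op V ∧ r.1 ∈ U ∧ r.2 ∈ V ∧
      {a | x a ∈ U ∧ y a ∈ V}.Finite) (f : CX M X R) {a b : R} (hab : a < b) :
    {i | f.1 (x i) < a ∧ b < f.1 (y i)}.Finite := by
  classical
  set A0 : PM M X := PM.of (fun t => f.1 t ≤ a) (by fun_prop) with hA0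
  set B0 : PM M X := PM.of (fun t => b ≤ f.1 t) (by fun_prop) with hB0
  have hA0c : Cld A0 := isClosed_le f.cont continuous_const
  have hB0c : Cld B0 := isClosed_le continuous_const f.cont
  -- first step
  have step1 : ∀ u, u ∈ A0 → ∃ U V' : PM M X, Op U ∧ Op V' ∧ u ∈ U ∧ (∀ t, t ∈ B0 → t ∈ V') ∧
      {i | x i ∈ U ∧ y i ∈ V'}.Finite := by
    intro u hu
    have hfin : MF M (fun p : PM M X × PM M X => {i | x i ∈ p.2 ∧ y i ∈ p.1}.Finite) :=
      HFinA_mf hx hy (mf_snd M) (mf_fst M)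
    have hQ : MF M (fun V : PM M X => Op V ∧ ∃ U : PM M X, Op U ∧ u ∈ U ∧
        {i | x i ∈ U ∧ y i ∈ V}.Finite) := by
      refine mf_and (by fun_prop) (mf_ex (R := fun (V U : PM M X) => Op U ∧ u ∈ U ∧
        {i | x i ∈ U ∧ y i ∈ V}.Finite) ?_)
      exact mf_and (by fun_prop) (mf_and (by fun_prop) hfin)
    obtain ⟨F, hF1, hF2⟩ := exists_finite_cover (M := M) (X := X) (ι := PM M X)
      (Q := fun V => Op V ∧ ∃ U : PM M X, Op U ∧ u ∈ U ∧ {i | x i ∈ U ∧ y i ∈ V}.Finite)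
      hQ (U := fun V => V) (by fun_prop) (fun V hV => hV.1) (K := B0) hB0c (by
        intro t ht
        have hne : u ≠ t := by
          rintro rfl
          have h1 : f.1 u ≤ a := hu
          have h2 : b ≤ f.1 u := ht
          exact absurd (h2.trans h1) (not_le.2 hab)
        obtain ⟨U, V, h1, h2, h3, h4, h5⟩ := hd (u, t) hne
        exact ⟨V, ⟨h2, U, h1, h3, h5⟩, h4⟩)
    obtain ⟨U, V', h1, h2, h3, h4, h5⟩ := HFinA_key (A := fun t => t = u) (x := x) (y := y) F
      (fun V hV => by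
        obtain ⟨g1, U, g2, g3, g4⟩ := hF1 V hV
        exact ⟨g1, U, g2, fun t ht => ht ▸ g3, g4⟩)
    refine ⟨U, V', h1, h2, h3 u rfl, fun t ht => ?_, h5⟩
    obtain ⟨V, hV, htV⟩ := hF2 t ht
    exact h4 V hV t htV
  -- second step
  have hfin : MF M (fun p : PM M X × PM M X => {i | x i ∈ p.1 ∧ y i ∈ p.2}.Finite) :=
    HFinA_mf hx hy (mf_fst M) (mf_snd M)
  have hQ : MF M (fun U : PM M X => Op U ∧ ∃ V' : PM M X, (∀ t, t ∈ B0 → t ∈ V') ∧
      {i | x i ∈ U ∧ y i ∈ V'}.Finite) := by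
    refine mf_and (by fun_prop) (mf_ex (R := fun (U V' : PM M X) => (∀ t, t ∈ B0 → t ∈ V') ∧
      {i | x i ∈ U ∧ y i ∈ V'}.Finite) ?_)
    exact mf_and (by fun_prop) hfin
  obtain ⟨F, hF1, hF2⟩ := exists_finite_cover (M := M) (X := X) (ι := PM M X)
    (Q := fun U => Op U ∧ ∃ V' : PM M X, (∀ t, t ∈ B0 → t ∈ V') ∧
      {i | x i ∈ U ∧ y i ∈ V'}.Finite)
    hQ (U := fun U => U) (by fun_prop) (fun U hU => hU.1) (K := A0) hA0c (by
      intro u hu
      obtain ⟨U, V', h1, h2, h3, h4, h5⟩ := step1 u hu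
      exact ⟨U, ⟨h1, V', h4, h5⟩, h3⟩)
  have hbig : (⋃ U ∈ F, {i | x i ∈ U ∧ b < f.1 (y i)}).Finite := by
    refine Set.Finite.biUnion F.finite_toSet ?_
    intro U hU
    obtain ⟨_, V', h1, h2⟩ := hF1 U hU
    refine h2.subset ?_
    rintro i ⟨hi1, hi2⟩
    exact ⟨hi1, h1 _ hi2.le⟩
  refine hbig.subset ?_
  rintro i ⟨hi1, hi2⟩
  obtain ⟨U, hU, hxU⟩ := hF2 (x i) hi1.le
  exact Set.mem_biUnion hU ⟨hxU, hi2⟩

end

end HM
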