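import Pool.Agent.HM_h27.BDisc
import Pool.Agent.HM_h27.BWit
import Pool.Agent.HM_h27.HFinA

/-!
# HM: the theorem in the model
-/

namespace HM

open HESR Topology

universe u v w v1 v2 v3 v4

set_option linter.unusedVariables false
set_option linter.unusedSectionVars false

section
variable {M : Type u} [ZFM M]
variable {X : Type v} [IT M X] [TopologicalSpace X] [MTop M X]
variable {R : Type w} [IT M R] [LinearOrder R] [RealLine M R] [TopologicalSpace R] [OrderTopology R]
  [DenselyOrdered R] [NoMinOrder R] [NoMaxOrder R] [Nonempty R]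

variable {W : Type v3} [IT M W] [LinearOrder W] [WO M W]

/-- Compare `not_pfc` in `Pool/Agent/W_3b51b4_h27/Final.lean`.

PROOF. Take `l0 < l1 < l2 < l3` in `R` and `O i := {f | f (x i) < l1 ∧ l2 < f (y i)}`, nonempty by
`exists_urysohn` (values `l0`, `l3`), open (`OpP`, two conditions). The family `{O i | i}` is point-finite by
`disc_finite`, so countable by `PFC`; as every `O i` is nonempty and every function is in `O j` for finitely many
`j` only, `{j | O j = O i}` is finite; hence `W` is countable (`MCt.iUnion`), contradiction. -/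
theorem not_pfc [T2Space X] [MCpt M X] (hW : IsOm1T M W) (hD : Disc M W X) : ¬ PFC M X R := by
  classical
  intro hp
  obtain ⟨x, y, hx, hy, hne, hd⟩ := hD
  obtain ⟨L⟩ := exists_thr R
  have hO : MF M (fun p : W × CX M X R => p.2.1 (x p.1) < L.l1 ∧ L.l2 < p.2.1 (y p.1)) := by
    fun_prop
  let O : W → PM M (CX M X R) := PM.sec (fun i f => f.1 (x i) < L.l1 ∧ L.l2 < f.1 (y i)) hO
  have hOm : MF M O := mf_PMsec hO
  have hOmem : ∀ i f, f ∈ O i ↔ f.1 (x i) < L.l1 ∧ L.l2 < f.1 (y i) := fun i f => Iff.rfl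
  have hlt : MF M (fun a : R => a < L.l1) := by fun_prop
  have hgt : MF M (fun a : R => L.l2 < a) := by fun_prop
  have hOo : ∀ i, OpP (O i) := by
    intro i f hf
    refine ⟨{(x i, PM.of _ hlt), (y i, PM.of _ hgt)}, ?_, ?_⟩
    · intro b hb
      rw [Finset.mem_insert, Finset.mem_singleton] at hb
      rcases hb with rfl | rfl
      · exact ⟨isOpen_Iio, hf.1⟩
      · exact ⟨isOpen_Ioi, hf.2⟩
    · intro g hg
      exact ⟨hg _ (Finset.mem_insert_self _ _),
        hg _ (Finset.mem_insert_of_mem (Finset.mem_singleton_self _))⟩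
  have hOn : ∀ i, ∃ f, f ∈ O i := by
    intro i
    obtain ⟨f, hf0, hf3⟩ := exists_urysohn (M := M) (R := R) (A := PM.single (x i))
      (B := PM.single (y i)) (cld_single _) (cld_single _) (by
        intro t ht ht'
        exact hne i ((show t = x i from ht).symm.trans (show t = y i from ht')))
      (L.h01.trans (L.h12.trans L.h23))
    refine ⟨f, ?_, ?_⟩
    · rw [hf0 (x i) rfl]
      exact L.h01
    · rw [hf3 (y i) rfl]
      exact L.h23
  have hOfin : ∀ f : CX M X R, {i | f ∈ O i}.Finite := fun f =>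
    disc_finite hx hy hd f L.h12
  have hr : MF M (fun U : PM M (CX M X R) => ∃ i, O i = U) := by fun_prop
  have hcount := hp (PM.of (fun U => ∃ i, O i = U) hr) (by
    rintro _ ⟨i, rfl⟩
    exact ⟨hOo i, hOn i⟩) (by
    intro f
    refine ((hOfin f).image O).subset ?_
    rintro _ ⟨⟨i, rfl⟩, hf⟩
    exact ⟨i, hf, rfl⟩)
  apply hW.unc
  have hQ : MF M (fun U : PM M (CX M X R) => U ∈ PM.of (fun U => ∃ i, O i = U) hr) := hr
  have hP : MF M (fun p : PM M (CX M X R) × W => O p.2 = p.1) := by fun_prop
  refine (MCt.iUnion (M := M) (P := fun U i => O i = U) hQ hP hcount ?_).mono ?_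
  · rintro _ ⟨j, rfl⟩
    obtain ⟨f, hf⟩ := hOn j
    refine mct_finite ((hOfin f).subset ?_)
    intro i hi
    have h1 : O i = O j := hi
    show f ∈ O i
    rw [h1]
    exact hf
  · intro i _
    exact ⟨O i, ⟨i, rfl⟩, rfl⟩

end

section
variable {M : Type u} [ZFM M]
variable {W : Type} [IT M W] [LinearOrder W] [WO M W]
variable {V : Type v4} [IT M V] [LinearOrder V] [WO M V]
variable {X : Type v} [IT M X] [TopologicalSpace X] [MTop M X] [T2Space X] [MCpt M X] [MPerf M X]
variable {R : Type w} [IT M R] [LinearOrder R] [RealLine M R] [TopologicalSpace R] [OrderTopology R]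
  [DenselyOrdered R] [NoMinOrder R] [NoMaxOrder R] [Nonempty R]

/-- The theorem in the model: under MA and OCA every perfectly normal compactum with `p(C_p(X)) = ω` has a
countable base. -/
theorem internal_main (hW : IsOm1T M W) (hV : IsOm2T M W V) (hMA : MAW M W)
    (hOCA : OCAW.{u, v, 0} M W) (hp : PFC M X R) : MSC M X := by
  by_contra hX
  by_cases hs : ∃ C : W → CX M X R, MF M C ∧ ∀ x y : X, x ≠ y → ∃ i, (C i).1 x ≠ (C i).1 y
  · obtain ⟨C, hC, hsep⟩ := hs
    exact not_pfc hW (small_case hMA hW hX hC hsep) hp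
  · push Not at hs
    obtain ⟨L⟩ := exists_thr R
    obtain ⟨G⟩ := exists_fns (M := M) (X := X) L
    obtain ⟨S⟩ := exists_hset hW hV hOCA G hs
    exact not_pfc hW (S.exists_disc hMA hW) hp

end

end HM
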