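import Pool.Agent.W_MP_83aea7_lc.Defs

/-!
# Topological notions in a structure `(T, E)` (MP_3b51b4_gt)

`E x y` is read `x ∈ y`; all quantifiers range over the structure. For a model of ZFC these are the usual notions
of the model. The elementary notions `Sub` (subset), `IsPair`, `IsNat` (natural number), `IsOmega`, `App f x y`
(`(x, y) ∈ f`), `IsFun f a` (`f` is a function with domain `a`), `Maps f a b` (`f` is a function from `a` to `b`) are
those of `Pool/Agent/W_MP_83aea7_lc/Defs.lean`.
-/

universe u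

namespace PNM

open HESR

section notions

variable {T : Type u} (E : T → T → Prop)

/-- `A` is countable: some function with domain `ω` has `A` as a subset of its range. -/
def IsCtb (A : T) : Prop := ∃ w f, IsOmega E w ∧ IsFun E f w ∧ ∀ y, E y A → ∃ x, App E f x y

/-- `A` is finite: some function whose domain is a natural number has `A` as a subset of its range. -/
def IsFin (A : T) : Prop := ∃ n f, IsNat E n ∧ IsFun E f n ∧ ∀ y, E y A → ∃ x, App E f x y

/-- `τ` is a topology on the set `A`. -/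
def IsTop (A τ : T) : Prop := (∀ O, E O τ → Sub E O A) ∧ E A τ ∧
  (∀ O O' P, E O τ → E O' τ → (∀ x, E x P ↔ E x O ∧ E x O') → E P τ) ∧
  ∀ c P, Sub E c τ → (∀ x, E x P ↔ ∃ O, E O c ∧ E x O) → E P τ

/-- `C` is a closed subset of `(A, τ)`: its complement is open. -/
def IsCl (A τ C : T) : Prop := Sub E C A ∧ ∀ O, (∀ x, E x O ↔ E x A ∧ ¬ E x C) → E O τ

/-- `(A, τ)` is a Hausdorff space. -/
def IsHaus (A τ : T) : Prop := IsTop E A τ ∧ ∀ x y, E x A → E y A → x ≠ y →
  ∃ O O', E O τ ∧ E O' τ ∧ E x O ∧ E y O' ∧ ∀ z, E z O → ¬ E z O'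

/-- `(A, τ)` is compact: every open cover has a finite subcover. -/
def IsCpt (A τ : T) : Prop := ∀ c, Sub E c τ → (∀ x, E x A → ∃ O, E O c ∧ E x O) →
  ∃ c', Sub E c' c ∧ IsFin E c' ∧ ∀ x, E x A → ∃ O, E O c' ∧ E x O

/-- `(A, τ)` is normal: disjoint closed sets are contained in disjoint open sets. -/
def IsNormal (A τ : T) : Prop := ∀ C C', IsCl E A τ C → IsCl E A τ C' → (∀ x, E x C → ¬ E x C') →
  ∃ O O', E O τ ∧ E O' τ ∧ Sub E C O ∧ Sub E C' O' ∧ ∀ z, E z O → ¬ E z O'

/-- `(A, τ)` is perfectly normal: it is normal and every closed set is the intersection of a countable set of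
open sets. -/
def IsPerfNormal (A τ : T) : Prop := IsNormal E A τ ∧ ∀ C, IsCl E A τ C →
  ∃ c, Sub E c τ ∧ IsCtb E c ∧ ∀ x, E x C ↔ E x A ∧ ∀ O, E O c → E x O

/-- `f` is a continuous map from `(A, τ)` to `(R, ρ)`. -/
def IsContin (A τ R ρ f : T) : Prop := Maps E f A R ∧
  ∀ V O, E V ρ → (∀ x, E x O ↔ ∃ y, App E f x y ∧ E y V) → E O τ

/-- `(R, L)` is a nonempty dense complete linear order without endpoints which has a countable dense subset;
`App E L x y` means `x < y`. (These are the orders isomorphic to the real line.) -/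
def IsLine (R L : T) : Prop :=
  (∃ x, E x R) ∧
  (∀ x y, App E L x y → E x R ∧ E y R) ∧
  (∀ x, ¬ App E L x x) ∧
  (∀ x y z, App E L x y → App E L y z → App E L x z) ∧
  (∀ x y, E x R → E y R → x = y ∨ App E L x y ∨ App E L y x) ∧
  (∀ x, E x R → (∃ y, App E L x y) ∧ ∃ y, App E L y x) ∧
  (∃ Q, Sub E Q R ∧ IsCtb E Q ∧
    ∀ x y, App E L x y → ∃ q, E q Q ∧ App E L x q ∧ App E L q y) ∧
  ∀ S, Sub E S R → (∃ x, E x S) → (∃ b, E b R ∧ ∀ x, E x S → ¬ App E L b x) →
    ∃ b, E b R ∧ (∀ x, E x S → ¬ App E L b x) ∧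
      ∀ c, E c R → (∀ x, E x S → ¬ App E L c x) → ¬ App E L c b

/-- `ρ` is the order topology of `(R, L)`. -/
def IsOrdTop (R L ρ : T) : Prop := ∀ V, E V ρ ↔ Sub E V R ∧
  ∀ y, E y V → ∃ l u, App E L l y ∧ App E L y u ∧ ∀ z, App E L l z → App E L z u → E z V

/-- `(R, ρ)` is a copy of the real line. -/
def IsReals (R ρ : T) : Prop := ∃ L, IsLine E R L ∧ IsOrdTop E R L ρ

/-- The map `f` satisfies the set `B` of conditions `(x, V)`, `V ∈ ρ`, meaning `f(x) ∈ V`. -/
def SatB (ρ f B : T) : Prop :=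
  ∀ b, E b B → ∃ x V y, IsPair E b x V ∧ E V ρ ∧ App E f x y ∧ E y V

/-- `Z` is a set of maps with values in a space with the topology `ρ`; `O` is an open subset of `Z` with the
topology of pointwise convergence, i.e. the subspace topology of the product topology. -/
def IsOpenP (ρ Z O : T) : Prop := Sub E O Z ∧ ∀ f, E f O → ∃ B, IsFin E B ∧ SatB E ρ f B ∧
  ∀ g, E g Z → SatB E ρ g B → E g O

/-- `Z` is the set of all continuous maps from `(A, τ)` to `(R, ρ)`. -/
def IsCSet (A τ R ρ Z : T) : Prop := ∀ f, E f Z ↔ IsContin E A τ R ρ f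

/-- `p(Z) = ω` for the set of maps `Z` with the topology of pointwise convergence: every set `c` of nonempty
open subsets of `Z` such that every `f ∈ Z` belongs to finitely many elements of `c` only, is countable. -/
def PtFinCtb (ρ Z : T) : Prop := ∀ c, (∀ O, E O c → IsOpenP E ρ Z O ∧ ∃ f, E f O) →
  (∀ f d, E f Z → (∀ O, E O d ↔ E O c ∧ E f O) → IsFin E d) → IsCtb E c

/-- The set `f`, a function of two variables, has the value `z` at `(x, y)`. -/
def App2 (f x y z : T) : Prop := ∃ p, IsPair E p x y ∧ App E f p z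

/-- `f` is a function from `A × A` to `R`. -/
def Maps2 (f A R : T) : Prop := (∀ x y, E x A → E y A → ∃ z, App2 E f x y z) ∧
  (∀ x y z, App2 E f x y z → E x A ∧ E y A ∧ E z R) ∧
  ∀ x y z z', App2 E f x y z → App2 E f x y z' → z = z'

/-- `(R, L)` is a copy of the ordered set of the real numbers and `P` is an addition on it with the neutral
element `o`: `(R, P, o)` is an abelian group and the order `L` is invariant under addition. -/
def IsRealGroup (R L P o : T) : Prop := IsLine E R L ∧ E o R ∧ Maps2 E P R R ∧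
  (∀ x, E x R → App2 E P x o x) ∧
  (∀ x, E x R → ∃ y, App2 E P x y o) ∧
  (∀ x y z, App2 E P x y z → App2 E P y x z) ∧
  (∀ x y z u v w, App2 E P x y u → App2 E P u z v → App2 E P y z w → App2 E P x w v) ∧
  ∀ x y z u v, App E L x y → App2 E P x z u → App2 E P y z v → App E L u v

/-- `d` is a metric on `A` with values in `(R, L, P, o)`. -/
def IsMetric (A R L P o d : T) : Prop := Maps2 E d A R ∧
  (∀ x y, App2 E d x y o ↔ E x A ∧ x = y) ∧
  (∀ x y r, App2 E d x y r → App2 E d y x r) ∧
  ∀ x y z r s t q, App2 E d x y r → App2 E d y z s → App2 E d x z t → App2 E P r s q → ¬ App E L q t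

/-- `τ` is the topology of the metric `d` on `A`. -/
def IsMetrTop (A τ L o d : T) : Prop := ∀ U, E U τ ↔ Sub E U A ∧
  ∀ x, E x U → ∃ e, App E L o e ∧ ∀ y r, App2 E d x y r → App E L r e → E y U

/-- `(A, τ)` is metrizable: `τ` is the topology of a metric on `A` with values in the real numbers. -/
def IsMetrizable (A τ : T) : Prop := ∃ R L P o d,
  IsRealGroup E R L P o ∧ IsMetric E A R L P o d ∧ IsMetrTop E A τ L o d

/-- The statement of the question: every perfectly normal compactum `X = (A, τ)` with `p(C_p(X)) = ω` is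
metrizable. -/
def Q1 : Prop := ∀ A τ R ρ Z, IsReals E R ρ → IsHaus E A τ → IsCpt E A τ → IsPerfNormal E A τ →
  IsCSet E A τ R ρ Z → PtFinCtb E ρ Z → IsMetrizable E A τ

end notions

end PNM
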