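import Pool.Agent.HM_h27.Ct
import Pool.Agent.HM_h27.Fin
import Pool.Agent.HM_h27.StmtQ
import Pool.Agent.W_MP_315f31_lc.Stmt

/-!
# HM: translation between sets of the model and coded types
-/

namespace HM

open HESR

universe u v w v1 v2 v3 v4

set_option linter.unusedVariables false
set_option linter.unusedSectionVars false

section
variable {M : Type u} [ZFM M]
variable {α : Type v} {β : Type w} {γ : Type v1} [IT M α] [IT M β] [IT M γ]

/-- the element `x` of `M`, as a subset of the coded type `α` -/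
def ofM (α : Type v) [IT M α] (x : M) : PM M α :=
  PM.of (fun a => ZFM.E (cd M a) x) (mf_iff_mp.2 ⟨x, fun a => Iff.rfl⟩)

@[simp] theorem mem_ofM {x : M} {a : α} : a ∈ ofM α x ↔ ZFM.E (cd M a) x := Iff.rfl

/-- a subset of the domain is the code of its trace -/
theorem cd_ofM {x : M} (h : Sub ZFM.E x (IT.dom (M := M) α)) : cd M (ofM α x) = x := by
  refine (ZFM.zfc (M := M)).ext _ _ fun y => ?_
  rw [E_cd_PM]
  constructor
  · rintro ⟨a, rfl, ha⟩
    exact ha
  · intro hy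
    obtain ⟨a, rfl⟩ := (IT.mem_dom _).1 (h y hy)
    exact ⟨a, rfl, hy⟩

theorem ofM_cd (s : PM M α) : ofM α (cd M s) = s := PM.ext fun a => E_cd_cd_PM

theorem sub_dom (s : PM M α) : Sub ZFM.E (cd M s) (IT.dom (M := M) α) := by
  intro y hy
  obtain ⟨a, rfl, -⟩ := E_cd_PM.1 hy
  exact cd_mem M a

theorem pr_app {s : PM M (α × β)} {a : α} {b : β} :
    App ZFM.E (cd M s) (cd M a) (cd M b) ↔ (a, b) ∈ s := by
  constructor
  · rintro ⟨p, hp, hpair⟩
    rw [isPair_iff] at hpair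
    subst hpair
    exact (E_cd_cd_PM (a := (a, b))).1 hp
  · intro h
    exact ⟨cd M (a, b), E_cd_cd_PM.2 h, isPair_pr _ _⟩

/-- the pairs in the code of a relation -/
theorem app_cd {s : PM M (α × β)} {x y : M} :
    App ZFM.E (cd M s) x y ↔ ∃ a b, cd M a = x ∧ cd M b = y ∧ (a, b) ∈ s := by
  constructor
  · rintro ⟨p, hp, hpair⟩
    rw [isPair_iff] at hpair
    subst hpair
    obtain ⟨⟨a, b⟩, h1, h2⟩ := E_cd_PM.1 hp
    obtain ⟨e1, e2⟩ := pr_inj h1
    exact ⟨a, b, e1, e2, h2⟩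
  · rintro ⟨a, b, rfl, rfl, h⟩
    exact pr_app.2 h

theorem ITools_app_iff {g x y : M} : App ZFM.E g x y ↔ ZFM.E (pr x y) g := by
  constructor
  · rintro ⟨p, hp, hpair⟩
    rw [isPair_iff] at hpair
    subst hpair
    exact hp
  · intro h
    exact ⟨pr x y, h, isPair_pr _ _⟩

theorem ITools_app_fun (f : MFun M α β) {x y : M} :
    App ZFM.E (cd M f) x y ↔ ∃ a, cd M a = x ∧ cd M (f a) = y := by
  have h0 : (cd M f : M) = cd M f.graph := rfl
  rw [h0, app_cd]
  constructor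
  · rintro ⟨a, b, h1, h2, h3⟩
    have h4 : f a = b := h3
    exact ⟨a, h1, by rw [h4]; exact h2⟩
  · rintro ⟨a, h1, h2⟩
    exact ⟨a, f a, h1, h2, rfl⟩

/-- covering by a coded type, without the assumption that it is not empty -/
theorem ITools_cov {W : Type v3} [IT M W] {s : PM M α} {b : M} {Q : W → Prop} (hQ : MF M Q)
    (hb : ∀ x, ZFM.E x b ↔ ∃ w, Q w ∧ cd M w = x) :
    Cov ZFM.E b (cd M s) ↔ ∃ g : PM M (W × α), (∀ i a a', (i, a) ∈ g → (i, a') ∈ g → a = a') ∧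
      ∀ a, a ∈ s → ∃ i, Q i ∧ (i, a) ∈ g := by
  constructor
  · rintro ⟨f, hf, hs⟩
    have hm : MF M (fun p : W × α => Q p.1 ∧ p ∈ ofM (W × α) f) := by
      have h1 : MF M (fun p : W × α => Q p.1) := mf_comp M hQ (mf_fst M)
      fun_prop
    refine ⟨PM.of (fun p : W × α => Q p.1 ∧ p ∈ ofM (W × α) f) hm, ?_, ?_⟩
    · rintro i a a' ⟨h1, h2⟩ ⟨-, h3⟩
      have h4 : App ZFM.E f (cd M i) (cd M a) := ITools_app_iff.2 h2
      have h5 : App ZFM.E f (cd M i) (cd M a') := ITools_app_iff.2 h3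
      obtain ⟨y, -, hy⟩ := hf.2 (cd M i) ((hb _).2 ⟨i, h1, rfl⟩)
      exact cd_inj M ((hy _ h4).trans (hy _ h5).symm)
    · intro a ha
      obtain ⟨x, hx⟩ := hs (cd M a) (E_cd_cd_PM.2 ha)
      have hxb : ZFM.E x b := by
        obtain ⟨x', y', h1, h2⟩ := hf.1 _ (ITools_app_iff.1 hx)
        rw [isPair_iff] at h2
        rw [(pr_inj h2).1]
        exact h1
      obtain ⟨w, hw, rfl⟩ := (hb x).1 hxb
      exact ⟨w, hw, hw, ITools_app_iff.1 hx⟩
  · rintro ⟨g, hg, hs⟩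
    refine Cov.ofRel ZFM.zfc (R := fun x y => App ZFM.E (cd M g) x y)
      (App.df (DefFun.const _) (DefFun.var _) (DefFun.var _)) ?_ ?_
    · intro x _ y z hy hz
      obtain ⟨i, a, h1, rfl, h3⟩ := app_cd.1 hy
      obtain ⟨i', a', h1', rfl, h3'⟩ := app_cd.1 hz
      have h4 : i = i' := cd_inj M (h1.trans h1'.symm)
      subst h4
      rw [hg i a a' h3 h3']
    · intro y hy
      obtain ⟨a, rfl, ha⟩ := E_cd_PM.1 hy
      obtain ⟨i, hi, hia⟩ := hs a ha
      exact ⟨cd M i, (hb _).2 ⟨i, hi, rfl⟩, pr_app.2 hia⟩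

theorem ITools_cov_iff {W : Type v3} [IT M W] {s : PM M α} :
    Cov ZFM.E (IT.dom (M := M) W) (cd M s) ↔ MCov M W (fun a => a ∈ s) := by
  have h := ITools_cov (M := M) (W := W) (s := s) (b := IT.dom (M := M) W) (Q := fun _ => True)
    (mf_const M True) (fun x => by
      rw [IT.mem_dom]
      exact ⟨fun ⟨a, ha⟩ => ⟨a, trivial, ha⟩, fun ⟨a, _, ha⟩ => ⟨a, ha⟩⟩)
  rw [h]
  unfold MCov
  simp only [true_and]

/-- a function of the model, as a function between the domains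

PROOF. `app_cd` for the graph; `MFun.graph`; the code of `f` is the code of its graph (`rfl`). -/
theorem maps_cd (f : MFun M α β) : Maps ZFM.E (cd M f) (IT.dom (M := M) α) (IT.dom (M := M) β) := by
  refine ⟨⟨?_, ?_⟩, ?_⟩
  · intro p hp
    have h0 : (cd M f : M) = cd M f.graph := rfl
    rw [h0] at hp
    obtain ⟨⟨a, b⟩, rfl, -⟩ := E_cd_PM.1 hp
    exact ⟨cd M a, cd M b, cd_mem M a, isPair_pr _ _⟩
  · intro x hx
    obtain ⟨a, rfl⟩ := (IT.mem_dom _).1 hx
    refine ⟨cd M (f a), (ITools_app_fun f).2 ⟨a, rfl, rfl⟩, ?_⟩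
    intro y hy
    obtain ⟨a', h1, h2⟩ := (ITools_app_fun f).1 hy
    have h3 : a' = a := cd_inj M h1
    subst h3
    exact h2.symm
  · intro x y hxy
    obtain ⟨a, -, rfl⟩ := (ITools_app_fun f).1 hxy
    exact cd_mem M _

theorem app_cd_fun (f : MFun M α β) {x y : M} :
    App ZFM.E (cd M f) x y ↔ ∃ a, cd M a = x ∧ cd M (f a) = y := by
  exact ITools_app_fun f

/-- every function (in the sense of the model) between the domains is (the code of) a function of the model -/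
theorem exists_of_maps {g : M} (h : Maps ZFM.E g (IT.dom (M := M) α) (IT.dom (M := M) β)) :
    ∃ f : MFun M α β, cd M f = g := by
  obtain ⟨⟨h1, h2⟩, h3⟩ := h
  have h4 : ∀ a : α, ∃ b : β, (a, b) ∈ ofM (α × β) g ∧ ∀ b', (a, b') ∈ ofM (α × β) g → b' = b := by
    intro a
    obtain ⟨y, hy, hy'⟩ := h2 (cd M a) (cd_mem M a)
    obtain ⟨b, rfl⟩ := (IT.mem_dom _).1 (h3 _ _ hy)
    refine ⟨b, ITools_app_iff.1 hy, fun b' hb' => ?_⟩
    exact cd_inj M (hy' (cd M b') (ITools_app_iff.2 hb'))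
  choose f hf hf' using h4
  have hm : MF M f := mf_of_graph (R := fun a b => (a, b) ∈ ofM (α × β) g) (by fun_prop)
    fun a b => ⟨fun h => (hf' a b h).symm, fun h => h ▸ hf a⟩
  refine ⟨⟨f, hm⟩, ?_⟩
  refine (ZFM.zfc (M := M)).ext _ _ fun y => ?_
  have h0 : (cd M (MFun.mk f hm) : M) = cd M (MFun.mk f hm).graph := rfl
  rw [h0, E_cd_PM]
  constructor
  · rintro ⟨⟨a, b⟩, rfl, hab⟩
    have h5 : f a = b := hab
    rw [← h5]
    exact hf a
  · intro hy
    obtain ⟨x, z, hx, hp⟩ := h1 y hy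
    rw [isPair_iff] at hp
    subst hp
    obtain ⟨a, rfl⟩ := (IT.mem_dom _).1 hx
    obtain ⟨b, rfl⟩ := (IT.mem_dom _).1 (h3 _ _ (ITools_app_iff.2 hy))
    exact ⟨(a, b), rfl, (hf' a b hy).symm⟩

/-- countability

PROOF. From left to right: `f : ω → ...`; use the relation `{(n, a) | App f (cd n) (cd a)}`. From right to left:
the covering relation `g : PM M (ℕ × α)`; extend it to a function with domain `ω` (by an arbitrary value, e.g.
`Cov.ofRel` in `Pool/Agent/W_MP_315f31_lc/C/Card.lean`). -/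
theorem ctb_iff {s : PM M α} : PNM.IsCtb ZFM.E (cd M s) ↔ MCt M (fun a => a ∈ s) := by
  refine Iff.trans ?_ (ITools_cov_iff (M := M) (W := ℕ) (s := s))
  constructor
  · rintro ⟨w, f, hw, hf, hs⟩
    have h1 : w = omM M := hw.uniq ZFM.zfc omM_spec
    subst h1
    exact ⟨f, hf, hs⟩
  · rintro ⟨f, hf, hs⟩
    exact ⟨omM M, f, omM_spec, hf, hs⟩

theorem ctb_iff' {s : PM M α} : DCM.IsCtb ZFM.E (cd M s) ↔ MCt M (fun a => a ∈ s) := by
  refine Iff.trans ?_ (ITools_cov_iff (M := M) (W := ℕ) (s := s))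
  constructor
  · rintro ⟨w, hw, hs⟩
    have h1 : w = omM M := hw.uniq ZFM.zfc omM_spec
    subst h1
    exact hs
  · intro h
    exact ⟨omM M, omM_spec, h⟩

/-- finiteness

PROOF. The natural numbers of the model are the `num M n` (`mem_omM`); `finite_iff`, `mf_finite`. -/
theorem fin_iff {s : PM M α} : PNM.IsFin ZFM.E (cd M s) ↔ s.set.Finite := by
  have key : ∀ n : ℕ, Cov ZFM.E (num M n) (cd M s) ↔ ∃ g : PM M (ℕ × α),
      (∀ i a a', (i, a) ∈ g → (i, a') ∈ g → a = a') ∧ ∀ a, a ∈ s → ∃ i, i < n ∧ (i, a) ∈ g := by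
    intro n
    exact ITools_cov (M := M) (W := ℕ) (s := s) (b := num M n) (Q := fun i => i < n)
      (by fun_prop) (fun x => by
        rw [E_num]
        exact Iff.rfl)
  rw [finite_iff]
  constructor
  · rintro ⟨n, f, hn, hf, hs⟩
    obtain ⟨k, rfl⟩ := mem_omM.1 ((omM_spec.mem_iff ZFM.zfc).2 hn)
    obtain ⟨g, h1, h2⟩ := (key k).1 ⟨f, hf, hs⟩
    exact ⟨k, g, h2, h1⟩
  · rintro ⟨k, g, h2, h1⟩
    obtain ⟨f, hf, hs⟩ := (key k).2 ⟨g, h1, h2⟩
    exact ⟨num M k, f, (omM_spec.mem_iff ZFM.zfc).1 (mem_omM.2 ⟨k, rfl⟩), hf, hs⟩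

/-- covering by a coded type -/
theorem cov_iff {W : Type v3} [IT M W] [Nonempty W] {s : PM M α} :
    Cov ZFM.E (IT.dom (M := M) W) (cd M s) ↔ MCov M W (fun a => a ∈ s) := by
  exact ITools_cov_iff

end

end HM
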