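import Pool.Agent.HM_h27.HFinA
import Pool.Agent.HM_h27.ITools

/-!
# HM: the space of continuous functions
-/

namespace HM

open HESR Topology

universe u v w v1 v2 v3 v4

set_option linter.unusedVariables false
set_option linter.unusedSectionVars false

section
variable {M : Type u} [ZFM M]
variable {A τ : M} [TopologicalSpace (Elt A)] [MTop M (Elt A)]
variable {R ρ : M} [LinearOrder (Elt R)] [RealLine M (Elt R)] [TopologicalSpace (Elt R)]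
  [OrderTopology (Elt R)] [DenselyOrdered (Elt R)] [NoMinOrder (Elt R)] [NoMaxOrder (Elt R)]
  [Nonempty (Elt R)]

theorem ICp_pre (f : MFun M (Elt A) (Elt R)) (V : PM M (Elt R)) (x : M) :
    ZFM.E x (cd M (PM.pre f V)) ↔ ∃ y, App ZFM.E (cd M f) x y ∧ ZFM.E y (cd M V) := by
  rw [E_cd_PM]
  constructor
  · rintro ⟨a, rfl, ha⟩
    exact ⟨cd M (f a), (app_cd_fun f).2 ⟨a, rfl, rfl⟩, E_cd_cd_PM.2 ha⟩
  · rintro ⟨y, h1, h2⟩
    obtain ⟨a, rfl, rfl⟩ := (app_cd_fun f).1 h1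
    have h3 : f a ∈ V := E_cd_cd_PM.1 h2
    exact ⟨a, rfl, h3⟩

/-- PROOF. `maps_cd`, `ctn_iff`; the preimages are the sets `PM.pre f V`. -/
theorem contin_iff (hτ : ∀ U : PM M (Elt A), Op U ↔ ZFM.E (cd M U) τ)
    (hρ : ∀ V : PM M (Elt R), Op V ↔ ZFM.E (cd M V) ρ) (f : MFun M (Elt A) (Elt R))
    (hs : ∀ V, ZFM.E V ρ → Sub ZFM.E V R) :
    PNM.IsContin ZFM.E A τ R ρ (cd M f) ↔ Ctn f := by
  constructor
  · rintro ⟨hm, hc⟩
    refine ctn_iff.2 fun V hV => ?_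
    exact (hτ _).2 (hc (cd M V) (cd M (PM.pre f V)) ((hρ V).1 hV) fun x => ICp_pre f V x)
  · intro hc
    refine ⟨maps_cd f, fun V O hV hO => ?_⟩
    have hV' : cd M (ofM (Elt R) V) = V := cd_ofM (hs V hV)
    have h1 : Op (ofM (Elt R) V) := (hρ _).2 (by rw [hV']; exact hV)
    have h2 := (hτ _).1 (ctn_iff.1 hc _ h1)
    have h3 : O = cd M (PM.pre f (ofM (Elt R) V)) := by
      refine (ZFM.zfc (M := M)).ext _ _ fun x => ?_
      rw [hO, ICp_pre, hV']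
    rw [h3]
    exact h2

/-- the domain of the type of continuous functions is `Z`

PROOF. Extensionality; `contin_iff`, `exists_of_maps`. The code of `f : CX M (Elt A) (Elt R)` is the code of
`f.1`. -/
theorem dom_CX (hτ : ∀ U : PM M (Elt A), Op U ↔ ZFM.E (cd M U) τ)
    (hρ : ∀ V : PM M (Elt R), Op V ↔ ZFM.E (cd M V) ρ) (hs : ∀ V, ZFM.E V ρ → Sub ZFM.E V R)
    {Z : M} (hZ : PNM.IsCSet ZFM.E A τ R ρ Z) : IT.dom (M := M) (CX M (Elt A) (Elt R)) = Z := by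
  refine (ZFM.zfc (M := M)).ext _ _ fun x => ?_
  rw [IT.mem_dom, hZ]
  constructor
  · rintro ⟨f, rfl⟩
    exact (contin_iff hτ hρ f.1 hs).2 f.2
  · intro h
    obtain ⟨f, rfl⟩ := exists_of_maps (α := Elt A) (β := Elt R) h.1
    exact ⟨⟨f, (contin_iff hτ hρ f hs).1 h⟩, rfl⟩

theorem ICp_sat (f : CX M (Elt A) (Elt R)) (B : PM M (Elt A × PM M (Elt R))) :
    PNM.SatB ZFM.E ρ (cd M f) (cd M B) ↔ ∀ b, b ∈ B → ZFM.E (cd M b.2) ρ ∧ f.1 b.1 ∈ b.2 := by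
  have h0 : (cd M f : M) = cd M f.1 := rfl
  constructor
  · rintro h b hb
    obtain ⟨x, V, y, h1, h2, h3, h4⟩ := h (cd M b) (E_cd_cd_PM.2 hb)
    rw [isPair_iff] at h1
    obtain ⟨e1, e2⟩ := pr_inj (show pr (cd M b.1) (cd M b.2) = pr x V from h1)
    subst e1
    subst e2
    rw [h0] at h3
    obtain ⟨a, h5, rfl⟩ := (app_cd_fun f.1).1 h3
    have h6 : a = b.1 := cd_inj M h5
    subst h6
    exact ⟨h2, E_cd_cd_PM.1 h4⟩
  · intro h b hb
    obtain ⟨⟨a, V⟩, rfl, hab⟩ := E_cd_PM.1 hb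
    obtain ⟨h1, h2⟩ := h _ hab
    refine ⟨cd M a, cd M V, cd M (f.1 a), isPair_pr _ _, h1, ?_, E_cd_cd_PM.2 h2⟩
    rw [h0]
    exact (app_cd_fun f.1).2 ⟨a, rfl, rfl⟩

/-- PROOF. Finite sets of conditions in the model correspond to elements `B : Finset (Elt A × PM M (Elt R))`
(`fin_iff`); `SatB` for the code of `B` says `f x ∈ V` for all `(x, V) ∈ B` (and `V` open, `hρ`). -/
theorem opP_iff (hτ : ∀ U : PM M (Elt A), Op U ↔ ZFM.E (cd M U) τ)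
    (hρ : ∀ V : PM M (Elt R), Op V ↔ ZFM.E (cd M V) ρ) (hs : ∀ V, ZFM.E V ρ → Sub ZFM.E V R)
    {Z : M} (hZ : PNM.IsCSet ZFM.E A τ R ρ Z) (O : PM M (CX M (Elt A) (Elt R))) :
    PNM.IsOpenP ZFM.E ρ Z (cd M O) ↔ OpP O := by
  have hdom := dom_CX hτ hρ hs hZ
  constructor
  · rintro ⟨h1, h2⟩ f hf
    obtain ⟨B, hB, hfB, hg⟩ := h2 (cd M f) (E_cd_cd_PM.2 hf)
    have hsub : Sub ZFM.E B (IT.dom (M := M) (Elt A × PM M (Elt R))) := by
      intro b hb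
      obtain ⟨x, V, y, h3, h4, h5, h6⟩ := hfB b hb
      rw [isPair_iff] at h3
      subst h3
      obtain ⟨a, rfl, -⟩ := (app_cd_fun f.1).1 (show App ZFM.E (cd M f.1) x y from h5)
      rw [← cd_ofM (M := M) (α := Elt R) (hs V h4)]
      exact cd_mem M (a, ofM (Elt R) V)
    have hBcd : cd M (ofM (Elt A × PM M (Elt R)) B) = B := cd_ofM hsub
    rw [← hBcd] at hB hfB hg
    have hfin := fin_iff.1 hB
    have hfB' := (ICp_sat f _).1 hfB
    refine ⟨hfin.toFinset, ?_, ?_⟩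
    · intro b hb
      have hb' : b ∈ ofM (Elt A × PM M (Elt R)) B := hfin.mem_toFinset.1 hb
      exact ⟨(hρ _).2 (hfB' b hb').1, (hfB' b hb').2⟩
    · intro g hg'
      have h3 : ZFM.E (cd M g) Z := by
        rw [← hdom]
        exact cd_mem M g
      refine E_cd_cd_PM.1 (hg (cd M g) h3 ((ICp_sat g _).2 fun b hb => ?_))
      exact ⟨(hfB' b hb).1, hg' b (hfin.mem_toFinset.2 hb)⟩
  · intro h
    constructor
    · have h1 := sub_dom O
      rw [hdom] at h1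
      exact h1
    · intro f hf
      obtain ⟨f', rfl, hf'⟩ := E_cd_PM.1 hf
      obtain ⟨B, hB, hB'⟩ := h f' hf'
      refine ⟨cd M (finPM (M := M) B), fin_iff.2 B.finite_toSet, ?_, ?_⟩
      · refine (ICp_sat f' _).2 fun b hb => ?_
        have hb' : b ∈ B := hb
        exact ⟨(hρ _).1 (hB b hb').1, (hB b hb').2⟩
      · intro g hg hs'
        rw [← hdom] at hg
        obtain ⟨g', rfl⟩ := (IT.mem_dom _).1 hg
        exact E_cd_cd_PM.2 (hB' g' fun b hb => ((ICp_sat g' _).1 hs' b hb).2)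

/-- PROOF. For `𝒰` take `c := cd M 𝒰`, `opP_iff`, `fin_iff`, `ctb_iff`. -/
theorem pfc_of (hτ : ∀ U : PM M (Elt A), Op U ↔ ZFM.E (cd M U) τ)
    (hρ : ∀ V : PM M (Elt R), Op V ↔ ZFM.E (cd M V) ρ) (hs : ∀ V, ZFM.E V ρ → Sub ZFM.E V R)
    {Z : M} (hZ : PNM.IsCSet ZFM.E A τ R ρ Z) (hp : PNM.PtFinCtb ZFM.E ρ Z) :
    PFC M (Elt A) (Elt R) := by
  have hdom := dom_CX hτ hρ hs hZ
  intro 𝒰 h1 h2
  refine ctb_iff.1 (hp (cd M 𝒰) ?_ ?_)
  · intro O hO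
    obtain ⟨O', rfl, hO'⟩ := E_cd_PM.1 hO
    obtain ⟨h3, f, hf⟩ := h1 O' hO'
    exact ⟨(opP_iff hτ hρ hs hZ O').2 h3, cd M f, E_cd_cd_PM.2 hf⟩
  · intro f d hf hd
    rw [← hdom] at hf
    obtain ⟨f', rfl⟩ := (IT.mem_dom _).1 hf
    have h3 : d = cd M (PM.of (fun O : PM M (CX M (Elt A) (Elt R)) => O ∈ 𝒰 ∧ f' ∈ O)
        (by fun_prop)) := by
      refine (ZFM.zfc (M := M)).ext _ _ fun x => ?_
      rw [hd]
      constructor
      · rintro ⟨h4, h5⟩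
        obtain ⟨O, rfl, hO⟩ := E_cd_PM.1 h4
        exact E_cd_PM.2 ⟨O, rfl, hO, E_cd_cd_PM.1 h5⟩
      · intro h4
        obtain ⟨O, rfl, hO, hO'⟩ := E_cd_PM.1 h4
        exact ⟨E_cd_cd_PM.2 hO, E_cd_cd_PM.2 hO'⟩
    rw [h3]
    exact fin_iff.2 (h2 f')

end

end HM
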