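import Pool.Agent.HM_h27.Ax
import Pool.Agent.HM_h27.ITools
import Pool.Agent.W_MP_315f31_lc.C.Dee
import Pool.Agent.W_MP_3b51b4_h40.StmtMO

/-!
# HM: Martin's axiom and the open colouring axiom of the model, in internal form
-/

namespace HM

open HESR

universe u v w v1 v2 v3 v4

set_option linter.unusedVariables false
set_option linter.unusedSectionVars false

section
variable {M : Type u} [ZFM M]
variable {W : Type v3} [IT M W] [LinearOrder W] [WO M W]

/-- `W` is covered by `ω₁` of the model.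

PROOF. `exists_om1`-type lemmas of `Pool/Agent/W_MP_315f31_lc/C` give `w1` with `DCM.IsOm1`. The coded type `Elt w1`
is not countable (`ctb_iff'` for `PM.of (fun _ : Elt w1 => True) _`, whose code is `w1`), so by `hW.exists_inj` there
is an injection `W → Elt w1` in the model; the inverse relation covers `W`. -/
theorem exists_om1_cov (hW : IsOm1T M W) : ∃ w1 : M, DCM.IsOm1 ZFM.E w1 ∧
    MCov M (Elt w1) (fun _ : W => True) := by
  obtain ⟨w1, h1⟩ := DCM.exOm1 (ZFM.zfc (M := M))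
  have hcd : cd M (ofM (Elt w1) w1) = w1 := cd_ofM fun y hy => hy
  have hc : ¬ MCt M (fun _ : Elt w1 => True) := by
    intro h
    refine h1.2.1 ?_
    have h2 : DCM.IsCtb ZFM.E (cd M (ofM (Elt w1) w1)) :=
      ctb_iff'.2 (MCov.mono h fun _ _ => trivial)
    rwa [hcd] at h2
  obtain ⟨e, he, hinj, -⟩ := hW.exists_inj (P := fun _ : Elt w1 => True) (mf_const M True) hc
  refine ⟨w1, h1, PM.of (fun p : Elt w1 × W => e p.2 = p.1) (by fun_prop), ?_, ?_⟩
  · intro i a b ha hb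
    exact hinj ((show e a = i from ha).trans (show e b = i from hb).symm)
  · intro a _
    exact ⟨e a, rfl⟩

/-- PROOF. Apply `MAO.MA1` to `Y := IT.dom P`, `R := cd (PM.of (fun p => le p.1 p.2) _)`, `F := ` the code of the set
`{PM.of (D i) | i : W}` of elements of `PM M P` (covered by `w1` of `exists_om1_cov`, `cov_iff`). Antichains are
countable by `hccc`, `ctb_iff'`. The filter `G` is turned into `fun p => E (cd p) G`. -/
theorem maw_of (hW : IsOm1T M W) (h : MAO.MA1 (ZFM.E (M := M))) : MAW M W := by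
  intro P _ _ le hle hr ht hccc D hD hd
  obtain ⟨w1, hw1, hcov⟩ := exists_om1_cov hW
  have hneW : Nonempty W := by
    by_contra hn
    exact hW.unc (MCov.empty fun a _ => hn ⟨a⟩)
  have hne : Nonempty (Elt w1) := by
    obtain ⟨g, -, hg⟩ := hcov
    obtain ⟨a⟩ := hneW
    obtain ⟨i, -⟩ := hg a trivial
    exact ⟨i⟩
  have hsec : MF M (PM.sec D hD) := mf_PMsec hD
  have hR : ∀ p q : P, App ZFM.E (cd M (PM.of (fun p : P × P => le p.1 p.2) hle)) (cd M p)
      (cd M q) ↔ le p q := fun p q => pr_app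
  have hF : ∀ D' : M, ZFM.E D' (cd M (PM.of (fun s : PM M P => ∃ i : W, PM.sec D hD i = s)
      (by fun_prop))) ↔ ∃ i, cd M (PM.sec D hD i) = D' := by
    intro D'
    rw [E_cd_PM]
    constructor
    · rintro ⟨s, rfl, i, rfl⟩
      exact ⟨i, rfl⟩
    · rintro ⟨i, rfl⟩
      exact ⟨_, rfl, i, rfl⟩
  have hFmf : MF M (fun s : PM M P => ∃ i : W, PM.sec D hD i = s) := by fun_prop
  have hpos : MAO.IsPos (ZFM.E (M := M)) (IT.dom (M := M) P)
      (cd M (PM.of (fun p : P × P => le p.1 p.2) hle)) := by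
    refine ⟨?_, ?_, ?_⟩
    · obtain ⟨p⟩ := (inferInstance : Nonempty P)
      exact ⟨cd M p, cd_mem M p⟩
    · intro x hx
      obtain ⟨p, rfl⟩ := (IT.mem_dom _).1 hx
      exact (hR p p).2 (hr p)
    · intro x y z hx hy hz h1 h2
      obtain ⟨p, rfl⟩ := (IT.mem_dom _).1 hx
      obtain ⟨q, rfl⟩ := (IT.mem_dom _).1 hy
      obtain ⟨r, rfl⟩ := (IT.mem_dom _).1 hz
      exact (hR p r).2 (ht p q r ((hR p q).1 h1) ((hR q r).1 h2))
  have hccc' : MAO.CCC (ZFM.E (M := M)) (IT.dom (M := M) P)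
      (cd M (PM.of (fun p : P × P => le p.1 p.2) hle)) := by
    intro A hA hAC
    rw [← cd_ofM hA, ctb_iff']
    refine hccc (fun a => a ∈ ofM P A) (ofM P A).mf' ?_
    rintro p q hp hq hpq ⟨r, h1, h2⟩
    exact hAC (cd M p) (cd M q) hp hq (fun h3 => hpq (cd_inj M h3))
      ⟨cd M r, cd_mem M r, (hR r p).2 h1, (hR r q).2 h2⟩
  have hcv : Cov (ZFM.E (M := M)) w1 (cd M (PM.of (fun s : PM M P => ∃ i : W, PM.sec D hD i = s)
      hFmf)) := by
    refine (cov_iff (W := Elt w1)).2 ?_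
    refine hcov.image hsec ?_
    rintro s ⟨i, hi⟩
    exact ⟨i, trivial, hi⟩
  have hdn : ∀ D', ZFM.E D' (cd M (PM.of (fun s : PM M P => ∃ i : W, PM.sec D hD i = s) hFmf)) →
      MAO.IsDns (ZFM.E (M := M)) (IT.dom (M := M) P)
        (cd M (PM.of (fun p : P × P => le p.1 p.2) hle)) D' := by
    intro D' hD'
    obtain ⟨i, rfl⟩ := (hF D').1 hD'
    refine ⟨sub_dom _, ?_⟩
    intro x hx
    obtain ⟨p, rfl⟩ := (IT.mem_dom _).1 hx
    obtain ⟨q, hq, hqp⟩ := hd i p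
    exact ⟨cd M q, E_cd_cd_PM.2 hq, (hR q p).2 hqp⟩
  obtain ⟨G, ⟨hG1, hG2, hG3, hG4⟩, hG5⟩ := h w1 _ _ _ hw1 hpos hccc' hcv hdn
  refine ⟨fun p => ZFM.E (cd M p) G, (ofM P G).mf', ?_, ?_, ?_⟩
  · intro p q hp hpq
    exact hG3 _ _ hp (cd_mem M q) ((hR p q).2 hpq)
  · intro p q hp hq
    obtain ⟨z, hz, h1, h2⟩ := hG4 _ _ hp hq
    obtain ⟨r, rfl⟩ := (IT.mem_dom _).1 (hG1 z hz)
    exact ⟨r, hz, (hR r p).1 h1, (hR r q).1 h2⟩
  · intro i
    obtain ⟨z, hz, h1⟩ := hG5 _ ((hF _).2 ⟨i, rfl⟩)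
    obtain ⟨r, rfl⟩ := (IT.mem_dom _).1 (hG1 z hz)
    exact ⟨r, hz, (E_cd_cd_PM (s := PM.sec D hD i)).1 h1⟩

end

end HM
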