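import Pool.Agent.HM_h27.ITools
import Pool.Agent.HM_h27.Top

/-!
# HM: functions of two variables and real lines as sets of the model
-/

namespace HM

open HESR Topology

universe u v w v1 v2 v3 v4

set_option linter.unusedVariables false
set_option linter.unusedSectionVars false

section
variable {M : Type u} [ZFM M]
variable {α : Type v} {β : Type w} {γ : Type v1} [IT M α] [IT M β] [IT M γ]

/-- the graph of a function of two variables

PROOF. As `app_cd`, `app_cd_fun`; the code of a pair is `pr` of the codes (`cd_prod`). -/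
theorem app2_cd_fun (f : MFun M (α × β) γ) {x y z : M} :
    PNM.App2 ZFM.E (cd M f) x y z ↔ ∃ a b, cd M a = x ∧ cd M b = y ∧ cd M (f (a, b)) = z := by
  constructor
  · rintro ⟨p, hp, happ⟩
    rw [isPair_iff] at hp
    subst hp
    obtain ⟨⟨a, b⟩, h1, h2⟩ := (app_cd_fun f).1 happ
    obtain ⟨e1, e2⟩ := pr_inj h1
    exact ⟨a, b, e1, e2, h2⟩
  · rintro ⟨a, b, rfl, rfl, rfl⟩
    exact ⟨cd M (a, b), isPair_pr _ _, (app_cd_fun f).2 ⟨(a, b), rfl, rfl⟩⟩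

theorem maps2_cd (f : MFun M (α × α) γ) :
    PNM.Maps2 ZFM.E (cd M f) (IT.dom (M := M) α) (IT.dom (M := M) γ) := by
  refine ⟨?_, ?_, ?_⟩
  · intro x y hx hy
    obtain ⟨a, rfl⟩ := (IT.mem_dom _).1 hx
    obtain ⟨b, rfl⟩ := (IT.mem_dom _).1 hy
    exact ⟨cd M (f (a, b)), (app2_cd_fun f).2 ⟨a, b, rfl, rfl, rfl⟩⟩
  · intro x y z h
    obtain ⟨a, b, rfl, rfl, rfl⟩ := (app2_cd_fun f).1 h
    exact ⟨cd_mem M a, cd_mem M b, cd_mem M _⟩
  · intro x y z z' h h'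
    obtain ⟨a, b, rfl, rfl, rfl⟩ := (app2_cd_fun f).1 h
    obtain ⟨a', b', h1, h2, rfl⟩ := (app2_cd_fun f).1 h'
    rw [cd_inj M h1, cd_inj M h2]

/-- A real line of the model is a line in the sense of `IsLine`.

PROOF. `pr_app`, `app_cd`; the countable dense set is the code of the range of `qq` (`ctb_iff`, `MCov.of_enum`); a subset
`S` of the domain is the code of `ofM R S` (`cd_ofM`). -/
theorem isLine_cd {R : Type w} [IT M R] [LinearOrder R] [RealLine M R] [DenselyOrdered R] [NoMinOrder R]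
    [NoMaxOrder R] [Nonempty R] (h : MF M (fun p : R × R => p.1 < p.2)) :
    PNM.IsLine ZFM.E (IT.dom (M := M) R) (cd M (PM.of (fun p : R × R => p.1 < p.2) h)) := by
  have hL : ∀ a b : R, App ZFM.E (cd M (PM.of (fun p : R × R => p.1 < p.2) h)) (cd M a) (cd M b) ↔
      a < b := fun a b => pr_app
  have hL' : ∀ x y : M, App ZFM.E (cd M (PM.of (fun p : R × R => p.1 < p.2) h)) x y →
      ∃ a b : R, cd M a = x ∧ cd M b = y ∧ a < b := fun x y hxy => app_cd.1 hxy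
  refine ⟨?_, ?_, ?_, ?_, ?_, ?_, ?_, ?_⟩
  · obtain ⟨a⟩ := (inferInstance : Nonempty R)
    exact ⟨cd M a, cd_mem M a⟩
  · intro x y hxy
    obtain ⟨a, b, rfl, rfl, -⟩ := hL' x y hxy
    exact ⟨cd_mem M a, cd_mem M b⟩
  · intro x hxx
    obtain ⟨a, b, h1, h2, h3⟩ := hL' x x hxx
    rw [cd_inj M (h1.trans h2.symm)] at h3
    exact lt_irrefl _ h3
  · intro x y z hxy hyz
    obtain ⟨a, b, rfl, rfl, h3⟩ := hL' x y hxy
    obtain ⟨b', c, h4, rfl, h5⟩ := hL' _ z hyz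
    rw [cd_inj M h4] at h5
    exact (hL a c).2 (h3.trans h5)
  · intro x y hx hy
    obtain ⟨a, rfl⟩ := (IT.mem_dom _).1 hx
    obtain ⟨b, rfl⟩ := (IT.mem_dom _).1 hy
    rcases lt_trichotomy a b with h1 | h1 | h1
    · exact Or.inr (Or.inl ((hL a b).2 h1))
    · exact Or.inl (by rw [h1])
    · exact Or.inr (Or.inr ((hL b a).2 h1))
  · intro x hx
    obtain ⟨a, rfl⟩ := (IT.mem_dom _).1 hx
    obtain ⟨b, hb⟩ := exists_gt a
    obtain ⟨c, hc⟩ := exists_lt a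
    exact ⟨⟨cd M b, (hL a b).2 hb⟩, cd M c, (hL c a).2 hc⟩
  · refine ⟨cd M (PM.of (fun a : R => ∃ n : ℕ, qq M R n = a) (by fun_prop)), sub_dom _, ?_, ?_⟩
    · exact ctb_iff.2 (MCov.of_enum (e := qq M R) mf_qq0 fun a ha => ha)
    · intro x y hxy
      obtain ⟨a, b, rfl, rfl, h3⟩ := hL' x y hxy
      obtain ⟨n, hn1, hn2⟩ := qq_dense (M := M) h3
      exact ⟨cd M (qq M R n), E_cd_cd_PM.2 ⟨n, rfl⟩, (hL _ _).2 hn1, (hL _ _).2 hn2⟩
  · intro S hS hne hbd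
    have hS' : ∀ x, ZFM.E x S → ∃ a : R, cd M a = x ∧ a ∈ ofM (M := M) R S := by
      intro x hx
      obtain ⟨a, rfl⟩ := (IT.mem_dom _).1 (hS x hx)
      exact ⟨a, rfl, hx⟩
    obtain ⟨x0, hx0⟩ := hne
    obtain ⟨a0, rfl, ha0⟩ := hS' x0 hx0
    obtain ⟨b, hb, hb'⟩ := hbd
    obtain ⟨b0, rfl⟩ := (IT.mem_dom _).1 hb
    obtain ⟨c, hc⟩ := RealLine.lub (M := M) (ofM (M := M) R S) ⟨a0, ha0⟩ ⟨b0, fun a ha =>
      not_lt.1 fun hlt => hb' (cd M a) ha ((hL b0 a).2 hlt)⟩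
    refine ⟨cd M c, cd_mem M c, ?_, ?_⟩
    · intro x hx hcx
      obtain ⟨a, rfl, ha⟩ := hS' x hx
      exact absurd ((hL c a).1 hcx) (not_lt.2 (hc.1 ha))
    · intro d hd hd' hdc
      obtain ⟨d0, rfl⟩ := (IT.mem_dom _).1 hd
      have h1 : c ≤ d0 := hc.2 fun a ha => not_lt.1 fun hlt => hd' (cd M a) ha ((hL d0 a).2 hlt)
      exact absurd ((hL d0 c).1 hdc) (not_lt.2 h1)

end

end HM
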