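import Pool.Agent.HM_h27.MetB
import Pool.Agent.HM_h27.IMetA

/-!
# HM: metrizability, translation to sets of the model
-/

namespace HM

open HESR Topology

universe u v w v1 v2 v3 v4

set_option linter.unusedVariables false
set_option linter.unusedSectionVars false

section
/-- the addition of the real numbers of the model -/
noncomputable def addF (M : Type u) [ZFM M] : MFun M (RM M × RM M) (RM M) :=
  ⟨fun p => p.1 + p.2, by fun_prop⟩

/-- the order of the real numbers of the model -/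
noncomputable def ltP (M : Type u) [ZFM M] : PM M (RM M × RM M) :=
  PM.of (fun p => p.1 < p.2) (by fun_prop)

theorem IMet_E {M : Type u} [ZFM M] {A : M} {U : PM M (Elt A)} {x : M} :
    ZFM.E x (cd M U) ↔ ∃ a : Elt A, a.1 = x ∧ a ∈ U := E_cd_PM

theorem IMet_mem {M : Type u} [ZFM M] {A : M} {U : PM M (Elt A)} {a : Elt A} :
    ZFM.E a.1 (cd M U) ↔ a ∈ U :=
  E_cd_cd_PM (M := M) (a := a)

theorem IMet_ofM {M : Type u} [ZFM M] {A O : M} (h : Sub ZFM.E O A) :
    cd M (ofM (M := M) (Elt A) O) = O :=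
  cd_ofM (M := M) (α := Elt A) h

theorem IMet_add (M : Type u) [ZFM M] {x y z : M} :
    PNM.App2 ZFM.E (cd M (addF M)) x y z ↔
      ∃ a b : RM M, cd M a = x ∧ cd M b = y ∧ cd M (a + b) = z :=
  app2_cd_fun (addF M)

theorem IMet_lt (M : Type u) [ZFM M] {x y : M} :
    App ZFM.E (cd M (ltP M)) x y ↔ ∃ a b : RM M, cd M a = x ∧ cd M b = y ∧ a < b := by
  have h := app_cd (s := ltP M) (x := x) (y := y)
  exact h

theorem isRealGroup_RM (M : Type u) [ZFM M] : PNM.IsRealGroup ZFM.E (IT.dom (M := M) (RM M)) (cd M (ltP M))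
    (cd M (addF M)) (cd M (0 : RM M)) := by
  refine ⟨isLine_cd _, cd_mem M _, maps2_cd (addF M), ?_, ?_, ?_, ?_, ?_⟩
  · intro x hx
    obtain ⟨a, rfl⟩ := (IT.mem_dom _).1 hx
    exact (IMet_add M).2 ⟨a, 0, rfl, rfl, by rw [add_zero]⟩
  · intro x hx
    obtain ⟨a, rfl⟩ := (IT.mem_dom _).1 hx
    exact ⟨cd M (-a), (IMet_add M).2 ⟨a, -a, rfl, rfl, by rw [add_neg_cancel]⟩⟩
  · intro x y z h
    obtain ⟨a, b, rfl, rfl, rfl⟩ := (IMet_add M).1 h
    exact (IMet_add M).2 ⟨b, a, rfl, rfl, by rw [add_comm]⟩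
  · intro x y z u v w h1 h2 h3
    obtain ⟨a, b, rfl, rfl, rfl⟩ := (IMet_add M).1 h1
    obtain ⟨e, c, h4, rfl, rfl⟩ := (IMet_add M).1 h2
    obtain ⟨b', c', h5, h6, rfl⟩ := (IMet_add M).1 h3
    have e1 : e = a + b := cd_inj M h4
    have e2 : b' = b := cd_inj M h5
    have e3 : c' = c := cd_inj M h6
    subst e1
    subst e2
    subst e3
    exact (IMet_add M).2 ⟨a, b' + c', rfl, rfl, by rw [add_assoc]⟩
  · intro x y z u v h1 h2 h3
    obtain ⟨a, b, rfl, rfl, hab⟩ := (IMet_lt M).1 h1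
    obtain ⟨a', c, h4, rfl, rfl⟩ := (IMet_add M).1 h2
    obtain ⟨b', c', h5, h6, rfl⟩ := (IMet_add M).1 h3
    have e1 : a' = a := cd_inj M h4
    have e2 : b' = b := cd_inj M h5
    have e3 : c' = c := cd_inj M h6
    subst e1
    subst e2
    subst e3
    exact (IMet_lt M).2 ⟨a' + c', b' + c', rfl, rfl, add_lt_add_left hab _⟩

variable {M : Type u} [ZFM M]
variable {A τ : M} [TopologicalSpace (Elt A)] [MTop M (Elt A)] [T2Space (Elt A)] [MCpt M (Elt A)]

/-- PROOF. `exists_metric`, `isRealGroup_RM`, `app2_cd_fun`, `IT.dom (Elt A) = A`; a set `U` with `Sub E U A` is the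
code of `ofM (Elt A) U` (`cd_ofM`). -/
theorem metrizable_of (hT : PNM.IsTop ZFM.E A τ) (hτ : ∀ U : PM M (Elt A), Op U ↔ ZFM.E (cd M U) τ)
    (h : MSC M (Elt A)) : PNM.IsMetrizable ZFM.E A τ := by
  obtain ⟨d, h0, hs, ht, hU⟩ := exists_metric h
  have hd : ∀ {x y z : M}, PNM.App2 ZFM.E (cd M d) x y z ↔
      ∃ a b : Elt A, a.1 = x ∧ b.1 = y ∧ cd M (d (a, b)) = z := fun {x y z} => app2_cd_fun d
  refine ⟨_, _, _, _, cd M d, isRealGroup_RM M, ⟨maps2_cd d, ?_, ?_, ?_⟩, ?_⟩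
  · intro x y
    constructor
    · intro h1
      obtain ⟨a, b, rfl, rfl, h2⟩ := hd.1 h1
      have h3 : a = b := (h0 a b).1 (cd_inj M h2)
      subst h3
      exact ⟨a.2, rfl⟩
    · rintro ⟨h1, rfl⟩
      exact hd.2 ⟨⟨x, h1⟩, ⟨x, h1⟩, rfl, rfl, by rw [(h0 _ _).2 rfl]⟩
  · intro x y r h1
    obtain ⟨a, b, rfl, rfl, rfl⟩ := hd.1 h1
    exact hd.2 ⟨b, a, rfl, rfl, by rw [hs]⟩
  · intro x y z r s t q h1 h2 h3 h4 h5
    obtain ⟨a, b, rfl, rfl, rfl⟩ := hd.1 h1
    obtain ⟨b', c, e1, rfl, rfl⟩ := hd.1 h2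
    obtain ⟨a', c', e2, e3, rfl⟩ := hd.1 h3
    have f1 : b' = b := Subtype.ext e1
    have f2 : a' = a := Subtype.ext e2
    have f3 : c' = c := Subtype.ext e3
    subst f1
    subst f2
    subst f3
    obtain ⟨r', s', e4, e5, rfl⟩ := (IMet_add M).1 h4
    have f4 : r' = d (a', b') := cd_inj M e4
    have f5 : s' = d (b', c') := cd_inj M e5
    subst f4
    subst f5
    obtain ⟨q', t', e6, e7, h6⟩ := (IMet_lt M).1 h5
    have f6 : q' = _ := cd_inj M e6
    have f7 : t' = _ := cd_inj M e7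
    subst f6
    subst f7
    exact absurd (ht a' b' c') (not_le.2 h6)
  · have key : ∀ V : PM M (Elt A), (∀ x, x ∈ V → ∃ ε : RM M, 0 < ε ∧ ∀ y, d (x, y) < ε → y ∈ V) ↔
        ∀ x, ZFM.E x (cd M V) → ∃ e, App ZFM.E (cd M (ltP M)) (cd M (0 : RM M)) e ∧
          ∀ y r, PNM.App2 ZFM.E (cd M d) x y r → App ZFM.E (cd M (ltP M)) r e →
            ZFM.E y (cd M V) := by
      intro V
      constructor
      · intro h1 x hx
        obtain ⟨a, rfl, ha⟩ := IMet_E.1 hx
        obtain ⟨ε, h2, h3⟩ := h1 a ha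
        refine ⟨cd M ε, (IMet_lt M).2 ⟨0, ε, rfl, rfl, h2⟩, fun y r h4 h5 => ?_⟩
        obtain ⟨a', b, e1, rfl, rfl⟩ := hd.1 h4
        have f1 : a' = a := Subtype.ext e1
        subst f1
        obtain ⟨r', ε', e2, e3, h6⟩ := (IMet_lt M).1 h5
        have f2 : r' = _ := cd_inj M e2
        have f3 : ε' = ε := cd_inj M e3
        subst f2
        subst f3
        exact IMet_mem.2 (h3 b h6)
      · intro h1 a ha
        obtain ⟨e, h2, h3⟩ := h1 a.1 (IMet_mem.2 ha)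
        obtain ⟨z, ε, e1, rfl, h4⟩ := (IMet_lt M).1 h2
        have f1 : z = 0 := cd_inj M e1
        subst f1
        refine ⟨ε, h4, fun b hb => ?_⟩
        exact IMet_mem.1 (h3 b.1 (cd M (d (a, b))) (hd.2 ⟨a, b, rfl, rfl, rfl⟩)
          ((IMet_lt M).2 ⟨d (a, b), ε, rfl, rfl, hb⟩))
    intro U
    constructor
    · intro h1
      have h2 : Sub ZFM.E U A := hT.1 U h1
      have e : cd M (ofM (M := M) (Elt A) U) = U := IMet_ofM h2
      have h3 : Op (ofM (M := M) (Elt A) U) := (hτ _).2 (by rw [e]; exact h1)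
      have h4 := (key _).1 ((hU _).1 h3)
      rw [e] at h4
      exact ⟨h2, h4⟩
    · rintro ⟨h2, h4⟩
      have e : cd M (ofM (M := M) (Elt A) U) = U := IMet_ofM h2
      have h3 : Op (ofM (M := M) (Elt A) U) := by
        refine (hU _).2 ((key _).2 ?_)
        rw [e]
        exact h4
      have h5 := (hτ _).1 h3
      rw [e] at h5
      exact h5

end

end HM
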