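import Pool.Agent.HM_h27.Ax
import Pool.Agent.HM_h27.ITools
import Pool.Agent.W_MP_3b51b4_h40.StmtMO

/-!
# HM: the open colouring axiom of the model, in internal form
-/

namespace HM

open HESR

universe u v w v1 v2 v3 v4

set_option linter.unusedVariables false
set_option linter.unusedSectionVars false

section
variable {M : Type u} [ZFM M]
variable {W : Type v3} [IT M W] [LinearOrder W] [WO M W]

theorem IOCA_pair {c : M} {a b : M} : App ZFM.E c a b ↔ ZFM.E (pr a b) c := by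
  constructor
  · rintro ⟨p, hp, h⟩
    rw [isPair_iff] at h
    rw [← h]
    exact hp
  · intro h
    exact ⟨_, h, isPair_pr _ _⟩

/-- the real coding the pair `(A s, B s)` -/
theorem IOCA_mfcs {S : Type v} [IT M S] {A B : S → ℕ → Prop} (hA : MF M (fun p : S × ℕ => A p.1 p.2))
    (hB : MF M (fun p : S × ℕ => B p.1 p.2)) :
    MF M (fun p : S × ℕ => (∃ n, p.2 = n + n ∧ A p.1 n) ∨ (∃ n, p.2 = n + n + 1 ∧ B p.1 n)) := by
  have hA' : MF M (fun q : (S × ℕ) × ℕ => A q.1.1 q.2) :=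
    mf_comp M (g := fun p : S × ℕ => A p.1 p.2) (f := fun q : (S × ℕ) × ℕ => (q.1.1, q.2)) hA
      (by fun_prop)
  have hB' : MF M (fun q : (S × ℕ) × ℕ => B q.1.1 q.2) :=
    mf_comp M (g := fun p : S × ℕ => B p.1 p.2) (f := fun q : (S × ℕ) × ℕ => (q.1.1, q.2)) hB
      (by fun_prop)
  fun_prop

/-- the graph on the reals -/
noncomputable def IOCA_GG (M : Type u) [ZFM M] : PM M (PM M ℕ × PM M ℕ) :=
  PM.of (fun p => (∃ n, (n + n) ∈ p.1 ∧ (n + n + 1) ∈ p.2) ∧ ∃ n, (n + n) ∈ p.2 ∧ (n + n + 1) ∈ p.1)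
    (by fun_prop)

theorem IOCA_mem {a b : PM M ℕ} : (a, b) ∈ IOCA_GG M ↔
    (∃ n, (n + n) ∈ a ∧ (n + n + 1) ∈ b) ∧ ∃ n, (n + n) ∈ b ∧ (n + n + 1) ∈ a := Iff.rfl

theorem IOCA_agr {N k : ℕ} (hk : k < N) {a b : PM M ℕ}
    (h : MAO.Agr ZFM.E (num M N) (cd M a) (cd M b)) (ha : k ∈ a) : k ∈ b := by
  have h1 := h (num M k) (E_num.2 ⟨k, hk, rfl⟩)
  exact E_cd_cd_PM.1 (h1.1 (E_cd_cd_PM.2 ha))

theorem IOCA_og (XX : PM M (PM M ℕ)) : MAO.IsOG ZFM.E (omM M) (cd M XX) (cd M (IOCA_GG M)) := by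
  intro x y hx hy hxy
  obtain ⟨a, b, rfl, rfl, hab⟩ := app_cd.1 hxy
  refine ⟨pr_app.2 ⟨hab.2, hab.1⟩, ?_⟩
  obtain ⟨⟨n, hn1, hn2⟩, ⟨n', hn1', hn2'⟩⟩ := hab
  refine ⟨num M (n + n + 1 + (n' + n' + 1) + 1), mem_omM.2 ⟨_, rfl⟩, ?_⟩
  intro x' y' hx' hy' h1 h2
  obtain ⟨a', rfl, -⟩ := E_cd_PM.1 hx'
  obtain ⟨b', rfl, -⟩ := E_cd_PM.1 hy'
  refine pr_app.2 ⟨⟨n, ?_, ?_⟩, ⟨n', ?_, ?_⟩⟩
  · exact IOCA_agr (by omega) h1 hn1
  · exact IOCA_agr (by omega) h2 hn2
  · exact IOCA_agr (by omega) h2 hn1'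
  · exact IOCA_agr (by omega) h1 hn2'

/-- PROOF. Let `cs s : PM M ℕ` be `{2n | A s n} ∪ {2n+1 | B s n}` (addition is in the model: `2n = n + n`). Apply
`MAO.OCA` to `w := omM M`, `X := ` the code of `{cs s | Q s}` (a set of elements of `PM M ℕ`; its elements are
subsets of `omM`), `G := ` the code of the relation of all pairs `(cs s, cs t)` with `Q s`, `Q t` and
`(∃ n, A s n ∧ B t n) ∧ ∃ n, A t n ∧ B s n` on `PM M ℕ`. It is an open graph: `A s n ↔ 2n ∈ cs s`, so the relation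
depends only on `cs s`, `cs t`, and is witnessed by finitely many elements: take for `n` in `IsOG` the number
`num M N` with `N` above `2n+1`, `2n'+1` (`E_num`). First alternative: a set of reals which is not countable
(`ctb_iff'`), contains the range of an injection of `W` (`hW.exists_inj`); choose (`exists_choose`) `e i` with
`Q (e i)` and `cs (e i)` the `i`-th of these reals. Second alternative: `c : X → ω`; compose with `cs`; for `s, t`
with `Q` of the same colour: if `cs s = cs t` then `A s n ∧ B t n` gives `A s n ∧ B s n`, impossible; otherwise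
use the alternative. -/
theorem ocaw_of (hW : IsOm1T M W) (h : MAO.OCA (ZFM.E (M := M))) : OCAW.{u, v, v3} M W := by
  classical
  intro S _ Q A B hQ hA hB hd
  let cs : S → PM M ℕ := PM.sec (fun s k => (∃ n, k = n + n ∧ A s n) ∨ (∃ n, k = n + n + 1 ∧ B s n))
    (IOCA_mfcs hA hB)
  have hcs : MF M cs := mf_PMsec (IOCA_mfcs hA hB)
  have hcsA : ∀ s n, (n + n) ∈ cs s ↔ A s n := by
    intro s n
    constructor
    · rintro (⟨m, h1, h2⟩ | ⟨m, h1, h2⟩)
      · have h3 : n = m := by omega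
        rw [h3]
        exact h2
      · exfalso
        omega
    · intro h1
      exact Or.inl ⟨n, rfl, h1⟩
  have hcsB : ∀ s n, (n + n + 1) ∈ cs s ↔ B s n := by
    intro s n
    constructor
    · rintro (⟨m, h1, h2⟩ | ⟨m, h1, h2⟩)
      · exfalso
        omega
      · have h3 : n = m := by omega
        rw [h3]
        exact h2
    · intro h1
      exact Or.inr ⟨n, rfl, h1⟩
  let XX : PM M (PM M ℕ) := PM.of (fun r => ∃ s, Q s ∧ cs s = r) (by fun_prop)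
  rcases h (omM M) (cd M XX) (cd M (IOCA_GG M)) omM_spec (by
      intro x hx
      obtain ⟨r, rfl, -⟩ := E_cd_PM.1 hx
      exact sub_dom r) (IOCA_og XX) with ⟨A', hA'X, hA'c, hA'G⟩ | ⟨c, hc, hcG⟩
  · left
    have hsub : Sub ZFM.E A' (IT.dom (M := M) (PM M ℕ)) := fun z hz => sub_dom XX z (hA'X z hz)
    have hcd : cd M (ofM (PM M ℕ) A') = A' := cd_ofM hsub
    have hunc : ¬ MCt M (fun a => a ∈ ofM (PM M ℕ) A') := by
      intro h1
      apply hA'c
      have h2 := ctb_iff'.2 h1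
      rw [hcd] at h2
      exact h2
    obtain ⟨e, he, hinj, heA⟩ := hW.exists_inj (P := fun a => a ∈ ofM (PM M ℕ) A') (by fun_prop) hunc
    have heE : ∀ i, ZFM.E (cd M (e i)) A' := fun i => heA i
    obtain ⟨e', he', heQ⟩ := exists_choose (M := M) (α := W) (β := S)
      (R := fun i s => Q s ∧ cs s = e i) (by fun_prop) (fun i => by
        have h1 : e i ∈ XX := E_cd_cd_PM.1 (hA'X _ (heE i))
        exact h1)
    refine ⟨e', he', fun i => (heQ i).1, fun i j hij => ?_⟩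
    have h1 := pr_app.1 (hA'G _ _ (heE i) (heE j) (fun h2 => hij (hinj (cd_inj M h2))))
    obtain ⟨⟨n, hn1, hn2⟩, -⟩ := IOCA_mem.1 h1
    refine ⟨n, (hcsA _ _).1 ?_, (hcsB _ _).1 ?_⟩
    · rw [(heQ i).2]
      exact hn1
    · rw [(heQ j).2]
      exact hn2
  · right
    have hCC : ∀ (r : PM M ℕ) (n : ℕ), (r, n) ∈ ofM (PM M ℕ × ℕ) c ↔ App ZFM.E c (cd M r) (cd M n) := by
      intro r n
      rw [IOCA_pair]
      exact Iff.rfl
    obtain ⟨c', hc', hc'R⟩ := exists_choose (M := M) (α := S) (β := ℕ)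
      (R := fun s n => Q s → (cs s, n) ∈ ofM (PM M ℕ × ℕ) c) (by fun_prop) (fun s => by
        by_cases hs : Q s
        · have h1 : ZFM.E (cd M (cs s)) (cd M XX) := E_cd_cd_PM.2 ⟨s, hs, rfl⟩
          obtain ⟨y, hy, -⟩ := hc.1.2 _ h1
          obtain ⟨n, rfl⟩ := mem_omM.1 (hc.2 _ _ hy)
          exact ⟨n, fun _ => (hCC _ _).2 hy⟩
        · exact ⟨0, fun h1 => absurd h1 hs⟩)
    refine ⟨c', hc', fun s t hs ht hst => ?_⟩
    rintro ⟨⟨n, hn1, hn2⟩, ⟨n', hn1', hn2'⟩⟩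
    have h1 := (hCC _ _).1 (hc'R s hs)
    have h2 := (hCC _ _).1 (hc'R t ht)
    rw [hst] at h1
    by_cases hcst : cs s = cs t
    · have h3 := (hcsB t n).2 hn2
      rw [← hcst] at h3
      exact hd s n hs ⟨hn1, (hcsB s n).1 h3⟩
    · refine hcG _ _ _ h1 h2 (fun h3 => hcst (cd_inj M h3)) (pr_app.2 (IOCA_mem.2 ⟨⟨n, ?_, ?_⟩, ⟨n', ?_, ?_⟩⟩))
      · exact (hcsA _ _).2 hn1
      · exact (hcsB _ _).2 hn2
      · exact (hcsA _ _).2 hn1'
      · exact (hcsB _ _).2 hn2'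

end

end HM
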