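import Pool.Agent.HM_h27.Cuts
import Pool.Agent.HM_h27.ITools

/-!
# HM: the real line of the model as a coded type
-/

namespace HM

open HESR Topology

universe u v w v1 v2 v3 v4

set_option linter.unusedVariables false
set_option linter.unusedSectionVars false

section
variable {M : Type u} [ZFM M]

theorem IReal_app_iff {g x y : M} : App ZFM.E g x y ↔ ZFM.E (pr x y) g := by
  constructor
  · rintro ⟨p, hp, hpair⟩
    rw [isPair_iff] at hpair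
    subst hpair
    exact hp
  · intro h
    exact ⟨pr x y, h, isPair_pr _ _⟩

theorem IReal_lt_mf (A L : M) : MF M (fun p : Elt A × Elt A => App ZFM.E L p.1.1 p.2.1) := by
  have h : MF M (fun p : Elt A × Elt A => (p.1, p.2) ∈ ofM (Elt A × Elt A) L) := by fun_prop
  exact mf_congr h fun p => propext (IReal_app_iff (x := p.1.1) (y := p.2.1))

/-- PROOF. The order `x < y ↔ App L x y` on `Elt R` (classical decidability). `IT.dom (Elt R) = R`; subsets of `R` in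
the model are the codes of the elements of `PM M (Elt R)` (`cd_ofM`, `ofM_cd`); the countable dense set is
enumerated by `ctb_iff` and `MCov.enum` (it is nonempty: take two points of `R`). -/
theorem real_of_line {R L : M} (h : PNM.IsLine ZFM.E R L) : ∃ (_ : LinearOrder (Elt R)),
    (∀ x y : Elt R, x < y ↔ App ZFM.E L x.1 y.1) ∧ DenselyOrdered (Elt R) ∧ NoMinOrder (Elt R) ∧
    NoMaxOrder (Elt R) ∧ Nonempty (Elt R) ∧ RealLine M (Elt R) := by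
  classical
  obtain ⟨⟨x0, hx0⟩, hsub, hirr, htr, htri, hend, ⟨Q, hQR, hQc, hQd⟩, hlub⟩ := h
  have hsto : IsStrictTotalOrder (Elt R) (fun x y => App ZFM.E L x.1 y.1) :=
    { trichotomous := fun a b h1 h2 => by
        rcases htri a.1 b.1 a.2 b.2 with h | h | h
        · exact Subtype.ext h
        · exact absurd h h1
        · exact absurd h h2
      irrefl := fun a => hirr a.1
      trans := fun a b c => htr a.1 b.1 c.1 }
  let lo : LinearOrder (Elt R) := linearOrderOfSTO (fun x y => App ZFM.E L x.1 y.1)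
  have hlt : ∀ x y : Elt R, x < y ↔ App ZFM.E L x.1 y.1 := fun x y => Iff.rfl
  have hdense : DenselyOrdered (Elt R) := by
    constructor
    intro a b hab
    obtain ⟨q, hq, h1, h2⟩ := hQd a.1 b.1 ((hlt a b).1 hab)
    exact ⟨⟨q, hQR q hq⟩, (hlt _ _).2 h1, (hlt _ _).2 h2⟩
  have hmin : NoMinOrder (Elt R) := by
    constructor
    intro a
    obtain ⟨y, hy⟩ := (hend a.1 a.2).2
    exact ⟨⟨y, (hsub _ _ hy).1⟩, (hlt _ _).2 hy⟩
  have hmax : NoMaxOrder (Elt R) := by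
    constructor
    intro a
    obtain ⟨y, hy⟩ := (hend a.1 a.2).1
    exact ⟨⟨y, (hsub _ _ hy).2⟩, (hlt _ _).2 hy⟩
  refine ⟨lo, hlt, hdense, hmin, hmax, ⟨⟨x0, hx0⟩⟩, ?_⟩
  refine { lt_mf := mf_congr (IReal_lt_mf R L) fun p => propext (hlt p.1 p.2), q_ex := ?_,
           lub := ?_ }
  · have hcd : cd M (ofM (Elt R) Q) = Q := cd_ofM (α := Elt R) hQR
    have hc : MCt M (fun a => a ∈ ofM (Elt R) Q) := by
      rw [← ctb_iff, hcd]
      exact hQc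
    have hne : ∃ a, a ∈ ofM (Elt R) Q := by
      obtain ⟨y, hy⟩ := (hend x0 hx0).1
      obtain ⟨q, hq, -, -⟩ := hQd _ _ hy
      exact ⟨⟨q, hQR q hq⟩, hq⟩
    obtain ⟨e, he, -, he2⟩ := MCov.enum (ofM (Elt R) Q).mf' hc hne
    refine ⟨e, he, fun a b hab => ?_⟩
    obtain ⟨q, hq, h1, h2⟩ := hQd a.1 b.1 ((hlt a b).1 hab)
    obtain ⟨n, hn⟩ := he2 ⟨q, hQR q hq⟩ hq
    refine ⟨n, ?_, ?_⟩
    · rw [hn]
      exact (hlt _ _).2 h1
    · rw [hn]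
      exact (hlt _ _).2 h2
  · rintro s ⟨a, ha⟩ ⟨b, hb⟩
    have hsm : ∀ x : Elt R, ZFM.E x.1 (cd M s) ↔ x ∈ s := fun x => E_cd_cd_PM (s := s) (a := x)
    have hsub' : Sub ZFM.E (cd M s) R := sub_dom s
    obtain ⟨c, hcR, hc1, hc2⟩ := hlub (cd M s) hsub' ⟨a.1, (hsm a).2 ha⟩
      ⟨b.1, b.2, fun x hx hbx => by
        obtain ⟨x', rfl⟩ : ∃ x' : Elt R, x'.1 = x := ⟨⟨x, hsub' x hx⟩, rfl⟩
        have h1 : x' ≤ b := hb _ ((hsm x').1 hx)
        exact not_lt.2 h1 ((hlt b x').2 hbx)⟩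
    refine ⟨⟨c, hcR⟩, ?_, ?_⟩
    · intro x hx
      refine not_lt.1 fun hcx => ?_
      exact hc1 x.1 ((hsm x).2 hx) ((hlt _ _).1 hcx)
    · intro d hd
      refine not_lt.1 fun hdc => ?_
      refine hc2 d.1 d.2 (fun x hx hdx => ?_) ((hlt _ _).1 hdc)
      obtain ⟨x', rfl⟩ : ∃ x' : Elt R, x'.1 = x := ⟨⟨x, hsub' x hx⟩, rfl⟩
      have h1 : x' ≤ d := hd ((hsm x').1 hx)
      exact not_lt.2 h1 ((hlt d x').2 hdx)

/-- the open sets of the order topology -/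
theorem ordTop_iff {R L ρ : M} (hL : PNM.IsLine ZFM.E R L) (hρ : PNM.IsOrdTop ZFM.E R L ρ)
    [LinearOrder (Elt R)] (hlt : ∀ x y : Elt R, x < y ↔ App ZFM.E L x.1 y.1) [RealLine M (Elt R)]
    [NoMinOrder (Elt R)] [NoMaxOrder (Elt R)] [TopologicalSpace (Elt R)] [OrderTopology (Elt R)]
    (V : PM M (Elt R)) : Op V ↔ ZFM.E (cd M V) ρ := by
  have hsub := hL.2.1
  have hsm : ∀ x : Elt R, ZFM.E x.1 (cd M V) ↔ x ∈ V := fun x => E_cd_cd_PM (s := V) (a := x)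
  have hsub' : Sub ZFM.E (cd M V) R := sub_dom V
  rw [hρ]
  unfold Op
  rw [isOpen_iff_mem_nhds]
  constructor
  · intro h
    refine ⟨hsub', fun y hy => ?_⟩
    have hyR := hsub' y hy
    have h1 := h ⟨y, hyR⟩ ((hsm ⟨y, hyR⟩).1 hy)
    rw [mem_nhds_iff_exists_Ioo_subset] at h1
    obtain ⟨l, u, h2, h3⟩ := h1
    refine ⟨l.1, u.1, (hlt _ _).1 h2.1, (hlt _ _).1 h2.2, fun z hz1 hz2 => ?_⟩
    have hzR : ZFM.E z R := (hsub _ _ hz1).2
    exact (hsm ⟨z, hzR⟩).2 (h3 ⟨(hlt l ⟨z, hzR⟩).2 hz1, (hlt ⟨z, hzR⟩ u).2 hz2⟩)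
  · rintro ⟨-, h⟩ x hx
    obtain ⟨l, u, h1, h2, h3⟩ := h x.1 ((hsm x).2 hx)
    rw [mem_nhds_iff_exists_Ioo_subset]
    have hlR : ZFM.E l R := (hsub _ _ h1).1
    have huR : ZFM.E u R := (hsub _ _ h2).2
    refine ⟨⟨l, hlR⟩, ⟨u, huR⟩, ⟨(hlt _ _).2 h1, (hlt _ _).2 h2⟩, fun z hz => ?_⟩
    exact (hsm z).1 (h3 z.1 ((hlt _ _).1 hz.1) ((hlt _ _).1 hz.2))

/-- Existence of the real line, as sets of the model.

PROOF. Take `R` from `exists_real_line`; the sets are `IT.dom R`, the codes of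
`PM.of (fun p : R × R => p.1 < p.2) _` and of
`PM.of (fun V : PM M R => ∀ y, y ∈ V → ∃ l u, l < y ∧ y < u ∧ ∀ z, l < z → z < u → z ∈ V) _`. -/
theorem exists_reals (M : Type u) [ZFM M] : ∃ R ρ : M, PNM.IsReals ZFM.E R ρ := by
  obtain ⟨R, iR, oR, hdense, hmin, hmax, ⟨r0⟩, hreal⟩ := exists_real_line M
  have hLm : MF M (fun p : R × R => p.1 < p.2) := hreal.lt_mf
  let Ls : PM M (R × R) := PM.of (fun p : R × R => p.1 < p.2) hLm
  have hρm : MF M (fun V : PM M R => ∀ y, y ∈ V → ∃ l u : R, l < y ∧ y < u ∧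
      ∀ z, l < z → z < u → z ∈ V) := by fun_prop
  let ρs : PM M (PM M R) := PM.of (fun V : PM M R => ∀ y, y ∈ V → ∃ l u : R, l < y ∧ y < u ∧
      ∀ z, l < z → z < u → z ∈ V) hρm
  have hL1 : ∀ a b : R, App ZFM.E (cd M Ls) (cd M a) (cd M b) ↔ a < b := fun a b => pr_app
  have hL2 : ∀ x y : M, App ZFM.E (cd M Ls) x y → ∃ a b : R, cd M a = x ∧ cd M b = y ∧ a < b :=
    fun x y h => app_cd.1 h
  refine ⟨IT.dom (M := M) R, cd M ρs, cd M Ls, ⟨?_, ?_, ?_, ?_, ?_, ?_, ?_, ?_⟩, ?_⟩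
  · exact ⟨cd M r0, cd_mem M r0⟩
  · intro x y h
    obtain ⟨a, b, rfl, rfl, -⟩ := hL2 x y h
    exact ⟨cd_mem M a, cd_mem M b⟩
  · intro x h
    obtain ⟨a, b, h1, h2, h3⟩ := hL2 x x h
    have h4 : a = b := cd_inj M (h1.trans h2.symm)
    rw [h4] at h3
    exact lt_irrefl _ h3
  · intro x y z h1 h2
    obtain ⟨a, b, rfl, rfl, h3⟩ := hL2 _ _ h1
    obtain ⟨b', c, h4, rfl, h5⟩ := hL2 _ _ h2
    have h6 : b' = b := cd_inj M h4
    rw [h6] at h5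
    exact (hL1 a c).2 (h3.trans h5)
  · intro x y hx hy
    obtain ⟨a, rfl⟩ := (IT.mem_dom _).1 hx
    obtain ⟨b, rfl⟩ := (IT.mem_dom _).1 hy
    rcases lt_trichotomy a b with h | h | h
    · exact Or.inr (Or.inl ((hL1 a b).2 h))
    · exact Or.inl (by rw [h])
    · exact Or.inr (Or.inr ((hL1 b a).2 h))
  · intro x hx
    obtain ⟨a, rfl⟩ := (IT.mem_dom _).1 hx
    obtain ⟨b, hb⟩ := exists_gt a
    obtain ⟨c, hc⟩ := exists_lt a
    exact ⟨⟨cd M b, (hL1 a b).2 hb⟩, ⟨cd M c, (hL1 c a).2 hc⟩⟩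
  · obtain ⟨q, hq, hqd⟩ := hreal.q_ex
    have hQm : MF M (fun a : R => ∃ n, q n = a) := by fun_prop
    let Qs : PM M R := PM.of (fun a : R => ∃ n, q n = a) hQm
    refine ⟨cd M Qs, sub_dom Qs, ?_, ?_⟩
    · rw [ctb_iff]
      exact MCov.of_enum hq fun a ha => ha
    · intro x y h
      obtain ⟨a, b, rfl, rfl, h1⟩ := hL2 _ _ h
      obtain ⟨n, h2, h3⟩ := hqd a b h1
      exact ⟨cd M (q n), E_cd_cd_PM.2 ⟨n, rfl⟩, (hL1 _ _).2 h2, (hL1 _ _).2 h3⟩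
  · rintro S hS ⟨x, hx⟩ ⟨b, hb, hb'⟩
    obtain ⟨b, rfl⟩ := (IT.mem_dom _).1 hb
    have hcd : cd M (ofM R S) = S := cd_ofM hS
    obtain ⟨a, rfl⟩ := (IT.mem_dom _).1 (hS x hx)
    obtain ⟨c, hc⟩ := hreal.lub (ofM R S) ⟨a, hx⟩ ⟨b, fun a ha =>
      not_lt.1 fun h => hb' (cd M a) ha ((hL1 _ _).2 h)⟩
    refine ⟨cd M c, cd_mem M c, ?_, ?_⟩
    · intro y hy hcy
      obtain ⟨d, rfl⟩ := (IT.mem_dom _).1 (hS y hy)
      have h1 : d ∈ (ofM R S).set := hy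
      exact not_lt.2 (hc.1 h1) ((hL1 _ _).1 hcy)
    · intro y hy hyS hyc
      obtain ⟨d, rfl⟩ := (IT.mem_dom _).1 hy
      refine not_lt.2 (hc.2 ?_) ((hL1 _ _).1 hyc)
      intro e he
      exact not_lt.1 fun h => hyS (cd M e) he ((hL1 _ _).2 h)
  · intro V
    constructor
    · intro hV
      obtain ⟨s, rfl, hs⟩ := E_cd_PM.1 hV
      refine ⟨sub_dom s, fun y hy => ?_⟩
      obtain ⟨a, rfl, ha⟩ := E_cd_PM.1 hy
      obtain ⟨l, u, h1, h2, h3⟩ := hs a ha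
      refine ⟨cd M l, cd M u, (hL1 _ _).2 h1, (hL1 _ _).2 h2, fun z hz1 hz2 => ?_⟩
      obtain ⟨l', z', h4, rfl, h5⟩ := hL2 _ _ hz1
      have h6 : l' = l := cd_inj M h4
      rw [h6] at h5
      exact E_cd_cd_PM.2 (h3 z' h5 ((hL1 _ _).1 hz2))
    · rintro ⟨hV, h⟩
      have hcd : cd M (ofM R V) = V := cd_ofM hV
      rw [← hcd]
      refine E_cd_cd_PM.2 ?_
      intro y hy
      obtain ⟨l, u, h1, h2, h3⟩ := h (cd M y) hy
      obtain ⟨l', y', rfl, h4, h5⟩ := hL2 _ _ h1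
      obtain ⟨y'', u', h6, rfl, h7⟩ := hL2 _ _ h2
      have e1 : y' = y := cd_inj M h4
      have e2 : y'' = y := cd_inj M h6
      rw [e1] at h5
      rw [e2] at h7
      exact ⟨l', u', h5, h7, fun z hz1 hz2 => h3 (cd M z) ((hL1 _ _).2 hz1) ((hL1 _ _).2 hz2)⟩

end

end HM
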