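import Pool.Agent.HM_h27.StmtQ

/-!
# Countable bases in a structure `(T, E)` (MP_3b51b4_gt)
-/

universe u

namespace PNM

open HESR

section notions

variable {T : Type u} (E : T → T → Prop)

/-- `(A, τ)` has a countable base. -/
def HasCtbBase (A τ : T) : Prop := ∃ B, Sub E B τ ∧ IsCtb E B ∧
  ∀ O x, E O τ → E x O → ∃ O', E O' B ∧ E x O' ∧ Sub E O' O

end notions

end PNM
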