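import Pool.Agent.HM_h27.Om
import Pool.Agent.HM_h27.TopA

/-!
# HM: countable bases
-/

namespace HM

open HESR Topology

universe u v w v1 v2 v3 v4

set_option linter.unusedVariables false
set_option linter.unusedSectionVars false

/-! ### countable bases -/

/-- The space `X` has a countable base in the model. -/
def MSC (M : Type u) [ZFM M] (X : Type v) [IT M X] [TopologicalSpace X] [MTop M X] : Prop :=
  ∃ B : ℕ → PM M X, MF M B ∧ (∀ n, Op (B n)) ∧
    ∀ (x : X) (U : PM M X), Op U → x ∈ U → ∃ n, x ∈ B n ∧ ∀ y, y ∈ B n → y ∈ U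

section
variable {M : Type u} [ZFM M]
variable {X : Type v} [IT M X] [TopologicalSpace X] [MTop M X]

/-- A compact space with a countable family of open sets which separates points by disjoint members has a
countable base.

PROOF. The finite intersections of members of the family are a base: let `x ∈ U`, `U` open. The members `G'` of
the family for which there is a member `G` with `x ∈ G` and `G` disjoint from `G'` cover `U.compl`; a finite
number of them covers it (`exists_finite_cover` with `ι := PM M X`); the intersection of the corresponding `G` is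
contained in `U`. The finite subsets of the family are countable by `mct_finset`, and
`F ↦ {x | ∀ G ∈ F, x ∈ G}` is a function of the model; enumerate with `MCov.enum`/`MCov.image`. -/
theorem msc_of_sep [MCpt M X] {𝒢 : PM M (PM M X)} (hc : MCt M (fun G => G ∈ 𝒢))
    (ho : ∀ G, G ∈ 𝒢 → Op G)
    (h : ∀ x y : X, x ≠ y → ∃ G G', G ∈ 𝒢 ∧ G' ∈ 𝒢 ∧ x ∈ G ∧ y ∈ G' ∧ ∀ z, z ∈ G → ¬ z ∈ G') :
    MSC M X := by
  classical
  have hP : MF M (fun F : Finset (PM M X) => ∀ G ∈ F, G ∈ 𝒢) := by fun_prop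
  have hcF : MCt M (fun F : Finset (PM M X) => ∀ G ∈ F, G ∈ 𝒢) := mct_finset (by fun_prop) hc
  obtain ⟨e, he, he1, he2⟩ := MCov.enum hP hcF ⟨∅, by simp⟩
  have hB : MF M (fun p : ℕ × X => ∀ G ∈ e p.1, p.2 ∈ G) := by fun_prop
  refine ⟨PM.sec (fun n x => ∀ G ∈ e n, x ∈ G) hB, mf_PMsec hB, ?_, ?_⟩
  · intro n
    have h1 : (PM.sec (fun (n : ℕ) (x : X) => ∀ G ∈ e n, x ∈ G) hB n).set =
        ⋂ G ∈ e n, (G : PM M X).set := by
      ext x
      simp only [Set.mem_iInter]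
      exact Iff.rfl
    show IsOpen (PM.sec (fun (n : ℕ) (x : X) => ∀ G ∈ e n, x ∈ G) hB n).set
    rw [h1]
    exact isOpen_biInter_finset fun G hG => ho G (he1 n G hG)
  · intro x U hU hx
    obtain ⟨F, hF1, hF2⟩ := exists_finite_cover (M := M) (ι := PM M X)
      (Q := fun G' : PM M X => G' ∈ 𝒢 ∧ ∃ G : PM M X, G ∈ 𝒢 ∧ x ∈ G ∧ ∀ z, z ∈ G → ¬ z ∈ G')
      (by fun_prop) (U := fun G' : PM M X => G') (mf_id M) (fun G' hG' => ho G' hG'.1)
      (K := U.compl) (op_compl_iff.2 hU) (by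
        intro y hy
        have hxy : x ≠ y := by
          rintro rfl
          exact hy hx
        obtain ⟨G, G', h1, h2, h3, h4, h5⟩ := h x y hxy
        exact ⟨G', ⟨h2, G, h1, h3, h5⟩, h4⟩)
    have hF1' : ∀ G' ∈ F, ∃ G : PM M X, G ∈ 𝒢 ∧ x ∈ G ∧ ∀ z, z ∈ G → ¬ z ∈ G' :=
      fun G' hG' => (hF1 G' hG').2
    choose! f hf1 hf2 hf3 using hF1'
    obtain ⟨n, hn⟩ := he2 (F.image f) (by
      intro G hG
      obtain ⟨G', hG', rfl⟩ := Finset.mem_image.1 hG
      exact hf1 G' hG')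
    refine ⟨n, ?_, ?_⟩
    · show ∀ G ∈ e n, x ∈ G
      rw [hn]
      intro G hG
      obtain ⟨G', hG', rfl⟩ := Finset.mem_image.1 hG
      exact hf2 G' hG'
    · intro y hy
      have hy' : ∀ G ∈ e n, y ∈ G := hy
      rw [hn] at hy'
      by_contra hyU
      obtain ⟨G', hG', hyG'⟩ := hF2 y hyU
      exact hf3 G' hG' y (hy' (f G') (Finset.mem_image_of_mem f hG')) hyG'

/-- A perfectly normal compactum with a countable `T₀`-separating family of open sets has a countable base.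

PROOF. For `V` in the family `V.compl = ⋂ n, O V n` with `O V n` open (`MPerf.gd`, `exists_choose` over pairs
`(V, n)`; choose `O : PM M X → ℕ → PM M X` for all `V`, with `O V n` arbitrary when `V` is not open). By `exists_between` (for `A := (O V n).compl ⊆ V`) and `exists_choose` choose open `U V n`
and closed `C V n` with `(O V n).compl ⊆ U V n ⊆ C V n ⊆ V`. The family of all `U V n` and `(C V n).compl` is
countable and separates points: if `x ∈ V`, `y ∉ V` then `x ∉ O V n` for some `n`, so `x ∈ U V n` and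
`y ∈ (C V n).compl`. Use `msc_of_sep`. -/
theorem msc_of_t0 [T2Space X] [MCpt M X] [MPerf M X] {𝒱 : PM M (PM M X)}
    (hc : MCt M (fun V => V ∈ 𝒱)) (ho : ∀ V, V ∈ 𝒱 → Op V)
    (h : ∀ x y : X, x ≠ y → ∃ V, V ∈ 𝒱 ∧ ¬ (x ∈ V ↔ y ∈ V)) : MSC M X := by
  classical
  obtain ⟨O, hO, hO'⟩ := exists_choose (M := M) (α := PM M X) (β := MFun M ℕ (PM M X))
    (R := fun V g => Op V → (∀ n, Op (g n)) ∧ ∀ x, ¬ x ∈ V ↔ ∀ n, x ∈ g n) (by fun_prop) (by
      intro V
      by_cases hV : Op V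
      · obtain ⟨g, hg, h1, h2⟩ := MPerf.gd (M := M) V.compl (op_compl_iff.2 hV)
        exact ⟨⟨g, hg⟩, fun _ => ⟨h1, h2⟩⟩
      · exact ⟨⟨fun _ => V, mf_const M V⟩, fun h => absurd h hV⟩)
  obtain ⟨f, hf, hf'⟩ := exists_choose (M := M) (α := PM M X × ℕ) (β := PM M X × PM M X)
    (R := fun q r => Op q.1 → Op r.1 ∧ Cld r.2 ∧ (∀ x, ¬ x ∈ O q.1 q.2 → x ∈ r.1) ∧
      (∀ x, x ∈ r.1 → x ∈ r.2) ∧ ∀ x, x ∈ r.2 → x ∈ q.1) (by fun_prop) (by
      rintro ⟨V, n⟩
      by_cases hV : Op V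
      · obtain ⟨h1, h2⟩ := hO' V hV
        obtain ⟨U, C, hU, hC, h3, h4, h5⟩ := exists_between (M := M) (A := (O V n).compl) (O := V)
          (op_compl_iff.2 (h1 n)) hV (by
            intro x hx
            by_contra hxV
            exact hx ((h2 x).1 hxV n))
        exact ⟨(U, C), fun _ => ⟨hU, hC, h3, h4, h5⟩⟩
      · exact ⟨(V, V), fun h => absurd h hV⟩)
  have hP1 : MF M (fun G : PM M X => ∃ q : PM M X × ℕ, (q.1 ∈ 𝒱 ∧ True) ∧ (f q).1 = G) := by
    fun_prop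
  have hP2 : MF M (fun G : PM M X => ∃ q : PM M X × ℕ, (q.1 ∈ 𝒱 ∧ True) ∧ (f q).2.compl = G) := by
    fun_prop
  have hc1 : MCt M (fun q : PM M X × ℕ => q.1 ∈ 𝒱 ∧ True) :=
    mct_prod hc (mct_nat (P := fun _ => True))
  have hG : MCt M (fun G : PM M X =>
      (∃ q : PM M X × ℕ, (q.1 ∈ 𝒱 ∧ True) ∧ (f q).1 = G) ∨
        ∃ q : PM M X × ℕ, (q.1 ∈ 𝒱 ∧ True) ∧ (f q).2.compl = G) := by
    refine Om_mct_or hP1 hP2 ?_ ?_
    · exact MCov.image hc1 (f := fun q => (f q).1) (by fun_prop) fun b hb => hb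
    · exact MCov.image hc1 (f := fun q => (f q).2.compl) (by fun_prop) fun b hb => hb
  refine msc_of_sep (𝒢 := PM.of (fun G : PM M X =>
      (∃ q : PM M X × ℕ, (q.1 ∈ 𝒱 ∧ True) ∧ (f q).1 = G) ∨
        ∃ q : PM M X × ℕ, (q.1 ∈ 𝒱 ∧ True) ∧ (f q).2.compl = G) (by fun_prop)) hG ?_ ?_
  · rintro G (⟨q, ⟨hq, -⟩, rfl⟩ | ⟨q, ⟨hq, -⟩, rfl⟩)
    · exact (hf' q (ho _ hq)).1
    · exact cld_iff.1 (hf' q (ho _ hq)).2.1
  · intro x y hxy
    obtain ⟨V, hV, hne⟩ := h x y hxy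
    obtain ⟨h1, h2⟩ := hO' V (ho V hV)
    by_cases hx : x ∈ V
    · have hy : ¬ y ∈ V := fun hy => hne ⟨fun _ => hy, fun _ => hx⟩
      obtain ⟨n, hn⟩ : ∃ n, ¬ x ∈ O V n := by
        by_contra hcon
        push Not at hcon
        exact (h2 x).2 hcon hx
      obtain ⟨h3, h4, h5, h6, h7⟩ := hf' (V, n) (ho V hV)
      exact ⟨(f (V, n)).1, (f (V, n)).2.compl, Or.inl ⟨(V, n), ⟨hV, trivial⟩, rfl⟩,
        Or.inr ⟨(V, n), ⟨hV, trivial⟩, rfl⟩, h5 x hn, fun h8 => hy (h7 y h8),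
        fun z hz hz' => hz' (h6 z hz)⟩
    · have hy : y ∈ V := by
        by_contra hy
        exact hne ⟨fun h => absurd h hx, fun h => absurd h hy⟩
      obtain ⟨n, hn⟩ : ∃ n, ¬ y ∈ O V n := by
        by_contra hcon
        push Not at hcon
        exact (h2 y).2 hcon hy
      obtain ⟨h3, h4, h5, h6, h7⟩ := hf' (V, n) (ho V hV)
      exact ⟨(f (V, n)).2.compl, (f (V, n)).1, Or.inr ⟨(V, n), ⟨hV, trivial⟩, rfl⟩,
        Or.inl ⟨(V, n), ⟨hV, trivial⟩, rfl⟩, fun h8 => hx (h7 x h8), h5 y hn,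
        fun z hz hz' => hz (h6 z hz')⟩

end

end HM
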