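import Pool.Agent.HM_h27.ITools
import Pool.Agent.HM_h27.StmtB
import Pool.Agent.HM_h27.TopC

/-!
# HM: spaces of the model as coded types
-/

namespace HM

open HESR Topology

universe u v w v1 v2 v3 v4

set_option linter.unusedVariables false
set_option linter.unusedSectionVars false

section
variable {M : Type u} [ZFM M]

theorem ITop_E {A : M} {U : PM M (Elt A)} {x : M} :
    ZFM.E x (cd M U) ↔ ∃ a : Elt A, a.1 = x ∧ a ∈ U := E_cd_PM

theorem ITop_mem {A : M} {U : PM M (Elt A)} {a : Elt A} : ZFM.E a.1 (cd M U) ↔ a ∈ U :=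
  E_cd_cd_PM (M := M) (a := a)

theorem ITop_ofM {A O : M} (h : Sub ZFM.E O A) : cd M (ofM (M := M) (Elt A) O) = O :=
  cd_ofM (M := M) (α := Elt A) h

/-- sets of subsets of `A` -/
theorem ITop_ofM2 {A c : M} (h : ∀ O, ZFM.E O c → Sub ZFM.E O A) :
    cd M (ofM (M := M) (PM M (Elt A)) c) = c := by
  refine cd_ofM (M := M) (α := PM M (Elt A)) fun O hO => ?_
  rw [← ITop_ofM (h O hO)]
  exact cd_mem M _

theorem ITop_mf (A τ : M) : MF M (fun V : PM M (Elt A) => ZFM.E (cd M V) τ) :=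
  mf_iff_mp.2 ⟨τ, fun _ => Iff.rfl⟩

/-- The topology on the type of the elements of `A`.

PROOF. `TopologicalSpace.generateFrom {U | ∃ V : PM M (Elt A), ZFM.E (cd M V) τ ∧ U = V.set}`. By `IsTop` the
family is closed under binary intersections and contains everything, so it is a base
(`isTopologicalBasis_of_subbasis...` or directly `TopologicalSpace.IsTopologicalBasis`); a set `U` of the model which
is a union of members of the family is the union of the set (of the model) of all `V` with `E (cd V) τ`, `V ⊆ U`, so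
`E (cd U) τ` by the last clause of `IsTop` (`c := cd (PM.of (fun V => ...) _)`). `IT.dom (Elt A) = A`. -/
theorem exists_top {A τ : M} (h : PNM.IsTop ZFM.E A τ) :
    ∃ (t : TopologicalSpace (Elt A)) (_ : MTop M (Elt A)),
      ∀ U : PM M (Elt A), Op U ↔ ZFM.E (cd M U) τ := by
  obtain ⟨h1, h2, h3, h4⟩ := h
  obtain ⟨B, hB⟩ : ∃ B : Set (Set (Elt A)),
    B = {U | ∃ V : PM M (Elt A), ZFM.E (cd M V) τ ∧ U = V.set} := ⟨_, rfl⟩
  have hmemB : ∀ U, U ∈ B ↔ ∃ V : PM M (Elt A), ZFM.E (cd M V) τ ∧ U = V.set := by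
    intro U
    rw [hB]
    exact Iff.rfl
  let t : TopologicalSpace (Elt A) := TopologicalSpace.generateFrom B
  have hbase : @TopologicalSpace.IsTopologicalBasis (Elt A) t B := by
    refine @TopologicalSpace.IsTopologicalBasis.mk (Elt A) t B ?_ ?_ rfl
    · intro U1 hU1 U2 hU2 x hx
      obtain ⟨V1, hV1, rfl⟩ := (hmemB _).1 hU1
      obtain ⟨V2, hV2, rfl⟩ := (hmemB _).1 hU2
      refine ⟨(V1.inter V2).set, (hmemB _).2 ⟨V1.inter V2, ?_, rfl⟩, hx, fun y hy => hy⟩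
      refine h3 _ _ _ hV1 hV2 fun y => ?_
      rw [ITop_E, ITop_E, ITop_E]
      constructor
      · rintro ⟨a, rfl, ha⟩
        exact ⟨⟨a, rfl, ha.1⟩, ⟨a, rfl, ha.2⟩⟩
      · rintro ⟨⟨a, rfl, ha⟩, ⟨b, hb, hb'⟩⟩
        have hab : b = a := Subtype.ext hb
        rw [hab] at hb'
        exact ⟨a, rfl, ha, hb'⟩
    · rw [Set.sUnion_eq_univ_iff]
      intro x
      refine ⟨(ofM (M := M) (Elt A) A).set, (hmemB _).2 ⟨_, ?_, rfl⟩, ?_⟩
      · rw [ITop_ofM fun y hy => hy]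
        exact h2
      · exact x.2
  have hop : ∀ U : PM M (Elt A), @IsOpen (Elt A) t U.set ↔ ZFM.E (cd M U) τ := by
    intro U
    constructor
    · intro hU
      have hMF : MF M (fun V : PM M (Elt A) => ZFM.E (cd M V) τ ∧ ∀ y, y ∈ V → y ∈ U) :=
        mf_and (ITop_mf A τ) (by fun_prop)
      refine h4 (cd M (PM.of (fun V : PM M (Elt A) => ZFM.E (cd M V) τ ∧ ∀ y, y ∈ V → y ∈ U) hMF))
        _ ?_ ?_
      · intro O hO
        obtain ⟨V, rfl, hV⟩ := E_cd_PM.1 hO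
        exact hV.1
      · intro x
        constructor
        · intro hx
          obtain ⟨a, rfl, ha⟩ := ITop_E.1 hx
          obtain ⟨_, hVB, haV, hVU⟩ := hbase.exists_subset_of_mem_open ha hU
          obtain ⟨V, hV', rfl⟩ := (hmemB _).1 hVB
          exact ⟨cd M V, E_cd_cd_PM.2 ⟨hV', fun y hy => hVU hy⟩, ITop_mem.2 haV⟩
        · rintro ⟨O, hO, hx⟩
          obtain ⟨V, rfl, hV⟩ := E_cd_PM.1 hO
          obtain ⟨a, rfl, ha⟩ := ITop_E.1 hx
          exact ITop_mem.2 (hV.2 a ha)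
    · intro hU
      exact hbase.isOpen ((hmemB _).2 ⟨U, hU, rfl⟩)
  refine ⟨t, ⟨?_, ?_⟩, hop⟩
  · exact mf_congr (ITop_mf A τ) fun U => propext (hop U)
  · intro x U hU hx
    obtain ⟨_, hV, hxV, hVU⟩ := hbase.exists_subset_of_mem_open hx hU
    obtain ⟨V, hV', rfl⟩ := (hmemB _).1 hV
    exact ⟨V, hbase.isOpen hV, hxV, fun y hy => hVU hy⟩

variable {A τ : M} [TopologicalSpace (Elt A)] [MTop M (Elt A)]

/-- closed sets -/
theorem cl_iff (h : PNM.IsTop ZFM.E A τ) (hτ : ∀ U : PM M (Elt A), Op U ↔ ZFM.E (cd M U) τ)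
    (C : PM M (Elt A)) : PNM.IsCl ZFM.E A τ (cd M C) ↔ Cld C := by
  have hc : ∀ O, (∀ x, ZFM.E x O ↔ ZFM.E x A ∧ ¬ ZFM.E x (cd M C)) → O = cd M C.compl := by
    intro O hO
    refine (ZFM.zfc (M := M)).ext _ _ fun x => ?_
    rw [hO, ITop_E (U := C.compl)]
    constructor
    · rintro ⟨h1, h2⟩
      exact ⟨⟨x, h1⟩, rfl, fun h3 => h2 (ITop_mem.2 h3)⟩
    · rintro ⟨a, rfl, ha⟩
      exact ⟨a.2, fun h3 => ha (ITop_mem.1 h3)⟩
  rw [cld_iff, hτ]
  constructor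
  · rintro ⟨_, h2⟩
    refine h2 _ fun x => ?_
    rw [ITop_E]
    constructor
    · rintro ⟨a, rfl, ha⟩
      exact ⟨a.2, fun h3 => ha (ITop_mem.1 h3)⟩
    · rintro ⟨h1, h2⟩
      exact ⟨⟨x, h1⟩, rfl, fun h3 => h2 (ITop_mem.2 h3)⟩
  · intro h2
    refine ⟨sub_dom (M := M) C, fun O hO => ?_⟩
    rw [hc O hO]
    exact h2

theorem t2_of (hτ : ∀ U : PM M (Elt A), Op U ↔ ZFM.E (cd M U) τ) (h : PNM.IsHaus ZFM.E A τ) :
    T2Space (Elt A) := by
  obtain ⟨h1, h2⟩ := h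
  refine ⟨fun x y hxy => ?_⟩
  obtain ⟨O, O', hO, hO', hx, hy, hd⟩ := h2 x.1 y.1 x.2 y.2 fun h => hxy (Subtype.ext h)
  refine ⟨(ofM (M := M) (Elt A) O).set, (ofM (M := M) (Elt A) O').set, ?_, ?_, hx, hy, ?_⟩
  · exact (hτ _).2 (by rw [ITop_ofM (h1.1 O hO)]; exact hO)
  · exact (hτ _).2 (by rw [ITop_ofM (h1.1 O' hO')]; exact hO')
  · rw [Set.disjoint_left]
    intro z hz hz'
    exact hd z.1 hz hz'

/-- PROOF. For `𝒰` take `c := cd M 𝒰`; the finite subset `c'` of `c` is the code of some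
`𝒰' : PM M (PM M (Elt A))` (`cd_ofM`), finite by `fin_iff`. -/
theorem mcpt_of (hτ : ∀ U : PM M (Elt A), Op U ↔ ZFM.E (cd M U) τ) (h : PNM.IsCpt ZFM.E A τ) :
    MCpt M (Elt A) := by
  refine ⟨fun 𝒰 h1 h2 => ?_⟩
  have hA : Sub ZFM.E (cd M 𝒰) τ := by
    intro O hO
    obtain ⟨U, rfl, hU⟩ := E_cd_PM.1 hO
    exact (hτ U).1 (h1 U hU)
  have hB : ∀ x, ZFM.E x A → ∃ O, ZFM.E O (cd M 𝒰) ∧ ZFM.E x O := by
    intro x hx
    obtain ⟨U, hU, hxU⟩ := h2 ⟨x, hx⟩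
    exact ⟨cd M U, E_cd_cd_PM.2 hU, ITop_mem.2 hxU⟩
  obtain ⟨c', hc', hfin, hcov⟩ := h (cd M 𝒰) hA hB
  · have e : cd M (ofM (M := M) (PM M (Elt A)) c') = c' :=
      cd_ofM fun O hO => sub_dom 𝒰 O (hc' O hO)
    have hf : (ofM (M := M) (PM M (Elt A)) c').set.Finite := by
      rw [← fin_iff, e]
      exact hfin
    refine ⟨hf.toFinset, ?_, ?_⟩
    · intro U hU
      rw [Set.Finite.mem_toFinset] at hU
      exact E_cd_cd_PM.1 (hc' _ hU)
    · intro x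
      obtain ⟨O, hO, hx⟩ := hcov x.1 x.2
      obtain ⟨U, rfl, _⟩ := E_cd_PM.1 (hc' O hO)
      refine ⟨U, ?_, ITop_mem.1 hx⟩
      rw [Set.Finite.mem_toFinset]
      exact hO

/-- PROOF. `ctb_iff` and `MCov.enum` (if the countable set of open sets is empty, take the constant sequence
`everything`). -/
theorem mperf_of (hT : PNM.IsTop ZFM.E A τ) (hτ : ∀ U : PM M (Elt A), Op U ↔ ZFM.E (cd M U) τ)
    (h : PNM.IsPerfNormal ZFM.E A τ) : MPerf M (Elt A) := by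
  refine ⟨fun C hC => ?_⟩
  obtain ⟨c, hcτ, hct, hcC⟩ := h.2 (cd M C) ((cl_iff hT hτ C).2 hC)
  have e : cd M (ofM (M := M) (PM M (Elt A)) c) = c := ITop_ofM2 fun O hO => hT.1 O (hcτ O hO)
  have hct' : MCt M (fun V : PM M (Elt A) => V ∈ ofM (M := M) (PM M (Elt A)) c) := by
    rw [← ctb_iff, e]
    exact hct
  have hmC : ∀ x : Elt A, x ∈ C ↔ ∀ V : PM M (Elt A), ZFM.E (cd M V) c → x ∈ V := by
    intro x
    rw [← ITop_mem, hcC]
    constructor
    · rintro ⟨_, h1⟩ V hV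
      exact ITop_mem.1 (h1 _ hV)
    · intro h1
      refine ⟨x.2, fun O hO => ?_⟩
      have e' : cd M (ofM (M := M) (Elt A) O) = O := ITop_ofM (hT.1 O (hcτ O hO))
      have h2 := ITop_mem.2 (h1 (ofM (M := M) (Elt A) O) (by rw [e']; exact hO))
      rw [e'] at h2
      exact h2
  by_cases hne : ∃ V : PM M (Elt A), V ∈ ofM (M := M) (PM M (Elt A)) c
  · obtain ⟨O, hO, hOc, hOs⟩ := MCov.enum (PM.mf' _) hct' hne
    refine ⟨O, hO, fun n => (hτ _).2 (hcτ _ (hOc n)), fun x => ?_⟩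
    rw [hmC]
    constructor
    · intro h1 n
      exact h1 _ (hOc n)
    · intro h1 V hV
      obtain ⟨n, hn⟩ := hOs V hV
      rw [← hn]
      exact h1 n
  · refine ⟨fun _ => ofM (M := M) (Elt A) A, mf_const M _, fun n => ?_, fun x => ?_⟩
    · refine (hτ _).2 ?_
      rw [ITop_ofM fun y hy => hy]
      exact hT.2.1
    · rw [hmC]
      constructor
      · intro _ _
        exact x.2
      · intro _ V hV
        exact (hne ⟨V, hV⟩).elim

theorem ctbBase_of (hT : PNM.IsTop ZFM.E A τ) (hτ : ∀ U : PM M (Elt A), Op U ↔ ZFM.E (cd M U) τ)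
    (h : MSC M (Elt A)) : PNM.HasCtbBase ZFM.E A τ := by
  obtain ⟨Bf, hBf, hBo, hBb⟩ := h
  have hMF : MF M (fun V : PM M (Elt A) => ∃ n, Bf n = V) := by fun_prop
  refine ⟨cd M (PM.of (fun V : PM M (Elt A) => ∃ n, Bf n = V) hMF), ?_, ?_, ?_⟩
  · intro O hO
    obtain ⟨V, rfl, n, rfl⟩ := E_cd_PM.1 hO
    exact (hτ _).1 (hBo n)
  · rw [ctb_iff]
    exact MCov.of_enum hBf fun V hV => hV
  · intro O x hO hx
    have e : cd M (ofM (M := M) (Elt A) O) = O := ITop_ofM (hT.1 O hO)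
    have hop : Op (ofM (M := M) (Elt A) O) := (hτ _).2 (by rw [e]; exact hO)
    obtain ⟨n, hn, hn'⟩ := hBb ⟨x, hT.1 O hO x hx⟩ _ hop hx
    refine ⟨cd M (Bf n), E_cd_cd_PM.2 ⟨n, rfl⟩, ITop_mem.2 hn, ?_⟩
    intro y hy
    obtain ⟨a, rfl, ha⟩ := ITop_E.1 hy
    exact hn' a ha

end

end HM
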