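import Pool.Agent.HM_h27.HFin
import Pool.Agent.HM_h27.ICp
import Pool.Agent.HM_h27.IMA
import Pool.Agent.HM_h27.IMet
import Pool.Agent.HM_h27.IOCA
import Pool.Agent.HM_h27.IReal
import Pool.Agent.HM_h27.ITop

/-!
# HM: the statement of the question in the model
-/

namespace HM

open HESR Topology

universe u v w v1 v2 v3 v4

set_option linter.unusedVariables false
set_option linter.unusedSectionVars false

/-- In a well-founded model of ZFC, MA and OCA every perfectly normal compactum with `p(C_p(X)) = ω` is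
metrizable. -/
theorem q1_of (M : Type u) [ZFM M] (hMA : MAO.MA1 (ZFM.E (M := M)))
    (hOCA : MAO.OCA (ZFM.E (M := M))) : PNM.Q1 (ZFM.E (M := M)) := by
  obtain ⟨W, iW, lW, wW, V, iV, lV, wV, hW, hV⟩ := exists_om12 M
  intro A τ R ρ Z hR hH hC hP hZ hp
  obtain ⟨L, hL, hρ⟩ := hR
  obtain ⟨tA, mA, hτ⟩ := exists_top hH.1
  obtain ⟨lR, hlt, dR, nR, xR, eR, rR⟩ := real_of_line hL
  letI : TopologicalSpace (Elt R) := Preorder.topology (Elt R)
  haveI : OrderTopology (Elt R) := ⟨rfl⟩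
  have hρ' := ordTop_iff hL hρ hlt
  have hs : ∀ V, ZFM.E V ρ → Sub ZFM.E V R := fun V hV => ((hρ V).1 hV).1
  haveI := t2_of hτ hH
  haveI := mcpt_of hτ hC
  haveI := mperf_of hH.1 hτ hP
  exact metrizable_of hH.1 hτ
    (internal_main (X := Elt A) (R := Elt R) hW hV (maw_of hW hMA) (ocaw_of hW hOCA)
      (pfc_of hτ hρ' hs hZ hp))

end HM
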