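import Pool.Agent.HM_h27.Base

/-!
# HM: functions of the model and their closure properties
-/

namespace HM

open HESR

universe u v w v1 v2 v3

set_option linter.unusedVariables false

section
variable (M : Type u) [ZFM M]
variable {α : Type v} {β : Type w} {γ : Type v1} {δ : Type v2} [IT M α] [IT M β] [IT M γ] [IT M δ]

/-- The function `f : α → β` between coded types is in the model: its graph is a set of `M`. -/
@[fun_prop]
def MF (f : α → β) : Prop := MP M (fun p : α × β => f p.1 = p.2)

@[fun_prop]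
theorem mf_id : MF M (fun x : α => x) := mp_eq

@[fun_prop]
theorem mf_const (b : β) : MF M (fun _ : α => b) :=
  mp_congr (mp_snd (mp_single b)) fun p => eq_comm

@[fun_prop]
theorem mf_comp {g : β → γ} {f : α → β} (hg : MF M g) (hf : MF M f) : MF M (fun x => g (f x)) := by
  refine mp_congr (mp_ex (R := fun (p : α × γ) (b : β) => f p.1 = b ∧ g b = p.2) ?_) ?_
  · refine mp_of3 (D := fun x z y => Dm M (fun p : α × β => f p.1 = p.2) (pr x y) ∧
      Dm M (fun p : β × γ => g p.1 = p.2) (pr y z)) ?_ ?_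
    · exact (MP.dm hf (defFun_pr (DefFun.var _) (DefFun.var _))).and
        (MP.dm hg (defFun_pr (DefFun.var _) (DefFun.var _)))
    · intro a c b
      rw [← cd_prod, ← cd_prod, dm_cd, dm_cd]
  · rintro ⟨a, c⟩
    simp

@[fun_prop]
theorem mf_mk {g : α → β} {f : α → γ} (hg : MF M g) (hf : MF M f) : MF M (fun x => (g x, f x)) := by
  refine mp_of2 (D := fun x s => ∃ y z, IsPair ZFM.E s y z ∧
    Dm M (fun p : α × β => g p.1 = p.2) (pr x y) ∧
    Dm M (fun p : α × γ => f p.1 = p.2) (pr x z)) ?_ ?_
  · refine Def.ex (R := fun y v => ∃ z, IsPair ZFM.E (v 1) y z ∧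
      Dm M (fun p : α × β => g p.1 = p.2) (pr (v 0) y) ∧
      Dm M (fun p : α × γ => f p.1 = p.2) (pr (v 0) z)) ?_
    refine Def.ex (R := fun z v => IsPair ZFM.E (v 2) (v 0) z ∧
      Dm M (fun p : α × β => g p.1 = p.2) (pr (v 1) (v 0)) ∧
      Dm M (fun p : α × γ => f p.1 = p.2) (pr (v 1) z)) ?_
    exact (IsPair.df (DefFun.var _) (DefFun.var _) (DefFun.var _)).and
      ((MP.dm hg (defFun_pr (DefFun.var _) (DefFun.var _))).and
        (MP.dm hf (defFun_pr (DefFun.var _) (DefFun.var _))))
  · rintro a ⟨b, c⟩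
    constructor
    · intro h
      have h1 : g a = b := congrArg Prod.fst h
      have h2 : f a = c := congrArg Prod.snd h
      exact ⟨cd M b, cd M c, isPair_pr _ _, (dm_cd (a := (a, b))).2 h1, (dm_cd (a := (a, c))).2 h2⟩
    · rintro ⟨y, z, hs, h1, h2⟩
      obtain ⟨e1, e2⟩ := pr_inj (isPair_iff.1 hs)
      rw [← show cd M b = y from e1] at h1
      rw [← show cd M c = z from e2] at h2
      have h3 : g a = b := (dm_cd (P := fun p : α × β => g p.1 = p.2) (a := (a, b))).1 h1
      have h4 : f a = c := (dm_cd (P := fun p : α × γ => f p.1 = p.2) (a := (a, c))).1 h2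
      show (g a, f a) = (b, c)
      rw [h3, h4]

@[fun_prop]
theorem mf_fst : MF M (fun x : α × β => x.1) :=
  mp_of3 (D := fun x _ z => x = z) (Def.eq (DefFun.var 0) (DefFun.var 2)) fun a b c =>
    (cd_inj_iff M).symm

@[fun_prop]
theorem mf_snd : MF M (fun x : α × β => x.2) :=
  mp_of3 (D := fun _ y z => y = z) (Def.eq (DefFun.var 1) (DefFun.var 2)) fun a b c =>
    (cd_inj_iff M).symm

end

/-! ### the type of propositions -/

section
variable {M : Type u} [ZFM M]

/-- the empty set -/
noncomputable def zeroM : M := Classical.choose (ZFM.zfc (M := M)).exEmp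

/-- `{∅}` -/
noncomputable def oneM : M := Classical.choose ((ZFM.zfc (M := M)).exSucc zeroM)

theorem zeroM_spec (x : M) : ¬ ZFM.E x zeroM := Classical.choose_spec (ZFM.zfc (M := M)).exEmp x

theorem oneM_spec (x : M) : ZFM.E x oneM ↔ ZFM.E x zeroM ∨ x = zeroM :=
  Classical.choose_spec ((ZFM.zfc (M := M)).exSucc zeroM) x

theorem zero_ne_one : (zeroM : M) ≠ oneM := by
  intro h
  have h1 : ZFM.E (zeroM : M) oneM := (oneM_spec _).2 (Or.inr rfl)
  rw [← h] at h1
  exact zeroM_spec _ h1

open Classical in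
noncomputable instance instPropIT : IT M Prop where
  code p := if p then oneM else zeroM
  inj := by
    intro p q h
    by_cases hp : p <;> by_cases hq : q
    · simp [hp, hq]
    · simp only [hp, hq, if_true, if_false] at h
      exact absurd h.symm zero_ne_one
    · simp only [hp, hq, if_true, if_false] at h
      exact absurd h zero_ne_one
    · simp [hp, hq]
  dom := Classical.choose ((ZFM.zfc (M := M)).exUPair zeroM oneM)
  mem_dom := by
    intro x
    rw [(Classical.choose_spec ((ZFM.zfc (M := M)).exUPair zeroM oneM)) x]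
    constructor
    · rintro (rfl | rfl)
      · exact ⟨False, by simp⟩
      · exact ⟨True, by simp⟩
    · rintro ⟨p, hp⟩
      by_cases h : p
      · right
        rw [← hp]
        simp [h]
      · left
        rw [← hp]
        simp [h]

end

section
variable {M : Type u} [ZFM M]
variable {α : Type v} {β : Type w} {γ : Type v1} {δ : Type v2} [IT M α] [IT M β] [IT M γ] [IT M δ]

/-- a predicate is in the model iff its set is -/
theorem mf_iff_mp {P : α → Prop} : MF M P ↔ MP M P := by
  constructor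
  · intro h
    refine mp_congr (mp_ex (R := fun (a : α) (q : Prop) => P a = q ∧ q = True)
      (mp_and h (mp_snd (mp_single (M := M) True)))) fun a => ?_
    constructor
    · intro ha
      exact ⟨True, by simp [ha], rfl⟩
    · rintro ⟨q, h1, h2⟩
      rw [h2] at h1
      exact of_eq_true h1
  · intro h
    refine mp_congr (mp_or (mp_and (mp_fst h) (mp_snd (mp_single (M := M) True)))
      (mp_and (mp_fst (mp_not h)) (mp_snd (mp_single (M := M) False)))) ?_
    rintro ⟨a, q⟩
    simp only [eq_iff_iff, iff_true, iff_false]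
    tauto

@[fun_prop]
theorem mf_and {P Q : α → Prop} (hP : MF M P) (hQ : MF M Q) : MF M (fun x => P x ∧ Q x) :=
  mf_iff_mp.2 (mp_and (mf_iff_mp.1 hP) (mf_iff_mp.1 hQ))

@[fun_prop]
theorem mf_or {P Q : α → Prop} (hP : MF M P) (hQ : MF M Q) : MF M (fun x => P x ∨ Q x) :=
  mf_iff_mp.2 (mp_or (mf_iff_mp.1 hP) (mf_iff_mp.1 hQ))

@[fun_prop]
theorem mf_not {P : α → Prop} (hP : MF M P) : MF M (fun x => ¬ P x) :=
  mf_iff_mp.2 (mp_not (mf_iff_mp.1 hP))

@[fun_prop]
theorem mf_imp {P Q : α → Prop} (hP : MF M P) (hQ : MF M Q) : MF M (fun x => P x → Q x) := by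
  have h := mf_or (mf_not hP) hQ
  have : (fun x => P x → Q x) = fun x => ¬ P x ∨ Q x := by
    funext x
    exact propext imp_iff_not_or
  rw [this]
  exact h

@[fun_prop]
theorem mf_iff {P Q : α → Prop} (hP : MF M P) (hQ : MF M Q) : MF M (fun x => P x ↔ Q x) := by
  have h := mf_and (mf_imp hP hQ) (mf_imp hQ hP)
  have : (fun x => P x ↔ Q x) = fun x => (P x → Q x) ∧ (Q x → P x) := by
    funext x
    exact propext iff_iff_implies_and_implies
  rw [this]
  exact h

@[fun_prop]
theorem mf_ex {R : α → β → Prop} (h : MF M (fun p : α × β => R p.1 p.2)) :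
    MF M (fun x => ∃ y, R x y) := mf_iff_mp.2 (mp_ex (mf_iff_mp.1 h))

@[fun_prop]
theorem mf_all {R : α → β → Prop} (h : MF M (fun p : α × β => R p.1 p.2)) :
    MF M (fun x => ∀ y, R x y) := mf_iff_mp.2 (mp_all (mf_iff_mp.1 h))

@[fun_prop]
theorem mf_eq {f g : α → β} (hf : MF M f) (hg : MF M g) : MF M (fun x => f x = g x) := by
  have h1 : MF M (fun p : β × β => p.1 = p.2) := mf_iff_mp.2 mp_eq
  exact mf_comp M h1 (mf_mk M hf hg)

@[fun_prop]
theorem mf_ne {f g : α → β} (hf : MF M f) (hg : MF M g) : MF M (fun x => f x ≠ g x) :=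
  mf_not (mf_eq hf hg)

/-- a function is in the model iff its graph is -/
theorem mf_of_graph {f : α → β} {R : α → β → Prop} (hR : MF M (fun p : α × β => R p.1 p.2))
    (h : ∀ a b, R a b ↔ f a = b) : MF M f :=
  mp_congr (mf_iff_mp.1 hR) fun p => (h p.1 p.2).symm

theorem mf_congr {f g : α → β} (hf : MF M f) (h : ∀ a, g a = f a) : MF M g := by
  have : g = f := funext h
  rw [this]
  exact hf

/-- definition by cases -/
theorem mf_ite {P : α → Prop} [DecidablePred P] {f g : α → β} (hP : MF M P) (hf : MF M f)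
    (hg : MF M g) : MF M (fun x => if P x then f x else g x) := by
  refine mf_of_graph (R := fun a b => (P a ∧ f a = b) ∨ (¬ P a ∧ g a = b)) (by fun_prop) ?_
  intro a b
  by_cases h : P a <;> simp [h]

example (R : α → γ → Prop) (S : γ → Prop) (g : γ → β) (hR : MF M (fun q : α × γ => R q.1 q.2))
    (hg : MF M g) (hS : MF M S) :
    MF M (fun p : α × β => ∃ c : γ, R p.1 c ∧ p.2 = g c ∧ ¬ S c) := by
  fun_prop

end

end HM
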