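import Pool.Agent.HM_h27.Rec
import Pool.Agent.HM_h27.TopA

/-!
# HM: levels, the Urysohn family
-/

namespace HM

open HESR Topology

universe u v w v1 v2 v3 v4

set_option linter.unusedVariables false
set_option linter.unusedSectionVars false

/-- four levels in the real line -/
structure Thr (R : Type w) [LinearOrder R] where
  l0 : R
  l1 : R
  l2 : R
  l3 : R
  h01 : l0 < l1
  h12 : l1 < l2
  h23 : l2 < l3

section
variable {M : Type u} [ZFM M]
variable {X : Type v} [IT M X] [TopologicalSpace X] [MTop M X] [T2Space X] [MCpt M X]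
variable {R : Type w} [IT M R] [LinearOrder R] [RealLine M R] [TopologicalSpace R] [OrderTopology R]
  [DenselyOrdered R] [NoMinOrder R] [NoMaxOrder R] [Nonempty R]

theorem exists_thr (R : Type w) [LinearOrder R] [NoMaxOrder R] [Nonempty R] : Nonempty (Thr R) := by
  obtain ⟨l0⟩ : Nonempty R := inferInstance
  obtain ⟨l1, h1⟩ := exists_gt l0
  obtain ⟨l2, h2⟩ := exists_gt l1
  obtain ⟨l3, h3⟩ := exists_gt l2
  exact ⟨⟨l0, l1, l2, l3, h1, h2, h3⟩⟩

/-- The conditions on the pair `p = (U n, C n)` relative to the graph `s` of the earlier pairs. -/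
def Ury_Phi (R : Type w) [IT M R] [LinearOrder R] [RealLine M R] (A B : PM M X) (n : ℕ)
    (s : PM M (ℕ × (PM M X × PM M X))) (p : PM M X × PM M X) : Prop :=
  Op p.1 ∧ Cld p.2 ∧ (∀ x, x ∈ A → x ∈ p.1) ∧ (∀ x, x ∈ p.1 → x ∈ p.2) ∧
    (∀ x, x ∈ p.2 → ¬ x ∈ B) ∧ ∀ (m : ℕ) (p' : PM M X × PM M X), (m, p') ∈ s →
      (qq M R m < qq M R n → ∀ x, x ∈ p'.2 → x ∈ p.1) ∧
      (qq M R n < qq M R m → ∀ x, x ∈ p.2 → x ∈ p'.1)

theorem Ury_mf (A B : PM M X) :
    MF M (fun p : (ℕ × PM M (ℕ × (PM M X × PM M X))) × (PM M X × PM M X) =>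
      Ury_Phi R A B p.1.1 p.1.2 p.2) := by
  unfold Ury_Phi
  fun_prop

/-- The closed set for the application of `exists_between`. -/
theorem Ury_A (A : PM M X) (n : ℕ) (s : PM M (ℕ × (PM M X × PM M X))) :
    MF M (fun x : X => x ∈ A ∨ ∃ (m : ℕ) (p' : PM M X × PM M X), (m, p') ∈ s ∧
      qq M R m < qq M R n ∧ x ∈ p'.2) := by
  fun_prop

/-- The open set for the application of `exists_between`. -/
theorem Ury_O (B : PM M X) (n : ℕ) (s : PM M (ℕ × (PM M X × PM M X))) :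
    MF M (fun x : X => ¬ x ∈ B ∧ ∀ (m : ℕ) (p' : PM M X × PM M X), (m, p') ∈ s →
      qq M R n < qq M R m → x ∈ p'.1) := by
  fun_prop

theorem Ury_cldA {A : PM M X} (hA : Cld A) {n : ℕ} {s : PM M (ℕ × (PM M X × PM M X))}
    {g : ℕ → PM M X × PM M X} (hs : IsRestr (· < ·) g n s) (hg : ∀ m, m < n → Cld (g m).2) :
    Cld (PM.of _ (Ury_A (R := R) A n s)) := by
  classical
  have h : (PM.of _ (Ury_A (R := R) A n s)).set =
      A.set ∪ ⋃ m ∈ (Finset.range n).filter (fun m => qq M R m < qq M R n), (g m).2.set := by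
    ext x
    simp only [Set.mem_union, Set.mem_iUnion, Finset.mem_filter, Finset.mem_range]
    constructor
    · rintro (h | ⟨m, p', h1, h2, h3⟩)
      · exact Or.inl h
      · obtain ⟨h4, h5⟩ := (hs (m, p')).1 h1
        refine Or.inr ⟨m, ⟨h4, h2⟩, ?_⟩
        have h6 : g m = p' := h5
        rw [h6]
        exact h3
    · rintro (h | ⟨m, ⟨h1, h2⟩, h3⟩)
      · exact Or.inl h
      · exact Or.inr ⟨m, g m, (hs (m, g m)).2 ⟨h1, rfl⟩, h2, h3⟩
  unfold Cld
  rw [h]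
  refine IsClosed.union hA (isClosed_biUnion_finset fun m hm => ?_)
  exact hg m (Finset.mem_range.1 (Finset.mem_filter.1 hm).1)

theorem Ury_opO {B : PM M X} (hB : Cld B) {n : ℕ} {s : PM M (ℕ × (PM M X × PM M X))}
    {g : ℕ → PM M X × PM M X} (hs : IsRestr (· < ·) g n s) (hg : ∀ m, m < n → Op (g m).1) :
    Op (PM.of _ (Ury_O (R := R) B n s)) := by
  classical
  have h : (PM.of _ (Ury_O (R := R) B n s)).set =
      B.setᶜ ∩ ⋂ m ∈ (Finset.range n).filter (fun m => qq M R n < qq M R m), (g m).1.set := by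
    ext x
    simp only [Set.mem_inter_iff, Set.mem_iInter, Finset.mem_filter, Finset.mem_range]
    constructor
    · rintro ⟨h1, h2⟩
      exact ⟨h1, fun m hm => h2 m (g m) ((hs (m, g m)).2 ⟨hm.1, rfl⟩) hm.2⟩
    · rintro ⟨h1, h2⟩
      refine ⟨h1, fun m p' h3 h4 => ?_⟩
      obtain ⟨h5, h6⟩ := (hs (m, p')).1 h3
      have h7 : g m = p' := h6
      rw [← h7]
      exact h2 m ⟨h5, h4⟩
  unfold Op
  rw [h]
  refine IsOpen.inter hB.isOpen_compl (isOpen_biInter_finset fun m hm => ?_)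
  exact hg m (Finset.mem_range.1 (Finset.mem_filter.1 hm).1)

/-- the restriction of a sequence -/
theorem Ury_restr {Y : Type v4} [IT M Y] (g : ℕ → Y) (n : ℕ) :
    ∃ t : PM M (ℕ × Y), IsRestr (· < ·) g n t :=
  ⟨PM.of (fun p => p.1 < n ∧ g p.1 = p.2) (mf_finite_graph g n), fun _ => Iff.rfl⟩

/-- The Urysohn family: open sets `U n` and closed sets `C n ⊇ U n` of the model with
`A ⊆ U n`, `C n ∩ B = ∅` and `C m ⊆ U n` whenever `qq m < qq n`.

PROOF. Transfinite dependent choice `exists_tdc` along `W := ℕ` (`r := <`, `wellFounded_lt`) with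
`α := PM M X × PM M X` and `Φ n s p := Op p.1 ∧ Cld p.2 ∧ A ⊆ p.1 ∧ p.1 ⊆ p.2 ∧ p.2 ∩ B = ∅ ∧
∀ m p', (m, p') ∈ s → (qq m < qq n → p'.2 ⊆ p.1) ∧ (qq n < qq m → p.2 ⊆ p'.1)`. For the existence apply
`exists_between` to the closed set `A ∪ ⋃ {C m | m < n, qq m < qq n}` and the open set
`B.compl ∩ ⋂ {U m | m < n, qq n < qq m}` (finite unions and intersections; use `isClosed_biUnion_finset`,
`isOpen_biInter_finset`; the sets are in the model by `fun_prop` from the graph `s`). -/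
theorem exists_ury_family {A B : PM M X} (hA : Cld A) (hB : Cld B) (hd : ∀ x, x ∈ A → ¬ x ∈ B) :
    ∃ U C : ℕ → PM M X, MF M U ∧ MF M C ∧ (∀ n, Op (U n)) ∧ (∀ n, Cld (C n)) ∧
      (∀ n x, x ∈ A → x ∈ U n) ∧ (∀ n x, x ∈ U n → x ∈ C n) ∧ (∀ n x, x ∈ C n → ¬ x ∈ B) ∧
      ∀ m n, qq M R m < qq M R n → ∀ x, x ∈ C m → x ∈ U n := by
  haveI : Nonempty (PM M X × PM M X) := ⟨(A, B)⟩
  obtain ⟨f, hf, hfr⟩ := exists_tdc (M := M) (W := ℕ) (α := PM M X × PM M X) (r := (· < ·))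
    (Φ := Ury_Phi R A B) mf_lt0 wellFounded_lt (fun a b c => lt_trans) (Ury_mf A B) (by
      intro n s g _ hs hg
      have hg' : ∀ m, m < n → ∃ t, IsRestr (· < ·) g m t ∧ Ury_Phi R A B m t (g m) := by
        intro m hm
        obtain ⟨t, ht⟩ := Ury_restr (M := M) g m
        exact ⟨t, ht, hg m t hm ht⟩
      have hcmp : ∀ m m', m < n → m' < n → qq M R m < qq M R m' →
          ∀ x, x ∈ (g m).2 → x ∈ (g m').1 := by
        intro m m' hm hm' hq
        rcases lt_trichotomy m m' with h | h | h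
        · obtain ⟨t, ht, _, _, _, _, _, h6⟩ := hg' m' hm'
          exact (h6 m (g m) ((ht (m, g m)).2 ⟨h, rfl⟩)).1 hq
        · rw [h] at hq
          exact absurd hq (lt_irrefl _)
        · obtain ⟨t, ht, _, _, _, _, _, h6⟩ := hg' m hm
          exact (h6 m' (g m') ((ht (m', g m')).2 ⟨h, rfl⟩)).2 hq
      have hAc := Ury_cldA (R := R) hA hs fun m hm => (hg' m hm).choose_spec.2.2.1
      have hOo := Ury_opO (R := R) hB hs fun m hm => (hg' m hm).choose_spec.2.1
      obtain ⟨U, C, h1, h2, h3, h4, h5⟩ := exists_between hAc hOo (by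
        rintro x (hx | ⟨m, p', hm, hq, hx⟩)
        · refine ⟨hd x hx, fun m p' hm hq => ?_⟩
          obtain ⟨h6, h7⟩ := (hs (m, p')).1 hm
          have h8 : g m = p' := h7
          rw [← h8]
          obtain ⟨t, _, _, _, h9, _⟩ := hg' m h6
          exact h9 x hx
        · obtain ⟨h6, h7⟩ := (hs (m, p')).1 hm
          have h8 : g m = p' := h7
          rw [← h8] at hx
          obtain ⟨t, _, _, _, _, _, h9, _⟩ := hg' m h6
          refine ⟨h9 x hx, fun m' p'' hm' hq' => ?_⟩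
          obtain ⟨h6', h7'⟩ := (hs (m', p'')).1 hm'
          have h8' : g m' = p'' := h7'
          rw [← h8']
          exact hcmp m m' h6 h6' (lt_trans hq hq') x hx)
      refine ⟨(U, C), h1, h2, fun x hx => h3 x (Or.inl hx), h4, fun x hx => (h5 x hx).1, ?_⟩
      intro m p' hm
      exact ⟨fun hq x hx => h3 x (Or.inr ⟨m, p', hm, hq, hx⟩),
        fun hq x hx => (h5 x hx).2 m p' hm hq⟩)
  have hfr' : ∀ n, ∃ t, IsRestr (· < ·) f n t ∧ Ury_Phi R A B n t (f n) := by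
    intro n
    obtain ⟨t, ht⟩ := Ury_restr (M := M) f n
    exact ⟨t, ht, hfr n t ht⟩
  refine ⟨fun n => (f n).1, fun n => (f n).2, by fun_prop, by fun_prop, ?_, ?_, ?_, ?_, ?_, ?_⟩
  · intro n
    obtain ⟨t, _, h, _⟩ := hfr' n
    exact h
  · intro n
    obtain ⟨t, _, _, h, _⟩ := hfr' n
    exact h
  · intro n
    obtain ⟨t, _, _, _, h, _⟩ := hfr' n
    exact h
  · intro n
    obtain ⟨t, _, _, _, _, h, _⟩ := hfr' n
    exact h
  · intro n
    obtain ⟨t, _, _, _, _, _, h, _⟩ := hfr' n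
    exact h
  · intro m n hq
    rcases lt_trichotomy m n with h | h | h
    · obtain ⟨t, ht, _, _, _, _, _, h6⟩ := hfr' n
      exact (h6 m (f m) ((ht (m, f m)).2 ⟨h, rfl⟩)).1 hq
    · rw [h] at hq
      exact absurd hq (lt_irrefl _)
    · obtain ⟨t, ht, _, _, _, _, _, h6⟩ := hfr' m
      exact (h6 n (f n) ((ht (n, f n)).2 ⟨h, rfl⟩)).2 hq

end

end HM
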