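import Pool.Agent.HM_h27.TopB
import Pool.Agent.HM_h27.Ury

/-!
# HM: Urysohn functions; the functions `g` and `F`
-/

namespace HM

open HESR Topology

universe u v w v1 v2 v3 v4

set_option linter.unusedVariables false
set_option linter.unusedSectionVars false

section
variable {M : Type u} [ZFM M]
variable {X : Type v} [IT M X] [TopologicalSpace X] [MTop M X] [T2Space X] [MCpt M X]
variable {R : Type w} [IT M R] [LinearOrder R] [RealLine M R] [TopologicalSpace R] [OrderTopology R]
  [DenselyOrdered R] [NoMinOrder R] [NoMaxOrder R] [Nonempty R]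

/-- Urysohn's lemma in the model.

PROOF. With the family of `exists_ury_family` (for `R`) let `f x` be the greatest lower bound of
`{b} ∪ {qq n | a < qq n ∧ qq n < b ∧ x ∈ U n}` (bounded below by `a`; greatest lower bounds exist in the
model by `RealLine.lub` applied to the set of lower bounds; the graph of `f` is
`∀ r, r ≤ y ↔ r is a lower bound`, so `f` is in the model by `mf_of_graph`). On `A` the value is `a` (density of
`qq`), on `B` it is `b`. Continuity: `f x < r ↔ b < r ∨ ∃ n, a < qq n ∧ qq n < b ∧ qq n < r ∧ x ∈ U n`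
and, for `a ≤ r < b`, `r < f x ↔ ∃ n, r < qq n ∧ qq n < b ∧ a < qq n ∧ x ∉ C n` (for the direction from left to
right take `r < qq m < qq n < f x`; if `x ∈ C m` then `x ∈ U n` and `f x ≤ qq n`); for
`r < a` all `x`, for `b ≤ r` no `x`. Use `continuous_generateFrom`-type criteria for the order topology:
`OrderTopology.topology_eq_generate_intervals`, i.e. preimages of `Iio r`, `Ioi r` are open. -/
theorem exists_urysohn {A B : PM M X} (hA : Cld A) (hB : Cld B) (hd : ∀ x, x ∈ A → ¬ x ∈ B)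
    {a b : R} (hab : a < b) :
    ∃ f : CX M X R, (∀ x, x ∈ A → f.1 x = a) ∧ ∀ x, x ∈ B → f.1 x = b := by
  obtain ⟨U, C, hU, hC, hUo, hCc, hAU, hUC, hCB, hmn⟩ := exists_ury_family (R := R) hA hB hd
  have hex : ∀ x : X, ∃ c : R, ∀ y : R, (y ≤ b ∧ ∀ n : ℕ, a < qq M R n → qq M R n < b →
      x ∈ U n → y ≤ qq M R n) ↔ y ≤ c := by
    intro x
    obtain ⟨c, hc⟩ := RealLine.lub (M := M) (R := R) (PM.of (fun y : R => y ≤ b ∧ ∀ n : ℕ,
      a < qq M R n → qq M R n < b → x ∈ U n → y ≤ qq M R n) (by fun_prop))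
      ⟨a, hab.le, fun n h1 _ _ => h1.le⟩ ⟨b, fun y hy => hy.1⟩
    refine ⟨c, fun y => ⟨fun hy => hc.1 hy, fun hy => ⟨?_, fun n h1 h2 h3 => ?_⟩⟩⟩
    · exact hy.trans (hc.2 fun z hz => hz.1)
    · exact hy.trans (hc.2 fun z hz => hz.2 n h1 h2 h3)
  choose f hf using hex
  have hfm : MF M f := by
    refine mf_of_graph (R := fun (x : X) (c : R) => ∀ y : R, (y ≤ b ∧ ∀ n : ℕ, a < qq M R n →
      qq M R n < b → x ∈ U n → y ≤ qq M R n) ↔ y ≤ c) (by fun_prop) fun x c => ?_
    constructor
    · intro h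
      refine le_antisymm ?_ ?_
      · exact (h _).1 ((hf x _).2 le_rfl)
      · exact (hf x _).1 ((h _).2 le_rfl)
    · rintro rfl
      exact hf x
  have hle : ∀ x, f x ≤ b := fun x => ((hf x _).2 le_rfl).1
  have hlq : ∀ x n, a < qq M R n → qq M R n < b → x ∈ U n → f x ≤ qq M R n := fun x =>
    ((hf x _).2 le_rfl).2
  have hge : ∀ x, a ≤ f x := fun x => (hf x a).1 ⟨hab.le, fun n h1 _ _ => h1.le⟩
  have hlt : ∀ x r, f x < r ↔ b < r ∨ ∃ n, (a < qq M R n ∧ qq M R n < b ∧ qq M R n < r) ∧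
      x ∈ U n := by
    intro x r
    rw [← not_le, ← hf x r]
    constructor
    · intro h
      by_cases h1 : b < r
      · exact Or.inl h1
      · right
        by_contra hc
        push Not at hc
        exact h ⟨not_lt.1 h1, fun n h2 h3 h4 => not_lt.1 fun h5 => hc n ⟨h2, h3, h5⟩ h4⟩
    · rintro (h | ⟨n, ⟨h1, h2, h3⟩, h4⟩) ⟨h5, h6⟩
      · exact absurd h5 (not_le.2 h)
      · exact absurd (h6 n h1 h2 h4) (not_le.2 h3)
  have hgt : ∀ x r, a ≤ r → (r < f x ↔ ∃ n, (r < qq M R n ∧ qq M R n < b) ∧ ¬ x ∈ C n) := by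
    intro x r har
    constructor
    · intro h
      obtain ⟨n, hn1, hn2⟩ := qq_dense (M := M) h
      obtain ⟨m, hm1, hm2⟩ := qq_dense (M := M) hn1
      have hnb : qq M R n < b := hn2.trans_le (hle x)
      refine ⟨m, ⟨hm1, hm2.trans hnb⟩, fun hx => ?_⟩
      have h1 := hlq x n (har.trans_lt hn1) hnb (hmn m n hm2 x hx)
      exact absurd hn2 (not_lt.2 h1)
    · rintro ⟨n, ⟨h1, h2⟩, h3⟩
      refine h1.trans_le ((hf x _).1 ⟨h2.le, fun k h4 h5 h6 => ?_⟩)
      by_contra hc
      rw [not_le] at hc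
      exact h3 (hUC n x (hmn k n hc x (hUC k x h6)))
  have hcont : Continuous f := by
    rw [OrderTopology.continuous_iff]
    intro r
    constructor
    · rcases lt_or_ge r a with hr | hr
      · have h1 : f ⁻¹' Set.Ioi r = Set.univ := by
          ext x
          simp only [Set.mem_preimage, Set.mem_Ioi, Set.mem_univ, iff_true]
          exact hr.trans_le (hge x)
        rw [h1]
        exact isOpen_univ
      · have h1 : f ⁻¹' Set.Ioi r = ⋃ n, ⋃ _ : (r < qq M R n ∧ qq M R n < b), (C n).setᶜ := by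
          ext x
          simp only [Set.mem_preimage, Set.mem_Ioi, Set.mem_iUnion, Set.mem_compl_iff, exists_prop]
          exact hgt x r hr
        rw [h1]
        exact isOpen_iUnion fun n => isOpen_iUnion fun _ => (show IsClosed (C n).set from hCc n).isOpen_compl
    · by_cases hr : b < r
      · have h1 : f ⁻¹' Set.Iio r = Set.univ := by
          ext x
          simp only [Set.mem_preimage, Set.mem_Iio, Set.mem_univ, iff_true]
          exact (hle x).trans_lt hr
        rw [h1]
        exact isOpen_univ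
      · have h1 : f ⁻¹' Set.Iio r = ⋃ n, ⋃ _ : (a < qq M R n ∧ qq M R n < b ∧ qq M R n < r),
            (U n).set := by
          ext x
          simp only [Set.mem_preimage, Set.mem_Iio, Set.mem_iUnion, exists_prop]
          rw [hlt x r]
          constructor
          · rintro (h | h)
            · exact absurd h hr
            · exact h
          · exact Or.inr
        rw [h1]
        exact isOpen_iUnion fun n => isOpen_iUnion fun _ => hUo n
  refine ⟨⟨⟨f, hfm⟩, hcont⟩, fun x hx => ?_, fun x hx => ?_⟩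
  · show f x = a
    refine le_antisymm ?_ (hge x)
    by_contra hc
    rw [not_le] at hc
    obtain ⟨n, hn1, hn2⟩ := qq_dense (M := M) hc
    exact absurd hn2 (not_lt.2 (hlq x n hn1 (hn2.trans_le (hle x)) (hAU n x hx)))
  · show f x = b
    refine le_antisymm (hle x) ((hf x b).1 ⟨le_rfl, fun n _ _ h => ?_⟩)
    exact absurd hx (hCB n x (hUC n x h))

variable (M X R) in
/-- The functions used in the proof: `g z n` has the value `l0` at `z`, and the sets `{g z n < l3}` are a base
at `z`; `F r` separates the two points of the pair `r`. -/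
structure Fns (L : Thr R) where
  g : X → ℕ → CX M X R
  g_mf : MF M (fun p : X × ℕ => g p.1 p.2)
  g_at : ∀ z n, (g z n).1 z = L.l0
  g_base : ∀ (z : X) (U : Set X), IsOpen U → z ∈ U → ∃ n, ∀ y, (g z n).1 y < L.l3 → y ∈ U
  F : X × X → CX M X R
  F_mf : MF M F
  F_zero : ∀ r : X × X, r.1 ≠ r.2 → (F r).1 r.1 = L.l0
  F_one : ∀ r : X × X, r.1 ≠ r.2 → (F r).1 r.2 = L.l3

/-- PROOF. `exists_base` gives `B`; by `exists_choose` over `p : X × ℕ` choose with `exists_urysohn` (closed sets
`PM.single p.1` and `(B p.1 p.2).compl`) a function `f : CX M X R` with `f.1 p.1 = l0` and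
`∀ y, ¬ y ∈ B p.1 p.2 → f.1 y = l3`. For `F` choose over `r : X × X` with the relation
`r.1 ≠ r.2 → f.1 r.1 = l0 ∧ f.1 r.2 = l3` (a constant function if `r.1 = r.2`). -/
theorem exists_fns [MPerf M X] (L : Thr R) : Nonempty (Fns M X R L) := by
  obtain ⟨B, hBm, hBo, hBx, hBd, hBb⟩ := exists_base (M := M) (X := X)
  have h03 : L.l0 < L.l3 := L.h01.trans (L.h12.trans L.h23)
  have hBm' : MF M (fun q : ((X × ℕ) × CX M X R) × X => q.2 ∈ B q.1.1.1 q.1.1.2) :=
    mf_mem (mf_snd M) (mf_comp M (g := fun p : X × ℕ => B p.1 p.2)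
      (f := fun q : ((X × ℕ) × CX M X R) × X => q.1.1) hBm (by fun_prop))
  have hR1 : MF M (fun q : (X × ℕ) × CX M X R => q.2.1 q.1.1 = L.l0 ∧
      ∀ y, ¬ y ∈ B q.1.1 q.1.2 → q.2.1 y = L.l3) := by
    fun_prop
  obtain ⟨G, hG, hG'⟩ := exists_choose (M := M) (α := X × ℕ) (β := CX M X R)
    (R := fun p f => f.1 p.1 = L.l0 ∧ ∀ y, ¬ y ∈ B p.1 p.2 → f.1 y = L.l3) hR1 (by
      intro p
      obtain ⟨f, h1, h2⟩ := exists_urysohn (M := M) (X := X) (R := R) (A := PM.single p.1)
        (B := (B p.1 p.2).compl) (cld_single p.1) (op_compl_iff.2 (hBo p.1 p.2)) (by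
          intro x hx hx'
          have h3 : x = p.1 := hx
          rw [h3] at hx'
          exact hx' (hBx p.1 p.2)) h03
      exact ⟨f, h1 p.1 rfl, fun y hy => h2 y hy⟩)
  obtain ⟨F, hF, hF'⟩ := exists_choose (M := M) (α := X × X) (β := CX M X R)
    (R := fun r f => r.1 ≠ r.2 → f.1 r.1 = L.l0 ∧ f.1 r.2 = L.l3) (by fun_prop) (by
      intro r
      by_cases hr : r.1 = r.2
      · exact ⟨G (r.1, 0), fun h => absurd hr h⟩
      · obtain ⟨f, h1, h2⟩ := exists_urysohn (M := M) (X := X) (R := R) (A := PM.single r.1)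
          (B := PM.single r.2) (cld_single r.1) (cld_single r.2) (by
            intro x hx hx'
            exact hr ((show x = r.1 from hx).symm.trans hx')) h03
        exact ⟨f, fun _ => ⟨h1 r.1 rfl, h2 r.2 rfl⟩⟩)
  refine ⟨⟨fun z n => G (z, n), hG, fun z n => (hG' (z, n)).1, ?_, F, hF,
    fun r hr => (hF' r hr).1, fun r hr => (hF' r hr).2⟩⟩
  intro z U hU hz
  obtain ⟨n, hn⟩ := hBb z U hU hz
  refine ⟨n, fun y hy => hn y ?_⟩
  by_contra hc
  exact absurd ((hG' (z, n)).2 y hc) hy.ne

end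

end HM
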