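import Pool.Agent.HM_h27.RMB
import Pool.Agent.HM_h27.TopC
import Pool.Agent.HM_h27.UryB

/-!
# HM: a sequence of continuous functions which determines the topology
-/

namespace HM

open HESR Topology

universe u v w v1 v2 v3 v4

set_option linter.unusedVariables false
set_option linter.unusedSectionVars false

section
variable {M : Type u} [ZFM M]
variable {X : Type v} [IT M X] [TopologicalSpace X] [MTop M X] [T2Space X] [MCpt M X]

theorem Met_fv_one : fv ((1, 0), 0) = 1 := by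
  unfold fv
  norm_num

theorem Met_pos : (0 : RM M) < RM.fr ((1, 0), 0) := by
  rw [← RM.val_lt, RM.val_zero, RM.val_fr, Met_fv_one]
  norm_num

theorem Met_ex (A O : PM M X) (hO : Op O) : ∃ f : CX M X (RM M),
    (∀ y, y ∈ A.cl → y ∈ O) → ((∀ x, x ∈ A.cl → f.1 x = 0) ∧
      ∀ x, ¬ x ∈ O → f.1 x = RM.fr ((1, 0), 0)) := by
  by_cases h : ∀ y, y ∈ A.cl → y ∈ O
  · obtain ⟨f, h1, h2⟩ := exists_urysohn (M := M) (X := X) (R := RM M) (A := A.cl) (B := O.compl)
      (cld_cl A) (op_compl_iff.2 hO) (fun x hx hx' => hx' (h x hx)) Met_pos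
    exact ⟨f, fun _ => ⟨h1, fun x hx => h2 x hx⟩⟩
  · obtain ⟨f, h1, h2⟩ := exists_urysohn (M := M) (X := X) (R := RM M)
      (A := PM.of (fun _ => False) (mf_const M False)) (B := PM.of (fun _ => False) (mf_const M False))
      isClosed_const isClosed_const (fun x hx => absurd hx (fun h => h)) Met_pos
    exact ⟨f, fun h' => absurd h' h⟩

/-- A sequence of continuous functions which determines the topology.

PROOF. Let `B` be the countable base (`MSC`) and `e : ℕ → ℕ × ℕ` a surjection in the model (`exists_enum_prod`).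
`exists_choose` (over `n : ℕ`) with the relation
`(∀ x, (∀ y, y ∈ (B (e n).1).cl → y ∈ B (e n).2) → x ∈ (B (e n).1).cl → f.1 x = 0) ∧
 (∀ x, (∀ y, y ∈ (B (e n).1).cl → y ∈ B (e n).2) → ¬ x ∈ B (e n).2 → f.1 x = RM.fr ((1, 0), 0))` for `f : CX M X (RM M)`;
existence by `exists_urysohn` if `cl B i ⊆ B j`, and any continuous function otherwise (e.g. `exists_urysohn` with
empty sets). For `x ∈ U` take `j` with `x ∈ B j ⊆ U`, an open set `O` with `x ∈ O`, `O.cl ⊆ B j`
(`exists_between` for the closed set `PM.single x`) and `i` with `x ∈ B i ⊆ O`. -/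
theorem exists_fun_seq (h : MSC M X) : ∃ f : ℕ → CX M X (RM M), MF M f ∧
    ∀ (x : X) (U : PM M X), Op U → x ∈ U → ∃ n, ((f n).1 x).val = 0 ∧
      ∀ y, ((f n).1 y).val < 1 → y ∈ U := by
  obtain ⟨B, hB, hBo, hBb⟩ := h
  obtain ⟨e, he, hes⟩ := exists_enum_prod M
  obtain ⟨f, hf, hfR⟩ := exists_choose (M := M) (α := ℕ) (β := CX M X (RM M))
    (R := fun n f => (∀ y, y ∈ (B (e n).1).cl → y ∈ B (e n).2) →
      ((∀ x, x ∈ (B (e n).1).cl → f.1 x = 0) ∧
        ∀ x, ¬ x ∈ B (e n).2 → f.1 x = RM.fr ((1, 0), 0))) (by fun_prop)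
    (fun n => Met_ex (B (e n).1) (B (e n).2) (hBo _))
  refine ⟨f, hf, fun x U hU hx => ?_⟩
  obtain ⟨j, hj1, hj2⟩ := hBb x U hU hx
  obtain ⟨O, C, h1, h2, h3, h4, h5⟩ := exists_between (M := M) (X := X) (A := PM.single x)
    (O := B j) (cld_single x) (hBo j) (fun y hy => by
      have h6 : y = x := hy
      rw [h6]
      exact hj1)
  obtain ⟨i, hi1, hi2⟩ := hBb x O h1 (h3 x rfl)
  obtain ⟨n, hn⟩ := hes (i, j)
  have hsub : ∀ y, y ∈ (B (e n).1).cl → y ∈ B (e n).2 := by
    intro y hy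
    rw [hn] at hy ⊢
    have h6 : closure (B i).set ⊆ C.set := closure_minimal (fun z hz => h4 z (hi2 z hz)) h2
    exact h5 y (h6 hy)
  obtain ⟨h7, h8⟩ := hfR n hsub
  refine ⟨n, ?_, fun y hy => ?_⟩
  · rw [h7 x (subset_closure (by
      rw [hn]
      exact hi1))]
    exact RM.val_zero
  · by_contra hyU
    have h9 : ¬ y ∈ B (e n).2 := by
      rw [hn]
      exact fun h => hyU (hj2 y h)
    rw [h8 y h9, RM.val_fr, Met_fv_one] at hy
    exact lt_irrefl _ hy

end

end HM
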