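import Pool.Agent.HM_h27.Met

/-!
# HM: a compact space of the model with a countable base is metrizable in the model
-/

namespace HM

open HESR Topology

universe u v w v1 v2 v3 v4

set_option linter.unusedVariables false
set_option linter.unusedSectionVars false

section
variable {M : Type u} [ZFM M]
variable {X : Type v} [IT M X] [TopologicalSpace X] [MTop M X] [T2Space X] [MCpt M X]

/-- The `n`-th term of the metric -/
noncomputable def dterm (f : ℕ → CX M X (RM M)) (x y : X) (n : ℕ) : ℝ :=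
  min (1 / ((n : ℝ) + 1)) |((f n).1 x).val - ((f n).1 y).val|

theorem dterm_nonneg (f : ℕ → CX M X (RM M)) (x y : X) (n : ℕ) : 0 ≤ dterm f x y n := by
  unfold dterm
  exact le_min (by positivity) (abs_nonneg _)

theorem dterm_le (f : ℕ → CX M X (RM M)) (x y : X) (n : ℕ) : dterm f x y n ≤ 1 / ((n : ℝ) + 1) := by
  exact min_le_left _ _

theorem bdd_dterm (f : ℕ → CX M X (RM M)) (x y : X) : BddAbove (Set.range (dterm f x y)) := by
  refine ⟨1, ?_⟩
  rintro _ ⟨n, rfl⟩
  refine (dterm_le f x y n).trans ?_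
  rw [div_le_one (by positivity)]
  linarith [Nat.cast_nonneg (α := ℝ) n]

/-- the metric -/
noncomputable def dsup (f : ℕ → CX M X (RM M)) (x y : X) : ℝ := ⨆ n, dterm f x y n

theorem dsup_symm (f : ℕ → CX M X (RM M)) (x y : X) : dsup f x y = dsup f y x := by
  unfold dsup dterm
  congr 1
  ext n
  rw [abs_sub_comm]

theorem dsup_self (f : ℕ → CX M X (RM M)) (x : X) : dsup f x x = 0 := by
  have h : ∀ n, dterm f x x n = 0 := by
    intro n
    unfold dterm
    rw [sub_self, abs_zero]
    exact min_eq_right (by positivity)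
  unfold dsup
  simp only [h]
  exact ciSup_const

theorem dsup_triangle (f : ℕ → CX M X (RM M)) (x y z : X) : dsup f x z ≤ dsup f x y + dsup f y z := by
  refine ciSup_le fun n => ?_
  have h1 : dterm f x z n ≤ dterm f x y n + dterm f y z n := by
    unfold dterm
    have ha : (0 : ℝ) ≤ 1 / ((n : ℝ) + 1) := by positivity
    have h3 := abs_sub_le ((f n).1 x).val ((f n).1 y).val ((f n).1 z).val
    have h4 := abs_nonneg (((f n).1 x).val - ((f n).1 y).val)
    have h5 := abs_nonneg (((f n).1 y).val - ((f n).1 z).val)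
    rcases le_total (1 / ((n : ℝ) + 1)) |((f n).1 x).val - ((f n).1 y).val| with h6 | h6 <;>
    rcases le_total (1 / ((n : ℝ) + 1)) |((f n).1 y).val - ((f n).1 z).val| with h7 | h7
    · rw [min_eq_left h6, min_eq_left h7]
      exact (min_le_left _ _).trans (by linarith)
    · rw [min_eq_left h6, min_eq_right h7]
      exact (min_le_left _ _).trans (by linarith)
    · rw [min_eq_right h6, min_eq_left h7]
      exact (min_le_left _ _).trans (by linarith)
    · rw [min_eq_right h6, min_eq_right h7]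
      exact (min_le_right _ _).trans h3
  have h4 := le_ciSup (bdd_dterm f x y) n
  have h5 := le_ciSup (bdd_dterm f y z) n
  unfold dsup
  linarith

/-- PROOF. `fv p < dsup f x y ↔ ∃ n, fv p < 1/(n+1) ∧ (fv p < (f n x - f n y).val ∨ fv p < (f n y - f n x).val)`;
`1/(n+1) = fv ((1, 0), n)`. -/
theorem mf_dsup {f : ℕ → CX M X (RM M)} (hf : MF M f) :
    MF M (fun q : (X × X) × ((ℕ × ℕ) × ℕ) => fv q.2 < dsup f q.1.1 q.1.2) := by
  have h : MF M (fun q : (X × X) × ((ℕ × ℕ) × ℕ) => ∃ n : ℕ, fv q.2 < fv ((1, 0), n) ∧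
      (fv q.2 < ((f n).1 q.1.1 - (f n).1 q.1.2).val ∨
        fv q.2 < ((f n).1 q.1.2 - (f n).1 q.1.1).val)) := by
    fun_prop
  refine mf_congr h fun q => propext ?_
  unfold dsup
  rw [lt_ciSup_iff (bdd_dterm f q.1.1 q.1.2)]
  refine exists_congr fun n => ?_
  unfold dterm
  rw [lt_min_iff, lt_abs, RM.val_sub, RM.val_sub, neg_sub]
  have h1 : fv ((1, 0), n) = 1 / ((n : ℝ) + 1) := by simp [fv]
  rw [h1]

/-- if `dsup f x y < 1/(n+1)` then `|f n x - f n y| < 1/(n+1)` -/
theorem abs_lt_of_dsup {f : ℕ → CX M X (RM M)} {x y : X} {n : ℕ} (h : dsup f x y < 1 / ((n : ℝ) + 1)) :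
    |((f n).1 x).val - ((f n).1 y).val| < 1 / ((n : ℝ) + 1) := by
  by_contra hc
  have h1 : dterm f x y n = 1 / ((n : ℝ) + 1) := by
    unfold dterm
    exact min_eq_left (not_lt.1 hc)
  have h2 : dterm f x y n ≤ dsup f x y := le_ciSup (bdd_dterm f x y) n
  rw [h1] at h2
  exact absurd h (not_lt.2 h2)

/-- The balls are neighbourhoods.

PROOF. Choose `N` with `1/(N+1) < ε`; the set of `y` with `|f n x - f n y| < ε/2` for all `n ≤ N` is a neighbourhood
of `x`: each `(f n).1` is continuous for the order topology of `RM M` (`CX.cont`), and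
`f n x - fv p < f n y < f n x + fv p` for a fraction `0 < fv p < ε/2` is an open condition (`RM.fr p : RM M`). -/
theorem ball_nhds (f : ℕ → CX M X (RM M)) (x : X) {ε : ℝ} (hε : 0 < ε) : {y | dsup f x y < ε} ∈ 𝓝 x := by
  obtain ⟨N, hN⟩ := exists_nat_one_div_lt (half_pos hε)
  have h1 : ∀ n : ℕ, {y | |((f n).1 x).val - ((f n).1 y).val| < ε / 2} ∈ 𝓝 x := by
    intro n
    obtain ⟨p, hp1, hp2⟩ := fv_dense (half_pos hε)
    have hc := (CX.cont (f n)).continuousAt (x := x)
    have hpos : (0 : RM M) < RM.fr p := by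
      rw [← RM.val_lt, RM.val_zero, RM.val_fr]
      exact hp1
    have h2 : Set.Ioo ((f n).1.toFun x - RM.fr p) ((f n).1.toFun x + RM.fr p) ∈
        𝓝 ((f n).1.toFun x) :=
      Ioo_mem_nhds (sub_lt_self _ hpos) (lt_add_of_pos_right _ hpos)
    filter_upwards [hc h2] with y hy
    obtain ⟨h3, h4⟩ := hy
    rw [← RM.val_lt, RM.val_sub, RM.val_fr] at h3
    rw [← RM.val_lt, RM.val_add, RM.val_fr] at h4
    rw [abs_lt]
    constructor <;> linarith
  have h2 : (⋂ n ∈ Set.Iic N, {y | |((f n).1 x).val - ((f n).1 y).val| < ε / 2}) ∈ 𝓝 x :=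
    (Filter.biInter_mem (Set.finite_Iic N)).2 fun n _ => h1 n
  filter_upwards [h2] with y hy
  have h3 : dsup f x y ≤ ε / 2 := by
    refine ciSup_le fun n => ?_
    by_cases hn : n ≤ N
    · exact (min_le_right _ _).trans (le_of_lt (Set.mem_iInter₂.1 hy n hn))
    · refine (dterm_le f x y n).trans (le_trans ?_ hN.le)
      apply one_div_le_one_div_of_le (by positivity)
      have : (N : ℝ) ≤ n := by exact_mod_cast (not_le.1 hn).le
      linarith
  change dsup f x y < ε
  linarith

/-- Metrizability.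

PROOF. `d p := ⟨dsup f p.1 p.2, _⟩ : MFun M (X × X) (RM M)` (`mf_dsup` and `mf_section` for `IsRM`; `mf_RM_iff`), for
the sequence of `exists_fun_seq`. If `x ≠ y`, take the open set `(PM.single y).compl`. For the last clause:
`→` : `n` from `exists_fun_seq`, `ε := 1/(n+1)`, `abs_lt_of_dsup`; `←` : `ball_nhds`, `isOpen_iff_mem_nhds`. -/
theorem exists_metric (h : MSC M X) : ∃ d : MFun M (X × X) (RM M),
    (∀ x y, d (x, y) = 0 ↔ x = y) ∧ (∀ x y, d (x, y) = d (y, x)) ∧
    (∀ x y z, d (x, z) ≤ d (x, y) + d (y, z)) ∧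
    ∀ U : PM M X, Op U ↔ ∀ x, x ∈ U → ∃ ε : RM M, 0 < ε ∧ ∀ y, d (x, y) < ε → y ∈ U := by
  obtain ⟨f, hf, hsep⟩ := exists_fun_seq (M := M) (X := X) h
  have hd := mf_dsup hf
  have hR : ∀ p : X × X, IsRM M (dsup f p.1 p.2) := fun p =>
    mf_section (R := fun (c : X × X) (a : (ℕ × ℕ) × ℕ) => fv a < dsup f c.1 c.2) hd p
  obtain ⟨D, hDv⟩ : ∃ D : X × X → RM M, ∀ p, (D p).val = dsup f p.1 p.2 :=
    ⟨fun p => (show RM M from ⟨dsup f p.1 p.2, hR p⟩), fun p => rfl⟩
  have hD : MF M D := mf_RM_iff.2 (mf_congr hd fun q => by rw [hDv])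
  have hsub : ∀ (x : X) (U : PM M X), Op U → x ∈ U →
      ∃ n : ℕ, ∀ y, dsup f x y < 1 / ((n : ℝ) + 1) → y ∈ U := by
    intro x U hU hx
    obtain ⟨n, h0, h1⟩ := hsep x U hU hx
    refine ⟨n, fun y hy => h1 y ?_⟩
    have h2 := abs_lt_of_dsup hy
    rw [h0, zero_sub, abs_neg] at h2
    have h3 : 1 / ((n : ℝ) + 1) ≤ 1 := by
      rw [div_le_one (by positivity)]
      linarith [Nat.cast_nonneg (α := ℝ) n]
    exact lt_of_le_of_lt (le_abs_self _) (lt_of_lt_of_le h2 h3)
  refine ⟨⟨D, hD⟩, ?_, ?_, ?_, ?_⟩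
  · intro x y
    constructor
    · intro h0
      by_contra hne
      have h0' : dsup f x y = 0 := by
        rw [← hDv (x, y)]
        exact congrArg RM.val h0
      have hop : Op (PM.single (M := M) y).compl := cld_iff.1 (cld_single y)
      obtain ⟨n, hn⟩ := hsub x _ hop hne
      have h1 : y ∈ (PM.single (M := M) y).compl := hn y (by
        rw [h0']
        positivity)
      exact h1 rfl
    · rintro rfl
      apply RM.val_inj
      change (D (x, x)).val = (0 : RM M).val
      rw [hDv, RM.val_zero]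
      exact dsup_self f x
  · intro x y
    apply RM.val_inj
    change (D (x, y)).val = (D (y, x)).val
    rw [hDv, hDv]
    exact dsup_symm f x y
  · intro x y z
    rw [← RM.val_le, RM.val_add]
    change (D (x, z)).val ≤ (D (x, y)).val + (D (y, z)).val
    rw [hDv, hDv, hDv]
    exact dsup_triangle f x y z
  · intro U
    constructor
    · intro hU x hx
      obtain ⟨n, hn⟩ := hsub x U hU hx
      have h1 : fv ((1, 0), n) = 1 / ((n : ℝ) + 1) := by simp [fv]
      refine ⟨RM.fr ((1, 0), n), ?_, fun y hy => hn y ?_⟩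
      · rw [← RM.val_lt, RM.val_zero, RM.val_fr, h1]
        positivity
      · rw [← RM.val_lt, RM.val_fr, h1] at hy
        change (D (x, y)).val < 1 / ((n : ℝ) + 1) at hy
        rwa [hDv] at hy
    · intro hU
      change IsOpen U.set
      rw [isOpen_iff_mem_nhds]
      intro x hx
      obtain ⟨ε, hε, h2⟩ := hU x hx
      refine Filter.mem_of_superset (ball_nhds f x (ε := ε.val) hε) fun y hy => h2 y ?_
      change (D (x, y)).val < ε.val
      rw [hDv]
      exact hy

end

end HM
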