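import Pool.Agent.HM_h27.MF

/-!
# HM: internal power types, subtypes, function types, sets of the model as types
-/

namespace HM

open HESR

universe u v w v1 v2 v3

set_option linter.unusedVariables false

/-! ### the internal power type -/

/-- The subsets of `α` which are in the model. -/
structure PM (M : Type u) [ZFM M] (α : Type v) [IT M α] : Type v where
  set : Set α
  mf : MF M (fun a => a ∈ set)

section
variable {M : Type u} [ZFM M]
variable {α : Type v} {β : Type w} {γ : Type v1} {δ : Type v2} [IT M α] [IT M β] [IT M γ] [IT M δ]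

instance instMemPM : Membership α (PM M α) := ⟨fun s a => a ∈ s.set⟩

theorem PM.mem_set {s : PM M α} {a : α} : a ∈ s.set ↔ a ∈ s := Iff.rfl

theorem PM.mf' (s : PM M α) : MF M (fun a => a ∈ s) := s.mf

theorem PM.ext {s t : PM M α} (h : ∀ a, a ∈ s ↔ a ∈ t) : s = t := by
  cases s
  cases t
  congr 1
  ext a
  exact h a

theorem PM.ext_iff' {s t : PM M α} : s = t ↔ ∀ a, a ∈ s ↔ a ∈ t :=
  ⟨fun h a => by rw [h], PM.ext⟩

/-- comprehension -/
def PM.of (P : α → Prop) (h : MF M P) : PM M α := ⟨{a | P a}, h⟩

@[simp] theorem PM.mem_of {P : α → Prop} {h : MF M P} {a : α} : a ∈ PM.of P h ↔ P a := Iff.rfl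

theorem PM.exists_code (s : PM M α) : ∃ t : M, ∀ x, ZFM.E x t ↔ Dm M (fun a => a ∈ s) x := by
  obtain ⟨t, ht⟩ := (ZFM.zfc (M := M)).sep1 ((mp_iff_def _).1 (mf_iff_mp.1 s.mf')) (IT.dom (M := M) α)
  refine ⟨t, fun x => ?_⟩
  rw [ht]
  constructor
  · exact fun h => h.2
  · intro h
    obtain ⟨a, ha, h1⟩ := h
    refine ⟨?_, a, ha, h1⟩
    rw [← ha]
    exact cd_mem M a

noncomputable instance instPM : IT M (PM M α) where
  code s := Classical.choose s.exists_code
  inj := by
    intro s t h
    refine PM.ext fun a => ?_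
    have h1 := Classical.choose_spec s.exists_code (cd M a)
    have h2 := Classical.choose_spec t.exists_code (cd M a)
    simp only at h
    rw [h] at h1
    rw [dm_cd] at h1 h2
    exact h1.symm.trans h2
  dom := Classical.choose ((ZFM.zfc (M := M)).exPow (IT.dom (M := M) α))
  mem_dom := by
    intro x
    rw [Classical.choose_spec ((ZFM.zfc (M := M)).exPow (IT.dom (M := M) α))]
    constructor
    · intro h
      refine ⟨⟨{a | ZFM.E (cd M a) x}, mf_iff_mp.2 ⟨x, fun a => Iff.rfl⟩⟩, ?_⟩
      refine (ZFM.zfc (M := M)).ext _ _ fun y => ?_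
      rw [Classical.choose_spec (PM.exists_code _) y]
      constructor
      · rintro ⟨a, rfl, h1⟩
        exact h1
      · intro h1
        obtain ⟨a, rfl⟩ := (IT.mem_dom _).1 (h y h1)
        exact ⟨a, rfl, h1⟩
    · rintro ⟨s, rfl⟩ y hy
      obtain ⟨a, rfl, h1⟩ := (Classical.choose_spec s.exists_code y).1 hy
      exact cd_mem M a

theorem E_cd_PM {s : PM M α} {x : M} : ZFM.E x (cd M s) ↔ Dm M (fun a => a ∈ s) x :=
  Classical.choose_spec s.exists_code x

theorem E_cd_cd_PM {s : PM M α} {a : α} : ZFM.E (cd M a) (cd M s) ↔ a ∈ s := by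
  rw [E_cd_PM, dm_cd]

theorem mf_mem0 : MF M (fun p : α × PM M α => p.1 ∈ p.2) := by
  rw [mf_iff_mp]
  exact mp_of2 (D := fun x t => ZFM.E x t) (Def.mem (DefFun.var 0) (DefFun.var 1)) fun a s =>
    E_cd_cd_PM.symm

@[fun_prop]
theorem mf_mem {f : γ → α} {g : γ → PM M α} (hf : MF M f) (hg : MF M g) :
    MF M (fun x => f x ∈ g x) := mf_comp M mf_mem0 (mf_mk M hf hg)

/-- a family of sets of the model is a function of the model iff its graph is in the model -/
theorem mf_PM_iff {F : γ → PM M α} : MF M F ↔ MF M (fun p : γ × α => p.2 ∈ F p.1) := by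
  constructor
  · intro h
    fun_prop
  · intro h
    refine mf_of_graph (R := fun c s => ∀ a, a ∈ F c ↔ a ∈ s) ?_ fun c s => ?_
    · have h' : MF M (fun q : (γ × PM M α) × α => q.2 ∈ F q.1.1) :=
        mf_comp M (g := fun p : γ × α => p.2 ∈ F p.1) (f := fun q : (γ × PM M α) × α => (q.1.1, q.2)) h (by fun_prop)
      fun_prop
    · exact PM.ext_iff'.symm

@[fun_prop]
theorem mf_PMof {R : γ → α → Prop} (h' : ∀ c, MF M (R c)) (h : MF M (fun p : γ × α => R p.1 p.2)) :
    MF M (fun c => PM.of (R c) (h' c)) := mf_PM_iff.2 h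

/-- sections of a relation of the model are in the model -/
theorem mf_section {R : γ → α → Prop} (h : MF M (fun p : γ × α => R p.1 p.2)) (c : γ) :
    MF M (R c) := mf_comp M (g := fun p : γ × α => R p.1 p.2) (f := fun a => (c, a)) h (by fun_prop)

/-- the family of sections -/
def PM.sec (R : γ → α → Prop) (h : MF M (fun p : γ × α => R p.1 p.2)) (c : γ) : PM M α :=
  PM.of (R c) (mf_section h c)

@[simp] theorem PM.mem_sec {R : γ → α → Prop} {h : MF M (fun p : γ × α => R p.1 p.2)} {c : γ}
    {a : α} : a ∈ PM.sec R h c ↔ R c a := Iff.rfl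

theorem mf_PMsec {R : γ → α → Prop} (h : MF M (fun p : γ × α => R p.1 p.2)) :
    MF M (PM.sec R h) := mf_PM_iff.2 h

/-! ### transport of codes along injections; subtypes -/

/-- codes from an injection into a coded type with range in the model -/
@[reducible] noncomputable def IT.ofInj {α : Type v} (f : α → β) (hf : Function.Injective f)
    (h : MF M (fun b => ∃ a, f a = b)) : IT M α where
  code a := cd M (f a)
  inj := fun a b hab => hf (cd_inj M hab)
  dom := Classical.choose ((ZFM.zfc (M := M)).sep1 ((mp_iff_def _).1 (mf_iff_mp.1 h))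
    (IT.dom (M := M) β))
  mem_dom := by
    intro x
    rw [Classical.choose_spec ((ZFM.zfc (M := M)).sep1 ((mp_iff_def _).1 (mf_iff_mp.1 h))
      (IT.dom (M := M) β)) x]
    constructor
    · rintro ⟨_, b, hb, a, rfl⟩
      exact ⟨a, hb⟩
    · rintro ⟨a, rfl⟩
      exact ⟨cd_mem M _, f a, rfl, a, rfl⟩

/-- the injection is in the model -/
theorem mf_ofInj {α : Type v} (i : IT M α) (f : α → β) (hc : ∀ a, IT.code a = cd M (f a)) :
    MF M f := by
  refine mp_of2 (D := fun x y => x = y) (Def.eq (DefFun.var 0) (DefFun.var 1)) fun a b => ?_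
  show f a = b ↔ cd M a = cd M b
  rw [show cd M a = cd M (f a) from hc a, cd_inj_iff]

/-- a function into the new type is in the model iff its composition with the injection is -/
theorem mf_into_ofInj {α : Type v} (i : IT M α) (f : α → β) (hf : Function.Injective f)
    (hc : ∀ a, IT.code a = cd M (f a)) {g : γ → α} : MF M g ↔ MF M (fun c => f (g c)) := by
  have h0 := mf_ofInj i f hc
  constructor
  · intro h
    exact mf_comp M h0 h
  · intro h
    exact mf_of_graph (R := fun c a => f (g c) = f a)
      (mf_eq (mf_comp M (g := fun c => f (g c)) (f := fun p : γ × α => p.1) h (mf_fst M))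
        (mf_comp M h0 (mf_snd M))) fun c a => hf.eq_iff

noncomputable instance instSub (s : PM M α) : IT M {a // a ∈ s} :=
  IT.ofInj Subtype.val Subtype.val_injective
    (mf_congr s.mf' fun b => by simp)

@[fun_prop]
theorem mf_subval (s : PM M α) {g : γ → {a // a ∈ s}} (hg : MF M g) : MF M (fun c => (g c).1) :=
  mf_comp M (mf_ofInj _ Subtype.val fun _ => rfl) hg

@[fun_prop]
theorem mf_submk (s : PM M α) {g : γ → α} (hg : MF M g) (h : ∀ c, g c ∈ s) :
    MF M (fun c => (⟨g c, h c⟩ : {a // a ∈ s})) :=
  (mf_into_ofInj _ Subtype.val Subtype.val_injective fun _ => rfl).2 hg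

/-! ### the internal function type -/

variable (M) in
/-- The functions from `α` to `β` which are in the model. -/
structure MFun (α : Type v) (β : Type w) [IT M α] [IT M β] : Type (max v w) where
  toFun : α → β
  mf : MF M toFun

instance instCoeMFun : CoeFun (MFun M α β) (fun _ => α → β) := ⟨MFun.toFun⟩

theorem MFun.ext {f g : MFun M α β} (h : ∀ a, f a = g a) : f = g := by
  cases f
  cases g
  congr 1
  funext a
  exact h a

theorem MFun.ext_iff' {f g : MFun M α β} : f = g ↔ ∀ a, f a = g a :=
  ⟨fun h a => by rw [h], MFun.ext⟩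

/-- the graph of a function of the model -/
noncomputable def MFun.graph (f : MFun M α β) : PM M (α × β) := PM.of (fun p => f p.1 = p.2) (mf_iff_mp.2 f.mf)

theorem MFun.graph_inj : Function.Injective (MFun.graph (M := M) (α := α) (β := β)) := by
  intro f g h
  refine MFun.ext fun a => ?_
  have h1 : (a, f a) ∈ g.graph := by
    rw [← h]
    exact rfl
  exact (show g a = f a from h1).symm

noncomputable instance instMFun : IT M (MFun M α β) :=
  IT.ofInj MFun.graph MFun.graph_inj (by
    refine mf_congr (f := fun s : PM M (α × β) => ∀ a, ∃ b, (a, b) ∈ s ∧ ∀ b', (a, b') ∈ s → b' = b)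
      (by fun_prop) fun s => ?_
    refine propext ⟨?_, ?_⟩
    · rintro ⟨f, rfl⟩ a
      exact ⟨f a, rfl, fun b' hb' => (show f a = b' from hb').symm⟩
    · intro h
      choose f hf hf' using h
      have h1 : MF M f := mf_of_graph (R := fun a b => (a, b) ∈ s) (by fun_prop) fun a b =>
        ⟨fun h => (hf' a b h).symm, fun h => h ▸ hf a⟩
      refine ⟨⟨f, h1⟩, PM.ext ?_⟩
      rintro ⟨a, b⟩
      constructor
      · intro h2
        have : f a = b := h2
        rw [← this]
        exact hf a
      · intro h2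
        exact (hf' a b h2).symm)

theorem mf_graph : MF M (MFun.graph (M := M) (α := α) (β := β)) := mf_ofInj _ _ fun _ => rfl

theorem mf_app0 : MF M (fun p : MFun M α β × α => p.1 p.2) := by
  have h := mf_graph (M := M) (α := α) (β := β)
  refine mf_of_graph (R := fun p b => (p.2, b) ∈ MFun.graph p.1) (by fun_prop) fun p b => Iff.rfl

@[fun_prop]
theorem mf_app {f : γ → MFun M α β} {g : γ → α} (hf : MF M f) (hg : MF M g) :
    MF M (fun x => (f x) (g x)) := mf_comp M mf_app0 (mf_mk M hf hg)

/-- a family of functions of the model is in the model iff its uncurried form is -/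
theorem mf_MFun_iff {F : γ → MFun M α β} : MF M F ↔ MF M (fun p : γ × α => (F p.1) p.2) := by
  constructor
  · intro h
    fun_prop
  · intro h
    refine mf_of_graph (R := fun c f => ∀ a, (F c) a = f a) ?_ fun c f => MFun.ext_iff'.symm
    have h' : MF M (fun q : (γ × MFun M α β) × α => (F q.1.1) q.2) :=
      mf_comp M (g := fun p : γ × α => (F p.1) p.2) (f := fun q : (γ × MFun M α β) × α => (q.1.1, q.2)) h (by fun_prop)
    fun_prop

@[fun_prop]
theorem mf_MFunmk {F : γ → α → β} (h' : ∀ c, MF M (F c))
    (h : MF M (fun p : γ × α => F p.1 p.2)) : MF M (fun c => MFun.mk (F c) (h' c)) :=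
  mf_MFun_iff.2 h

/-- sections of a function of two variables -/
theorem mf_fsection {F : γ → α → β} (h : MF M (fun p : γ × α => F p.1 p.2)) (c : γ) :
    MF M (F c) := mf_comp M (g := fun p : γ × α => F p.1 p.2) (f := fun a => (c, a)) h (by fun_prop)

/-! ### sets of the model as types -/

/-- the elements of the set `A` of the model -/
def Elt (A : M) : Type u := {x : M // ZFM.E x A}

instance instElt (A : M) : IT M (Elt A) where
  code x := x.1
  inj := Subtype.val_injective
  dom := A
  mem_dom := fun x => ⟨fun h => ⟨⟨x, h⟩, rfl⟩, fun ⟨a, ha⟩ => ha ▸ a.2⟩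

end

end HM
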