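import Pool.Agent.HM_h27.Nat

/-!
# HM: the ordered group of the real numbers of the model

A real number `x : ℝ` is a real number of the model if its lower cut, as a set of fractions `(m - n)/(k + 1)`, is
in the model. These numbers form a subgroup of `ℝ`.
-/

namespace HM

open HESR

universe u v w v1 v2 v3 v4

set_option linter.unusedVariables false
set_option linter.unusedSectionVars false

/-- the fraction `(m - n) / (k + 1)` -/
noncomputable def fv (p : (ℕ × ℕ) × ℕ) : ℝ := ((p.1.1 : ℝ) - (p.1.2 : ℝ)) / ((p.2 : ℝ) + 1)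

theorem RM_fv_rat (q : ℚ) : ∃ p, fv p = (q : ℝ) := by
  refine ⟨((q.num.toNat, (-q.num).toNat), q.den - 1), ?_⟩
  have h1 : ((q.num.toNat : ℕ) : ℝ) - (((-q.num).toNat : ℕ) : ℝ) = (q.num : ℝ) := by
    have h2 : ((q.num.toNat : ℕ) : ℤ) - (((-q.num).toNat : ℕ) : ℤ) = q.num :=
      Int.toNat_sub_toNat_neg q.num
    exact_mod_cast h2
  have h3 : ((q.den - 1 : ℕ) : ℝ) + 1 = (q.den : ℝ) := by
    have h4 : q.den - 1 + 1 = q.den := Nat.sub_add_cancel q.pos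
    exact_mod_cast h4
  unfold fv
  simp only
  rw [h1, h3]
  exact_mod_cast (Rat.num_div_den q)

/-- every rational number is a fraction -/
theorem fv_dense {x y : ℝ} (h : x < y) : ∃ p, x < fv p ∧ fv p < y := by
  obtain ⟨q, h1, h2⟩ := exists_rat_btwn h
  obtain ⟨p, hp⟩ := RM_fv_rat q
  exact ⟨p, by rw [hp]; exact h1, by rw [hp]; exact h2⟩

theorem fv_zero : fv ((0, 0), 0) = 0 := by
  simp [fv]

theorem neg_fv (p : (ℕ × ℕ) × ℕ) : - fv p = fv ((p.1.2, p.1.1), p.2) := by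
  unfold fv
  simp only
  rw [← neg_div, neg_sub]

theorem RM_fv_lt (p q : (ℕ × ℕ) × ℕ) : fv p < fv q ↔
    p.1.1 * (q.2 + 1) + q.1.2 * (p.2 + 1) < q.1.1 * (p.2 + 1) + p.1.2 * (q.2 + 1) := by
  unfold fv
  rw [div_lt_div_iff₀ (by positivity) (by positivity), ← Nat.cast_lt (α := ℝ)]
  push_cast
  constructor <;> intro h <;> linarith

theorem RM_fv_le_add (p q r : (ℕ × ℕ) × ℕ) : fv p ≤ fv q + fv r ↔
    p.1.1 * ((q.2 + 1) * (r.2 + 1)) + q.1.2 * ((p.2 + 1) * (r.2 + 1)) +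
      r.1.2 * ((p.2 + 1) * (q.2 + 1)) ≤
    q.1.1 * ((p.2 + 1) * (r.2 + 1)) + r.1.1 * ((p.2 + 1) * (q.2 + 1)) +
      p.1.2 * ((q.2 + 1) * (r.2 + 1)) := by
  unfold fv
  rw [div_add_div _ _ (by positivity) (by positivity), div_le_div_iff₀ (by positivity)
    (by positivity), ← Nat.cast_le (α := ℝ)]
  push_cast
  constructor <;> intro h <;> linarith

section
variable {M : Type u} [ZFM M]
variable {γ : Type v1} [IT M γ]

/-- PROOF. `mf_natrec` with parameter `c : γ` (or with the parameter `m : ℕ`, `m * (n + 1) = m * n + m`). -/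
@[fun_prop]
theorem mf_nat_mul {f g : γ → ℕ} (hf : MF M f) (hg : MF M g) : MF M (fun x => f x * g x) := by
  have h : MF M (fun p : ℕ × ℕ => p.1 * p.2) :=
    mf_natrec (f := fun (c : ℕ) n => c * n) (a := fun _ => 0) (G := fun c _ x => x + c)
      (mf_const M _) (by fun_prop) (fun _ => Nat.mul_zero _) (fun c n => Nat.mul_succ c n)
  exact mf_comp M (g := fun p : ℕ × ℕ => p.1 * p.2) (f := fun x => (f x, g x)) h (by fun_prop)

/-- PROOF. `(m - n)/(k + 1) < (a - b)/(c + 1)` iff `m * (c + 1) + b * (k + 1) < a * (k + 1) + n * (c + 1)` in `ℕ`. -/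
@[fun_prop]
theorem mf_fv_lt {f g : γ → (ℕ × ℕ) × ℕ} (hf : MF M f) (hg : MF M g) : MF M (fun x => fv (f x) < fv (g x)) := by
  have h : MF M (fun x => (f x).1.1 * ((g x).2 + 1) + (g x).1.2 * ((f x).2 + 1) <
      (g x).1.1 * ((f x).2 + 1) + (f x).1.2 * ((g x).2 + 1)) := by fun_prop
  exact mf_congr h fun x => propext (RM_fv_lt (f x) (g x))

/-- PROOF. Clear the denominators. -/
@[fun_prop]
theorem mf_fv_le_add {f g h : γ → (ℕ × ℕ) × ℕ} (hf : MF M f) (hg : MF M g) (hh : MF M h) :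
    MF M (fun x => fv (f x) ≤ fv (g x) + fv (h x)) := by
  have h1 : MF M (fun x => (f x).1.1 * (((g x).2 + 1) * ((h x).2 + 1)) +
      (g x).1.2 * (((f x).2 + 1) * ((h x).2 + 1)) + (h x).1.2 * (((f x).2 + 1) * ((g x).2 + 1)) ≤
      (g x).1.1 * (((f x).2 + 1) * ((h x).2 + 1)) + (h x).1.1 * (((f x).2 + 1) * ((g x).2 + 1)) +
      (f x).1.2 * (((g x).2 + 1) * ((h x).2 + 1))) := by fun_prop
  exact mf_congr h1 fun x => propext (RM_fv_le_add (f x) (g x) (h x))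

variable (M) in
/-- `x` is a real number of the model -/
def IsRM (x : ℝ) : Prop := MF M (fun p : (ℕ × ℕ) × ℕ => fv p < x)

/-- `x < fv p` iff `∃ r, fv r < fv p ∧ ¬ fv r < x` -/
theorem isRM_iff' {x : ℝ} : IsRM M x ↔ MF M (fun p : (ℕ × ℕ) × ℕ => x < fv p) := by
  constructor
  · intro hx
    have hx' : MF M (fun p : (ℕ × ℕ) × ℕ => fv p < x) := hx
    have h1 : MF M (fun p : (ℕ × ℕ) × ℕ => ∃ r : (ℕ × ℕ) × ℕ, fv r < fv p ∧ ¬ fv r < x) := by
      refine mf_ex (mf_and (by fun_prop) (mf_not ?_))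
      exact mf_comp M (g := fun p : (ℕ × ℕ) × ℕ => fv p < x)
        (f := fun q : ((ℕ × ℕ) × ℕ) × ((ℕ × ℕ) × ℕ) => q.2) hx' (by fun_prop)
    refine mf_congr h1 fun p => propext ⟨fun h => ?_, ?_⟩
    · obtain ⟨r, h2, h3⟩ := fv_dense h
      exact ⟨r, h3, not_lt.2 h2.le⟩
    · rintro ⟨r, h2, h3⟩
      exact lt_of_le_of_lt (not_lt.1 h3) h2
  · intro hx
    have h1 : MF M (fun p : (ℕ × ℕ) × ℕ => ∃ r : (ℕ × ℕ) × ℕ, fv p < fv r ∧ ¬ x < fv r) := by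
      refine mf_ex (mf_and (by fun_prop) (mf_not ?_))
      exact mf_comp M (g := fun p : (ℕ × ℕ) × ℕ => x < fv p)
        (f := fun q : ((ℕ × ℕ) × ℕ) × ((ℕ × ℕ) × ℕ) => q.2) hx (by fun_prop)
    refine mf_congr h1 fun p => propext ⟨fun h => ?_, ?_⟩
    · obtain ⟨r, h2, h3⟩ := fv_dense h
      exact ⟨r, h2, not_lt.2 h3.le⟩
    · rintro ⟨r, h2, h3⟩
      exact lt_of_lt_of_le h2 (not_lt.1 h3)

theorem isRM_fv (p : (ℕ × ℕ) × ℕ) : IsRM M (fv p) := by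
  unfold IsRM
  exact mf_fv_lt (mf_id M) (mf_const M p)

/-- PROOF. `fv p < x + y ↔ ∃ q r, fv q < x ∧ fv r < y ∧ fv p ≤ fv q + fv r`. -/
theorem isRM_add {x y : ℝ} (hx : IsRM M x) (hy : IsRM M y) : IsRM M (x + y) := by
  have hx' : MF M (fun p : (ℕ × ℕ) × ℕ => fv p < x) := hx
  have hy' : MF M (fun p : (ℕ × ℕ) × ℕ => fv p < y) := hy
  have h1 : MF M (fun p : (ℕ × ℕ) × ℕ => ∃ q : (ℕ × ℕ) × ℕ, ∃ r : (ℕ × ℕ) × ℕ,
      fv q < x ∧ fv r < y ∧ fv p ≤ fv q + fv r) := by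
    refine mf_ex (mf_ex (mf_and ?_ (mf_and ?_ (by fun_prop))))
    · exact mf_comp M (g := fun p : (ℕ × ℕ) × ℕ => fv p < x)
        (f := fun q : (((ℕ × ℕ) × ℕ) × ((ℕ × ℕ) × ℕ)) × ((ℕ × ℕ) × ℕ) => q.1.2) hx' (by fun_prop)
    · exact mf_comp M (g := fun p : (ℕ × ℕ) × ℕ => fv p < y)
        (f := fun q : (((ℕ × ℕ) × ℕ) × ((ℕ × ℕ) × ℕ)) × ((ℕ × ℕ) × ℕ) => q.2) hy' (by fun_prop)
  refine mf_congr h1 fun p => propext ⟨fun h => ?_, ?_⟩
  · obtain ⟨q, h2, h3⟩ := fv_dense (show fv p - y < x by linarith)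
    obtain ⟨r, h4, h5⟩ := fv_dense (show fv p - fv q < y by linarith)
    exact ⟨q, r, h3, h5, by linarith⟩
  · rintro ⟨q, r, h2, h3, h4⟩
    linarith

theorem isRM_zero : IsRM M 0 := by
  have h := isRM_fv (M := M) ((0, 0), 0)
  rwa [fv_zero] at h

theorem isRM_neg {x : ℝ} (hx : IsRM M x) : IsRM M (-x) := by
  have h1 : MF M (fun p : (ℕ × ℕ) × ℕ => x < fv ((p.1.2, p.1.1), p.2)) :=
    mf_comp M (g := fun p : (ℕ × ℕ) × ℕ => x < fv p)
      (f := fun p : (ℕ × ℕ) × ℕ => ((p.1.2, p.1.1), p.2)) (isRM_iff'.1 hx) (by fun_prop)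
  refine mf_congr h1 fun p => propext ?_
  rw [← neg_fv]
  constructor <;> intro h <;> linarith

end

end HM
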