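import Pool.Agent.HM_h27.RM
import Pool.Agent.HM_h27.Top

/-!
# HM: the ordered group of the real numbers of the model, as a coded type
-/

namespace HM

open HESR

universe u v w v1 v2 v3 v4

set_option linter.unusedVariables false
set_option linter.unusedSectionVars false

section
variable {M : Type u} [ZFM M]
variable {γ : Type v1} [IT M γ]

variable (M) in
/-- the subgroup of the real numbers of the model -/
def RMs : AddSubgroup ℝ where
  carrier := {x | IsRM M x}
  add_mem' := fun hx hy => isRM_add hx hy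
  zero_mem' := isRM_zero
  neg_mem' := fun hx => isRM_neg hx

variable (M) in
/-- the type of the real numbers of the model -/
def RM : Type := (RMs M : AddSubgroup ℝ)

noncomputable instance : AddCommGroup (RM M) := inferInstanceAs (AddCommGroup (RMs M))

noncomputable instance : LinearOrder (RM M) := inferInstanceAs (LinearOrder (RMs M))

instance : IsOrderedAddMonoid (RM M) := inferInstanceAs (IsOrderedAddMonoid (RMs M))

/-- the real number -/
def RM.val (x : RM M) : ℝ := x.1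

theorem RM.val_inj {x y : RM M} (h : x.val = y.val) : x = y := Subtype.ext h

theorem RM.val_lt {x y : RM M} : x.val < y.val ↔ x < y := Iff.rfl

theorem RM.val_le {x y : RM M} : x.val ≤ y.val ↔ x ≤ y := Iff.rfl

theorem RM.val_add (x y : RM M) : (x + y).val = x.val + y.val := rfl

theorem RM.val_neg (x : RM M) : (-x).val = - x.val := rfl

theorem RM.val_sub (x y : RM M) : (x - y).val = x.val - y.val := by
  rfl

theorem RM.val_zero : (0 : RM M).val = 0 := rfl

/-- the lower cut -/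
noncomputable def RM.cut (x : RM M) : PM M ((ℕ × ℕ) × ℕ) := PM.of (fun p => fv p < x.val) x.2

theorem RM.cut_inj : Function.Injective (RM.cut (M := M)) := by
  intro x y h
  refine RM.val_inj ?_
  rcases lt_trichotomy x.val y.val with hlt | heq | hlt
  · obtain ⟨p, h1, h2⟩ := fv_dense hlt
    have h3 : p ∈ x.cut := by
      rw [h]
      exact h2
    exact absurd (show fv p < x.val from h3) (not_lt.2 h1.le)
  · exact heq
  · obtain ⟨p, h1, h2⟩ := fv_dense hlt
    have h3 : p ∈ y.cut := by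
      rw [← h]
      exact h2
    exact absurd (show fv p < y.val from h3) (not_lt.2 h1.le)

/-- PROOF. A set of fractions in the model is the cut of a real number of the model iff it is nonempty, not
everything, closed downwards and has no greatest element; the real number is `sSup (fv '' s.set)`. -/
theorem RM.mf_range_cut : MF M (fun s : PM M ((ℕ × ℕ) × ℕ) => ∃ x : RM M, x.cut = s) := by
  refine mf_congr (f := fun s : PM M ((ℕ × ℕ) × ℕ) => (∃ p, p ∈ s) ∧ (∃ p, ¬ p ∈ s) ∧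
    (∀ p q, fv p < fv q → q ∈ s → p ∈ s) ∧ ∀ p, p ∈ s → ∃ q, q ∈ s ∧ fv p < fv q)
    (by fun_prop) fun s => ?_
  refine propext ⟨?_, ?_⟩
  · rintro ⟨x, rfl⟩
    refine ⟨?_, ?_, ?_, ?_⟩
    · obtain ⟨p, _, h2⟩ := fv_dense (show x.val - 1 < x.val by linarith)
      exact ⟨p, h2⟩
    · obtain ⟨p, h1, _⟩ := fv_dense (show x.val < x.val + 1 by linarith)
      exact ⟨p, fun h => absurd (show fv p < x.val from h) (not_lt.2 h1.le)⟩
    · intro p q h1 h2
      exact lt_trans h1 (show fv q < x.val from h2)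
    · intro p h1
      obtain ⟨q, h2, h3⟩ := fv_dense (show fv p < x.val from h1)
      exact ⟨q, h3, h2⟩
  · rintro ⟨⟨p1, hp1⟩, ⟨p0, hp0⟩, hdown, hmax⟩
    have hbdd : ∀ q, q ∈ s → fv q ≤ fv p0 := by
      intro q hq
      by_contra hlt
      exact hp0 (hdown p0 q (not_le.1 hlt) hq)
    have hB : BddAbove (fv '' s.set) := ⟨fv p0, by
      rintro _ ⟨q, hq, rfl⟩
      exact hbdd q hq⟩
    have hN : (fv '' s.set).Nonempty := ⟨fv p1, p1, hp1, rfl⟩
    have key : ∀ p, fv p < sSup (fv '' s.set) ↔ p ∈ s := by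
      intro p
      constructor
      · intro h1
        obtain ⟨_, ⟨q, hq, rfl⟩, h2⟩ := exists_lt_of_lt_csSup hN h1
        exact hdown p q h2 hq
      · intro h1
        obtain ⟨q, hq, h2⟩ := hmax p h1
        exact lt_of_lt_of_le h2 (le_csSup hB ⟨q, hq, rfl⟩)
    have hRM : IsRM M (sSup (fv '' s.set)) :=
      mf_congr s.mf' fun p => propext (key p)
    exact ⟨⟨sSup (fv '' s.set), hRM⟩, PM.ext fun p => key p⟩

noncomputable instance instRM : IT M (RM M) := IT.ofInj RM.cut RM.cut_inj RM.mf_range_cut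

/-- PROOF. `mf_into_ofInj`, `mf_PM_iff`. -/
theorem mf_RM_iff {F : γ → RM M} : MF M F ↔ MF M (fun p : γ × ((ℕ × ℕ) × ℕ) => fv p.2 < (F p.1).val) := by
  exact (mf_into_ofInj _ RM.cut RM.cut_inj fun _ => rfl).trans mf_PM_iff

@[fun_prop]
theorem mf_fv_lt_RM {f : γ → (ℕ × ℕ) × ℕ} {g : γ → RM M} (hf : MF M f) (hg : MF M g) :
    MF M (fun x => fv (f x) < (g x).val) := by
  have h0 : MF M (fun p : RM M × ((ℕ × ℕ) × ℕ) => fv p.2 < p.1.val) :=
    mf_RM_iff.1 (mf_id M)
  exact mf_comp M h0 (mf_mk M hg hf)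

@[fun_prop]
theorem mf_RM_add {f g : γ → RM M} (hf : MF M f) (hg : MF M g) : MF M (fun x => f x + g x) := by
  rw [mf_RM_iff]
  have hf' : MF M (fun p : γ × ((ℕ × ℕ) × ℕ) => f p.1) := by fun_prop
  have hg' : MF M (fun p : γ × ((ℕ × ℕ) × ℕ) => g p.1) := by fun_prop
  refine mf_congr (f := fun p : γ × ((ℕ × ℕ) × ℕ) => ∃ q r : (ℕ × ℕ) × ℕ, fv q < (f p.1).val ∧
    fv r < (g p.1).val ∧ fv p.2 ≤ fv q + fv r) (by fun_prop) fun p => ?_
  refine propext ⟨?_, ?_⟩
  · intro h
    have h' : fv p.2 < (f p.1).val + (g p.1).val := h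
    obtain ⟨q, h1, h2⟩ := fv_dense (show (f p.1).val - ((f p.1).val + (g p.1).val - fv p.2) / 2
      < (f p.1).val by linarith)
    obtain ⟨r, h3, h4⟩ := fv_dense (show (g p.1).val - ((f p.1).val + (g p.1).val - fv p.2) / 2
      < (g p.1).val by linarith)
    exact ⟨q, r, h2, h4, by linarith⟩
  · rintro ⟨q, r, h1, h2, h3⟩
    show fv p.2 < (f p.1).val + (g p.1).val
    linarith

@[fun_prop]
theorem mf_RM_neg {f : γ → RM M} (hf : MF M f) : MF M (fun x => - f x) := by
  rw [mf_RM_iff]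
  refine mf_congr (f := fun p : γ × ((ℕ × ℕ) × ℕ) => ∃ r : (ℕ × ℕ) × ℕ,
    fv r < fv ((p.2.1.2, p.2.1.1), p.2.2) ∧ ¬ fv r < (f p.1).val) (by fun_prop) fun p => ?_
  refine propext ⟨?_, ?_⟩
  · intro h
    have h' : fv p.2 < - (f p.1).val := h
    obtain ⟨r, h1, h2⟩ := fv_dense (show (f p.1).val < - fv p.2 by linarith)
    rw [neg_fv] at h2
    exact ⟨r, h2, not_lt.2 h1.le⟩
  · rintro ⟨r, h1, h2⟩
    show fv p.2 < - (f p.1).val
    rw [← neg_fv] at h1
    rw [not_lt] at h2
    linarith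

@[fun_prop]
theorem mf_RM_sub {f g : γ → RM M} (hf : MF M f) (hg : MF M g) : MF M (fun x => f x - g x) := by
  have h : MF M (fun x => f x + - g x) := by fun_prop
  exact mf_congr h fun x => sub_eq_add_neg _ _

/-- the fractions, as real numbers of the model -/
noncomputable def RM.fr (p : (ℕ × ℕ) × ℕ) : RM M := ⟨fv p, isRM_fv p⟩

theorem RM.val_fr (p : (ℕ × ℕ) × ℕ) : (RM.fr (M := M) p).val = fv p := rfl

@[fun_prop]
theorem mf_RM_fr {f : γ → (ℕ × ℕ) × ℕ} (hf : MF M f) : MF M (fun x => RM.fr (M := M) (f x)) := by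
  rw [mf_RM_iff]
  show MF M (fun p : γ × ((ℕ × ℕ) × ℕ) => fv p.2 < fv (f p.1))
  fun_prop

instance : DenselyOrdered (RM M) := by
  refine ⟨fun x y h => ?_⟩
  obtain ⟨p, h1, h2⟩ := fv_dense (RM.val_lt.2 h)
  exact ⟨RM.fr p, h1, h2⟩

instance : NoMinOrder (RM M) := by
  refine ⟨fun x => ?_⟩
  obtain ⟨p, _, h2⟩ := fv_dense (show x.val - 1 < x.val by linarith)
  exact ⟨RM.fr p, h2⟩

instance : NoMaxOrder (RM M) := by
  refine ⟨fun x => ?_⟩
  obtain ⟨p, h1, _⟩ := fv_dense (show x.val < x.val + 1 by linarith)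
  exact ⟨RM.fr p, h1⟩

instance : Nonempty (RM M) := ⟨0⟩

/-- PROOF. `lt_mf`: `x < y ↔ ∃ p, ¬ fv p < x.val ∧ fv p < y.val` (`fv_dense`). `q_ex`: `RM.fr` composed with an
enumeration of `(ℕ × ℕ) × ℕ` in the model (`exists_enum_prod` twice). `lub`: the cut of the least upper bound `c` of
`{x.val | x ∈ s}` in `ℝ` is the union of the cuts: `fv p < c ↔ ∃ x ∈ s, fv p < x.val`. -/
instance instRealLineRM : RealLine M (RM M) := by
  refine ⟨?_, ?_, ?_⟩
  · refine mf_congr (f := fun p : RM M × RM M => ∃ r : (ℕ × ℕ) × ℕ, ¬ fv r < p.1.val ∧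
      fv r < p.2.val) (by fun_prop) fun p => ?_
    refine propext ⟨?_, ?_⟩
    · intro h
      obtain ⟨r, h1, h2⟩ := fv_dense (RM.val_lt.2 h)
      exact ⟨r, not_lt.2 h1.le, h2⟩
    · rintro ⟨r, h1, h2⟩
      exact RM.val_lt.1 (lt_of_le_of_lt (not_lt.1 h1) h2)
  · obtain ⟨e, he, hs⟩ := exists_enum_prod M
    refine ⟨fun n => RM.fr (e (e n).1, (e n).2), ?_, ?_⟩
    · have h1 : MF M (fun n => e (e n).1) :=
        mf_comp M (g := e) (f := fun n => (e n).1) he (by fun_prop)
      have h2 : MF M (fun n => (e n).2) := by fun_prop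
      fun_prop
    · intro a b hab
      obtain ⟨p, h1, h2⟩ := fv_dense (RM.val_lt.2 hab)
      obtain ⟨m, hm⟩ := hs p.1
      obtain ⟨n, hn⟩ := hs (m, p.2)
      refine ⟨n, ?_, ?_⟩
      · show a < RM.fr (e (e n).1, (e n).2)
        rw [hn, hm]
        exact RM.val_lt.1 h1
      · show RM.fr (e (e n).1, (e n).2) < b
        rw [hn, hm]
        exact RM.val_lt.1 h2
  · rintro s ⟨a0, ha0⟩ ⟨b, hb⟩
    have hB : BddAbove (RM.val '' s.set) := ⟨b.val, by
      rintro _ ⟨a, ha, rfl⟩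
      exact RM.val_le.2 (hb a ha)⟩
    have hN : (RM.val '' s.set).Nonempty := ⟨_, a0, ha0, rfl⟩
    have key : ∀ p, fv p < sSup (RM.val '' s.set) ↔ ∃ x, x ∈ s ∧ fv p < x.val := by
      intro p
      constructor
      · intro h
        obtain ⟨_, ⟨x, hx, rfl⟩, h2⟩ := exists_lt_of_lt_csSup hN h
        exact ⟨x, hx, h2⟩
      · rintro ⟨x, hx, h2⟩
        exact lt_of_lt_of_le h2 (le_csSup hB ⟨x, hx, rfl⟩)
    have hRM : IsRM M (sSup (RM.val '' s.set)) := by
      have h0 : MF M (fun p : (ℕ × ℕ) × ℕ => ∃ x : RM M, x ∈ s ∧ fv p < x.val) := by fun_prop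
      exact mf_congr h0 fun p => propext (key p)
    refine ⟨⟨sSup (RM.val '' s.set), hRM⟩, ?_, ?_⟩
    · intro x hx
      exact RM.val_le.1 (le_csSup hB ⟨x, hx, rfl⟩)
    · intro y hy
      refine RM.val_le.1 (csSup_le hN ?_)
      rintro _ ⟨x, hx, rfl⟩
      exact RM.val_le.2 (hy hx)

noncomputable instance : TopologicalSpace (RM M) := Preorder.topology (RM M)

instance : OrderTopology (RM M) := ⟨rfl⟩

end

end HM
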