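import Pool.Agent.HM_h27.TopB
import Pool.Agent.HM_h27.TopC

/-!
# HM, small weight: pairs close to the diagonal
-/

namespace HM

open HESR Topology

universe u v w v1 v2 v3 v4

set_option linter.unusedVariables false
set_option linter.unusedSectionVars false

/-- All but countably many of the pairs `(x a, y a)` are close to the diagonal. -/
def NearDiag (M : Type u) [ZFM M] {W : Type v3} [IT M W] {X : Type v} [IT M X] [TopologicalSpace X]
    [MTop M X] (x y : W → X) : Prop :=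
  ∀ V : X → PM M X, MF M V → (∀ z, Op (V z) ∧ z ∈ V z) →
    MCt M (fun a => ∀ z, ¬ (x a ∈ V z ∧ y a ∈ V z))

section
variable {M : Type u} [ZFM M]
variable {W : Type v3} [IT M W] [LinearOrder W] [WO M W]
variable {X : Type v} [IT M X] [TopologicalSpace X] [MTop M X] [T2Space X] [MCpt M X] [MPerf M X]

/-- Selection of `ℵ₁` pairs (internal form of `exists_pairs_aux` in `Pool/Agent/W_MP_3b51b4_gt/Topo.lean`).

PROOF. Let `B` be as in `exists_base`. Use `exists_tdc` along `W` with values in `X × X` and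
`Φ w s p := p.1 ≠ p.2 ∧ ∀ v b, (v, b) ∈ s → ∀ n, (p.1 ∈ B b.1 n ↔ p.2 ∈ B b.1 n)`. Existence: the family
`𝒱` of all `B b.1 n`, `(v, b) ∈ s`, is countable (initial segments of `W` are countable), so by `msc_of_t0` and
`hX` it does not separate points. Let `p : W → X × X` be the result, `x a := (p a).1`, `y a := (p a).2`. Given
`V`, choose `n : W → ℕ` in the model with `B (x a) (n a) ⊆ V (x a)` (`exists_choose`); if the set
`T := {a | ∀ z, ¬ (x a ∈ V z ∧ y a ∈ V z)}` is not countable, `exists_mem_of_unct` with `U a := B (x a) (n a)`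
gives `b < a` in `T` with `x a ∈ B (x b) (n b)`, hence `y a ∈ B (x b) (n b)`, both in `V (x b)`,
contradiction. -/
theorem exists_pairs (hW : IsOm1T M W) (hX : ¬ MSC M X) : ∃ x y : W → X, MF M x ∧ MF M y ∧
    (∀ a, x a ≠ y a) ∧ NearDiag M x y := by
  classical
  obtain ⟨B, hB, hBo, hBx, hBd, hBb⟩ := exists_base (M := M) (X := X)
  have hne : Nonempty X := by
    by_contra hn
    refine hX ⟨fun _ => PM.of (fun _ => False) (mf_const M False), mf_const M _, fun n => ?_,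
      fun x => (hn ⟨x⟩).elim⟩
    have h1 : (PM.of (M := M) (fun _ : X => False) (mf_const M False)).set = ∅ := by
      ext x
      exact Iff.rfl
    show IsOpen (PM.of (M := M) (fun _ : X => False) (mf_const M False)).set
    rw [h1]
    exact isOpen_empty
  have hB' : MF M (fun q : ((((W × PM M (W × (X × X))) × (X × X)) × W) × (X × X)) × ℕ =>
      B q.1.2.1 q.2) :=
    mf_comp M (g := fun p : X × ℕ => B p.1 p.2)
      (f := fun q : ((((W × PM M (W × (X × X))) × (X × X)) × W) × (X × X)) × ℕ =>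
        (q.1.2.1, q.2)) hB (by fun_prop)
  obtain ⟨f, hf, hfΦ⟩ := exists_tdc (M := M) (W := W) (α := X × X) (r := fun a b : W => a < b)
    WO.mf (WO.wf (M := M) (W := W)).wf (fun a b c => lt_trans)
    (Φ := fun (w : W) (s : PM M (W × (X × X))) (p : X × X) => p.1 ≠ p.2 ∧
      ∀ v b, (v, b) ∈ s → ∀ n, (p.1 ∈ B b.1 n ↔ p.2 ∈ B b.1 n))
    (by fun_prop) (by
      intro w s g _ hs _
      have h1 : MCt M (fun b : X × X => ∃ j, (j, b) ∈ s) := Om_mct_range hW hs
      have h2 : MCt M (fun q : (X × X) × ℕ => (∃ j, (j, q.1) ∈ s) ∧ True) :=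
        mct_prod h1 (mct_nat (P := fun _ => True))
      have hBq : MF M (fun q : (X × X) × ℕ => B q.1.1 q.2) :=
        mf_comp M (g := fun p : X × ℕ => B p.1 p.2)
          (f := fun q : (X × X) × ℕ => (q.1.1, q.2)) hB (by fun_prop)
      have hBq' : MF M (fun r : PM M X × ((X × X) × ℕ) => B r.2.1.1 r.2.2) :=
        mf_comp M (g := fun p : X × ℕ => B p.1 p.2)
          (f := fun r : PM M X × ((X × X) × ℕ) => (r.2.1.1, r.2.2)) hB (by fun_prop)
      have h3 : MF M (fun V : PM M X => ∃ q : (X × X) × ℕ,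
          ((∃ j, (j, q.1) ∈ s) ∧ True) ∧ B q.1.1 q.2 = V) := by fun_prop
      have h4 : MCt M (fun V : PM M X => ∃ q : (X × X) × ℕ,
          ((∃ j, (j, q.1) ∈ s) ∧ True) ∧ B q.1.1 q.2 = V) :=
        MCov.image h2 (f := fun q => B q.1.1 q.2) hBq fun b hb => hb
      by_contra hcon
      refine hX (msc_of_t0 (𝒱 := PM.of (fun V : PM M X => ∃ q : (X × X) × ℕ,
        ((∃ j, (j, q.1) ∈ s) ∧ True) ∧ B q.1.1 q.2 = V) h3) h4 ?_ ?_)
      · rintro V ⟨q, -, rfl⟩
        exact hBo _ _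
      · intro x y hxy
        by_contra hcon2
        refine hcon ⟨(x, y), hxy, fun v b hvb n => ?_⟩
        by_contra hcon3
        exact hcon2 ⟨B b.1 n, ⟨(b, n), ⟨⟨v, hvb⟩, trivial⟩, rfl⟩, hcon3⟩)
  have key : ∀ v w : W, v < w → ∀ n, ((f w).1 ∈ B (f v).1 n ↔ (f w).2 ∈ B (f v).1 n) := by
    intro v w hvw n
    exact (hfΦ w (PM.of (fun p : W × (X × X) => p.1 < w ∧ f p.1 = p.2) (by fun_prop))
      (fun p => Iff.rfl)).2 v (f v) ⟨hvw, rfl⟩ n
  refine ⟨fun a => (f a).1, fun a => (f a).2, by fun_prop, by fun_prop, fun a => ?_, ?_⟩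
  · exact (hfΦ a (PM.of (fun p : W × (X × X) => p.1 < a ∧ f p.1 = p.2) (by fun_prop))
      (fun p => Iff.rfl)).1
  · intro V hV hVz
    by_contra hc
    have hB2 : MF M (fun q : (W × ℕ) × X => B (f q.1.1).1 q.1.2) :=
      mf_comp M (g := fun p : X × ℕ => B p.1 p.2)
        (f := fun q : (W × ℕ) × X => ((f q.1.1).1, q.1.2)) hB (by fun_prop)
    obtain ⟨n, hn, hn'⟩ := exists_choose (M := M) (α := W) (β := ℕ)
      (R := fun a n => ∀ y, y ∈ B (f a).1 n → y ∈ V (f a).1) (by fun_prop) (fun a =>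
        hBb (f a).1 (V (f a).1).set (hVz _).1 (hVz _).2)
    have hB3 : MF M (fun a : W => B (f a).1 (n a)) :=
      mf_comp M (g := fun p : X × ℕ => B p.1 p.2)
        (f := fun a : W => ((f a).1, n a)) hB (by fun_prop)
    have hT : MF M (fun a : W => ∀ z, ¬ ((f a).1 ∈ V z ∧ (f a).2 ∈ V z)) := by fun_prop
    obtain ⟨a, b, hTa, hTb, hba, hab⟩ := exists_mem_of_unct hT hc (x := fun a => (f a).1)
      (by fun_prop) (U := fun a => B (f a).1 (n a)) hB3 (fun a _ => hBo _ _) (fun a _ => hBx _ _)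
    exact hTa (f b).1 ⟨hn' b _ hab, hn' b _ ((key b a hba (n b)).1 hab)⟩

/-- Accumulation on the diagonal, one coordinate (compare `exists_point` in
`Pool/Agent/W_MP_3b51b4_gt/Forcing.lean`).

PROOF. Suppose not: for every `z` there are `n, k` such that the set of `l` with `A n l`,
`x (h l), y (h l) ∈ B z k` is countable. Choose (`exists_choose`, `mf_MCov`) `n z`, `k z` in the model. The sets
`B z (k z)` cover `X`; let `s` be a finite set with `X = ⋃ z ∈ s, B z (k z)` (`exists_finite_cover`), `N` the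
maximum of `n z`, `z ∈ s`. Put `V v := {w | ∀ z ∈ s, v ∈ B z (k z) → w ∈ B z (k z)}` (open, contains `v`, in the
model). By `NearDiag` the set `C` of `a` with `∀ v, ¬ (x a ∈ V v ∧ y a ∈ V v)` is countable. If `A N l` and not
`C (h l)`, then `x (h l), y (h l) ∈ V v` for some `v`, `v ∈ B z (k z)` for some `z ∈ s`, so both are in
`B z (k z)`, and `A (n z) l`. So `{l | A N l}` is contained in a finite union of countable sets and
`{l | A 0 l ∧ C (h l)}`, which is countable by `hf` and `MCt.iUnion`: contradiction to `hu N`. -/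
theorem exists_acc {x y : W → X} (hx : MF M x) (hy : MF M y) (hxy : NearDiag M x y)
    {B : X → ℕ → PM M X} (hB : MF M (fun p : X × ℕ => B p.1 p.2)) (hBo : ∀ z n, Op (B z n))
    (hBx : ∀ z n, z ∈ B z n) {Λ : Type v1} [IT M Λ] {A : ℕ → Λ → Prop}
    (hA : MF M (fun p : ℕ × Λ => A p.1 p.2)) (hd : ∀ m n l, m ≤ n → A n l → A m l)
    (hu : ∀ n, ¬ MCt M (A n)) {h : Λ → W} (hh : MF M h)
    (hf : ∀ w, MCt M (fun l => A 0 l ∧ h l = w)) :
    ∃ z, ∀ n k, ¬ MCt M (fun l => A n l ∧ x (h l) ∈ B z k ∧ y (h l) ∈ B z k) := by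
  classical
  by_contra hcon
  push Not at hcon
  have hA' : MF M (fun q : (X × (ℕ × ℕ)) × Λ => A q.1.2.1 q.2) :=
    mf_comp M (g := fun p : ℕ × Λ => A p.1 p.2)
      (f := fun q : (X × (ℕ × ℕ)) × Λ => (q.1.2.1, q.2)) hA (by fun_prop)
  have hB' : MF M (fun q : (X × (ℕ × ℕ)) × Λ => B q.1.1 q.1.2.2) :=
    mf_comp M (g := fun p : X × ℕ => B p.1 p.2)
      (f := fun q : (X × (ℕ × ℕ)) × Λ => (q.1.1, q.1.2.2)) hB (by fun_prop)
  obtain ⟨F, hF, hF'⟩ := exists_choose (M := M) (α := X) (β := ℕ × ℕ)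
    (R := fun z q => MCt M (fun l => A q.1 l ∧ x (h l) ∈ B z q.2 ∧ y (h l) ∈ B z q.2))
    (mf_MCov (M := M) (γ := X × (ℕ × ℕ)) (α := Λ) (W := ℕ)
      (P := fun c l => A c.2.1 l ∧ x (h l) ∈ B c.1 c.2.2 ∧ y (h l) ∈ B c.1 c.2.2) (by fun_prop))
    (fun z => by
      obtain ⟨n, k, hnk⟩ := hcon z
      exact ⟨(n, k), hnk⟩)
  have hBF : MF M (fun z : X => B z (F z).2) :=
    mf_comp M (g := fun p : X × ℕ => B p.1 p.2) (f := fun z : X => (z, (F z).2)) hB (by fun_prop)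
  have hUniv : Cld (PM.of (M := M) (fun _ : X => True) (mf_const M True)) := by
    have h1 : (PM.of (M := M) (fun _ : X => True) (mf_const M True)).set = Set.univ := by
      ext x
      exact Iff.rfl
    show IsClosed (PM.of (M := M) (fun _ : X => True) (mf_const M True)).set
    rw [h1]
    exact isClosed_univ
  obtain ⟨s, -, hs⟩ := exists_finite_cover (M := M) (X := X) (ι := X) (Q := fun _ => True)
    (mf_const M True) hBF (fun z _ => hBo _ _) hUniv (fun z _ => ⟨z, trivial, hBx _ _⟩)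
  have hV : MF M (fun p : X × X => ∀ z ∈ s, p.1 ∈ B z (F z).2 → p.2 ∈ B z (F z).2) := by
    have hB2 : MF M (fun q : (X × X) × X => B q.2 (F q.2).2) :=
      mf_comp M (g := fun p : X × ℕ => B p.1 p.2)
        (f := fun q : (X × X) × X => (q.2, (F q.2).2)) hB (by fun_prop)
    fun_prop
  have hVo : ∀ v, Op (PM.sec (fun v w : X => ∀ z ∈ s, v ∈ B z (F z).2 → w ∈ B z (F z).2) hV v) := by
    intro v
    have h1 : (PM.sec (fun v w : X => ∀ z ∈ s, v ∈ B z (F z).2 → w ∈ B z (F z).2) hV v).set =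
        ⋂ z ∈ s, {w : X | v ∈ B z (F z).2 → w ∈ B z (F z).2} := by
      ext w
      simp only [Set.mem_iInter]
      exact Iff.rfl
    show IsOpen (PM.sec (fun v w : X => ∀ z ∈ s, v ∈ B z (F z).2 → w ∈ B z (F z).2) hV v).set
    rw [h1]
    refine isOpen_biInter_finset fun z _ => ?_
    by_cases hv : v ∈ B z (F z).2
    · have h2 : {w : X | v ∈ B z (F z).2 → w ∈ B z (F z).2} = (B z (F z).2).set := by
        ext w
        exact ⟨fun h3 => h3 hv, fun h3 _ => h3⟩
      rw [h2]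
      exact hBo _ _
    · have h2 : {w : X | v ∈ B z (F z).2 → w ∈ B z (F z).2} = Set.univ := by
        ext w
        exact ⟨fun _ => trivial, fun _ h3 => (hv h3).elim⟩
      rw [h2]
      exact isOpen_univ
  have hC := hxy (PM.sec (fun v w : X => ∀ z ∈ s, v ∈ B z (F z).2 → w ∈ B z (F z).2) hV)
    (mf_PMsec hV) (fun v => ⟨hVo v, fun z _ hz => hz⟩)
  have hCm : MF M (fun a : W => ∀ v : X,
      ¬ ((∀ z ∈ s, v ∈ B z (F z).2 → x a ∈ B z (F z).2) ∧
        (∀ z ∈ s, v ∈ B z (F z).2 → y a ∈ B z (F z).2))) := by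
    have h1 : MF M (fun q : W × X => ∀ z ∈ s, q.2 ∈ B z (F z).2 → x q.1 ∈ B z (F z).2) :=
      mf_comp M (g := fun p : X × X => ∀ z ∈ s, p.1 ∈ B z (F z).2 → p.2 ∈ B z (F z).2)
        (f := fun q : W × X => (q.2, x q.1)) hV (by fun_prop)
    have h2 : MF M (fun q : W × X => ∀ z ∈ s, q.2 ∈ B z (F z).2 → y q.1 ∈ B z (F z).2) :=
      mf_comp M (g := fun p : X × X => ∀ z ∈ s, p.1 ∈ B z (F z).2 → p.2 ∈ B z (F z).2)
        (f := fun q : W × X => (q.2, y q.1)) hV (by fun_prop)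
    exact mf_all (mf_not (mf_and h1 h2))
  have hA1 : MF M (fun q : X × Λ => A (F q.1).1 q.2) :=
    mf_comp M (g := fun p : ℕ × Λ => A p.1 p.2)
      (f := fun q : X × Λ => ((F q.1).1, q.2)) hA (by fun_prop)
  have hB1 : MF M (fun q : X × Λ => B q.1 (F q.1).2) :=
    mf_comp M (g := fun p : X × ℕ => B p.1 p.2)
      (f := fun q : X × Λ => (q.1, (F q.1).2)) hB (by fun_prop)
  have hA2 : MF M (fun q : W × Λ => A 0 q.2) :=
    mf_comp M (g := fun p : ℕ × Λ => A p.1 p.2) (f := fun q : W × Λ => (0, q.2)) hA (by fun_prop)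
  have h1 : MCt M (fun l : Λ => ∃ z, z ∈ s ∧ (A (F z).1 l ∧ x (h l) ∈ B z (F z).2 ∧
      y (h l) ∈ B z (F z).2)) :=
    MCt.iUnion (M := M) (Q := fun z : X => z ∈ s) (by fun_prop)
      (P := fun (z : X) (l : Λ) => A (F z).1 l ∧ x (h l) ∈ B z (F z).2 ∧ y (h l) ∈ B z (F z).2)
      (by fun_prop) (mct_finite s.finite_toSet) (fun z _ => hF' z)
  have h2 : MCt M (fun l : Λ => ∃ w, (∀ v : X,
      ¬ ((∀ z ∈ s, v ∈ B z (F z).2 → x w ∈ B z (F z).2) ∧
        (∀ z ∈ s, v ∈ B z (F z).2 → y w ∈ B z (F z).2))) ∧ (A 0 l ∧ h l = w)) :=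
    MCt.iUnion (M := M) (Q := fun w : W => ∀ v : X,
      ¬ ((∀ z ∈ s, v ∈ B z (F z).2 → x w ∈ B z (F z).2) ∧
        (∀ z ∈ s, v ∈ B z (F z).2 → y w ∈ B z (F z).2))) hCm
      (P := fun (w : W) (l : Λ) => A 0 l ∧ h l = w) (by fun_prop) hC (fun w _ => hf w)
  refine hu (s.sup fun z => (F z).1) (MCov.mono (Om_mct_or ?_ ?_ h1 h2) ?_)
  · fun_prop
  · have hCm' : MF M (fun q : Λ × W => ∀ v : X,
        ¬ ((∀ z ∈ s, v ∈ B z (F z).2 → x q.2 ∈ B z (F z).2) ∧
          (∀ z ∈ s, v ∈ B z (F z).2 → y q.2 ∈ B z (F z).2))) :=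
      mf_comp M hCm (mf_snd M)
    have hA3 : MF M (fun q : Λ × W => A 0 q.1) :=
      mf_comp M (g := fun p : ℕ × Λ => A p.1 p.2) (f := fun q : Λ × W => (0, q.1)) hA (by fun_prop)
    have h3 : MF M (fun q : Λ × W => h q.1 = q.2) := by fun_prop
    exact mf_ex (mf_and hCm' (mf_and hA3 h3))
  · intro l hl
    by_cases hcl : ∀ v : X, ¬ ((∀ z ∈ s, v ∈ B z (F z).2 → x (h l) ∈ B z (F z).2) ∧
        (∀ z ∈ s, v ∈ B z (F z).2 → y (h l) ∈ B z (F z).2))
    · exact Or.inr ⟨h l, hcl, hd 0 _ l (Nat.zero_le _) hl, rfl⟩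
    · push Not at hcl
      obtain ⟨v, hv1, hv2⟩ := hcl
      obtain ⟨z, hz, hvz⟩ := hs v trivial
      exact Or.inl ⟨z, hz, hd _ _ l (Finset.le_sup (f := fun z => (F z).1) hz) hl,
        hv1 z hz hvz, hv2 z hz hvz⟩

end

end HM
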