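import Pool.Agent.HM_h27.SmA

/-!
# HM, small weight: sequences of finite sets converging to the diagonal; weak delta systems
-/

namespace HM

open HESR Topology

universe u v w v1 v2 v3 v4

set_option linter.unusedVariables false
set_option linter.unusedSectionVars false

section
variable {M : Type u} [ZFM M]
variable {W : Type v3} [IT M W] [LinearOrder W] [WO M W]
variable {X : Type v} [IT M X] [TopologicalSpace X] [MTop M X] [T2Space X] [MCpt M X] [MPerf M X]

/-- Compare `exists_seq` in `Pool/Agent/W_MP_3b51b4_gt/Forcing.lean`.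

PROOF. Induction on `m`. `m = 0`: choose `s n` with `A n (s n)` (`exists_choose`; the sets are nonempty as they
are not countable). Step: choose `h : Λ → W` in the model with `h l ∈ G l` if `G l` is nonempty
(`exists_choose`). By `exists_acc` there is `z`; put
`A' n l := A n l ∧ x (h l) ∈ B z n ∧ y (h l) ∈ B z n` (decreasing, because `B z` is) and
`G' l := (G l).erase (h l)`, of cardinality `m` (`A' n` is not countable by `exists_acc` with `k := n`). The
induction hypothesis gives `s`. Given `j`, let `V` be as in `hEV`, `B z N₁ ⊆ V z`; for `n ≥ N₁` both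
`x (h (s n))`, `y (h (s n))` are in `V z`, so `¬ E j (h (s n))`; the other elements of `G (s n)` are in
`G' (s n)`. -/
theorem exists_conv_seq {x y : W → X} (hx : MF M x) (hy : MF M y) (hxy : NearDiag M x y)
    {B : X → ℕ → PM M X} (hB : MF M (fun p : X × ℕ => B p.1 p.2)) (hBo : ∀ z n, Op (B z n))
    (hBx : ∀ z n, z ∈ B z n) (hBd : ∀ z m n, m ≤ n → ∀ t, t ∈ B z n → t ∈ B z m)
    (hBb : ∀ (z : X) (U : Set X), IsOpen U → z ∈ U → ∃ n, ∀ t, t ∈ B z n → t ∈ U)
    {J : Type v2} {E : J → W → Prop}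
    (hEV : ∀ j, ∃ V : X → PM M X, MF M V ∧ (∀ z, Op (V z) ∧ z ∈ V z) ∧
      ∀ a, E j a → ∀ z, ¬ (x a ∈ V z ∧ y a ∈ V z))
    {Λ : Type v1} [IT M Λ] (m : ℕ) : ∀ (A : ℕ → Λ → Prop), MF M (fun p : ℕ × Λ => A p.1 p.2) →
      (∀ m n l, m ≤ n → A n l → A m l) → (∀ n, ¬ MCt M (A n)) → ∀ (G : Λ → Finset W), MF M G →
      (∀ l, A 0 l → (G l).card = m) → (∀ w, MCt M (fun l => A 0 l ∧ w ∈ G l)) →
      ∃ s : ℕ → Λ, MF M s ∧ (∀ n, A n (s n)) ∧ ∀ j, ∃ N, ∀ n, N ≤ n → ∀ w ∈ G (s n), ¬ E j w := by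
  classical
  induction m with
  | zero =>
    intro A hA hd hu G hG hcard hf
    have hex : ∀ n, ∃ l, A n l := by
      intro n
      by_contra hcon
      push Not at hcon
      exact hu n (MCov.empty hcon)
    obtain ⟨s, hs, hsA⟩ := exists_choose hA hex
    refine ⟨s, hs, hsA, fun j => ⟨0, fun n _ w hw => ?_⟩⟩
    have h1 := hcard (s n) (hd 0 n _ (Nat.zero_le n) (hsA n))
    rw [Finset.card_eq_zero] at h1
    rw [h1] at hw
    exact absurd hw (Finset.notMem_empty w)
  | succ m ih =>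
    intro A hA hd hu G hG hcard hf
    have hne : ∀ l, A 0 l → ∃ w, w ∈ G l := by
      intro l hl
      have h1 := hcard l hl
      exact Finset.card_pos.1 (by omega)
    have hW : Nonempty W := by
      by_contra hcon
      refine hu 0 (MCov.empty fun l hl => ?_)
      obtain ⟨w, _⟩ := hne l hl
      exact hcon ⟨w⟩
    have hchoose : ∀ l : Λ, ∃ w : W, (∃ w', w' ∈ G l) → w ∈ G l := by
      intro l
      by_cases hl : ∃ w', w' ∈ G l
      · obtain ⟨w', hw'⟩ := hl
        exact ⟨w', fun _ => hw'⟩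
      · exact ⟨Classical.choice hW, fun h => absurd h hl⟩
    have hR : MF M (fun p : Λ × W => (∃ w', w' ∈ G p.1) → p.2 ∈ G p.1) := by
      have h1 : MF M (fun p : Λ × W => G p.1) := mf_comp M hG (mf_fst M)
      have h2 : MF M (fun q : (Λ × W) × W => G q.1.1) :=
        mf_comp M (g := G) (f := fun q : (Λ × W) × W => q.1.1) hG (by fun_prop)
      exact mf_imp (mf_ex (R := fun (p : Λ × W) (w' : W) => w' ∈ G p.1)
        (mf_mem_finset (mf_snd M) h2)) (mf_mem_finset (mf_snd M) h1)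
    obtain ⟨h, hh, hhG⟩ := exists_choose hR hchoose
    have hhm : ∀ l, A 0 l → h l ∈ G l := fun l hl => hhG l (hne l hl)
    obtain ⟨z, hz⟩ := exists_acc hx hy hxy hB hBo hBx hA hd hu hh
      (fun w => (hf w).mono fun l hl => ⟨hl.1, hl.2 ▸ hhm l hl.1⟩)
    have hBz : MF M (fun p : ℕ × Λ => B z p.1) :=
      mf_comp M (g := fun p : X × ℕ => B p.1 p.2) (f := fun p : ℕ × Λ => (z, p.1)) hB
        (by fun_prop)
    have hxh : MF M (fun p : ℕ × Λ => x (h p.2)) :=
      mf_comp M (g := fun l => x (h l)) (f := fun p : ℕ × Λ => p.2) (mf_comp M hx hh) (mf_snd M)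
    have hyh : MF M (fun p : ℕ × Λ => y (h p.2)) :=
      mf_comp M (g := fun l => y (h l)) (f := fun p : ℕ × Λ => p.2) (mf_comp M hy hh) (mf_snd M)
    have hG' : MF M (fun l => (G l).erase (h l)) := by
      refine mf_Finset_iff.2 (mf_congr (f := fun p : Λ × W => p.2 ≠ h p.1 ∧ p.2 ∈ G p.1) ?_
        fun p => ?_)
      · exact mf_and (mf_ne (mf_snd M) (mf_comp M hh (mf_fst M)))
          (mf_mem_finset (mf_snd M) (mf_comp M hG (mf_fst M)))
      · exact propext Finset.mem_erase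
    obtain ⟨s, hs, hsA, hsE⟩ := ih
      (fun n l => A n l ∧ x (h l) ∈ B z n ∧ y (h l) ∈ B z n)
      (mf_and hA (mf_and (mf_mem hxh hBz) (mf_mem hyh hBz)))
      (fun a b l hab hl => ⟨hd a b l hab hl.1, hBd z a b hab _ hl.2.1, hBd z a b hab _ hl.2.2⟩)
      (fun n => hz n n)
      (fun l => (G l).erase (h l)) hG'
      (fun l hl => by
        rw [Finset.card_erase_of_mem (hhm l hl.1), hcard l hl.1]
        rfl)
      (fun w => (hf w).mono fun l hl => ⟨hl.1.1, Finset.mem_of_mem_erase hl.2⟩)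
    refine ⟨s, hs, fun n => (hsA n).1, fun j => ?_⟩
    obtain ⟨N, hN⟩ := hsE j
    obtain ⟨V, _, hVo, hV⟩ := hEV j
    obtain ⟨N₁, hN₁⟩ := hBb z (V z).set (hVo z).1 (hVo z).2
    refine ⟨max N N₁, fun n hn w hw hE => ?_⟩
    by_cases hwh : w = h (s n)
    · have h1 : ∀ t, t ∈ B z n → t ∈ (V z).set := fun t ht =>
        hN₁ t (hBd z N₁ n ((le_max_right _ _).trans hn) t ht)
      rw [hwh] at hE
      exact hV _ hE z ⟨h1 _ (hsA n).2.1, h1 _ (hsA n).2.2⟩
    · exact hN n ((le_max_left _ _).trans hn) w (Finset.mem_erase.2 ⟨hwh, hw⟩) hE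

end

end HM
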