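import Pool.Agent.HM_h27.Om
import Pool.Agent.HM_h27.TopA

/-!
# HM: first countability and the hereditary Lindelof property
-/

namespace HM

open HESR Topology

universe u v w v1 v2 v3 v4

set_option linter.unusedVariables false
set_option linter.unusedSectionVars false

section
variable {M : Type u} [ZFM M]
variable {X : Type v} [IT M X] [TopologicalSpace X] [MTop M X]
variable {ι : Type v2} [IT M ι]

/-- The base at one point. -/
theorem TopB_base_point [T2Space X] [MCpt M X] [MPerf M X] (x : X) :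
    ∃ B : MFun M ℕ (PM M X), (∀ n, Op (B n)) ∧ (∀ n, x ∈ B n) ∧
      (∀ m n, m ≤ n → ∀ y, y ∈ B n → y ∈ B m) ∧
      ∀ U : PM M X, Op U → x ∈ U → ∃ n, ∀ y, y ∈ B n → y ∈ U := by
  obtain ⟨O, hO, hOo, hOx⟩ := MPerf.gd (M := M) (X := X) (PM.single (M := M) x) (cld_single x)
  obtain ⟨f, hf, hR⟩ := exists_choose (M := M) (α := ℕ) (β := PM M X × PM M X)
    (R := fun n p => Op p.1 ∧ Cld p.2 ∧ x ∈ p.1 ∧ (∀ y, y ∈ p.1 → y ∈ p.2) ∧
      ∀ y, y ∈ p.2 → y ∈ O n) (by fun_prop) (by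
      intro n
      obtain ⟨U, C, h1, h2, h3, h4, h5⟩ := exists_between (M := M) (X := X)
        (A := PM.single (M := M) x) (O := O n) (cld_single x) (hOo n) (by
          intro y hy
          exact (hOx y).1 hy n)
      exact ⟨(U, C), h1, h2, h3 x rfl, h4, h5⟩)
  have hB0 : ∀ n : ℕ, MF M (fun y : X => ∀ m, m ≤ n → y ∈ (f m).1) := fun n => by fun_prop
  have hB1 : MF M (fun n : ℕ => PM.of (fun y : X => ∀ m, m ≤ n → y ∈ (f m).1) (hB0 n)) :=
    mf_PMof hB0 (by fun_prop)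
  have hC0 : ∀ n : ℕ, MF M (fun y : X => ∀ m, m ≤ n → y ∈ (f m).2) := fun n => by fun_prop
  have hC1 : MF M (fun n : ℕ => PM.of (fun y : X => ∀ m, m ≤ n → y ∈ (f m).2) (hC0 n)) :=
    mf_PMof hC0 (by fun_prop)
  refine ⟨⟨fun n => PM.of (fun y : X => ∀ m, m ≤ n → y ∈ (f m).1) (hB0 n), hB1⟩, ?_, ?_, ?_, ?_⟩
  · intro n
    have h1 : (PM.of (fun y : X => ∀ m, m ≤ n → y ∈ (f m).1) (hB0 n)).set =
        ⋂ m ∈ Set.Iic n, (f m).1.set := by
      ext y
      simp only [Set.mem_iInter, Set.mem_Iic]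
      exact Iff.rfl
    show IsOpen (PM.of (fun y : X => ∀ m, m ≤ n → y ∈ (f m).1) (hB0 n)).set
    rw [h1]
    exact (Set.finite_Iic n).isOpen_biInter fun m _ => (hR m).1
  · intro n m _
    exact (hR m).2.2.1
  · intro m n hmn y hy k hk
    exact hy k (hk.trans hmn)
  · intro U hU hxU
    obtain ⟨n, hn⟩ := exists_subset_of_decr (M := M) (X := X) hC1 (by
      intro n
      have h1 : (PM.of (fun y : X => ∀ m, m ≤ n → y ∈ (f m).2) (hC0 n)).set =
          ⋂ m ∈ Set.Iic n, (f m).2.set := by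
        ext y
        simp only [Set.mem_iInter, Set.mem_Iic]
        exact Iff.rfl
      show IsClosed (PM.of (fun y : X => ∀ m, m ≤ n → y ∈ (f m).2) (hC0 n)).set
      rw [h1]
      exact isClosed_biInter fun m _ => (hR m).2.1) (by
      intro m n hmn y hy k hk
      exact hy k (hk.trans hmn)) hU (by
      intro y hy
      have h1 : y ∈ PM.single (M := M) x := (hOx y).2 fun n => (hR n).2.2.2.2 y (hy n n le_rfl)
      rw [PM.mem_single] at h1
      rw [h1]
      exact hxU)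
    exact ⟨n, fun y hy => hn y fun m hm => (hR m).2.2.2.1 y (hy m hm)⟩

/-- First countability: a decreasing open base at every point, as a function of the model.

PROOF. For fixed `x` choose `O` with `MPerf.gd` for `PM.single x`. By `exists_choose` (`β := PM M X × PM M X`,
index `n : ℕ`) and `exists_between` choose open `U n` and closed `C n` with `x ∈ U n ⊆ C n ⊆ O n` and put
`B n := {y | ∀ m ≤ n, y ∈ U m}`; it is open (finite intersection), decreasing, and contained in the closed set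
`{y | ∀ m ≤ n, y ∈ C m}`, whose intersection over `n` is `{x}`; use `exists_subset_of_decr` (and `MTop.base`).
So for every `x` there is `B : MFun M ℕ (PM M X)` with
`(∀ n, Op (B n)) ∧ (∀ n, x ∈ B n) ∧ (∀ m n, m ≤ n → ∀ y, y ∈ B n → y ∈ B m) ∧
∀ U : PM M X, Op U → x ∈ U → ∃ n, ∀ y, y ∈ B n → y ∈ U`, a relation of the model; use `exists_choose`. -/
theorem exists_base [T2Space X] [MCpt M X] [MPerf M X] : ∃ B : X → ℕ → PM M X,
    MF M (fun p : X × ℕ => B p.1 p.2) ∧ (∀ x n, Op (B x n)) ∧ (∀ x n, x ∈ B x n) ∧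
    (∀ x m n, m ≤ n → ∀ y, y ∈ B x n → y ∈ B x m) ∧
    ∀ (x : X) (U : Set X), IsOpen U → x ∈ U → ∃ n, ∀ y, y ∈ B x n → y ∈ U := by
  obtain ⟨F, hF, hR⟩ := exists_choose (M := M) (α := X) (β := MFun M ℕ (PM M X))
    (R := fun x B => (∀ n, Op (B n)) ∧ (∀ n, x ∈ B n) ∧
      (∀ m n, m ≤ n → ∀ y, y ∈ B n → y ∈ B m) ∧
      ∀ U : PM M X, Op U → x ∈ U → ∃ n, ∀ y, y ∈ B n → y ∈ U) (by fun_prop)
    (fun x => TopB_base_point x)
  refine ⟨fun x n => F x n, by fun_prop, fun x => (hR x).1, fun x => (hR x).2.1,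
    fun x => (hR x).2.2.1, ?_⟩
  intro x U hU hx
  obtain ⟨V, h1, h2, h3⟩ := MTop.base (M := M) x U hU hx
  obtain ⟨n, hn⟩ := (hR x).2.2.2 V h1 h2
  exact ⟨n, fun y hy => h3 y (hn y hy)⟩

/-- Perfectly normal compacta are hereditarily Lindelof in the model.

PROOF. Let `O := {x | ∃ i, Q i ∧ x ∈ U i}` (open, `op_iUnion`). By `MPerf.gd` its complement is `⋂ n, O' n`. The
closed sets `(O' n).compl` are contained in `O`; by `exists_finite_cover` there is for every `n` a finite set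
`F : Finset ι` with `(∀ i ∈ F, Q i) ∧ ∀ x, ¬ x ∈ O' n → ∃ i ∈ F, x ∈ U i`; choose them by `exists_choose` and
put `J i := ∃ n, i ∈ F n`, countable by `MCt.iUnion`, `mct_finite`. -/
theorem exists_lindelof [MCpt M X] [MPerf M X] {Q : ι → Prop} (hQ : MF M Q) {U : ι → PM M X}
    (hU : MF M U) (hUo : ∀ i, Q i → Op (U i)) :
    ∃ J : ι → Prop, MF M J ∧ MCt M J ∧ (∀ i, J i → Q i) ∧
      ∀ x i, Q i → x ∈ U i → ∃ j, J j ∧ x ∈ U j := by
  have hOmf : MF M (fun x : X => ∃ i, Q i ∧ x ∈ U i) := by fun_prop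
  have hO : Op (PM.of (fun x : X => ∃ i, Q i ∧ x ∈ U i) hOmf) := op_iUnion hUo hOmf
  obtain ⟨O', hO', hO'o, hO'x⟩ := MPerf.gd (M := M) (X := X)
    (PM.of (fun x : X => ∃ i, Q i ∧ x ∈ U i) hOmf).compl (op_compl_iff.2 hO)
  obtain ⟨F, hF, hR⟩ := exists_choose (M := M) (α := ℕ) (β := Finset ι)
    (R := fun n F => (∀ i, i ∈ F → Q i) ∧ ∀ x : X, ¬ x ∈ O' n → ∃ i, i ∈ F ∧ x ∈ U i)
    (by fun_prop) (by
      intro n
      obtain ⟨F, h1, h2⟩ := exists_finite_cover (M := M) (X := X) hQ hU hUo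
        (K := (O' n).compl) (op_compl_iff.2 (hO'o n)) (by
          intro x hx
          by_contra hc
          exact hx ((hO'x x).1 hc n))
      exact ⟨F, fun i hi => h1 i hi, fun x hx => h2 x hx⟩)
  refine ⟨fun i => ∃ n, i ∈ F n, by fun_prop, ?_, ?_, ?_⟩
  · have h := MCt.iUnion (M := M) (Q := fun _ : ℕ => True) (P := fun (n : ℕ) (i : ι) => i ∈ F n)
      (mf_const M True) (by fun_prop) mct_nat (fun n _ => mct_finite (F n).finite_toSet)
    refine MCov.mono h ?_
    rintro i ⟨n, hn⟩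
    exact ⟨n, trivial, hn⟩
  · rintro i ⟨n, hn⟩
    exact (hR n).1 i hn
  · intro x i hi hxi
    have h1 : ∃ n, ¬ x ∈ O' n := by
      by_contra hc
      push Not at hc
      exact (hO'x x).2 hc ⟨i, hi, hxi⟩
    obtain ⟨n, hn⟩ := h1
    obtain ⟨j, hj, hxj⟩ := (hR n).2 x hn
    exact ⟨j, ⟨n, hj⟩, hxj⟩

/-- A subset all of whose initial segments are countable. -/
theorem TopB_red {V : Type v3} [IT M V] [LinearOrder V] [WO M V]
    {T : V → Prop} (hT : MF M T) (hc : ¬ MCt M T) :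
    ∃ T' : V → Prop, MF M T' ∧ ¬ MCt M T' ∧ (∀ a, T' a → T a) ∧
      ∀ a, T' a → MCt M (fun b => T' b ∧ b < a) := by
  by_cases h : ∃ a, T a ∧ ¬ MCt M (fun b => T b ∧ b < a)
  · obtain ⟨a, ⟨ha, ha'⟩, hmin⟩ := exists_min (WO.wf (M := M) (W := V)).wf
      (P := fun a => T a ∧ ¬ MCt M (fun b => T b ∧ b < a)) h
    refine ⟨fun b => T b ∧ b < a, by fun_prop, ha', fun b hb => hb.1, ?_⟩
    rintro b ⟨hb, hba⟩
    have h1 : MCt M (fun c => T c ∧ c < b) := by
      by_contra hn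
      exact hmin b hba ⟨hb, hn⟩
    exact MCov.mono h1 fun c hc => ⟨hc.1.1, hc.2⟩
  · push Not at h
    exact ⟨T, hT, hc, fun a ha => ha, h⟩

/-- Right separated families of length `ω₁` do not exist.

PROOF. See `exists_omega1_subset` and `exists_mem_of_uncountable` in
`Pool/Agent/W_3b51b4_h27/Count.lean`. If for some `a` with `T a` the set `{b | T b ∧ b < a}` is not countable
(`MCt`), take the least such `a` (external minimum, `WO.wf`) and replace `T` by `{b | T b ∧ b < a}`. So suppose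
all these sets are countable. If the conclusion fails, the countable `J` from `exists_lindelof` for the family
`U b`, `T b`, satisfies: every `a` with `T a` has `a ≤ b` for some `b` with `J b`; so `T` is countable
(`MCt.iUnion`). -/
theorem exists_mem_of_unct [MCpt M X] [MPerf M X] {V : Type v3} [IT M V] [LinearOrder V] [WO M V]
    {T : V → Prop} (hT : MF M T) (hc : ¬ MCt M T) {x : V → X} (hx : MF M x) {U : V → PM M X}
    (hU : MF M U) (hUo : ∀ a, T a → Op (U a)) (hxU : ∀ a, T a → x a ∈ U a) :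
    ∃ a b, T a ∧ T b ∧ b < a ∧ x a ∈ U b := by
  obtain ⟨T', hT', hc', hTT', hseg⟩ := TopB_red hT hc
  by_contra hcon
  push Not at hcon
  obtain ⟨J, hJ, hJc, hJT, hJU⟩ := exists_lindelof (M := M) (X := X) hT' hU
    (fun a ha => hUo a (hTT' a ha))
  have h1 := MCt.iUnion (M := M) hJ (P := fun (j a : V) => T' a ∧ a ≤ j) (by fun_prop) hJc
    (fun j hj => by
      have h2 : MCt M (fun a : V => (T' a ∧ a < j) ∨ a = j) := by
        refine Om_mct_or (by fun_prop) (by fun_prop) (hseg j (hJT j hj)) (mct_finite ?_)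
        exact Set.finite_singleton j
      refine MCov.mono h2 fun a ha => ?_
      rcases lt_or_eq_of_le ha.2 with h3 | h3
      · exact Or.inl ⟨ha.1, h3⟩
      · exact Or.inr h3)
  refine hc' (MCov.mono h1 fun a ha => ?_)
  obtain ⟨j, hj, hxj⟩ := hJU (x a) a ha (hxU a (hTT' a ha))
  refine ⟨j, hj, ha, ?_⟩
  by_contra hlt
  exact hcon a j (hTT' a ha) (hTT' j (hJT j hj)) (not_le.1 hlt) hxj

end

end HM
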